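import Pool.Agent.Run7.h216.HD_Dec

/-! High dimension: asymptotics of the densities. -/

set_option autoImplicit false
set_option linter.unusedSectionVars false

open scoped BigOperators Matrix
open MeasureTheory Set

namespace Run7.h216.HDASY

open Pool.Agent.Run7.h47 hiding mm mf ze V1 V2 ff
open Pool.Agent.W918.BK.Osc (U U_cont U_norm)
open Run7.h442.HD Run7.h216.HDDec

theorem pow_sub' {x y : ℂ} {ρ : ℝ} (hx : ‖x‖ ≤ ρ) (hy : ‖y‖ ≤ ρ) (n : ℕ) :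
    ‖x ^ (n + 1) - y ^ (n + 1)‖ ≤ (n + 1) * ρ ^ n * ‖x - y‖ := by
  have hρ : 0 ≤ ρ := (norm_nonneg _).trans hx
  induction n with
  | zero => simp
  | succ n ih =>
    have e1 : x ^ (n + 1 + 1) - y ^ (n + 1 + 1) =
        (x ^ (n + 1) - y ^ (n + 1)) * x + y ^ (n + 1) * (x - y) := by ring
    rw [e1]
    refine (norm_add_le _ _).trans ?_
    rw [norm_mul, norm_mul, norm_pow]
    have h1 : ‖y‖ ^ (n + 1) ≤ ρ ^ (n + 1) := pow_le_pow_left₀ (norm_nonneg _) hy _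
    have h2 := norm_nonneg (x - y)
    calc ‖x ^ (n + 1) - y ^ (n + 1)‖ * ‖x‖ + ‖y‖ ^ (n + 1) * ‖x - y‖ ≤
        ((n + 1) * ρ ^ n * ‖x - y‖) * ρ + ρ ^ (n + 1) * ‖x - y‖ := by
          gcongr
      _ = _ := by push_cast; ring

/-- the approximation of the powers, near zero -/
theorem near {s : ℝ} (h : ‖WJ s - (Real.exp (-s ^ 2) : ℂ)‖ ≤ s ^ 4)
    (h' : ‖WJ s‖ ≤ Real.exp (-(s ^ 2) / 2)) (n : ℕ) :
    ‖WJ s ^ (n + 1) - (Real.exp (-((n + 1 : ℕ) : ℝ) * s ^ 2) : ℂ)‖ ≤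
      (n + 1) * s ^ 4 * Real.exp (-(n / 2 : ℝ) * s ^ 2) := by
  have hy : ‖(Real.exp (-s ^ 2) : ℂ)‖ ≤ Real.exp (-(s ^ 2) / 2) := by
    rw [Complex.norm_real, Real.norm_of_nonneg (Real.exp_pos _).le]
    apply Real.exp_le_exp.2
    nlinarith [sq_nonneg s]
  have e1 := pow_sub' h' hy n
  have e2 : (Real.exp (-s ^ 2) : ℂ) ^ (n + 1) = (Real.exp (-((n + 1 : ℕ) : ℝ) * s ^ 2) : ℂ) := by
    rw [← Complex.ofReal_pow, ← Real.exp_nat_mul]
    congr 2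
    ring
  have e3 : Real.exp (-(s ^ 2) / 2) ^ n = Real.exp (-(n / 2 : ℝ) * s ^ 2) := by
    rw [← Real.exp_nat_mul]
    congr 1
    ring
  rw [e2, e3] at e1
  refine e1.trans ?_
  have : 0 ≤ Real.exp (-(n / 2 : ℝ) * s ^ 2) := (Real.exp_pos _).le
  calc ((n : ℝ) + 1) * Real.exp (-(n / 2 : ℝ) * s ^ 2) * ‖WJ s - (Real.exp (-s ^ 2) : ℂ)‖ ≤
      (n + 1) * Real.exp (-(n / 2 : ℝ) * s ^ 2) * s ^ 4 := by gcongr
    _ = _ := by ring

theorem WS_two (s : ℝ) : ‖WS s - 2‖ ≤ 8 * |s| := by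
  have hpi := Real.pi_pos
  have hc : ∀ s : ℝ, Continuous fun t : ℝ => (((2 * Real.sin t) ^ 2 : ℝ) : ℂ) * U s t := by
    intro s
    have := U_cont s
    fun_prop
  have h0 : WS 0 = 2 := by
    unfold WS
    have e1 : ∀ t : ℝ, (((2 * Real.sin t) ^ 2 : ℝ) : ℂ) * U 0 t =
        ((4 * Real.sin t ^ 2 : ℝ) : ℂ) := by
      intro t
      unfold U
      simp
      ring
    simp only [e1]
    rw [intervalIntegral.integral_ofReal, intervalIntegral.integral_const_mul, integral_sin_sq]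
    simp only [Real.sin_zero, Real.cos_zero, Real.sin_two_pi, Real.cos_two_pi]
    push_cast
    have : (Real.pi : ℂ) ≠ 0 := by exact_mod_cast hpi.ne'
    field_simp
    ring
  have h1 : WS s - 2 = ((2 * Real.pi : ℝ) : ℂ)⁻¹ * ∫ t in (0 : ℝ)..(2 * Real.pi),
      ((((2 * Real.sin t) ^ 2 : ℝ) : ℂ) * U s t - (((2 * Real.sin t) ^ 2 : ℝ) : ℂ) * U 0 t) := by
    rw [← h0]
    unfold WS
    rw [← mul_sub, intervalIntegral.integral_sub ((hc s).intervalIntegrable _ _)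
      ((hc 0).intervalIntegrable _ _)]
  rw [h1, norm_mul, norm_inv, Complex.norm_real, Real.norm_of_nonneg (by positivity)]
  have h2 : ‖∫ t in (0 : ℝ)..(2 * Real.pi),
      ((((2 * Real.sin t) ^ 2 : ℝ) : ℂ) * U s t - (((2 * Real.sin t) ^ 2 : ℝ) : ℂ) * U 0 t)‖ ≤
      (8 * |s|) * |2 * Real.pi - 0| := by
    refine intervalIntegral.norm_integral_le_of_norm_le_const fun t _ => ?_
    have e2 : U 0 t = 1 := by unfold U; simp
    rw [e2, ← mul_sub, norm_mul, Complex.norm_real, Real.norm_of_nonneg (sq_nonneg _)]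
    have e3 : ‖U s t - 1‖ ≤ 2 * |s| := by
      unfold U
      refine (Real.norm_exp_I_mul_ofReal_sub_one_le).trans ?_
      rw [Real.norm_eq_abs, abs_mul, abs_mul, abs_two]
      have := Real.abs_cos_le_one t
      nlinarith [abs_nonneg s]
    have e4 : (2 * Real.sin t) ^ 2 ≤ 4 := by
      nlinarith [Real.sin_sq_add_cos_sq t, sq_nonneg (Real.cos t)]
    calc (2 * Real.sin t) ^ 2 * ‖U s t - 1‖ ≤ 4 * (2 * |s|) :=
          mul_le_mul e4 e3 (norm_nonneg _) (by norm_num)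
      _ = 8 * |s| := by ring
  rw [sub_zero, abs_of_pos (by positivity : (0 : ℝ) < 2 * Real.pi)] at h2
  calc (2 * Real.pi)⁻¹ * _ ≤ (2 * Real.pi)⁻¹ * ((8 * |s|) * (2 * Real.pi)) := by gcongr
    _ = 8 * |s| := by field_simp

/-- the common error -/
def Err (q : ℝ) (d : ℕ) (g h : ℝ → ℂ) : Prop := ∀ s : ℝ, 0 ≤ s →
  ‖g s - h s‖ ≤ 304 / Real.sqrt d * Real.exp (-(d / 8 : ℝ) * s ^ 2) +
    108 * q ^ (d - 4) * (s + 1) ^ (-(3 / 2) : ℝ)

/-- powers times Gaussians -/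
theorem pw {d : ℕ} (hd : 4 ≤ d) (s : ℝ) :
    s * Real.exp (-(d / 4 : ℝ) * s ^ 2) ≤ 4 / Real.sqrt d * Real.exp (-(d / 8 : ℝ) * s ^ 2) ∧
    s ^ 2 * Real.exp (-(d / 4 : ℝ) * s ^ 2) ≤ 8 / d * Real.exp (-(d / 8 : ℝ) * s ^ 2) ∧
    s ^ 4 * Real.exp (-(d / 4 : ℝ) * s ^ 2) ≤ 128 / d ^ 2 * Real.exp (-(d / 8 : ℝ) * s ^ 2) := by
  have hdR : (4 : ℝ) ≤ d := by exact_mod_cast hd
  have hr1 : 1 ≤ Real.sqrt d := by rw [Real.one_le_sqrt]; linarith
  have hr0 : 0 < Real.sqrt d := by linarith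
  have hr2 : Real.sqrt d ^ 2 = d := Real.sq_sqrt (by linarith)
  set X : ℝ := Real.exp ((d / 8 : ℝ) * s ^ 2) with hX
  have hX0 : 0 < X := Real.exp_pos _
  have e6 : Real.exp (-(d / 8 : ℝ) * s ^ 2) = X * Real.exp (-(d / 4 : ℝ) * s ^ 2) := by
    rw [hX, ← Real.exp_add]; congr 1; ring
  have hx0 : 0 ≤ (d / 8 : ℝ) * s ^ 2 := by positivity
  have hX1 : (d / 8 : ℝ) * s ^ 2 + 1 ≤ X := Real.add_one_le_exp _
  have hX2 : 1 + (d / 8 : ℝ) * s ^ 2 + ((d / 8 : ℝ) * s ^ 2) ^ 2 / 2 ≤ X :=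
    Real.quadratic_le_exp_of_nonneg hx0
  have hE := Real.exp_pos (-(d / 4 : ℝ) * s ^ 2)
  rw [e6]
  refine ⟨?_, ?_, ?_⟩
  · rw [← mul_assoc]
    refine mul_le_mul_of_nonneg_right ?_ hE.le
    rw [div_mul_eq_mul_div, le_div_iff₀ hr0]
    have := y_le (y := Real.sqrt d * s)
    rw [mul_pow, hr2, show (d : ℝ) * s ^ 2 / 8 = (d / 8 : ℝ) * s ^ 2 by ring] at this
    nlinarith [sq_nonneg (Real.sqrt d * s - 1)]
  · rw [← mul_assoc]
    refine mul_le_mul_of_nonneg_right ?_ hE.le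
    rw [div_mul_eq_mul_div, le_div_iff₀ (by linarith)]
    nlinarith
  · rw [← mul_assoc]
    refine mul_le_mul_of_nonneg_right ?_ hE.le
    rw [div_mul_eq_mul_div, le_div_iff₀ (by positivity)]
    nlinarith


theorem HJ_err {q : ℝ} (hq0 : 0 < q) (hq1 : q < 1)
    (h0 : ∀ s : ℝ, |s| ≤ 1 → ‖WJ s - (Real.exp (-s ^ 2) : ℂ)‖ ≤ s ^ 4)
    (h1 : ∀ s : ℝ, |s| ≤ 1 → ‖WJ s‖ ≤ Real.exp (-(s ^ 2) / 2))
    (h2 : ∀ s : ℝ, 1 ≤ |s| → ‖WJ s‖ ≤ q) {d : ℕ} (hd : 4 ≤ d) :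
    Err q d (HJ d) (fun s => (Real.exp (-(d : ℝ) * s ^ 2) : ℂ)) := by
  intro s hs
  have hdR : (4 : ℝ) ≤ d := by exact_mod_cast hd
  have hr1 : 1 ≤ Real.sqrt d := by rw [Real.one_le_sqrt]; linarith
  have hr0 : 0 < Real.sqrt d := by linarith
  have hr2 : Real.sqrt d ^ 2 = d := Real.sq_sqrt (by linarith)
  obtain ⟨p1, p2, p4⟩ := pw hd s
  have hE8 := Real.exp_pos (-(d / 8 : ℝ) * s ^ 2)
  have hE4 := Real.exp_pos (-(d / 4 : ℝ) * s ^ 2)
  have htail : 0 ≤ 108 * q ^ (d - 4) * (s + 1) ^ (-(3 / 2) : ℝ) := by positivity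
  have hd1 : 128 / (d : ℝ) ≤ 304 / Real.sqrt d := by
    rw [div_le_div_iff₀ (by linarith) hr0]
    nlinarith
  have key : (d : ℝ) * s ^ 4 * Real.exp (-(d / 4 : ℝ) * s ^ 2) ≤
      304 / Real.sqrt d * Real.exp (-(d / 8 : ℝ) * s ^ 2) := by
    calc (d : ℝ) * s ^ 4 * Real.exp (-(d / 4 : ℝ) * s ^ 2) =
        d * (s ^ 4 * Real.exp (-(d / 4 : ℝ) * s ^ 2)) := by ring
      _ ≤ d * (128 / d ^ 2 * Real.exp (-(d / 8 : ℝ) * s ^ 2)) := by gcongr
      _ = 128 / d * Real.exp (-(d / 8 : ℝ) * s ^ 2) := by field_simp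
      _ ≤ _ := by gcongr
  rcases le_total s 1 with h | h
  · have hs1 : |s| ≤ 1 := by rwa [abs_of_nonneg hs]
    have e1 := near (h0 s hs1) (h1 s hs1) (d - 1)
    rw [show d - 1 + 1 = d by omega, Nat.cast_sub (by omega : 1 ≤ d), Nat.cast_one,
      sub_add_cancel] at e1
    have e2 : Real.exp (-(((d : ℝ) - 1) / 2) * s ^ 2) ≤ Real.exp (-(d / 4 : ℝ) * s ^ 2) := by
      apply Real.exp_le_exp.2
      nlinarith [mul_nonneg (by linarith : (0 : ℝ) ≤ d - 2) (sq_nonneg s)]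
    have e3 : (d : ℝ) * s ^ 4 * Real.exp (-(((d : ℝ) - 1) / 2) * s ^ 2) ≤
        d * s ^ 4 * Real.exp (-(d / 4 : ℝ) * s ^ 2) := by gcongr
    unfold HJ
    refine (e1.trans (e3.trans key)).trans ?_
    linarith
  · have hs1 : 1 ≤ |s| := by rwa [abs_of_nonneg hs]
    have e1 := WJ_pow hq0 h1 h2 (n := d) (by omega) hs
    have e2 : q ^ (d - 3) ≤ q ^ (d - 4) := pow_le_pow_of_le_one hq0.le hq1.le (by omega)
    have e3 : 27 * q ^ (d - 3) * (s + 1) ^ (-(3 / 2) : ℝ) ≤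
        108 * q ^ (d - 4) * (s + 1) ^ (-(3 / 2) : ℝ) := by
      refine mul_le_mul_of_nonneg_right ?_ (by positivity)
      have : 0 ≤ q ^ (d - 4) := by positivity
      linarith
    have e4 : Real.exp (-(d / 2 : ℝ) * s ^ 2) ≤ Real.exp (-(d / 4 : ℝ) * s ^ 2) := by
      apply Real.exp_le_exp.2
      nlinarith [mul_nonneg (by linarith : (0 : ℝ) ≤ d) (sq_nonneg s)]
    have e5 : Real.exp (-(d : ℝ) * s ^ 2) ≤ Real.exp (-(d / 4 : ℝ) * s ^ 2) := by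
      apply Real.exp_le_exp.2
      nlinarith [mul_nonneg (by linarith : (0 : ℝ) ≤ d) (sq_nonneg s)]
    have e6 : (1 : ℝ) ≤ s ^ 4 := one_le_pow₀ h
    have e7 : 2 * Real.exp (-(d / 4 : ℝ) * s ^ 2) ≤
        d * s ^ 4 * Real.exp (-(d / 4 : ℝ) * s ^ 2) := by
      refine mul_le_mul_of_nonneg_right ?_ hE4.le
      nlinarith
    unfold HJ
    refine (norm_sub_le _ _).trans ?_
    rw [norm_pow, Complex.norm_real, Real.norm_of_nonneg (Real.exp_pos _).le]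
    linarith

theorem HS_err {q : ℝ} (hq0 : 0 < q)
    (h0 : ∀ s : ℝ, |s| ≤ 1 → ‖WJ s - (Real.exp (-s ^ 2) : ℂ)‖ ≤ s ^ 4)
    (h1 : ∀ s : ℝ, |s| ≤ 1 → ‖WJ s‖ ≤ Real.exp (-(s ^ 2) / 2))
    (h2 : ∀ s : ℝ, 1 ≤ |s| → ‖WJ s‖ ≤ q) {d : ℕ} (hd : 4 ≤ d) :
    Err q d (HS d) (fun s => 2 * (Real.exp (-(d : ℝ) * s ^ 2) : ℂ)) := by
  intro s hs
  have hdR : (4 : ℝ) ≤ d := by exact_mod_cast hd
  have hr1 : 1 ≤ Real.sqrt d := by rw [Real.one_le_sqrt]; linarith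
  have hr0 : 0 < Real.sqrt d := by linarith
  have hr2 : Real.sqrt d ^ 2 = d := Real.sq_sqrt (by linarith)
  obtain ⟨p1, p2, p4⟩ := pw hd s
  have hE8 := Real.exp_pos (-(d / 8 : ℝ) * s ^ 2)
  have hE4 := Real.exp_pos (-(d / 4 : ℝ) * s ^ 2)
  have htail : 0 ≤ 108 * q ^ (d - 4) * (s + 1) ^ (-(3 / 2) : ℝ) := by positivity
  have hdr : 1 / (d : ℝ) ≤ 1 / Real.sqrt d := by
    rw [div_le_div_iff₀ (by linarith) hr0]
    nlinarith
  have key : (8 * s + 2 * d * s ^ 4 + 2 * s ^ 2) * Real.exp (-(d / 4 : ℝ) * s ^ 2) ≤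
      304 / Real.sqrt d * Real.exp (-(d / 8 : ℝ) * s ^ 2) := by
    calc (8 * s + 2 * d * s ^ 4 + 2 * s ^ 2) * Real.exp (-(d / 4 : ℝ) * s ^ 2) =
        8 * (s * Real.exp (-(d / 4 : ℝ) * s ^ 2)) +
          2 * d * (s ^ 4 * Real.exp (-(d / 4 : ℝ) * s ^ 2)) +
          2 * (s ^ 2 * Real.exp (-(d / 4 : ℝ) * s ^ 2)) := by ring
      _ ≤ 8 * (4 / Real.sqrt d * Real.exp (-(d / 8 : ℝ) * s ^ 2)) +
          2 * d * (128 / d ^ 2 * Real.exp (-(d / 8 : ℝ) * s ^ 2)) +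
          2 * (8 / d * Real.exp (-(d / 8 : ℝ) * s ^ 2)) := by gcongr
      _ = (32 / Real.sqrt d + 272 * (1 / d)) * Real.exp (-(d / 8 : ℝ) * s ^ 2) := by
          field_simp
          ring
      _ ≤ (32 / Real.sqrt d + 272 * (1 / Real.sqrt d)) *
          Real.exp (-(d / 8 : ℝ) * s ^ 2) := by gcongr
      _ = _ := by ring
  rcases le_total s 1 with h | h
  · have hs1 : |s| ≤ 1 := by rwa [abs_of_nonneg hs]
    have e1 := near (h0 s hs1) (h1 s hs1) (d - 2)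
    rw [show d - 2 + 1 = d - 1 by omega, Nat.cast_sub (by omega : 2 ≤ d),
      Nat.cast_sub (by omega : 1 ≤ d), Nat.cast_one, Nat.cast_ofNat] at e1
    have e2 : Real.exp (-(((d : ℝ) - 2) / 2) * s ^ 2) ≤ Real.exp (-(d / 4 : ℝ) * s ^ 2) := by
      apply Real.exp_le_exp.2
      nlinarith [mul_nonneg (by linarith : (0 : ℝ) ≤ d - 4) (sq_nonneg s)]
    have e3 : ((d : ℝ) - 2 + 1) * s ^ 4 * Real.exp (-(((d : ℝ) - 2) / 2) * s ^ 2) ≤
        d * s ^ 4 * Real.exp (-(d / 4 : ℝ) * s ^ 2) := by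
      gcongr
      linarith
    have e4 : ‖WJ s‖ ^ (d - 1) ≤ Real.exp (-(d / 4 : ℝ) * s ^ 2) := by
      have e5 : ‖WJ s‖ ^ (d - 1) ≤ Real.exp (-(s ^ 2) / 2) ^ (d - 1) :=
        pow_le_pow_left₀ (norm_nonneg _) (h1 s hs1) _
      rw [← Real.exp_nat_mul, Nat.cast_sub (by omega : 1 ≤ d), Nat.cast_one] at e5
      refine e5.trans ?_
      apply Real.exp_le_exp.2
      nlinarith [mul_nonneg (by linarith : (0 : ℝ) ≤ d - 2) (sq_nonneg s)]
    have e5 : ‖WS s - 2‖ ≤ 8 * s := by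
      have := WS_two s
      rwa [abs_of_nonneg hs] at this
    have e6 : Real.exp (-((d : ℝ) - 1) * s ^ 2) - Real.exp (-(d : ℝ) * s ^ 2) ≤
        s ^ 2 * Real.exp (-(d / 4 : ℝ) * s ^ 2) := by
      have f1 : Real.exp (-(d : ℝ) * s ^ 2) = Real.exp (-((d : ℝ) - 1) * s ^ 2) *
          Real.exp (-s ^ 2) := by
        rw [← Real.exp_add]; congr 1; ring
      have f2 : 1 - s ^ 2 ≤ Real.exp (-s ^ 2) := by
        have := Real.add_one_le_exp (-s ^ 2)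
        linarith
      have f3 : Real.exp (-((d : ℝ) - 1) * s ^ 2) ≤ Real.exp (-(d / 4 : ℝ) * s ^ 2) := by
        apply Real.exp_le_exp.2
        nlinarith [mul_nonneg (by linarith : (0 : ℝ) ≤ d - 2) (sq_nonneg s)]
      have f4 := Real.exp_pos (-((d : ℝ) - 1) * s ^ 2)
      rw [f1]
      calc Real.exp (-((d : ℝ) - 1) * s ^ 2) - Real.exp (-((d : ℝ) - 1) * s ^ 2) *
            Real.exp (-s ^ 2) = (1 - Real.exp (-s ^ 2)) * Real.exp (-((d : ℝ) - 1) * s ^ 2) := by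
            ring
        _ ≤ s ^ 2 * Real.exp (-((d : ℝ) - 1) * s ^ 2) :=
            mul_le_mul_of_nonneg_right (by linarith) f4.le
        _ ≤ _ := mul_le_mul_of_nonneg_left f3 (sq_nonneg s)
    have e7 : 0 ≤ Real.exp (-((d : ℝ) - 1) * s ^ 2) - Real.exp (-(d : ℝ) * s ^ 2) := by
      rw [sub_nonneg]
      apply Real.exp_le_exp.2
      nlinarith [sq_nonneg s]
    have e8 : HS d s - 2 * (Real.exp (-(d : ℝ) * s ^ 2) : ℂ) =
        WJ s ^ (d - 1) * (WS s - 2) +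
          2 * (WJ s ^ (d - 1) - (Real.exp (-((d : ℝ) - 1) * s ^ 2) : ℂ)) +
          2 * ((Real.exp (-((d : ℝ) - 1) * s ^ 2) - Real.exp (-(d : ℝ) * s ^ 2) : ℝ) : ℂ) := by
      unfold HS
      rw [Complex.ofReal_sub]
      ring
    have t2 : ‖(2 : ℂ)‖ = 2 := by simp
    show ‖HS d s - 2 * (Real.exp (-(d : ℝ) * s ^ 2) : ℂ)‖ ≤ _
    rw [e8]
    refine (norm_add_le _ _).trans ?_
    refine (add_le_add (norm_add_le _ _) le_rfl).trans ?_
    rw [norm_mul, norm_mul, norm_mul, norm_pow, t2, Complex.norm_real, Real.norm_of_nonneg e7]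
    have g1 : ‖WJ s‖ ^ (d - 1) * ‖WS s - 2‖ ≤ Real.exp (-(d / 4 : ℝ) * s ^ 2) * (8 * s) :=
      mul_le_mul e4 e5 (norm_nonneg _) hE4.le
    have g2 := e1.trans e3
    have g3 : (8 * s + 2 * d * s ^ 4 + 2 * s ^ 2) * Real.exp (-(d / 4 : ℝ) * s ^ 2) =
        Real.exp (-(d / 4 : ℝ) * s ^ 2) * (8 * s) +
        2 * (d * s ^ 4 * Real.exp (-(d / 4 : ℝ) * s ^ 2)) +
        2 * (s ^ 2 * Real.exp (-(d / 4 : ℝ) * s ^ 2)) := by ring
    rw [g3] at key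
    linarith
  · have hs1 : 1 ≤ |s| := by rwa [abs_of_nonneg hs]
    have e1 := HS_dec hq0 h1 h2 hd s hs
    have e5 : Real.exp (-(d : ℝ) * s ^ 2) ≤ Real.exp (-(d / 4 : ℝ) * s ^ 2) := by
      apply Real.exp_le_exp.2
      nlinarith [mul_nonneg (by linarith : (0 : ℝ) ≤ d) (sq_nonneg s)]
    have e7 : 6 * Real.exp (-(d / 4 : ℝ) * s ^ 2) ≤
        (8 * s + 2 * d * s ^ 4 + 2 * s ^ 2) * Real.exp (-(d / 4 : ℝ) * s ^ 2) := by
      refine mul_le_mul_of_nonneg_right ?_ hE4.le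
      have : 0 ≤ 2 * (d : ℝ) * s ^ 4 := by positivity
      nlinarith [sq_nonneg s]
    refine (norm_sub_le _ _).trans ?_
    rw [norm_mul, Complex.norm_real, Real.norm_of_nonneg (Real.exp_pos _).le]
    have : ‖(2 : ℂ)‖ = 2 := by simp
    rw [this]
    linarith


/-! ### The integrals -/

theorem bdE {q : ℝ} (hq0 : 0 < q) {d : ℕ} (hd : 4 ≤ d) {K g h : ℝ → ℂ}
    (hb : ∀ s, 0 ≤ s → ‖K s‖ ≤ 2) (i1 : IntegrableOn (fun s => K s * g s) (Ioi 0))
    (i2 : IntegrableOn (fun s => K s * h s) (Ioi 0)) (he : Err q d g h) :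
    ‖(∫ s in Ioi (0 : ℝ), K s * g s) - ∫ s in Ioi (0 : ℝ), K s * h s‖ ≤
      608 * (Real.sqrt (8 * Real.pi) / 2) / d + 216 * C32 * q ^ (d - 4) := by
  have hdR : (4 : ℝ) ≤ d := by exact_mod_cast hd
  have hd8 : (0 : ℝ) < d / 8 := by linarith
  have hr1 : 1 ≤ Real.sqrt d := by rw [Real.one_le_sqrt]; linarith
  have hr0 : 0 < Real.sqrt d := by linarith
  have hr2 : Real.sqrt d ^ 2 = d := Real.sq_sqrt (by linarith)
  rw [← integral_sub i1 i2]
  have j1 := (gau hd8).const_mul (608 / Real.sqrt d)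
  have j2 := i32.const_mul (216 * q ^ (d - 4))
  refine (norm_integral_le_of_norm_le (j1.add j2) ?_).trans (le_of_eq ?_)
  · refine (ae_restrict_iff' measurableSet_Ioi).2 (Filter.Eventually.of_forall fun s hs => ?_)
    have hs' : (0 : ℝ) ≤ s := le_of_lt hs
    rw [← mul_sub, norm_mul]
    calc ‖K s‖ * ‖g s - h s‖ ≤ 2 * (304 / Real.sqrt d * Real.exp (-(d / 8 : ℝ) * s ^ 2) +
          108 * q ^ (d - 4) * (s + 1) ^ (-(3 / 2) : ℝ)) :=
          mul_le_mul (hb s hs') (he s hs') (norm_nonneg _) (by norm_num)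
      _ = _ := by simp only [Pi.add_apply]; ring
  · have e1 := integral_add j1 j2
    simp only [Pi.add_apply] at e1 ⊢
    rw [e1, integral_const_mul, integral_const_mul, integral_gaussian_Ioi]
    have e2 : Real.pi / (d / 8 : ℝ) = (8 * Real.pi) / d := by field_simp
    rw [e2, Real.sqrt_div (by positivity)]
    unfold C32
    have e3 : 608 / Real.sqrt d * (Real.sqrt (8 * Real.pi) / Real.sqrt d / 2) =
        608 * (Real.sqrt (8 * Real.pi) / 2) / (Real.sqrt d ^ 2) := by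
      field_simp
    rw [e3, hr2]
    ring

theorem k1_gau (d : ℕ) (hd : 1 ≤ d) (E : ℝ) :
    IntegrableOn (fun s : ℝ => k1 E s * (Real.exp (-(d : ℝ) * s ^ 2) : ℂ)) (Ioi 0) := by
  have hdR : (1 : ℝ) ≤ d := by exact_mod_cast hd
  have h1 : IntegrableOn (fun s : ℝ => Real.exp (-(d : ℝ) * s ^ 2)) (Ioi 0) := gau (by linarith)
  refine Integrable.mono' h1 ?_ ?_
  · have := k1_cont E
    exact (by fun_prop : Continuous fun s : ℝ =>
      k1 E s * (Real.exp (-(d : ℝ) * s ^ 2) : ℂ)).aestronglyMeasurable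
  · refine Filter.Eventually.of_forall fun s => ?_
    rw [norm_mul, k1_norm, Complex.norm_real, Real.norm_of_nonneg (Real.exp_pos _).le]
    simp

theorem gau_re (d : ℕ) (hd : 1 ≤ d) (E : ℝ) :
    (∫ s in Ioi (0 : ℝ), k1 E s * (Real.exp (-(d : ℝ) * s ^ 2) : ℂ)).re =
      Real.sqrt (Real.pi / d) / 2 * Real.exp (-(E ^ 2 / (4 * d))) := by
  have hdR : (1 : ℝ) ≤ d := by exact_mod_cast hd
  have hd0 : (0 : ℝ) < d := by linarith
  have h1 := integral_re (k1_gau d hd E)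
  simp only [RCLike.re_to_complex] at h1
  rw [← h1]
  have h2 : ∀ s : ℝ, (k1 E s * (Real.exp (-(d : ℝ) * s ^ 2) : ℂ)).re =
      Real.cos (E * s) * Real.exp (-(d : ℝ) * s ^ 2) := by
    intro s
    rw [Complex.re_mul_ofReal]
    congr 1
    unfold k1
    rw [Complex.conj_ofReal]
    have : -(Complex.I * (E : ℂ)) * (s : ℂ) = ((-(E * s) : ℝ) : ℂ) * Complex.I := by
      push_cast; ring
    rw [this, Complex.exp_ofReal_mul_I_re, Real.cos_neg]
  simp only [h2]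
  have h3 : ∫ s : ℝ, Real.cos (E * s) * Real.exp (-(d : ℝ) * s ^ 2) =
      2 * ∫ s in Ioi (0 : ℝ), Real.cos (E * s) * Real.exp (-(d : ℝ) * s ^ 2) := by
    rw [← integral_comp_abs (f := fun s => Real.cos (E * s) * Real.exp (-(d : ℝ) * s ^ 2))]
    refine integral_congr_ae (Filter.Eventually.of_forall fun s => ?_)
    simp only [sq_abs]
    congr 1
    rcases abs_choice s with h | h
    · rw [h]
    · rw [h, mul_neg, Real.cos_neg]
  have h4 := fourierIntegral_gaussian (b := (d : ℂ)) (by simpa using hd0) (E : ℂ)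
  have h5 : Integrable fun x : ℝ => Complex.exp (Complex.I * E * x) *
      Complex.exp (-(d : ℂ) * x ^ 2) := by
    have h1 : Integrable (fun s : ℝ => Real.exp (-(d : ℝ) * s ^ 2)) :=
      integrable_exp_neg_mul_sq hd0
    refine Integrable.mono' h1 ?_ ?_
    · exact (by fun_prop : Continuous fun x : ℝ => Complex.exp (Complex.I * E * x) *
        Complex.exp (-(d : ℂ) * x ^ 2)).aestronglyMeasurable
    · refine Filter.Eventually.of_forall fun s => ?_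
      rw [norm_mul, Complex.norm_exp, Complex.norm_exp]
      have e1 : (Complex.I * (E : ℂ) * (s : ℂ)).re = 0 := by simp
      have e2 : (-(d : ℂ) * (s : ℂ) ^ 2).re = -(d : ℝ) * s ^ 2 := by
        have : (-(d : ℂ) * (s : ℂ) ^ 2) = ((-(d : ℝ) * s ^ 2 : ℝ) : ℂ) := by push_cast; ring
        rw [this, Complex.ofReal_re]
      rw [e1, e2, Real.exp_zero, one_mul]
  have h6 := integral_re h5
  simp only [RCLike.re_to_complex] at h6
  rw [h4] at h6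
  have h7 : ∀ x : ℝ, (Complex.exp (Complex.I * E * x) * Complex.exp (-(d : ℂ) * x ^ 2)).re =
      Real.cos (E * x) * Real.exp (-(d : ℝ) * x ^ 2) := by
    intro x
    have e1 : Complex.exp (-(d : ℂ) * x ^ 2) = ((Real.exp (-(d : ℝ) * x ^ 2) : ℝ) : ℂ) := by
      rw [Complex.ofReal_exp]; congr 1; push_cast; ring
    have e2 : Complex.I * (E : ℂ) * (x : ℂ) = ((E * x : ℝ) : ℂ) * Complex.I := by
      push_cast; ring
    rw [e1, Complex.re_mul_ofReal, e2, Complex.exp_ofReal_mul_I_re]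
  simp only [h7] at h6
  have h8 : ((Real.pi : ℂ) / (d : ℂ)) ^ (1 / 2 : ℂ) * Complex.exp (-(E : ℂ) ^ 2 / (4 * (d : ℂ))) =
      ((Real.sqrt (Real.pi / d) * Real.exp (-(E ^ 2 / (4 * d))) : ℝ) : ℂ) := by
    rw [Complex.ofReal_mul, Real.sqrt_eq_rpow, Complex.ofReal_cpow (by positivity),
      Complex.ofReal_exp]
    push_cast
    congr 2
    ring
  rw [h8, Complex.ofReal_re, h3] at h6
  linarith

theorem main (hWJ : S_WJ) : S_ASY := by
  obtain ⟨q, hq0, hq1, h12, h2⟩ := hWJ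
  have h0 : ∀ s : ℝ, |s| ≤ 1 → ‖WJ s - (Real.exp (-s ^ 2) : ℂ)‖ ≤ s ^ 4 :=
    fun s hs => (h12 s hs).1
  have h1 : ∀ s : ℝ, |s| ≤ 1 → ‖WJ s‖ ≤ Real.exp (-(s ^ 2) / 2) := fun s hs => (h12 s hs).2
  obtain ⟨Cq, hCq0, hCq⟩ := ex_Cq hq0 hq1
  have hC32 := C32_nonneg
  set C : ℝ := 608 * (Real.sqrt (8 * Real.pi) / 2) + 216 * C32 * Cq with hC
  have hC0 : 0 ≤ C := by positivity
  intro A ε hε
  refine ⟨max 4 (⌈(C / ε) ^ 2⌉₊), fun d hd E _ => ?_⟩
  have hd4 : 4 ≤ d := (le_max_left _ _).trans hd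
  have hdR : (4 : ℝ) ≤ d := by exact_mod_cast hd4
  have hr1 : 1 ≤ Real.sqrt d := by rw [Real.one_le_sqrt]; linarith
  have hr0 : 0 < Real.sqrt d := by linarith
  have hr2 : Real.sqrt d ^ 2 = d := Real.sq_sqrt (by linarith)
  have hdC : (C / ε) ^ 2 ≤ d :=
    (Nat.le_ceil _).trans (by exact_mod_cast (le_max_right _ _).trans hd)
  have hrC : C / ε ≤ Real.sqrt d := Real.le_sqrt_of_sq_le hdC
  have hfin : C / d * Real.sqrt d ≤ ε := by
    have : C / d * Real.sqrt d = C / Real.sqrt d := by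
      rw [← hr2, Real.sqrt_sq hr0.le]; field_simp
    rw [this, div_le_iff₀ hr0]
    rw [div_le_iff₀ hε] at hrC
    linarith
  have hq := hCq d hd4
  have hb : ∀ s : ℝ, 0 ≤ s → ‖k1 E s‖ ≤ 2 := fun s hs => k1_le2 (ζ := (E : ℂ)) (by simp) hs
  have hE : ∀ {g h : ℝ → ℂ}, IntegrableOn (fun s => k1 E s * g s) (Ioi 0) →
      IntegrableOn (fun s => k1 E s * h s) (Ioi 0) → Err q d g h →
      ‖(∫ s in Ioi (0 : ℝ), k1 E s * g s) - ∫ s in Ioi (0 : ℝ), k1 E s * h s‖ ≤ C / d := by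
    intro g h i1 i2 he
    refine (bdE hq0 hd4 hb i1 i2 he).trans ?_
    rw [hC, add_div]
    have : 216 * C32 * q ^ (d - 4) ≤ 216 * C32 * (Cq / d) := by gcongr
    have e : 216 * C32 * Cq / d = 216 * C32 * (Cq / d) := by ring
    rw [e]
    linarith
  have iG := k1_gau d (by omega) E
  have iJ : IntegrableOn (fun s => k1 E s * HJ d s) (Ioi 0) :=
    gint (k1_cont E) (HJ_cont d) hb (HJ_bd (by omega))
  have iS : IntegrableOn (fun s => k1 E s * HS d s) (Ioi 0) :=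
    gint (k1_cont E) (HS_cont d) hb (HS_bd (by omega))
  have iG2 : IntegrableOn (fun s : ℝ => k1 E s * (2 * (Real.exp (-(d : ℝ) * s ^ 2) : ℂ)))
      (Ioi 0) := by
    refine (iG.const_mul 2).congr (Filter.Eventually.of_forall fun s => ?_)
    simp only
    ring
  have eJ := hE iJ iG (HJ_err hq0 hq1 h0 h1 h2 hd4)
  have eS := hE iS iG2 (HS_err hq0 h0 h1 h2 hd4)
  have hGa : Real.sqrt d * (∫ s in Ioi (0 : ℝ),
      k1 E s * (Real.exp (-(d : ℝ) * s ^ 2) : ℂ)).re = Ga d E := by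
    rw [gau_re d (by omega) E, Real.sqrt_div (by positivity)]
    unfold Ga
    field_simp
  constructor
  · rw [← hGa, ← mul_sub, abs_mul, abs_of_pos hr0, ← Complex.sub_re]
    have := (Complex.abs_re_le_norm _).trans eJ
    unfold mJ
    calc Real.sqrt d * |_| ≤ Real.sqrt d * (C / d) := by gcongr
      _ = C / d * Real.sqrt d := by ring
      _ ≤ ε := hfin
  · have e2 : ∫ s in Ioi (0 : ℝ), k1 E s * (2 * (Real.exp (-(d : ℝ) * s ^ 2) : ℂ)) =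
        2 * ∫ s in Ioi (0 : ℝ), k1 E s * (Real.exp (-(d : ℝ) * s ^ 2) : ℂ) := by
      rw [← integral_const_mul]
      refine integral_congr_ae (Filter.Eventually.of_forall fun s => ?_)
      simp only
      ring
    rw [e2] at eS
    have e3 : (2 * ∫ s in Ioi (0 : ℝ), k1 E s * (Real.exp (-(d : ℝ) * s ^ 2) : ℂ)).re =
        2 * (∫ s in Ioi (0 : ℝ), k1 E s * (Real.exp (-(d : ℝ) * s ^ 2) : ℂ)).re := by
      rw [Complex.mul_re]; simp
    have e4 : 2 * Ga d E = Real.sqrt d * (2 * ∫ s in Ioi (0 : ℝ),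
        k1 E s * (Real.exp (-(d : ℝ) * s ^ 2) : ℂ)).re := by
      rw [e3, ← hGa]; ring
    rw [e4, ← mul_sub, abs_mul, abs_of_pos hr0, ← Complex.sub_re]
    have := (Complex.abs_re_le_norm _).trans eS
    unfold mS
    calc Real.sqrt d * |_| ≤ Real.sqrt d * (C / d) := by gcongr
      _ = C / d * Real.sqrt d := by ring
      _ ≤ ε := hfin

end Run7.h216.HDASY
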