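import Pool.Agent.Run7.h216.HD_Dec

/-! High dimension: the free resolvent on the torus. -/

set_option autoImplicit false
set_option linter.unusedSectionVars false

open scoped BigOperators Matrix
open MeasureTheory Set

namespace Run7.h216.HDFREE

open Pool.Agent.Run7.h47 hiding mm mf ze V1 V2 ff
open Pool.Agent.W788.MFP.Four
open Run7.h442.HD Run7.h216.HDDec

theorem main (hWJ : S_WJ) : S_FREE := by
  obtain ⟨q, hq0, hq1, h12, h2⟩ := hWJ
  have h1 : ∀ s : ℝ, |s| ≤ 1 → ‖WJ s‖ ≤ Real.exp (-(s ^ 2) / 2) := fun s hs => (h12 s hs).2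
  obtain ⟨Cq, hCq0, hCq⟩ := ex_Cq hq0 hq1
  have hC32 := C32_nonneg
  have hC54 := C54_nonneg
  set CX : ℝ := 8 * (Real.sqrt (4 * Real.pi) / 2) + 216 * C32 * Cq with hCX
  set CY : ℝ := 60 * (Real.sqrt (8 * Real.pi) / 2) + 324 * C54 * Cq with hCY
  have hCX0 : 0 ≤ CX := by positivity
  have hCY0 : 0 ≤ CY := by positivity
  refine ⟨CX + CY + 1, by positivity, 4, ?_⟩
  intro d L _ hd ζ hζ hζ1
  have hdR : (4 : ℝ) ≤ d := by exact_mod_cast hd
  have hr1 : 1 ≤ Real.sqrt d := by rw [Real.one_le_sqrt]; linarith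
  have hr0 : 0 < Real.sqrt d := by linarith
  have hr2 : Real.sqrt d ^ 2 = d := Real.sq_sqrt (by linarith)
  set r : ℝ := Real.sqrt d with hr
  have hq := hCq d hd
  have hqr : q ^ (d - 4) * r ≤ Cq / r := by
    calc q ^ (d - 4) * r ≤ Cq / d * r := by gcongr
      _ = Cq / r := by rw [← hr2]; field_simp
  have hqr' : q ^ (d - 4) ≤ Cq / r := by
    refine le_trans ?_ hqr
    have : 0 ≤ q ^ (d - 4) := by positivity
    nlinarith
  have hX : ∀ {K g : ℝ → ℂ}, (∀ s, 0 ≤ s → ‖K s‖ ≤ 2) → Dec q d g →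
      ‖∫ s in Ioi (0 : ℝ), K s * g s‖ ≤ CX / r := by
    intro K g hb hg
    refine (bdX hq0 hd hb hg).trans ?_
    rw [hCX, add_div]
    have : 216 * C32 * q ^ (d - 4) ≤ 216 * C32 * (Cq / r) := by gcongr
    have e : 216 * C32 * Cq / r = 216 * C32 * (Cq / r) := by ring
    rw [e]
    linarith
  have hY : ∀ {K K0 g : ℝ → ℂ}, Continuous K → Continuous K0 → Continuous g →
      (∀ s, 0 ≤ s → ‖K s‖ ≤ 2) → (∀ s, 0 ≤ s → ‖K0 s‖ ≤ 2) → ∀ {ω : ℝ}, 0 ≤ ω → Dec q d g →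
      (∀ s, 0 ≤ s → ‖g s‖ ≤ 72 * (s + 1) ^ (-(3 / 2) : ℝ)) →
      (∀ s, 0 ≤ s → ‖K s - K0 s‖ ≤ 3 * (s * ω) ^ (1 / 4 : ℝ)) →
      ‖(∫ s in Ioi (0 : ℝ), K s * g s) - ∫ s in Ioi (0 : ℝ), K0 s * g s‖ ≤
        CY / r * (ω / r) ^ (1 / 4 : ℝ) := by
    intro K K0 g hK hK0 hgc hb hb0 ω hω hg hgi hdf
    refine (bdY hq0 hd hK hK0 hgc hb hb0 hω hg hgi hdf).trans ?_
    rw [mul_comm (CY / r), ← hr]
    refine mul_le_mul_of_nonneg_left ?_ (by positivity)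
    rw [hCY, add_div]
    have : 324 * C54 * (q ^ (d - 4) * r) ≤ 324 * C54 * (Cq / r) := by gcongr
    have e : 324 * C54 * Cq / r = 324 * C54 * (Cq / r) := by ring
    have e' : 324 * C54 * q ^ (d - 4) * r = 324 * C54 * (q ^ (d - 4) * r) := by ring
    rw [e, e']
    linarith
  have hd3 : 3 ≤ d := by omega
  have hdJ := HJ_dec hq0 hq1 h1 h2 hd
  have hdS := HS_dec hq0 h1 h2 hd
  have hcJ := cmp1 (r := ζ.im / 2) (by positivity) (by linarith) (k1_cont ζ)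
    ((JL_cont L).pow d) (HJ_cont d) (fun s hs => k1_le hζ.le hs) (fun s hs => J_comp hd3 L s hs)
    (fun s hs => pow_bd L s hs) (H_lin (HJ_bd hd3))
  refine ⟨?_, fun E0 => ⟨?_, fun i => ?_⟩⟩
  · have h3 := hX (K := k1 ζ) (fun s hs => k1_le2 hζ.le hs) hdJ
    rw [← RCLike.norm_conj, avg_time1 hζ, norm_mul, norm_neg, Complex.norm_I, one_mul]
    have e1 : (∫ s in Ioi (0 : ℝ), k1 ζ s * JL L s ^ d) =
        ((∫ s in Ioi (0 : ℝ), k1 ζ s * JL L s ^ d) - ∫ s in Ioi (0 : ℝ), k1 ζ s * HJ d s) +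
        ∫ s in Ioi (0 : ℝ), k1 ζ s * HJ d s := by ring
    rw [e1]
    refine (norm_add_le _ _).trans (add_le_add hcJ (h3.trans ?_))
    gcongr
    linarith
  · have h3 := hY (k1_cont ζ) (k1_cont E0) (HJ_cont d) (fun s hs => k1_le2 hζ.le hs)
      (fun s hs => k1_le2 (ζ := (E0 : ℂ)) (by simp) hs) (norm_nonneg (ζ - E0)) hdJ (HJ_bd hd3)
      (fun s hs => (k1_diff hζ.le E0 hs).trans (by
        have : 0 ≤ (s * ‖ζ - E0‖) ^ (1 / 4 : ℝ) := by positivity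
        linarith))
    have h4 : ‖(starRingEnd ℂ) (GG ζ (0 : T d L) 0) - -Complex.I * mJ d E0‖ ≤
        er d L ζ.im + (CX + CY + 1) / r * (‖ζ - E0‖ / r) ^ (1 / 4 : ℝ) := by
      rw [avg_time1 hζ, ← mul_sub, norm_mul, norm_neg, Complex.norm_I, one_mul]
      have e1 : (∫ s in Ioi (0 : ℝ), k1 ζ s * JL L s ^ d) - mJ d E0 =
          ((∫ s in Ioi (0 : ℝ), k1 ζ s * JL L s ^ d) - ∫ s in Ioi (0 : ℝ), k1 ζ s * HJ d s) +
          ((∫ s in Ioi (0 : ℝ), k1 ζ s * HJ d s) - ∫ s in Ioi (0 : ℝ), k1 E0 s * HJ d s) := by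
        unfold mJ
        ring
      rw [e1]
      refine (norm_add_le _ _).trans (add_le_add hcJ (h3.trans ?_))
      gcongr
      linarith
    refine le_trans ?_ h4
    refine le_trans (le_of_eq ?_) (Complex.abs_im_le_norm _)
    rw [← abs_neg]
    congr 1
    simp
    ring
  · rw [avg_time2 hζ (fun k : T d L => (2 * (ZMod.stdAddChar (k i) : ℂ).im) ^ 2)]
    simp only [avg_sq]
    have h5 := cmp1 (r := ζ.im / 2) (by positivity) (by linarith) (k2_cont ζ)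
      (((JL_cont L).pow (d - 1)).mul (SL_cont L)) (HS_cont d) (fun s hs => k2_le hζ.le hs)
      (fun s hs => S_comp hd3 L s hs) (fun s hs => pS_bd L s hs) (H_lin (HS_bd hd3))
    have h6 := hY (k2_cont ζ) (k1_cont E0) (HS_cont d) (fun s hs => k2_le2 hζ.le hs)
      (fun s hs => k1_le2 (ζ := (E0 : ℂ)) (by simp) hs) (norm_nonneg (ζ - E0)) hdS (HS_bd hd3)
      (fun s hs => k2_diff hζ.le E0 hs)
    have e1 : (∫ s in Ioi (0 : ℝ), k2 ζ s * (JL L s ^ (d - 1) * SL L s)) - mS d E0 =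
        ((∫ s in Ioi (0 : ℝ), k2 ζ s * (JL L s ^ (d - 1) * SL L s)) -
          ∫ s in Ioi (0 : ℝ), k2 ζ s * HS d s) +
        ((∫ s in Ioi (0 : ℝ), k2 ζ s * HS d s) - ∫ s in Ioi (0 : ℝ), k1 E0 s * HS d s) := by
      unfold mS
      ring
    have h7 : ‖(∫ s in Ioi (0 : ℝ), k2 ζ s * (JL L s ^ (d - 1) * SL L s)) - mS d E0‖ ≤
        er d L ζ.im + (CX + CY + 1) / r * (‖ζ - E0‖ / r) ^ (1 / 4 : ℝ) := by
      rw [e1]
      refine (norm_add_le _ _).trans (add_le_add h5 (h6.trans ?_))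
      gcongr
      linarith
    rw [← mul_sub, abs_mul, abs_of_pos (by norm_num : (0 : ℝ) < 1 / 2), ← Complex.sub_re]
    have h8 := Complex.abs_re_le_norm
      ((∫ s in Ioi (0 : ℝ), k2 ζ s * (JL L s ^ (d - 1) * SL L s)) - mS d E0)
    have h9 := abs_nonneg
      ((∫ s in Ioi (0 : ℝ), k2 ζ s * (JL L s ^ (d - 1) * SL L s)) - mS d E0).re
    linarith

end Run7.h216.HDFREE
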