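import Pool.Agent.Run7.h442.HD.Iface
import Pool.Agent.N507.HB.Bes

/-! The Bessel function `WJ` is the function `bes`. -/

set_option autoImplicit false

open MeasureTheory Set

namespace Run7.h216.HDWJ

open Pool.Agent.Run7.h47 (WJ WS)
open Pool.Agent.W918.BK.Osc (U U_cont U_norm)
open Pool.Agent.N659.HB (bes S_BES)

theorem U_eq (s t : ℝ) : U s t = ((Real.cos (2 * s * Real.cos t) : ℝ) : ℂ) +
    ((Real.sin (2 * s * Real.cos t) : ℝ) : ℂ) * Complex.I := by
  unfold U
  rw [mul_comm Complex.I, Complex.exp_mul_I, show 2 * (s * Real.cos t) = 2 * s * Real.cos t by ring]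
  push_cast
  ring

theorem sin_zero' (s : ℝ) : ∫ t in (0 : ℝ)..(2 * Real.pi), Real.sin (2 * s * Real.cos t) = 0 := by
  have hc : Continuous fun t : ℝ => Real.sin (2 * s * Real.cos t) := by fun_prop
  have h1 := intervalIntegral.integral_add_adjacent_intervals
    (hc.intervalIntegrable (μ := volume) 0 Real.pi)
    (hc.intervalIntegrable (μ := volume) Real.pi (2 * Real.pi))
  rw [← h1]
  have h2 : ∫ t in (Real.pi)..(2 * Real.pi), Real.sin (2 * s * Real.cos t) =
      ∫ t in (0 : ℝ)..Real.pi, Real.sin (2 * s * Real.cos (t + Real.pi)) := by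
    rw [intervalIntegral.integral_comp_add_right (fun t => Real.sin (2 * s * Real.cos t)) Real.pi]
    congr 1 <;> ring
  rw [h2]
  simp only [Real.cos_add_pi, mul_neg, Real.sin_neg]
  rw [intervalIntegral.integral_neg]
  ring

theorem bes_int (s : ℝ) : bes s =
    (2 * Real.pi)⁻¹ * ∫ t in (0 : ℝ)..(2 * Real.pi), Real.cos (2 * s * Real.cos t) := by
  have h1 := AddCircle.intervalIntegral_preimage (1 : ℝ) 0
    (fun θ : UnitAddCircle => Real.cos (2 * s * (fourier 1 θ).re))
  have h0 : bes s = ∫ θ : UnitAddCircle, Real.cos (2 * s * (fourier 1 θ).re) := rfl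
  rw [h0, ← h1, zero_add]
  have h2 : ∀ x : ℝ, (fourier 1 (x : UnitAddCircle)).re = Real.cos (2 * Real.pi * x) := by
    intro x
    rw [fourier_coe_apply]
    have h : 2 * (Real.pi : ℂ) * Complex.I * ((1 : ℤ) : ℂ) * (x : ℂ) / ((1 : ℝ) : ℂ) =
        ((2 * Real.pi * x : ℝ) : ℂ) * Complex.I := by
      push_cast
      ring
    rw [h, Complex.exp_ofReal_mul_I_re]
  simp only [h2]
  rw [intervalIntegral.integral_comp_mul_left (fun y => Real.cos (2 * s * Real.cos y))
    (by positivity : (2 * Real.pi : ℝ) ≠ 0)]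
  simp only [mul_zero, mul_one, smul_eq_mul]

theorem WJ_eq (s : ℝ) : WJ s = (bes s : ℂ) := by
  unfold WJ
  have h1 : ∫ t in (0 : ℝ)..(2 * Real.pi), U s t =
      ((∫ t in (0 : ℝ)..(2 * Real.pi), Real.cos (2 * s * Real.cos t) : ℝ) : ℂ) +
      ((∫ t in (0 : ℝ)..(2 * Real.pi), Real.sin (2 * s * Real.cos t) : ℝ) : ℂ) * Complex.I := by
    simp only [U_eq]
    have hc : Continuous fun t : ℝ => ((Real.cos (2 * s * Real.cos t) : ℝ) : ℂ) := by fun_prop
    have hs : Continuous fun t : ℝ => ((Real.sin (2 * s * Real.cos t) : ℝ) : ℂ) * Complex.I := by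
      fun_prop
    rw [intervalIntegral.integral_add (hc.intervalIntegrable _ _)
      (hs.intervalIntegrable _ _), intervalIntegral.integral_mul_const,
      intervalIntegral.integral_ofReal, intervalIntegral.integral_ofReal]
  rw [h1, sin_zero', bes_int]
  push_cast
  ring

theorem main : Run7.h442.HD.S_WJ := by
  obtain ⟨-, h1, h2, ⟨q, hq0, hq1, hq⟩, -⟩ := Pool.Agent.N507.HB.main
  refine ⟨q, hq0, hq1, fun s hs => ⟨?_, ?_⟩, fun s hs => ?_⟩
  · rw [WJ_eq, ← Complex.ofReal_sub, Complex.norm_real]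
    exact h1 s hs
  · rw [WJ_eq, Complex.norm_real]
    exact h2 s hs
  · rw [WJ_eq, Complex.norm_real]
    exact hq s hs

end Run7.h216.HDWJ
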