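import Pool.Agent.Run7.h216.Orient2

set_option autoImplicit false

/-!
# All but few vertices can be coloured: the orientation and the link graph
-/

open Finset Classical

namespace Run7.h216

/-- vertices with a neighbour sharing more than two colours -/
def TB {V : Type} (H : SimpleGraph V) (L : V → Finset ℕ) (v : V) : Prop :=
  ¬ ∀ u, H.Adj v u → (shr L v u).card ≤ 2

/-- the split graph -/
def splitG {V : Type} (G : SimpleGraph V) (T : V → Finset V) : SimpleGraph (V × Bool) where
  Adj a b := G.Adj a.1 b.1 ∧ a.2 = decide (b.1 ∈ T a.1) ∧ b.2 = decide (a.1 ∈ T b.1)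
  symm := by
    constructor
    rintro a b ⟨h1, h2, h3⟩
    exact ⟨h1.symm, h3, h2⟩
  loopless := by
    constructor
    rintro a ⟨h1, -⟩
    exact h1.ne rfl

/-- the orientation -/
theorem exists_D {V : Type} [Fintype V] {G H : SimpleGraph V} (hle : H ≤ G)
    (hdeg : ∀ v, (nb G v).card ≤ 4) (L : V → Finset ℕ)
    (hc : ∀ v, TB H L v → (lnk H L v).card ≤ 2) :
    ∃ D : V → V → Prop, (∀ u v, D u v → G.Adj u v) ∧ (∀ u v, G.Adj u v → D u v ∨ D v u) ∧
      (∀ v, (univ.filter (fun w => D v w)).card ≤ 2) ∧
      ∀ v, TB H L v → ((lnk H L v).filter (fun w => D v w)).card ≤ 1 := by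
  have hT : ∀ v, ∃ T : Finset V, (TB H L v → lnk H L v ⊆ T ∧ T.card ≤ 2 ∧ T ⊆ nb G v ∧
      (nb G v \ T).card ≤ 2) ∧ (¬ TB H L v → T = ∅) := by
    intro v
    by_cases hv : TB H L v
    · have h1 : lnk H L v ⊆ nb G v := fun u hu => mem_nb.2 (hle (mem_lnk.1 hu).1)
      have h2 := hc v hv
      have h3 := card_le_card h1
      obtain ⟨T, hT1, hT2, hT3⟩ := exists_subsuperset_card_eq h1 (n := min 2 (nb G v).card)
        (by omega) (by omega)
      refine ⟨T, fun _ => ⟨hT1, by omega, hT2, ?_⟩, fun h => absurd hv h⟩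
      rw [card_sdiff_of_subset hT2]
      have := hdeg v
      omega
    · exact ⟨∅, fun h => absurd h hv, fun _ => rfl⟩
  choose T hT1 hT2 using hT
  set Γ := splitG G T with hΓ
  set b : V × Bool → ℕ := fun a => if TB H L a.1 then 1 else 2 with hb
  have hdeg' : ∀ a, (nb Γ a).card ≤ 2 * b a := by
    rintro ⟨v, i⟩
    have h1 : (nb Γ (v, i)).card ≤ ((nb G v).filter (fun u => decide (u ∈ T v) = i)).card := by
      apply card_le_card_of_injOn Prod.fst
      · intro a ha
        rw [mem_coe, mem_nb] at ha
        rw [mem_coe, mem_filter, mem_nb]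
        exact ⟨ha.1, ha.2.1.symm⟩
      · intro a ha a' ha' he
        rw [mem_coe, mem_nb] at ha ha'
        have e1 := ha.2.2
        have e2 := ha'.2.2
        rw [← he] at e2
        exact Prod.ext he (e1.trans e2.symm)
    refine h1.trans ?_
    simp only [hb]
    by_cases hv : TB H L v
    · rw [if_pos hv]
      obtain ⟨k1, k2, k3, k4⟩ := hT1 v hv
      cases i
      · refine le_trans (card_le_card ?_) k4
        intro u hu
        rw [mem_filter, decide_eq_false_iff_not] at hu
        exact mem_sdiff.2 hu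
      · refine le_trans (card_le_card ?_) k2
        intro u hu
        rw [mem_filter, decide_eq_true_eq] at hu
        exact hu.2
    · rw [if_neg hv]
      exact (card_le_card (filter_subset _ _)).trans (hdeg v)
  obtain ⟨A, hA1, hA2, hA3, hA4⟩ := exists_orient Γ b hdeg'
  set D : V → V → Prop := fun v w => A (v, decide (w ∈ T v)) (w, decide (v ∈ T w)) with hD
  have hout : ∀ v i, (univ.filter (fun w => D v w ∧ decide (w ∈ T v) = i)).card ≤ b (v, i) := by
    intro v i
    refine le_trans ?_ (hA4 (v, i))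
    apply card_le_card_of_injOn (fun w => (w, decide (v ∈ T w)))
    · intro w hw
      rw [mem_coe, mem_filter] at hw
      rw [mem_coe, mem_filter]
      refine ⟨mem_univ _, ?_⟩
      rw [← hw.2.2]
      exact hw.2.1
    · intro w _ w' _ he
      exact (Prod.ext_iff.1 he).1
  refine ⟨D, fun u v h => (hA1 _ _ h).1, ?_, ?_, ?_⟩
  · intro u v h
    exact hA2 (u, decide (v ∈ T u)) (v, decide (u ∈ T v)) ⟨h, rfl, rfl⟩
  · intro v
    by_cases hv : TB H L v
    · have h1 : univ.filter (fun w => D v w) ⊆
          univ.filter (fun w => D v w ∧ decide (w ∈ T v) = false) ∪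
          univ.filter (fun w => D v w ∧ decide (w ∈ T v) = true) := by
        intro w hw
        rw [mem_filter] at hw
        rw [mem_union, mem_filter, mem_filter]
        cases h : decide (w ∈ T v)
        · exact Or.inl ⟨mem_univ _, hw.2, rfl⟩
        · exact Or.inr ⟨mem_univ _, hw.2, rfl⟩
      have h2 := (card_le_card h1).trans (card_union_le _ _)
      have h3 := hout v false
      have h4 := hout v true
      simp only [hb, if_pos hv] at h3 h4
      omega
    · have h1 : univ.filter (fun w => D v w) ⊆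
          univ.filter (fun w => D v w ∧ decide (w ∈ T v) = false) := by
        intro w hw
        rw [mem_filter] at hw ⊢
        refine ⟨mem_univ _, hw.2, ?_⟩
        rw [hT2 v hv, decide_eq_false_iff_not]
        exact notMem_empty _
      have h3 := hout v false
      simp only [hb, if_neg hv] at h3
      exact (card_le_card h1).trans h3
  · intro v hv
    have h4 := hout v true
    simp only [hb, if_pos hv] at h4
    refine le_trans (card_le_card ?_) h4
    intro w hw
    rw [mem_filter] at hw ⊢
    refine ⟨mem_univ _, hw.2, ?_⟩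
    rw [decide_eq_true_eq]
    exact (hT1 v hv).1 hw.1

/-- edge count of a graph with an orientation of out-degree at most one -/
theorem AA_le_of_out {W : Type} {Λ : SimpleGraph W} (A : W → W → Prop)
    (hA : ∀ a b, Λ.Adj a b → A a b ∨ A b a)
    (hout : ∀ a, ∀ b b', A a b → A a b' → Λ.Adj a b → Λ.Adj a b' → b = b') (J : Finset W) :
    AA Λ J ≤ 2 * J.card := by
  have h1 : ∀ a ∈ J, (nbIn Λ J a).card ≤ (J.filter (fun b => Λ.Adj a b ∧ A a b)).card +
      (J.filter (fun b => Λ.Adj a b ∧ A b a)).card := by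
    intro a _
    refine le_trans (card_le_card ?_) (card_union_le _ _)
    intro b hb
    rw [mem_nbIn] at hb
    rw [mem_union, mem_filter, mem_filter]
    rcases hA a b hb.2 with h | h
    · exact Or.inl ⟨hb.1, hb.2, h⟩
    · exact Or.inr ⟨hb.1, hb.2, h⟩
  have h2 : ∑ a ∈ J, (J.filter (fun b => Λ.Adj a b ∧ A b a)).card =
      ∑ a ∈ J, (J.filter (fun b => Λ.Adj a b ∧ A a b)).card := by
    simp only [card_filter]
    rw [sum_comm]
    apply sum_congr rfl
    intro a _
    apply sum_congr rfl
    intro b _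
    simp only [Λ.adj_comm]
  have h3 : ∑ a ∈ J, (J.filter (fun b => Λ.Adj a b ∧ A a b)).card ≤ J.card := by
    rw [card_eq_sum_ones]
    apply sum_le_sum
    intro a _
    rw [card_le_one]
    intro b hb b' hb'
    rw [mem_filter] at hb hb'
    exact hout a b b' hb.2.2 hb'.2.2 hb.2.1 hb'.2.1
  have h4 : AA Λ J ≤ ∑ a ∈ J, ((J.filter (fun b => Λ.Adj a b ∧ A a b)).card +
      (J.filter (fun b => Λ.Adj a b ∧ A b a)).card) := sum_le_sum h1
  rw [sum_add_distrib, h2] at h4
  omega

/-- the choice of the splitting colour -/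
theorem exists_split {L : Finset ℕ} (hL : L.card = 3) (P Q : Finset ℕ) (hP : P ⊆ L)
    (hcov : L ⊆ P ∪ Q) :
    ∃ z ∈ L, P.card = 2 → Q.card = 2 → z ∈ P ∧ z ∉ Q := by
  by_cases h : P.card = 2 ∧ Q.card = 2
  · have h1 : ¬ P ⊆ Q := by
      intro hc
      have h2 : L ⊆ Q := hcov.trans (union_subset hc (Subset.refl _))
      have := card_le_card h2
      omega
    rw [not_subset] at h1
    obtain ⟨z, hz1, hz2⟩ := h1
    exact ⟨z, hP hz1, fun _ _ => ⟨hz1, hz2⟩⟩
  · obtain ⟨z, hz⟩ : L.Nonempty := card_pos.1 (by omega)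
    exact ⟨z, hz, fun h1 h2 => absurd ⟨h1, h2⟩ h⟩

/-- edges inside the set given by `P` -/
def inSet {V : Type} (G : SimpleGraph V) (P : V → Prop) : SimpleGraph V where
  Adj u v := G.Adj u v ∧ P u ∧ P v
  symm := by
    constructor
    rintro u v ⟨h1, h2, h3⟩
    exact ⟨h1.symm, h3, h2⟩
  loopless := by
    constructor
    rintro u ⟨h1, -⟩
    exact h1.ne rfl

/-- The deterministic theorem: a link graph with at most as many edges as nodes in every set, and a
colouring as soon as the exceptional set meets all its subgraphs of minimum degree two. -/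
theorem det_link {V : Type} [Fintype V] {G H : SimpleGraph V} (hle : H ≤ G)
    (hdeg : ∀ v, (nb G v).card ≤ 4) (L : V → Finset ℕ) (hL : ∀ v, (L v).card = 3)
    (hc : ∀ v, TB H L v → (lnk H L v).card ≤ 2) :
    ∃ Λ : SimpleGraph (V × Bool), Lift G Λ ∧ (∀ J, AA Λ J ≤ 2 * J.card) ∧
      ∀ R : Finset V, (∀ C : Finset (V × Bool), C.Nonempty →
        (∀ a ∈ C, 2 ≤ (nbIn Λ C a).card) → ∃ a ∈ C, a.1 ∈ R) →
        ∃ col : V → ℕ, (∀ v, col v ∈ L v) ∧
          ∀ u v, H.Adj u v → u ∉ R → v ∉ R → col u ≠ col v := by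
  obtain ⟨D, hD1, hD2, hD3, hD4⟩ := exists_D hle hdeg L hc
  -- the fixed vertices
  set FX : V → Prop := fun v => ∃ x ∈ L v, ∀ w, D v w → H.Adj v w → x ∉ L w with hFX
  set H' : SimpleGraph V := inSet H (fun v => ¬ FX v) with hH'
  have hH'le : H' ≤ G := fun _ _ h => hle h.1
  -- the modes
  have hmode : ∀ v, ∃ m : Option ℕ, (TB H L v → m = none) ∧ (∀ z, m = some z → z ∈ L v) ∧
      (¬ TB H L v → ¬ FX v → ∀ w w', D v w → H.Adj v w → 2 ≤ (shr L v w).card →
        D v w' → H.Adj v w' → 2 ≤ (shr L v w').card →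
        decide (∃ z, m = some z ∧ z ∈ L w) = decide (∃ z, m = some z ∧ z ∈ L w') → w = w') := by
    intro v
    by_cases hv : TB H L v ∨ FX v
    · refine ⟨none, fun _ => rfl, fun z hz => absurd hz (by simp), ?_⟩
      intro h1 h2
      exact absurd (hv.resolve_left h1) h2
    · push Not at hv
      obtain ⟨hv1, hv2⟩ := hv
      have hv1' : ∀ u, H.Adj v u → (shr L v u).card ≤ 2 := by
        by_contra hcon
        exact hv1 hcon
      have hcov : ∀ x ∈ L v, ∃ w, D v w ∧ H.Adj v w ∧ x ∈ L w := by
        intro x hx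
        by_contra hcon
        push Not at hcon
        exact hv2 ⟨x, hx, hcon⟩
      set O : Finset V := univ.filter (fun w => D v w ∧ H.Adj v w) with hO
      have hOle : O.card ≤ 2 := by
        refine le_trans (card_le_card ?_) (hD3 v)
        intro w hw
        exact mem_filter.2 ⟨mem_univ _, (mem_filter.1 hw).2.1⟩
      have hcov' : L v ⊆ O.biUnion (fun w => shr L v w) := by
        intro x hx
        obtain ⟨w, h1, h2, h3⟩ := hcov x hx
        exact mem_biUnion.2 ⟨w, mem_filter.2 ⟨mem_univ _, h1, h2⟩, mem_shr.2 ⟨hx, h3⟩⟩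
      have hO2 : O.card = 2 := by
        have h1 := (card_le_card hcov').trans (card_biUnion_le (s := O)
          (t := fun w => shr L v w))
        have h2 : ∑ w ∈ O, (shr L v w).card ≤ ∑ _w ∈ O, 2 :=
          sum_le_sum (fun w hw => hv1' w (mem_filter.1 hw).2.2)
        rw [sum_const, smul_eq_mul] at h2
        rw [hL v] at h1
        omega
      obtain ⟨w1, w2, hw12, hOeq⟩ := card_eq_two.1 hO2
      have m1 : w1 ∈ O := by rw [hOeq]; simp
      have m2 : w2 ∈ O := by rw [hOeq]; simp
      have hcov2 : L v ⊆ shr L v w1 ∪ shr L v w2 := by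
        intro x hx
        have := hcov' hx
        rw [hOeq, mem_biUnion] at this
        obtain ⟨w, hw, hxw⟩ := this
        rw [mem_insert, mem_singleton] at hw
        rcases hw with rfl | rfl
        · exact mem_union_left _ hxw
        · exact mem_union_right _ hxw
      obtain ⟨z, hz, hz2⟩ := exists_split (hL v) (shr L v w1) (shr L v w2)
        (fun x hx => (mem_shr.1 hx).1) hcov2
      refine ⟨some z, fun h => absurd h hv1, ?_, ?_⟩
      · intro z' hz'
        rw [Option.some.injEq] at hz'
        rw [← hz']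
        exact hz
      · intro _ _ w w' h1 h2 h3 h1' h2' h3' he
        have hsimp : ∀ y : V, (∃ z', some z = some z' ∧ z' ∈ L y) ↔ z ∈ L y := by
          intro y
          constructor
          · rintro ⟨z', h5, h6⟩
            rw [Option.some.injEq] at h5
            rwa [h5]
          · exact fun h => ⟨z, rfl, h⟩
        simp only [hsimp] at he
        rw [decide_eq_decide] at he
        have mw : w ∈ O := mem_filter.2 ⟨mem_univ _, h1, h2⟩
        have mw' : w' ∈ O := mem_filter.2 ⟨mem_univ _, h1', h2'⟩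
        rw [hOeq, mem_insert, mem_singleton] at mw mw'
        have c1 := hv1' w h2
        have c2 := hv1' w' h2'
        rcases mw with rfl | rfl <;> rcases mw' with rfl | rfl
        · rfl
        · exfalso
          obtain ⟨k1, k2⟩ := hz2 (by omega) (by omega)
          have k3 : z ∈ L w := (mem_shr.1 k1).2
          exact k2 (mem_shr.2 ⟨hz, he.1 k3⟩)
        · exfalso
          obtain ⟨k1, k2⟩ := hz2 (by omega) (by omega)
          have k3 : z ∈ L w' := (mem_shr.1 k1).2
          exact k2 (mem_shr.2 ⟨hz, he.2 k3⟩)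
        · rfl
  choose md hmd1 hmd2 hmd3 using hmode
  set Λ := linkG H' L md with hΛ
  have hlift : Lift G Λ := lift_linkG hH'le L md
  refine ⟨Λ, hlift, ?_, ?_⟩
  · intro J
    apply AA_le_of_out (fun a b => D a.1 b.1)
    · intro a b hab
      exact hD2 _ _ (hH'le hab.1)
    · rintro ⟨v, i⟩ ⟨w, j⟩ ⟨w', j'⟩ h1 h2 h3 h4
      simp only at h1 h2
      obtain ⟨k1, k2, k3, k4⟩ := h3
      obtain ⟨l1, l2, l3, l4⟩ := h4
      simp only at k1 k2 k3 k4 l1 l2 l3 l4
      have hww : w = w' := by
        by_cases hv : TB H L v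
        · have h5 := hD4 v hv
          rw [card_le_one] at h5
          exact h5 w (mem_filter.2 ⟨mem_lnk.2 ⟨k1.1, k2⟩, h1⟩) w'
            (mem_filter.2 ⟨mem_lnk.2 ⟨l1.1, l2⟩, h2⟩)
        · exact hmd3 v hv k1.2.1 w w' h1 k1.1 k2 h2 l1.1 l2 (k3.symm.trans l3)
      subst hww
      rw [k4, l4]
  · intro R hR
    obtain ⟨sg, hsg⟩ := forest_solve Λ (fun a b => (kap L md a.1 b.1 ^^ kap L md b.1 a.1) ^^ true)
      (by
        intro a b
        cases kap L md a.1 b.1 <;> cases kap L md b.1 a.1 <;> rfl)
      (univ.filter (fun a : V × Bool => a.1 ∉ R)) (by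
        intro C hC hCne
        by_contra hcon
        push Not at hcon
        obtain ⟨a, ha, haR⟩ := hR C hCne (fun a ha => hcon a ha)
        exact (mem_filter.1 (hC ha)).2 haR)
    -- the orders
    set N₀ : ℕ := (univ.biUnion L).sup id + 1 with hN₀
    have hlt : ∀ v, ∀ b ∈ L v, b < N₀ := by
      intro v b hb
      have : b ≤ (univ.biUnion L).sup id :=
        Finset.le_sup (f := id) (mem_biUnion.2 ⟨v, mem_univ _, hb⟩)
      omega
    set r : V → ℕ → ℕ := fun v a => ordr N₀ (md v) (fun i => sg (v, i)) a with hr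
    have hmdc : ∀ v w, H.Adj v w → ∀ z, md v = some z → z ∈ L v ∧ (shr L v w).card ≤ 2 := by
      intro v w hadj z hz
      refine ⟨hmd2 v z hz, ?_⟩
      by_contra hcon
      have hTB : TB H L v := fun h => hcon (h w hadj)
      rw [hmd1 v hTB] at hz
      exact absurd hz (by simp)
    have hflip : ∀ v w, v ∉ R → w ∉ R → H'.Adj v w → ∀ a b, a < b → a ∈ L v → a ∈ L w →
        b ∈ L v → b ∈ L w → (r v a < r v b ↔ ¬ r w a < r w b) := by
      intro v w hv hw hadj a b hab ha ha' hb hb'
      have hav : a ∈ shr L v w := mem_shr.2 ⟨ha, ha'⟩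
      have hbv : b ∈ shr L v w := mem_shr.2 ⟨hb, hb'⟩
      have h2 : 2 ≤ (shr L v w).card := by
        rw [← card_pair hab.ne]
        apply card_le_card
        intro y hy
        rw [mem_insert, mem_singleton] at hy
        rcases hy with rfl | rfl
        · exact hav
        · exact hbv
      have hΛadj : Λ.Adj (v, nd L md v w) (w, nd L md w v) := ⟨hadj, h2, rfl, rfl⟩
      have h3 := hsg _ (mem_filter.2 ⟨mem_univ _, hv⟩) _ (mem_filter.2 ⟨mem_univ _, hw⟩) hΛadj
      simp only at h3
      have e1 := ordr_lt_iff (N₀ := N₀) (v := v) (w := w) (hmdc v w hadj.1)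
        (fun i => sg (v, i)) hab (hlt v b hb) hav hbv
      have e2 := ordr_lt_iff (N₀ := N₀) (v := w) (w := v) (hmdc w v hadj.1.symm)
        (fun i => sg (w, i)) hab
        (hlt v b hb) (by rw [shr_comm]; exact hav) (by rw [shr_comm]; exact hbv)
      simp only [hr]
      rw [e1, e2, h3]
      cases sg (w, nd L md w v) <;> cases kap L md v w <;> cases kap L md w v <;> simp
    have hrinj : ∀ v, ∀ a ∈ L v, ∀ b ∈ L v, r v a = r v b → a = b := by
      intro v a ha b hb he
      exact ordr_inj (hlt v a ha) (hlt v b hb) he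
    -- colour
    have hx : ∀ v, ∃ x ∈ L v, FX v → ∀ w, D v w → H.Adj v w → x ∉ L w := by
      intro v
      by_cases hv : FX v
      · obtain ⟨x, h1, h2⟩ := hv
        exact ⟨x, h1, fun _ => h2⟩
      · obtain ⟨x, h1⟩ : (L v).Nonempty := card_pos.1 (by rw [hL v]; norm_num)
        exact ⟨x, h1, fun h => absurd h hv⟩
    choose x hx1 hx2 using hx
    set L' : V → Finset ℕ := fun v => if FX v then {x v} else L v with hL'
    have hL'U : ∀ v, FX v → L' v = {x v} := fun v hv => by simp only [hL']; rw [if_pos hv]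
    have hL'n : ∀ v, ¬ FX v → L' v = L v := fun v hv => by simp only [hL']; rw [if_neg hv]
    have hL'sub : ∀ v, L' v ⊆ L v := by
      intro v
      by_cases hv : FX v
      · rw [hL'U v hv]
        exact singleton_subset_iff.2 (hx1 v)
      · rw [hL'n v hv]
    obtain ⟨D', hD'⟩ : ∃ D' : V → V → Prop, ∀ v w, D' v w ↔
        (D v w ∧ H.Adj v w ∧ ¬ FX v ∧ v ∉ R ∧ w ∉ R) := ⟨_, fun _ _ => Iff.rfl⟩
    obtain ⟨col, hcol1, hcol2⟩ := mono_color D'
      (fun v h => ((hD' v v).1 h).2.1.ne rfl) L' r
      (fun v a ha b hb => hrinj v a (hL'sub v ha) b (hL'sub v hb))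
      (by
        intro v
        by_cases hv : FX v
        · have h0 : univ.filter (fun w => D' v w) = ∅ := by
            rw [eq_empty_iff_forall_notMem]
            intro w hw
            exact ((hD' v w).1 (mem_filter.1 hw).2).2.2.1 hv
          rw [hL'U v hv, card_singleton, h0]
          simp
        · rw [hL'n v hv, hL v]
          refine lt_of_le_of_lt (le_trans (card_le_card ?_) (hD3 v)) (by norm_num)
          intro w hw
          exact mem_filter.2 ⟨mem_univ _, ((hD' v w).1 (mem_filter.1 hw).2).1⟩)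
      (by
        intro v w hvw a b ha ha' hb hb' hlt'
        obtain ⟨hD, hadj, hv, hvR, hwR⟩ := (hD' v w).1 hvw
        have hne : a ≠ b := by
          rintro rfl
          omega
        by_cases hw : FX w
        · exfalso
          rw [hL'U w hw, mem_singleton] at ha' hb'
          exact hne (ha'.trans hb'.symm)
        · rw [hL'n v hv] at ha hb
          rw [hL'n w hw] at ha' hb'
          have hne' : r w a ≠ r w b := fun he => hne (hrinj w a ha' b hb' he)
          have hadj' : H'.Adj v w := ⟨hadj, hv, hw⟩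
          rcases lt_or_gt_of_ne hne with hab | hab
          · have := (hflip v w hvR hwR hadj' a b hab ha ha' hb hb').1 hlt'
            omega
          · have h5 := hflip v w hvR hwR hadj' b a hab hb hb' ha ha'
            by_contra hcon
            have h6 : ¬ r w b < r w a := hcon
            have := h5.2 h6
            omega)
    refine ⟨col, fun v => hL'sub v (hcol1 v), ?_⟩
    have key : ∀ u v, H.Adj u v → u ∉ R → v ∉ R → D u v → col u ≠ col v := by
      intro u v hadj hu hv hD
      by_cases huF : FX u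
      · have h2 := hcol1 u
        rw [hL'U u huF, mem_singleton] at h2
        intro hc
        apply hx2 u huF v hD hadj
        rw [← h2, hc]
        exact hL'sub v (hcol1 v)
      · exact hcol2 u v ((hD' u v).2 ⟨hD, hadj, huF, hu, hv⟩)
    intro u v hadj hu hv
    rcases hD2 u v (hle hadj) with h | h
    · exact key u v hadj hu hv h
    · exact (key v u hadj.symm hv hu h).symm

end Run7.h216
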