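import Pool.Agent.Run7.h216.TameDefs

set_option autoImplicit false

/-!
# Vertices with few strongly intersecting lists around them
-/

namespace Run7.h216

/-- Outside `C`, the vertex `v` has no neighbour sharing more than two colours with it, or at most
two neighbours sharing at least two colours with it. -/
def MildOff {V : Type} (G : SimpleGraph V) (L : V → Finset ℕ) (C : Set V) (v : V) : Prop :=
  (∀ u, u ∉ C → G.Adj v u → (L v ∩ L u).card ≤ 2) ∨
    {u | u ∉ C ∧ G.Adj v u ∧ 2 ≤ (L v ∩ L u).card}.ncard ≤ 2

end Run7.h216
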