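import Pool.Agent.Run7.h216.Prob

set_option autoImplicit false

/-!
# Expansion of sets of intermediate size
-/

open Finset Classical Filter

namespace Run7.h216

/-- intermediate sets of a given size -/
theorem mid_size {n : ℕ} (hn : 0 < n) {x : ℝ} (hx : 4 ≤ x) {s k : ℕ} (hs0 : 0 < s)
    (hs : 2 * s ≤ n) :
    pr (fun pq : PP2 n => ∃ S : Finset (Fin n), S.card = s ∧
      2 * s - k ≤ EE (conj pq.1) (conj pq.2) S) ≤
      4 * (8 / 9) ^ s * x ^ k * Real.exp (6 * n / x) := by
  have hx0 : 0 < x := by linarith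
  refine (pr_bound hn hx (by omega) (2 * s - k)).trans ?_
  have hsR : (0 : ℝ) < s := by exact_mod_cast hs0
  have hC : (2 : ℝ) ^ s ≤ n.choose s := by
    refine le_trans ?_ (choose_ge (by omega) hs0)
    apply pow_le_pow_left₀ (by norm_num)
    rw [le_div_iff₀ hsR]
    exact_mod_cast hs
  have hC0 : (0 : ℝ) < n.choose s := lt_of_lt_of_le (by positivity) hC
  have h1 := one_add_pow_le hx0 n
  have h2 : x ^ (2 * s) ≤ x ^ (2 * s - k) * x ^ k := by
    rw [← pow_add]
    apply pow_le_pow_right₀ (by linarith)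
    omega
  rw [div_le_iff₀ (by positivity)]
  have h3 : (4 * x / 3) ^ (2 * s) = (8 / 9) ^ s * 2 ^ s * x ^ (2 * s) := by
    rw [pow_mul, pow_mul x 2 s, ← mul_pow, ← mul_pow]
    congr 1
    ring
  rw [h3]
  calc 4 * ((8 / 9) ^ s * 2 ^ s * x ^ (2 * s)) * (1 + 3 / x) ^ (2 * n)
      ≤ 4 * ((8 / 9) ^ s * (n.choose s) * (x ^ (2 * s - k) * x ^ k)) * Real.exp (6 * n / x) := by
        gcongr
    _ = 4 * (8 / 9) ^ s * x ^ k * Real.exp (6 * n / x) * (n.choose s * x ^ (2 * s - k)) := by
        ring

/-- expansion of intermediate sets -/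
theorem mid_null (σ : ℝ) (hσ : 0 < σ) : ∃ c : ℝ, 0 < c ∧
    Tendsto (fun n : ℕ => pr (fun pq : PP2 n => ∃ S : Finset (Fin n), σ * n ≤ S.card ∧
      (S.card : ℝ) + σ * n ≤ n ∧
      2 * (S.card : ℝ) < EE (conj pq.1) (conj pq.2) S + c * n)) atTop (nhds 0) := by
  set l : ℝ := Real.log (9 / 8) with hl
  have hl0 : 0 < l := Real.log_pos (by norm_num)
  set x : ℝ := max 4 (24 / (σ * l)) with hx
  have hx4 : 4 ≤ x := le_max_left _ _
  have hx0 : 0 < x := by linarith
  have hx24 : 24 / (σ * l) ≤ x := le_max_right _ _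
  have hlogx : 0 < Real.log x := Real.log_pos (by linarith)
  set c : ℝ := σ * l / (4 * Real.log x) with hc
  have hc0 : 0 < c := by positivity
  refine ⟨c, hc0, ?_⟩
  have hbound : ∀ n : ℕ, 0 < n → pr (fun pq : PP2 n => ∃ S : Finset (Fin n), σ * n ≤ S.card ∧
      (S.card : ℝ) + σ * n ≤ n ∧
      2 * (S.card : ℝ) < EE (conj pq.1) (conj pq.2) S + c * n) ≤
      4 * (n + 1) * Real.exp (-(σ * l / 2) * n) := by
    intro n hn
    have hnR : (0 : ℝ) < n := by exact_mod_cast hn
    set k : ℕ := ⌊c * n⌋₊ with hk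
    have hk1 : (k : ℝ) ≤ c * n := Nat.floor_le (by positivity)
    have hk2 : c * n < k + 1 := Nat.lt_floor_add_one _
    set I : Finset ℕ := (range (n + 1)).filter (fun s => σ * n ≤ (s : ℝ) ∧ 2 * s ≤ n) with hI
    have h1 : pr (fun pq : PP2 n => ∃ S : Finset (Fin n), σ * n ≤ S.card ∧
      (S.card : ℝ) + σ * n ≤ n ∧
      2 * (S.card : ℝ) < EE (conj pq.1) (conj pq.2) S + c * n) ≤
        pr (fun pq : PP2 n => ∃ s ∈ I, ∃ S : Finset (Fin n), S.card = s ∧
          2 * s - k ≤ EE (conj pq.1) (conj pq.2) S) := by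
      apply pr_mono
      rintro pq ⟨S, hS1, hS2, hS3⟩
      have key : ∀ T : Finset (Fin n), 2 * T.card ≤ n → σ * n ≤ T.card →
          2 * (T.card : ℝ) < EE (conj pq.1) (conj pq.2) T + c * n →
          ∃ s ∈ I, ∃ S : Finset (Fin n), S.card = s ∧
          2 * s - k ≤ EE (conj pq.1) (conj pq.2) S := by
        intro T h2 h3 h4
        refine ⟨T.card, mem_filter.2 ⟨mem_range.2 (by omega), h3, h2⟩, T, rfl, ?_⟩
        have h5 : (2 * T.card : ℝ) < EE (conj pq.1) (conj pq.2) T + (k + 1 : ℝ) := by linarith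
        have h6 : 2 * T.card < EE (conj pq.1) (conj pq.2) T + (k + 1) := by exact_mod_cast h5
        omega
      by_cases h2 : 2 * S.card ≤ n
      · exact key S h2 hS1 hS3
      · obtain ⟨T, h3, h4⟩ := exists_compl (conj pq.1) (conj pq.2) S
        rw [Fintype.card_fin] at h3 h4
        have h5 : (S.card : ℝ) + T.card = n := by exact_mod_cast h3
        have h6 : (EE (conj pq.1) (conj pq.2) S : ℝ) + 4 * T.card =
            2 * n + EE (conj pq.1) (conj pq.2) T := by exact_mod_cast h4
        apply key T (by omega)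
        · linarith
        · linarith
    refine h1.trans ((pr_exists _ I).trans ?_)
    have h2 : ∀ s ∈ I, pr (fun pq : PP2 n => ∃ S : Finset (Fin n), S.card = s ∧
          2 * s - k ≤ EE (conj pq.1) (conj pq.2) S) ≤
          4 * Real.exp (-(σ * l / 2) * n) := by
      intro s hs
      rw [hI, mem_filter] at hs
      obtain ⟨-, hs1, hs2⟩ := hs
      have hs0 : 0 < s := by
        have : (0 : ℝ) < s := lt_of_lt_of_le (by positivity) hs1
        exact_mod_cast this
      refine (mid_size hn hx4 hs0 hs2).trans ?_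
      have e1 : (8 / 9 : ℝ) ^ s = Real.exp (-(s * l)) := by
        rw [hl, Real.exp_neg, Real.exp_nat_mul, Real.exp_log (by norm_num), ← inv_pow]
        norm_num
      have e2 : x ^ k = Real.exp (k * Real.log x) := by
        rw [Real.exp_nat_mul, Real.exp_log hx0]
      rw [e1, e2, mul_assoc, mul_assoc, ← Real.exp_add, ← Real.exp_add]
      apply mul_le_mul_of_nonneg_left _ (by norm_num)
      apply Real.exp_le_exp.2
      have f1 : σ * n * l ≤ s * l := mul_le_mul_of_nonneg_right hs1 hl0.le
      have f2 : (k : ℝ) * Real.log x ≤ σ * l / 4 * n := by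
        calc (k : ℝ) * Real.log x ≤ c * n * Real.log x :=
              mul_le_mul_of_nonneg_right hk1 hlogx.le
          _ = σ * l / 4 * n := by
              rw [hc]
              field_simp
      have f3 : 6 * (n : ℝ) / x ≤ σ * l / 4 * n := by
        rw [div_le_iff₀ hx0]
        rw [div_le_iff₀ (by positivity)] at hx24
        nlinarith
      nlinarith
    refine (sum_le_sum h2).trans ?_
    rw [sum_const, nsmul_eq_mul]
    have h3 : (I.card : ℝ) ≤ n + 1 := by
      have := card_filter_le (range (n + 1)) (fun s => σ * n ≤ (s : ℝ) ∧ 2 * s ≤ n)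
      rw [card_range] at this
      exact_mod_cast this
    have h4 : 0 < Real.exp (-(σ * l / 2) * n) := Real.exp_pos _
    nlinarith
  have hlim : Tendsto (fun n : ℕ => 4 * ((n : ℝ) + 1) * Real.exp (-(σ * l / 2) * n))
      atTop (nhds 0) := by
    set b : ℝ := σ * l / 2 with hb
    have hb0 : 0 < b := by positivity
    have g1 : Tendsto (fun n : ℕ => (n : ℝ) * Real.exp (-b * n)) atTop (nhds 0) := by
      have h := (Real.tendsto_pow_mul_exp_neg_atTop_nhds_zero 1).comp
        (tendsto_natCast_atTop_atTop.const_mul_atTop hb0)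
      have h' := h.const_mul (1 / b)
      rw [mul_zero] at h'
      refine h'.congr (fun n => ?_)
      simp only [Function.comp, pow_one]
      have : -(b * (n : ℝ)) = -b * n := by ring
      rw [this]
      field_simp
    have g2 : Tendsto (fun n : ℕ => Real.exp (-b * n)) atTop (nhds 0) := by
      have h := (Real.tendsto_exp_neg_atTop_nhds_zero).comp
        (tendsto_natCast_atTop_atTop.const_mul_atTop hb0)
      refine h.congr (fun n => ?_)
      simp only [Function.comp]
      congr 1
      ring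
    have g3 := (g1.add g2).const_mul 4
    rw [add_zero, mul_zero] at g3
    refine g3.congr (fun n => ?_)
    ring
  apply squeeze_zero' (Eventually.of_forall (fun n => pr_nonneg _)) _ hlim
  filter_upwards [eventually_gt_atTop 0] with n hn
  exact hbound n hn

end Run7.h216
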