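import Mathlib

set_option autoImplicit false

/-!
# Tame list assignments
-/

namespace Run7.h216

/-- The union of the two Hamiltonian cycles given by a pair of permutations. -/
def unionGraph (n : ℕ) (p : Equiv.Perm (Fin n) × Equiv.Perm (Fin n)) : SimpleGraph (Fin n) :=
  SimpleGraph.fromRel (fun a b : Fin n =>
    b = p.1 (finRotate n (p.1.symm a)) ∨ b = p.2 (finRotate n (p.2.symm a)))

/-- For a ranking `r` of the colours and a colour `c`: the edges `uv` of `G` such that `c` and
some colour ranked below `c` belong to both lists. -/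
def lowerGraph {V : Type} (G : SimpleGraph V) (L : V → Finset ℕ) (r : ℕ → ℕ) (c : ℕ) :
    SimpleGraph V where
  Adj u v := G.Adj u v ∧ c ∈ L u ∧ c ∈ L v ∧ ∃ b, r b < r c ∧ b ∈ L u ∧ b ∈ L v
  symm := by
    constructor
    rintro u v ⟨h1, h2, h3, b, h4, h5, h6⟩
    exact ⟨h1.symm, h3, h2, b, h4, h6, h5⟩
  loopless := by
    constructor
    rintro u ⟨h1, -⟩
    exact G.loopless.irrefl u h1

/-- The list assignment is tame with parameter `ε`: for some ranking of the colours, every
connected component of every `lowerGraph` is bipartite, or has at most `ε * |V|` vertices, or has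
only subsets of average degree at most `2 + ε`. -/
def Tame (ε : ℝ) {V : Type} [Fintype V] (G : SimpleGraph V) (L : V → Finset ℕ) : Prop :=
  ∃ r : ℕ → ℕ, Function.Injective r ∧
    ∀ (c : ℕ) (C : (lowerGraph G L r c).ConnectedComponent),
      ((lowerGraph G L r c).induce C.supp).Colorable 2 ∨
      (C.supp.ncard : ℝ) ≤ ε * Fintype.card V ∨
      ∀ S : Finset V, (S : Set V) ⊆ C.supp →
        ({q : V × V | q.1 ∈ S ∧ q.2 ∈ S ∧ (lowerGraph G L r c).Adj q.1 q.2}.ncard : ℝ) ≤
          (2 + ε) * S.card

end Run7.h216
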