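import Pool.Agent.Run7.h216.Det
import Pool.Agent.Run7.h216.Mid
import Pool.Agent.Run7.h216.TameDefs

set_option autoImplicit false

/-!
# Assembly
-/

open Finset Classical Filter

namespace Run7.h216

theorem unionGraph_eq {n : ℕ} (p : PP2 n) :
    unionGraph n p = pGraph (conj p.1) (conj p.2) := by
  ext u v
  unfold unionGraph pGraph
  rw [SimpleGraph.fromRel_adj]
  simp only [conj_apply]
  constructor
  · rintro ⟨h1, h2⟩
    refine ⟨h1, ?_⟩
    tauto
  · rintro ⟨h1, h2⟩
    refine ⟨h1, ?_⟩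
    tauto

theorem finRotate_pow_val (m i : ℕ) (y : Fin (m + 1)) :
    (((finRotate (m + 1)) ^ i) y).val = (y.val + i) % (m + 1) := by
  induction i with
  | zero =>
    simp only [pow_zero, Equiv.Perm.coe_one, id_eq, Nat.add_zero]
    exact (Nat.mod_eq_of_lt y.isLt).symm
  | succ i ih =>
    rw [pow_succ', Equiv.Perm.mul_apply, finRotate_apply, Fin.val_add, ih]
    have h1 : ((1 : Fin (m + 1)) : ℕ) = 1 % (m + 1) := rfl
    rw [h1, ← Nat.add_mod, Nat.add_assoc]

theorem conj_pow_ne {n i : ℕ} (hi : 0 < i) (hin : i < n) (p : Equiv.Perm (Fin n)) (x : Fin n) :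
    ((conj p) ^ i) x ≠ x := by
  obtain ⟨m, rfl⟩ : ∃ m, n = m + 1 := ⟨n - 1, by omega⟩
  have h1 : (conj p) ^ i = p * (finRotate (m + 1)) ^ i * p⁻¹ := by
    unfold conj
    rw [conj_pow]
  rw [h1]
  intro h
  have h2 : p ((finRotate (m + 1) ^ i) (p⁻¹ x)) = x := h
  have h3 : (finRotate (m + 1) ^ i) (p⁻¹ x) = p⁻¹ x := by
    apply p.injective
    rw [h2]
    simp
  set y := p⁻¹ x with hy
  have h4 := congrArg Fin.val h3
  rw [finRotate_pow_val] at h4
  have h5 := y.isLt
  rcases Nat.lt_or_ge (y.val + i) (m + 1) with h6 | h6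
  · rw [Nat.mod_eq_of_lt h6] at h4
    omega
  · rw [Nat.mod_eq_sub_mod h6, Nat.mod_eq_of_lt (by omega)] at h4
    omega

/-- ordered adjacent pairs as a sum -/
theorem ncard_pairs {V : Type} [Fintype V] (Γ : SimpleGraph V) (S : Finset V) :
    {q : V × V | q.1 ∈ S ∧ q.2 ∈ S ∧ Γ.Adj q.1 q.2}.ncard = AA Γ S := by
  have h1 : {q : V × V | q.1 ∈ S ∧ q.2 ∈ S ∧ Γ.Adj q.1 q.2} =
      (((S ×ˢ S).filter (fun q => Γ.Adj q.1 q.2) : Finset (V × V)) : Set (V × V)) := by
    ext q
    simp [and_assoc]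
  rw [h1, Set.ncard_coe_finset]
  unfold AA nbIn
  rw [card_filter, sum_product]
  simp only [card_filter]

/-- from the tame condition to the condition of the deterministic theorem -/
theorem compOK_of_tame {V : Type} [Fintype V] {σ τ : Equiv.Perm V} {K : ℕ} {ε : ℝ}
    (hε : ε * K ≤ 2)
    (hsp : ∀ S : Finset V, (S.card : ℝ) ≤ ε * Fintype.card V → K * EE σ τ S ≤ (K + 1) * S.card)
    (L : V → Finset ℕ) (r : ℕ → ℕ) (hr : Function.Injective r)
    (h : ∀ (c : ℕ) (C : (lowerGraph (pGraph σ τ) L r c).ConnectedComponent),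
      ((lowerGraph (pGraph σ τ) L r c).induce C.supp).Colorable 2 ∨
      (C.supp.ncard : ℝ) ≤ ε * Fintype.card V ∨
      ∀ S : Finset V, (S : Set V) ⊆ C.supp →
        ({q : V × V | q.1 ∈ S ∧ q.2 ∈ S ∧
          (lowerGraph (pGraph σ τ) L r c).Adj q.1 q.2}.ncard : ℝ) ≤ (2 + ε) * S.card) :
    ∀ c, ∀ C : (colGraph (pGraph σ τ) (fun v => (L v).image r) c).ConnectedComponent,
      CompOK _ K C := by
  intro c
  by_cases hc : ∃ c', r c' = c
  · obtain ⟨c', rfl⟩ := hc
    have heq : colGraph (pGraph σ τ) (fun v => (L v).image r) (r c') =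
        lowerGraph (pGraph σ τ) L r c' := by
      ext u v
      unfold colGraph lowerGraph
      simp only [mem_image]
      constructor
      · rintro ⟨h1, ⟨a, ha, hac⟩, ⟨b, hb, hbc⟩, d, hd, ⟨e, he, hed⟩, ⟨f, hf, hfd⟩⟩
        have e1 := hr hac
        have e2 := hr hbc
        have e3 := hr (hed.trans hfd.symm)
        subst e1 e2 e3
        exact ⟨h1, ha, hb, e, by rw [hed]; exact hd, he, hf⟩
      · rintro ⟨h1, h2, h3, b, h4, h5, h6⟩
        exact ⟨h1, ⟨c', h2, rfl⟩, ⟨c', h3, rfl⟩, r b, h4, ⟨b, h5, rfl⟩, ⟨b, h6, rfl⟩⟩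
    rw [heq]
    set Γ := lowerGraph (pGraph σ τ) L r c' with hΓ
    have hΓle : Γ ≤ pGraph σ τ := fun _ _ hh => hh.1
    intro C
    rcases h c' C with h1 | h1 | h1
    · left
      obtain ⟨col⟩ := h1
      refine ⟨fun v => if hv : v ∈ C.supp then decide (col ⟨v, hv⟩ = 0) else false, ?_⟩
      intro v w hv hvw
      have hv' : v ∈ C.supp := hv
      have hw' : w ∈ C.supp := by
        have : Γ.connectedComponentMk w = Γ.connectedComponentMk v :=
          (SimpleGraph.ConnectedComponent.connectedComponentMk_eq_of_adj hvw).symm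
        exact this.trans hv
      simp only
      rw [dif_pos hv', dif_pos hw']
      have hne := col.valid (v := ⟨v, hv'⟩) (w := ⟨w, hw'⟩) (by simpa using hvw)
      intro he
      apply hne
      have e1 : (col ⟨v, hv'⟩ = 0) ↔ (col ⟨w, hw'⟩ = 0) := by simpa using he
      revert e1
      generalize col ⟨v, hv'⟩ = a
      generalize col ⟨w, hw'⟩ = b
      revert a b
      decide
    · right
      intro H hH
      have h2 : (H.card : ℝ) ≤ ε * Fintype.card V := by
        refine le_trans ?_ h1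
        have h3 : (H : Set V) ⊆ C.supp := fun x hx => hH x hx
        have h4 := Set.ncard_le_ncard h3 (Set.toFinite _)
        rw [Set.ncard_coe_finset] at h4
        exact_mod_cast h4
      have h5 := hsp H h2
      have h6 := (AA_mono hΓle H).trans (AA_le_EE σ τ H)
      calc K * AA Γ H ≤ K * (2 * EE σ τ H) := Nat.mul_le_mul_left _ h6
        _ = 2 * (K * EE σ τ H) := by ring
        _ ≤ 2 * ((K + 1) * H.card) := Nat.mul_le_mul_left _ h5
        _ = 2 * (K + 1) * H.card := by ring
    · right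
      intro H hH
      have h2 := h1 H (fun x hx => hH x hx)
      rw [ncard_pairs] at h2
      have h3 : (K : ℝ) * AA Γ H ≤ 2 * (K + 1) * H.card := by
        have hK0 : (0 : ℝ) ≤ K := by positivity
        have hH0 : (0 : ℝ) ≤ H.card := by positivity
        calc (K : ℝ) * AA Γ H ≤ K * ((2 + ε) * H.card) := mul_le_mul_of_nonneg_left h2 hK0
          _ = (2 * K + ε * K) * H.card := by ring
          _ ≤ (2 * K + 2) * H.card := by
              apply mul_le_mul_of_nonneg_right _ hH0
              linarith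
          _ = 2 * (K + 1) * H.card := by ring
      exact_mod_cast h3
  · intro C
    left
    refine ⟨fun _ => true, ?_⟩
    intro v w _ hvw
    exfalso
    obtain ⟨-, h2, -⟩ := hvw
    rw [mem_image] at h2
    obtain ⟨a, -, ha⟩ := h2
    exact hc ⟨a, ha⟩

/-- **Theorem.** -/
theorem main_tame : ∃ ε : ℝ, 0 < ε ∧ Tendsto
    (fun n : ℕ =>
      (Nat.card {p : Equiv.Perm (Fin n) × Equiv.Perm (Fin n) //
        ∀ L : Fin n → Finset ℕ, (∀ v, 3 ≤ (L v).card) → Tame ε (unionGraph n p) L →
          ∃ c : Fin n → ℕ, (∀ v, c v ∈ L v) ∧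
            ∀ u v, (unionGraph n p).Adj u v → c u ≠ c v} : ℝ) /
        ((Nat.factorial n : ℝ) ^ 2))
    atTop (nhds 1) := by
  -- constants
  obtain ⟨ρ₂, hρ₂, hρ₂4, hnull₂⟩ := sparse_null 40 (by norm_num)
  obtain ⟨c₀, hc₀, hnull₃⟩ := mid_null (ρ₂ / 4) (by positivity)
  obtain ⟨M, hM1, hM2⟩ : ∃ M : ℕ, 6200 ≤ M ∧ 16 / c₀ ≤ M := by
    obtain ⟨M', hM'⟩ := exists_nat_ge (16 / c₀)
    refine ⟨max 6200 M', le_max_left _ _, hM'.trans ?_⟩
    exact_mod_cast le_max_right _ _
  set K : ℕ := 2 * 5 ^ M + (4 * M + 11) with hK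
  have hK0 : 0 < K := by omega
  obtain ⟨ρ₁, hρ₁, hρ₁4, hnull₁⟩ := sparse_null K hK0
  set ε : ℝ := min ρ₁ (2 / K) with hε
  have hε0 : 0 < ε := lt_min hρ₁ (by positivity)
  have hερ : ε ≤ ρ₁ := min_le_left _ _
  have hεK : ε * K ≤ 2 := by
    have h1 : ε ≤ 2 / K := min_le_right _ _
    have h2 : (0 : ℝ) < K := by exact_mod_cast hK0
    rwa [le_div_iff₀ h2] at h1
  refine ⟨ε, hε0, ?_⟩
  -- the bad events
  set B₁ : ∀ n : ℕ, PP2 n → Prop := fun n pq => ∃ S : Finset (Fin n), (S.card : ℝ) ≤ ρ₁ * n ∧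
      (K + 1) * S.card < K * EE (conj pq.1) (conj pq.2) S with hB₁
  set B₂ : ∀ n : ℕ, PP2 n → Prop := fun n pq => ∃ S : Finset (Fin n), (S.card : ℝ) ≤ ρ₂ * n ∧
      (40 + 1) * S.card < 40 * EE (conj pq.1) (conj pq.2) S with hB₂
  set B₃ : ∀ n : ℕ, PP2 n → Prop := fun n pq => ∃ S : Finset (Fin n), ρ₂ / 4 * n ≤ S.card ∧
      (S.card : ℝ) + ρ₂ / 4 * n ≤ n ∧
      2 * (S.card : ℝ) < EE (conj pq.1) (conj pq.2) S + c₀ * n with hB₃
  set Good : ∀ n : ℕ, PP2 n → Prop := fun n p =>
    ∀ L : Fin n → Finset ℕ, (∀ v, 3 ≤ (L v).card) → Tame ε (unionGraph n p) L →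
          ∃ c : Fin n → ℕ, (∀ v, c v ∈ L v) ∧
            ∀ u v, (unionGraph n p).Adj u v → c u ≠ c v with hGood
  -- for large `n` everything outside the bad events is good
  obtain ⟨N, hN⟩ := exists_nat_ge (max (K / ρ₁) (max (8 / ρ₂) (2 / c₀)))
  have hkey : ∀ n : ℕ, N + M + 2 ≤ n → ∀ pq : PP2 n, ¬ B₁ n pq → ¬ B₂ n pq → ¬ B₃ n pq →
      Good n pq := by
    intro n hn pq h1 h2 h3 L hL hT
    have hnN : (N : ℝ) ≤ n := by
      have : N ≤ n := by omega
      exact_mod_cast this
    have hn1 : (K : ℝ) / ρ₁ ≤ n := ((le_max_left _ _).trans hN).trans hnN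
    have hn2 : 8 / ρ₂ ≤ n := (((le_max_left _ _).trans (le_max_right _ _)).trans hN).trans hnN
    have hn3 : 2 / c₀ ≤ n := (((le_max_right _ _).trans (le_max_right _ _)).trans hN).trans hnN
    rw [div_le_iff₀ hρ₁] at hn1
    rw [div_le_iff₀ hρ₂] at hn2
    rw [div_le_iff₀ hc₀] at hn3
    have hn0 : (0 : ℝ) ≤ n := by positivity
    set σ := conj pq.1 with hσ
    set τ := conj pq.2 with hτ
    set s : ℕ := ⌊ρ₂ / 2 * n⌋₊ with hs
    set k : ℕ := ⌊c₀ * n⌋₊ with hk
    have hs1 : (s : ℝ) ≤ ρ₂ / 2 * n := Nat.floor_le (by positivity)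
    have hs2 : ρ₂ / 2 * n < s + 1 := Nat.lt_floor_add_one _
    have hk1 : (k : ℝ) ≤ c₀ * n := Nat.floor_le (by positivity)
    have hk2 : c₀ * n < k + 1 := Nat.lt_floor_add_one _
    have hsp : ∀ S : Finset (Fin n), (S.card : ℝ) ≤ ρ₁ * n →
        K * EE σ τ S ≤ (K + 1) * S.card := by
      intro S hS
      by_contra hcon
      push Not at hcon
      exact h1 ⟨S, hS, hcon⟩
    obtain ⟨r, hr, hr2⟩ := hT
    rw [unionGraph_eq] at hr2 ⊢
    obtain ⟨col, hcol1, hcol2⟩ := det_color (σ := σ) (τ := τ) (M := M) (K := K) (s := s)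
      (k := k) hM1 (by omega) (by omega)
      (fun x i hi hiM => conj_pow_ne hi (by omega) pq.1 x)
      (fun v => by
        have := conj_pow_ne (i := 1) (by norm_num) (by omega) pq.2 v
        simpa using this)
      (by
        intro S hS
        have h4 : (S.card : ℝ) ≤ ρ₁ * n := by
          have : (S.card : ℝ) < K := by exact_mod_cast hS
          linarith
        have h5 := hsp S h4
        have h6 : (K + 1) * S.card = K * S.card + S.card := by ring
        have h7 : K * EE σ τ S < K * (S.card + 1) := by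
          rw [mul_add, mul_one]
          omega
        have := Nat.lt_of_mul_lt_mul_left h7
        omega)
      (by
        intro S hS
        by_contra hcon
        push Not at hcon
        apply h2
        refine ⟨S, ?_, by omega⟩
        have : (S.card : ℝ) ≤ 2 * s := by exact_mod_cast hS
        linarith)
      (by
        intro S hS1 hS2
        rw [Fintype.card_fin] at hS2
        by_contra hcon
        push Not at hcon
        apply h3
        have e1 : (s : ℝ) ≤ S.card := by exact_mod_cast hS1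
        have e2 : (S.card : ℝ) + s ≤ n := by exact_mod_cast hS2
        have e3 : 2 * (S.card : ℝ) < EE σ τ S + k := by exact_mod_cast hcon
        have e4 : ρ₂ / 4 * n ≤ s := by nlinarith
        exact ⟨S, by linarith, by linarith, by linarith⟩)
      (by
        rw [Fintype.card_fin]
        have e1 : (8 : ℝ) * n ≤ k * (M + 1) := by
          have f1 : 16 ≤ c₀ * M := by
            rw [div_le_iff₀ hc₀] at hM2
            linarith
          have f2 : c₀ * n / 2 ≤ k := by linarith
          have f3 : (0 : ℝ) ≤ M := by positivity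
          calc (8 : ℝ) * n = 16 * (n / 2) := by ring
            _ ≤ (c₀ * M) * (n / 2) := mul_le_mul_of_nonneg_right f1 (by positivity)
            _ = (c₀ * n / 2) * M := by ring
            _ ≤ k * M := mul_le_mul_of_nonneg_right f2 f3
            _ ≤ k * (M + 1) := by
                apply mul_le_mul_of_nonneg_left _ (by positivity)
                linarith
        exact_mod_cast e1)
      (fun v => (L v).image r) (by
        intro v
        rw [card_image_of_injective _ hr]
        exact hL v)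
      (compOK_of_tame hεK (by
        intro S hS
        apply hsp
        rw [Fintype.card_fin] at hS
        refine hS.trans ?_
        exact mul_le_mul_of_nonneg_right hερ hn0) L r hr hr2)
    have hch : ∀ v, ∃ a, a ∈ L v ∧ r a = col v := by
      intro v
      obtain ⟨a, ha, hav⟩ := mem_image.1 (hcol1 v)
      exact ⟨a, ha, hav⟩
    choose g hg1 hg2 using hch
    refine ⟨g, hg1, ?_⟩
    intro u v huv he
    apply hcol2 u v huv
    rw [← hg2 u, ← hg2 v, he]
  -- probabilities
  have hval : ∀ n : ℕ, (Nat.card {p : Equiv.Perm (Fin n) × Equiv.Perm (Fin n) // Good n p} : ℝ) /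
      ((Nat.factorial n : ℝ) ^ 2) = pr (Good n) := by
    intro n
    unfold pr
    rw [cnt_eq_natCard]
  have hlow : ∀ n : ℕ, N + M + 2 ≤ n →
      1 - (pr (B₁ n) + pr (B₂ n) + pr (B₃ n)) ≤ pr (Good n) := by
    intro n hn
    rw [pr_not (Good n)]
    have h1 : pr (fun a => ¬ Good n a) ≤ pr (fun a => (B₁ n a ∨ B₂ n a) ∨ B₃ n a) := by
      apply pr_mono
      intro a ha
      by_contra hcon
      push Not at hcon
      exact ha (hkey n hn a hcon.1.1 hcon.1.2 hcon.2)
    have h2 := pr_or (fun a => B₁ n a ∨ B₂ n a) (B₃ n)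
    have h3 := pr_or (B₁ n) (B₂ n)
    linarith
  have hup : ∀ n : ℕ, pr (Good n) ≤ 1 := by
    intro n
    rw [pr_not (Good n)]
    have := pr_nonneg (fun a => ¬ Good n a)
    linarith
  have hlim : Tendsto (fun n : ℕ => 1 - (pr (B₁ n) + pr (B₂ n) + pr (B₃ n))) atTop (nhds 1) := by
    have h2' : Tendsto (fun n : ℕ => pr (B₂ n)) atTop (nhds 0) := hnull₂
    have := ((hnull₁.add h2').add hnull₃).const_sub 1
    simpa using this
  refine (tendsto_congr hval).2 ?_
  apply tendsto_of_tendsto_of_tendsto_of_le_of_le' hlim tendsto_const_nhds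
  · filter_upwards [eventually_ge_atTop (N + M + 2)] with n hn
    exact hlow n hn
  · exact Eventually.of_forall hup

end Run7.h216
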