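import Pool.Agent.Run7.h216.TameDefs

set_option autoImplicit false

/-!
# List assignments with few repeated common pairs
-/

namespace Run7.h216

/-- Inside `S`, the vertex `v` has at most two neighbours whose lists share at least two colours
with the list of `v`; or no neighbour shares more than two colours with `v` and every pair of
colours of `v` is shared with at most two neighbours. -/
def GoodIn {V : Type} (G : SimpleGraph V) (L : V → Finset ℕ) (S : Set V) (v : V) : Prop :=
  {u | u ∈ S ∧ G.Adj v u ∧ 2 ≤ (L v ∩ L u).card}.ncard ≤ 2 ∨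
  ((∀ u ∈ S, G.Adj v u → (L v ∩ L u).card ≤ 2) ∧
    ∀ a ∈ L v, ∀ b ∈ L v, a ≠ b → {u | u ∈ S ∧ G.Adj v u ∧ a ∈ L u ∧ b ∈ L u}.ncard ≤ 2)

/-- There are a set `S` of vertices and a rank function such that every vertex outside `S` has a
colour in no list of a neighbour in `S` or of rank at most its own, all but at most `ε * |V|`
vertices of `S` are good inside `S`, and each other vertex of `S` has a colour which is in the
lists of at most two neighbours in `S`. -/
def PairSparse (ε : ℝ) {V : Type} [Fintype V] (G : SimpleGraph V) (L : V → Finset ℕ) : Prop :=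
  ∃ (S : Set V) (t : V → ℕ),
    (∀ v, v ∉ S → ∃ x ∈ L v, ∀ u, G.Adj v u → (u ∈ S ∨ t u ≤ t v) → x ∉ L u) ∧
    ({v | v ∈ S ∧ ¬ GoodIn G L S v}.ncard : ℝ) ≤ ε * Fintype.card V ∧
    ∀ v ∈ S, ¬ GoodIn G L S v → ∃ x ∈ L v, {u | u ∈ S ∧ G.Adj v u ∧ x ∈ L u}.ncard ≤ 2

end Run7.h216
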