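import Pool.Agent.Run7.h216.Det2
import Pool.Agent.Run7.h216.Final
import Pool.Agent.Run7.h216.PairDefs

set_option autoImplicit false

/-!
# Assembly, second theorem
-/

open Finset Classical Filter

namespace Run7.h216

theorem ncard_eq_filter {V : Type} [Fintype V] (P : V → Prop) [DecidablePred P] :
    {u | P u}.ncard = (univ.filter P).card := by
  rw [← Set.ncard_coe_finset]
  congr 1
  ext u
  simp

/-- edges inside `S` -/
def inS {V : Type} (G : SimpleGraph V) (S : Set V) : SimpleGraph V where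
  Adj u v := G.Adj u v ∧ u ∈ S ∧ v ∈ S
  symm := by
    constructor
    rintro u v ⟨h1, h2, h3⟩
    exact ⟨h1.symm, h3, h2⟩
  loopless := by
    constructor
    rintro u ⟨h1, -⟩
    exact h1.ne rfl

/-- from the condition of the statement to the deterministic theorem -/
theorem det_pairSparse {V : Type} [Fintype V] {σ τ : Equiv.Perm V} {M K s k ρ : ℕ}
    (hM : 8400 ≤ M) (hK1 : 2 * 5 ^ M < K) (hK2 : 4 * M + 10 < K)
    (hcyc : ∀ x : V, ∀ i : ℕ, 0 < i → i ≤ M → (σ ^ i) x ≠ x) (hτ : ∀ v, τ v ≠ v)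
    (htiny : ∀ S : Finset V, S.card < K → EE σ τ S ≤ S.card)
    (hsmall : ∀ S : Finset V, S.card ≤ 2 * s → 40 * EE σ τ S ≤ 41 * S.card)
    (hmid : ∀ S : Finset V, s ≤ S.card → S.card + s ≤ Fintype.card V →
      EE σ τ S + k ≤ 2 * S.card)
    (hk : 8 * Fintype.card V ≤ k * (M + 1))
    (hρ : ∀ S : Finset V, S.card ≤ ρ → K * EE σ τ S ≤ (K + 1) * S.card)
    (L : V → Finset ℕ) (hL : ∀ v, 3 ≤ (L v).card) {ε : ℝ}
    (hε : K * (ε * Fintype.card V) ≤ ρ) (h : PairSparse ε (pGraph σ τ) L) :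
    ∃ col : V → ℕ, (∀ v, col v ∈ L v) ∧ ∀ u v, (pGraph σ τ).Adj u v → col u ≠ col v := by
  obtain ⟨S, t, hS1, hS2, hS3⟩ := h
  set G := pGraph σ τ with hG
  set H := inS G S with hH
  have hle : H ≤ G := fun _ _ h => h.1
  -- lists of size three
  have hch : ∀ v, ∃ T : Finset ℕ, T ⊆ L v ∧ T.card = 3 ∧ (v ∈ S → ¬ GoodIn G L S v →
      ∃ x ∈ T, {u | u ∈ S ∧ G.Adj v u ∧ x ∈ L u}.ncard ≤ 2) := by
    intro v
    by_cases hv : v ∈ S ∧ ¬ GoodIn G L S v
    · obtain ⟨x, hx, hx2⟩ := hS3 v hv.1 hv.2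
      have h1 : ({x} : Finset ℕ) ⊆ L v := singleton_subset_iff.2 hx
      obtain ⟨T, h2, h3, h4⟩ := exists_subsuperset_card_eq h1 (n := 3)
        (by rw [card_singleton]; norm_num) (hL v)
      exact ⟨T, h3, h4, fun _ _ => ⟨x, h2 (mem_singleton_self x), hx2⟩⟩
    · obtain ⟨T, h3, h4⟩ := exists_subset_card_eq (hL v)
      exact ⟨T, h3, h4, fun h5 h6 => absurd ⟨h5, h6⟩ hv⟩
  choose L' hL1 hL2 hL3 using hch
  set E₀ : Finset V := univ.filter (fun v => v ∈ S ∧ ¬ GoodIn G L S v) with hE₀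
  have hE₀card : K * E₀.card ≤ ρ := by
    rw [ncard_eq_filter] at hS2
    have h1 : ((K * E₀.card : ℕ) : ℝ) ≤ ρ := by
      push_cast
      refine le_trans ?_ hε
      apply mul_le_mul_of_nonneg_left _ (by positivity)
      exact hS2
    exact_mod_cast h1
  have hshr : ∀ v u, shr L' v u ⊆ L v ∩ L u := by
    intro v u a ha
    rw [mem_shr] at ha
    exact mem_inter.2 ⟨hL1 _ ha.1, hL1 _ ha.2⟩
  obtain ⟨col, hcol1, hcol2⟩ := det_pair3 hM hK1 hK2 hcyc hτ htiny hsmall hmid hk hρ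
    (H := H) hle L' hL2 E₀ hE₀card
    (by
      intro v hv
      by_cases hvS : v ∈ S
      · have hg : GoodIn G L S v := by
          by_contra hcon
          exact hv (mem_filter.2 ⟨mem_univ _, hvS, hcon⟩)
        rcases hg with hg | ⟨hg1, hg2⟩
        · left
          rw [ncard_eq_filter] at hg
          refine le_trans (card_le_card ?_) hg
          intro u hu
          rw [mem_lnk] at hu
          refine mem_filter.2 ⟨mem_univ _, hu.1.2.2, hu.1.1, ?_⟩
          exact hu.2.trans (card_le_card (hshr v u))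
        · right
          refine ⟨?_, ?_⟩
          · intro u hu
            exact (card_le_card (hshr v u)).trans (hg1 u hu.2.2 hu.1)
          · intro a ha b hb hab
            have h1 := hg2 a (hL1 v ha) b (hL1 v hb) hab
            rw [ncard_eq_filter] at h1
            refine le_trans (card_le_card ?_) h1
            intro u hu
            have hu' := (mem_filter.1 hu).2
            exact mem_filter.2 ⟨mem_univ _, hu'.1.2.2, hu'.1.1, hL1 u hu'.2.1, hL1 u hu'.2.2⟩
      · left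
        have h0 : lnk H L' v = ∅ := by
          rw [eq_empty_iff_forall_notMem]
          intro u hu
          exact hvS (mem_lnk.1 hu).1.2.1
        rw [h0]
        simp)
    (by
      intro v hv
      have hv' := (mem_filter.1 hv).2
      obtain ⟨x, hx, hx2⟩ := hL3 v hv'.1 hv'.2
      refine ⟨x, hx, ?_⟩
      rw [ncard_eq_filter] at hx2
      refine le_trans (card_le_card ?_) hx2
      intro u hu
      have hu' := (mem_filter.1 hu).2
      exact mem_filter.2 ⟨mem_univ _, hu'.1.2.2, hu'.1.1, hL1 u hu'.2⟩)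
  -- the vertices outside `S`
  have hx : ∀ v, ∃ x ∈ L v, v ∉ S → ∀ u, G.Adj v u → (u ∈ S ∨ t u ≤ t v) → x ∉ L u := by
    intro v
    by_cases hv : v ∈ S
    · exact ⟨col v, hL1 v (hcol1 v), fun h => absurd hv h⟩
    · obtain ⟨x, hx1, hx2⟩ := hS1 v hv
      exact ⟨x, hx1, fun _ => hx2⟩
  choose x hx1 hx2 using hx
  refine ⟨fun v => if v ∈ S then col v else x v, ?_, ?_⟩
  · intro v
    simp only
    split_ifs with hv
    · exact hL1 v (hcol1 v)
    · exact hx1 v
  · intro u v huv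
    simp only
    by_cases hu : u ∈ S
    · by_cases hv : v ∈ S
      · rw [if_pos hu, if_pos hv]
        exact hcol2 u v ⟨huv, hu, hv⟩
      · rw [if_pos hu, if_neg hv]
        intro hc
        apply hx2 v hv u huv.symm (Or.inl hu)
        rw [← hc]
        exact hL1 u (hcol1 u)
    · by_cases hv : v ∈ S
      · rw [if_neg hu, if_pos hv]
        intro hc
        apply hx2 u hu v huv (Or.inl hv)
        rw [hc]
        exact hL1 v (hcol1 v)
      · rw [if_neg hu, if_neg hv]
        intro hc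
        rcases le_total (t u) (t v) with h1 | h1
        · apply hx2 v hv u huv.symm (Or.inr h1)
          rw [← hc]
          exact hx1 u
        · apply hx2 u hu v huv (Or.inr h1)
          rw [hc]
          exact hx1 v

/-- A general assembly: a deterministic consequence of the sparseness conditions holds a.a.s. -/
theorem assemble (M₀ : ℕ) (Good : ∀ (ε : ℝ) (n : ℕ), PP2 n → Prop)
    (hdet : ∀ (M K s k ρ : ℕ) (ε : ℝ), M₀ ≤ M → 2 * 5 ^ M < K → 4 * M + 10 < K →
      ∀ n : ℕ, M < n → ∀ pq : PP2 n,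
      (∀ S : Finset (Fin n), S.card < K → EE (conj pq.1) (conj pq.2) S ≤ S.card) →
      (∀ S : Finset (Fin n), S.card ≤ 2 * s → 40 * EE (conj pq.1) (conj pq.2) S ≤ 41 * S.card) →
      (∀ S : Finset (Fin n), s ≤ S.card → S.card + s ≤ n →
        EE (conj pq.1) (conj pq.2) S + k ≤ 2 * S.card) →
      8 * n ≤ k * (M + 1) →
      (∀ S : Finset (Fin n), S.card ≤ ρ → K * EE (conj pq.1) (conj pq.2) S ≤ (K + 1) * S.card) →
      K * (ε * n) ≤ ρ → Good ε n pq) :
    ∃ ε : ℝ, 0 < ε ∧ Tendsto (fun n : ℕ => pr (Good ε n)) atTop (nhds 1) := by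
  obtain ⟨ρ₂, hρ₂, hρ₂4, hnull₂⟩ := sparse_null 40 (by norm_num)
  obtain ⟨c₀, hc₀, hnull₃⟩ := mid_null (ρ₂ / 4) (by positivity)
  obtain ⟨M, hM1, hM2⟩ : ∃ M : ℕ, M₀ ≤ M ∧ 16 / c₀ ≤ M := by
    obtain ⟨M', hM'⟩ := exists_nat_ge (16 / c₀)
    refine ⟨max M₀ M', le_max_left _ _, hM'.trans ?_⟩
    exact_mod_cast le_max_right _ _
  set K : ℕ := 2 * 5 ^ M + (4 * M + 11) with hK
  have hK0 : 0 < K := by omega
  have hKR : (0 : ℝ) < K := by exact_mod_cast hK0
  obtain ⟨ρ₁, hρ₁, hρ₁4, hnull₁⟩ := sparse_null K hK0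
  set ε : ℝ := ρ₁ / (2 * K) with hε
  have hε0 : 0 < ε := by positivity
  refine ⟨ε, hε0, ?_⟩
  set B₁ : ∀ n : ℕ, PP2 n → Prop := fun n pq => ∃ S : Finset (Fin n), (S.card : ℝ) ≤ ρ₁ * n ∧
      (K + 1) * S.card < K * EE (conj pq.1) (conj pq.2) S with hB₁
  set B₂ : ∀ n : ℕ, PP2 n → Prop := fun n pq => ∃ S : Finset (Fin n), (S.card : ℝ) ≤ ρ₂ * n ∧
      (40 + 1) * S.card < 40 * EE (conj pq.1) (conj pq.2) S with hB₂
  set B₃ : ∀ n : ℕ, PP2 n → Prop := fun n pq => ∃ S : Finset (Fin n), ρ₂ / 4 * n ≤ S.card ∧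
      (S.card : ℝ) + ρ₂ / 4 * n ≤ n ∧
      2 * (S.card : ℝ) < EE (conj pq.1) (conj pq.2) S + c₀ * n with hB₃
  obtain ⟨N, hN⟩ := exists_nat_ge (max (K / ρ₁) (max (8 / ρ₂) (max (2 / c₀) (2 / ρ₁))))
  have hkey : ∀ n : ℕ, N + M + 2 ≤ n → ∀ pq : PP2 n, ¬ B₁ n pq → ¬ B₂ n pq → ¬ B₃ n pq →
      Good ε n pq := by
    intro n hn pq h1 h2 h3
    have hnN : (N : ℝ) ≤ n := by
      have : N ≤ n := by omega
      exact_mod_cast this
    have hn1 : (K : ℝ) / ρ₁ ≤ n := ((le_max_left _ _).trans hN).trans hnN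
    have hn2 : 8 / ρ₂ ≤ n := (((le_max_left _ _).trans (le_max_right _ _)).trans hN).trans hnN
    have hn3 : 2 / c₀ ≤ n := ((((le_max_left _ _).trans (le_max_right _ _)).trans
      (le_max_right _ _)).trans hN).trans hnN
    have hn4 : 2 / ρ₁ ≤ n := ((((le_max_right _ _).trans (le_max_right _ _)).trans
      (le_max_right _ _)).trans hN).trans hnN
    rw [div_le_iff₀ hρ₁] at hn1
    rw [div_le_iff₀ hρ₂] at hn2
    rw [div_le_iff₀ hc₀] at hn3
    rw [div_le_iff₀ hρ₁] at hn4
    have hn0 : (0 : ℝ) ≤ n := by positivity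
    set σ := conj pq.1 with hσ
    set τ := conj pq.2 with hτ
    set s : ℕ := ⌊ρ₂ / 2 * n⌋₊ with hs
    set k : ℕ := ⌊c₀ * n⌋₊ with hk
    set ρ : ℕ := ⌊ρ₁ * n⌋₊ with hρ
    have hs1 : (s : ℝ) ≤ ρ₂ / 2 * n := Nat.floor_le (by positivity)
    have hs2 : ρ₂ / 2 * n < s + 1 := Nat.lt_floor_add_one _
    have hk1 : (k : ℝ) ≤ c₀ * n := Nat.floor_le (by positivity)
    have hk2 : c₀ * n < k + 1 := Nat.lt_floor_add_one _
    have hr1 : (ρ : ℝ) ≤ ρ₁ * n := Nat.floor_le (by positivity)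
    have hr2 : ρ₁ * n < ρ + 1 := Nat.lt_floor_add_one _
    have hsp : ∀ S : Finset (Fin n), (S.card : ℝ) ≤ ρ₁ * n →
        K * EE σ τ S ≤ (K + 1) * S.card := by
      intro S hS
      by_contra hcon
      push Not at hcon
      exact h1 ⟨S, hS, hcon⟩
    apply hdet M K s k ρ ε hM1 (by omega) (by omega) n (by omega) pq
    · intro S hS
      have h4 : (S.card : ℝ) ≤ ρ₁ * n := by
        have : (S.card : ℝ) < K := by exact_mod_cast hS
        linarith
      have h5 := hsp S h4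
      have h6 : (K + 1) * S.card = K * S.card + S.card := by ring
      have h7 : K * EE σ τ S < K * (S.card + 1) := by
        rw [mul_add, mul_one]
        omega
      exact Nat.lt_succ_iff.1 (Nat.lt_of_mul_lt_mul_left h7)
    · intro S hS
      by_contra hcon
      push Not at hcon
      apply h2
      refine ⟨S, ?_, by exact_mod_cast hcon⟩
      have : (S.card : ℝ) ≤ 2 * s := by exact_mod_cast hS
      linarith
    · intro S hS1 hS2
      by_contra hcon
      push Not at hcon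
      apply h3
      have e1 : (s : ℝ) ≤ S.card := by exact_mod_cast hS1
      have e2 : (S.card : ℝ) + s ≤ n := by exact_mod_cast hS2
      have e3 : 2 * (S.card : ℝ) < EE σ τ S + k := by exact_mod_cast hcon
      have e4 : ρ₂ / 4 * n ≤ s := by nlinarith
      exact ⟨S, by linarith, by linarith, by linarith⟩
    · have e1 : (8 : ℝ) * n ≤ k * (M + 1) := by
        have f1 : 16 ≤ c₀ * M := by
          rw [div_le_iff₀ hc₀] at hM2
          linarith
        have f2 : c₀ * n / 2 ≤ k := by linarith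
        have f3 : (0 : ℝ) ≤ M := by positivity
        calc (8 : ℝ) * n = 16 * (n / 2) := by ring
          _ ≤ (c₀ * M) * (n / 2) := mul_le_mul_of_nonneg_right f1 (by positivity)
          _ = (c₀ * n / 2) * M := by ring
          _ ≤ k * M := mul_le_mul_of_nonneg_right f2 f3
          _ ≤ k * (M + 1) := by
              apply mul_le_mul_of_nonneg_left _ (by positivity)
              linarith
      exact_mod_cast e1
    · intro S hS
      apply hsp
      have : (S.card : ℝ) ≤ ρ := by exact_mod_cast hS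
      linarith
    · have e1 : (K : ℝ) * (ε * n) = ρ₁ * n / 2 := by
        rw [hε]
        field_simp
      rw [e1]
      linarith
  have hlow : ∀ n : ℕ, N + M + 2 ≤ n →
      1 - (pr (B₁ n) + pr (B₂ n) + pr (B₃ n)) ≤ pr (Good ε n) := by
    intro n hn
    rw [pr_not (Good ε n)]
    have h1 : pr (fun a => ¬ Good ε n a) ≤ pr (fun a => (B₁ n a ∨ B₂ n a) ∨ B₃ n a) := by
      apply pr_mono
      intro a ha
      by_contra hcon
      push Not at hcon
      exact ha (hkey n hn a hcon.1.1 hcon.1.2 hcon.2)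
    have h2 := pr_or (fun a => B₁ n a ∨ B₂ n a) (B₃ n)
    have h3 := pr_or (B₁ n) (B₂ n)
    linarith
  have hup : ∀ n : ℕ, pr (Good ε n) ≤ 1 := by
    intro n
    rw [pr_not (Good ε n)]
    have := pr_nonneg (fun a => ¬ Good ε n a)
    linarith
  have hlim : Tendsto (fun n : ℕ => 1 - (pr (B₁ n) + pr (B₂ n) + pr (B₃ n))) atTop (nhds 1) := by
    have h2' : Tendsto (fun n : ℕ => pr (B₂ n)) atTop (nhds 0) := hnull₂
    have := ((hnull₁.add h2').add hnull₃).const_sub 1
    simpa using this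
  apply tendsto_of_tendsto_of_tendsto_of_le_of_le' hlim tendsto_const_nhds
  · filter_upwards [eventually_ge_atTop (N + M + 2)] with n hn
    exact hlow n hn
  · exact Eventually.of_forall hup

/-- **Theorem.** -/
theorem main_pair : ∃ ε : ℝ, 0 < ε ∧ Tendsto
    (fun n : ℕ =>
      (Nat.card {p : Equiv.Perm (Fin n) × Equiv.Perm (Fin n) //
        ∀ L : Fin n → Finset ℕ, (∀ v, 3 ≤ (L v).card) → PairSparse ε (unionGraph n p) L →
          ∃ c : Fin n → ℕ, (∀ v, c v ∈ L v) ∧
            ∀ u v, (unionGraph n p).Adj u v → c u ≠ c v} : ℝ) /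
        ((Nat.factorial n : ℝ) ^ 2))
    atTop (nhds 1) := by
  obtain ⟨ε, hε, h⟩ := assemble 8400 (fun ε n p =>
    ∀ L : Fin n → Finset ℕ, (∀ v, 3 ≤ (L v).card) → PairSparse ε (unionGraph n p) L →
          ∃ c : Fin n → ℕ, (∀ v, c v ∈ L v) ∧
            ∀ u v, (unionGraph n p).Adj u v → c u ≠ c v) (by
    intro M K s k ρ ε hM hK1 hK2 n hn pq h1 h2 h3 h4 h5 h6 L hL hP
    rw [unionGraph_eq] at hP ⊢
    exact det_pairSparse hM hK1 hK2 (fun x i hi hiM => conj_pow_ne hi (by omega) pq.1 x)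
      (fun v => by
        have := conj_pow_ne (i := 1) (by norm_num) (by omega) pq.2 v
        simpa using this) h1 h2
      (by
        intro S hS1 hS2
        rw [Fintype.card_fin] at hS2
        exact h3 S hS1 hS2)
      (by rw [Fintype.card_fin]; exact h4) h5 L hL (ε := ε)
      (by rw [Fintype.card_fin]; exact h6) hP)
  refine ⟨ε, hε, ?_⟩
  refine (tendsto_congr ?_).2 h
  intro n
  unfold pr
  rw [cnt_eq_natCard]

end Run7.h216
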