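import Pool.Agent.Run7.h216.AlmostProb
import Pool.Agent.Run7.h216.AlmostDefs
import Pool.Agent.Run7.h216.Final2

set_option autoImplicit false

/-!
# All but few vertices can be coloured: assembly
-/

open Finset Classical Filter

namespace Run7.h216

theorem det_almost {V : Type} [Fintype V] {σ τ : Equiv.Perm V} (ℓ : ℕ)
    (L : V → Finset ℕ) (hL : ∀ v, 3 ≤ (L v).card) (C : Set V)
    (hC : ∀ v, v ∉ C → MildOff (pGraph σ τ) L C v) :
    ∃ (R : Finset V) (c : V → ℕ), (R.card : ℝ) * (ℓ + 1) ≤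
        2 * Fintype.card V + (smallSets σ τ ℓ).card * (ℓ + 1) ∧
      (∀ v, c v ∈ L v) ∧
      ∀ u v, (pGraph σ τ).Adj u v → u ∉ C → v ∉ C → u ∉ R → v ∉ R → c u ≠ c v := by
  set G := pGraph σ τ with hG
  set H : SimpleGraph V := inSet G (fun v => v ∉ C) with hH
  have hle : H ≤ G := fun _ _ h => h.1
  have hch : ∀ v, ∃ T : Finset ℕ, T ⊆ L v ∧ T.card = 3 := fun v => exists_subset_card_eq (hL v)
  choose L' hL1 hL2 using hch
  have hshr : ∀ v u, shr L' v u ⊆ L v ∩ L u := by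
    intro v u a ha
    rw [mem_shr] at ha
    exact mem_inter.2 ⟨hL1 _ ha.1, hL1 _ ha.2⟩
  obtain ⟨Λ, h1, h2, h3⟩ := det_link hle (nb_card_le σ τ) L' hL2 (by
    intro v hv
    have hv' : ∃ u, H.Adj v u ∧ 2 < (shr L' v u).card := by
      by_contra hcon
      push Not at hcon
      exact hv hcon
    obtain ⟨u, hu1, hu2⟩ := hv'
    rcases hC v hu1.2.1 with h | h
    · have := h u hu1.2.2 hu1.1
      have := card_le_card (hshr v u)
      omega
    · rw [ncard_eq_filter] at h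
      refine le_trans (card_le_card ?_) h
      intro w hw
      rw [mem_lnk] at hw
      exact mem_filter.2 ⟨mem_univ _, hw.1.2.2, hw.1.1, hw.2.trans (card_le_card (hshr v w))⟩)
  obtain ⟨R, hR1, hR2⟩ := exists_hit h1 h2 ℓ
  obtain ⟨col, hcol1, hcol2⟩ := h3 R hR2
  exact ⟨R, col, hR1, fun v => hL1 v (hcol1 v),
    fun u v huv hu hv hu' hv' => hcol2 u v ⟨huv, hu, hv⟩ hu' hv'⟩

/-- **Theorem.** -/
theorem main_almost : ∃ K : ℝ, 0 < K ∧ Tendsto
    (fun n : ℕ =>
      (Nat.card {p : Equiv.Perm (Fin n) × Equiv.Perm (Fin n) //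
        ∀ L : Fin n → Finset ℕ, (∀ v, 3 ≤ (L v).card) → ∀ C : Set (Fin n),
          (∀ v, v ∉ C → MildOff (unionGraph n p) L C v) →
          ∃ (R : Set (Fin n)) (c : Fin n → ℕ), (R.ncard : ℝ) ≤ K * (n / Real.log n) ∧
            (∀ v, c v ∈ L v) ∧ ∀ u v, (unionGraph n p).Adj u v → u ∉ C → v ∉ C →
              u ∉ R → v ∉ R → c u ≠ c v} : ℝ) /
        ((Nat.factorial n : ℝ) ^ 2))
    atTop (nhds 1) := by
  refine ⟨2 / cl + 2, by have := cl_pos; positivity, ?_⟩
  set Good : ∀ n : ℕ, PP2 n → Prop := fun n p =>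
    ∀ L : Fin n → Finset ℕ, (∀ v, 3 ≤ (L v).card) → ∀ C : Set (Fin n),
          (∀ v, v ∉ C → MildOff (unionGraph n p) L C v) →
          ∃ (R : Set (Fin n)) (c : Fin n → ℕ),
            (R.ncard : ℝ) ≤ (2 / cl + 2) * (n / Real.log n) ∧
            (∀ v, c v ∈ L v) ∧ ∀ u v, (unionGraph n p).Adj u v → u ∉ C → v ∉ C →
              u ∉ R → v ∉ R → c u ≠ c v with hGood
  set B : ∀ n : ℕ, PP2 n → Prop := fun n pq =>
    Real.sqrt n < (smallSets (conj pq.1) (conj pq.2) ⌊cl * Real.log n⌋₊).card with hB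
  have hkey : ∀ n : ℕ, 2 ≤ n → ∀ pq : PP2 n, ¬ B n pq → Good n pq := by
    intro n hn pq hb L hL C hC
    rw [unionGraph_eq] at hC ⊢
    obtain ⟨R, c, h1, h2, h3⟩ := det_almost ⌊cl * Real.log n⌋₊ L hL C hC
    refine ⟨(R : Set (Fin n)), c, ?_, h2, fun u v huv hu hv hu' hv' =>
      h3 u v huv hu hv (fun h => hu' (mem_coe.2 h)) (fun h => hv' (mem_coe.2 h))⟩
    rw [Set.ncard_coe_finset]
    rw [Fintype.card_fin] at h1
    have hb' : ((smallSets (conj pq.1) (conj pq.2) ⌊cl * Real.log n⌋₊).card : ℝ) ≤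
        Real.sqrt n := not_lt.1 hb
    have hn2 : (2 : ℝ) ≤ n := by exact_mod_cast hn
    have hnR : (0 : ℝ) < n := by linarith
    have hlog : 0 < Real.log n := Real.log_pos (by linarith)
    have hcl := cl_pos
    have hfl : cl * Real.log n < (⌊cl * Real.log n⌋₊ : ℝ) + 1 := Nat.lt_floor_add_one _
    revert h1 hb' hfl
    generalize ((smallSets (conj pq.1) (conj pq.2) ⌊cl * Real.log n⌋₊).card : ℝ) = N
    generalize ((⌊cl * Real.log n⌋₊ : ℕ) : ℝ) = ℓ
    intro h1 hb' hfl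
    have hℓ : 0 < ℓ + 1 := lt_trans (by positivity) hfl
    have e1 : (R.card : ℝ) ≤ 2 * n / (ℓ + 1) + N := by
      rw [div_add' _ _ _ hℓ.ne', le_div_iff₀ hℓ]
      exact h1
    have e2 : 2 * (n : ℝ) / (ℓ + 1) ≤ 2 / cl * (n / Real.log n) := by
      calc 2 * (n : ℝ) / (ℓ + 1) ≤ 2 * n / (cl * Real.log n) := by
            apply div_le_div_of_nonneg_left (by positivity) (by positivity) hfl.le
        _ = 2 / cl * (n / Real.log n) := by field_simp
    have e3 : Real.sqrt n ≤ 2 * (n / Real.log n) := by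
      have hs : 0 < Real.sqrt n := Real.sqrt_pos.2 hnR
      have f1 : Real.log (Real.sqrt n) ≤ Real.sqrt n - 1 := Real.log_le_sub_one_of_pos hs
      have f2 : Real.log n = 2 * Real.log (Real.sqrt n) := by
        rw [Real.log_sqrt hnR.le]
        ring
      rw [← mul_div_assoc, le_div_iff₀ hlog, f2]
      have f3 : Real.sqrt n * Real.sqrt n = n := Real.mul_self_sqrt hnR.le
      nlinarith
    calc (R.card : ℝ) ≤ 2 * n / (ℓ + 1) + N := e1
      _ ≤ 2 / cl * (n / Real.log n) + 2 * (n / Real.log n) := by linarith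
      _ = (2 / cl + 2) * (n / Real.log n) := by ring
  have hlow : ∀ n : ℕ, 2 ≤ n → 1 - pr (B n) ≤ pr (Good n) := by
    intro n hn
    rw [pr_not (Good n)]
    have h1 : pr (fun a => ¬ Good n a) ≤ pr (B n) := by
      apply pr_mono
      intro a ha
      by_contra hcon
      exact ha (hkey n hn a hcon)
    linarith
  have hup : ∀ n : ℕ, pr (Good n) ≤ 1 := by
    intro n
    rw [pr_not (Good n)]
    have := pr_nonneg (fun a => ¬ Good n a)
    linarith
  have hlim : Tendsto (fun n : ℕ => 1 - pr (B n)) atTop (nhds 1) := by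
    have := small_null.const_sub 1
    simpa using this
  have hfin : Tendsto (fun n : ℕ => pr (Good n)) atTop (nhds 1) := by
    apply tendsto_of_tendsto_of_tendsto_of_le_of_le' hlim tendsto_const_nhds
    · filter_upwards [eventually_ge_atTop 2] with n hn
      exact hlow n hn
    · exact Eventually.of_forall hup
  refine (tendsto_congr ?_).2 hfin
  intro n
  unfold pr
  rw [cnt_eq_natCard]

end Run7.h216
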