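import Pool.Agent.Run7.h216.Almost

set_option autoImplicit false

/-!
# Hitting the subgraphs of minimum degree two of a graph with few edges
-/

open Finset Classical

namespace Run7.h216

/-- minimum degree at least two -/
def cyc {W : Type} (Λ : SimpleGraph W) (C : Finset W) : Prop :=
  C.Nonempty ∧ ∀ a ∈ C, 2 ≤ (nbIn Λ C a).card

/-- minimal sets of minimum degree at least two -/
def minc {W : Type} (Λ : SimpleGraph W) (C : Finset W) : Prop :=
  cyc Λ C ∧ ∀ C', C' ⊂ C → ¬ cyc Λ C'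

theorem exists_minc {W : Type} {Λ : SimpleGraph W} (C : Finset W) (h : cyc Λ C) :
    ∃ C₀ ⊆ C, minc Λ C₀ := by
  induction C using Finset.strongInduction with
  | _ C ih =>
    by_cases hm : minc Λ C
    · exact ⟨C, Subset.refl _, hm⟩
    · have : ∃ C', C' ⊂ C ∧ cyc Λ C' := by
        by_contra hcon
        push Not at hcon
        exact hm ⟨h, hcon⟩
      obtain ⟨C', h1, h2⟩ := this
      obtain ⟨C₀, h3, h4⟩ := ih C' h1 h2
      exact ⟨C₀, h3.trans h1.subset, h4⟩

theorem AA_super {W : Type} (Λ : SimpleGraph W) (A B : Finset W) :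
    AA Λ A + AA Λ B ≤ AA Λ (A ∪ B) + AA Λ (A ∩ B) := by
  have e1 : A ∪ B = A ∪ (B \ A) := (union_sdiff_self_eq_union).symm
  have d1 : Disjoint A (B \ A) := disjoint_sdiff
  have e2 : B = (A ∩ B) ∪ (B \ A) := by
    ext x
    simp only [mem_union, mem_inter, mem_sdiff]
    tauto
  have d2 : Disjoint (A ∩ B) (B \ A) := disjoint_of_subset_left inter_subset_left d1
  have h1 := AA_union (G := Λ) d1
  have h2 := AA_union (G := Λ) d2
  rw [← e1] at h1
  rw [← e2] at h2
  have h3 : XX Λ (A ∩ B) (B \ A) ≤ XX Λ A (B \ A) := sum_le_sum_of_subset inter_subset_left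
  omega

theorem cyc.AA_ge {W : Type} {Λ : SimpleGraph W} {C : Finset W} (h : cyc Λ C) :
    2 * C.card ≤ AA Λ C := by
  have h1 : ∑ _a ∈ C, 2 ≤ AA Λ C := sum_le_sum (fun a ha => h.2 a ha)
  rwa [sum_const, smul_eq_mul, mul_comm] at h1

theorem deg_eq_two {W : Type} {Λ : SimpleGraph W} (hA : ∀ J, AA Λ J ≤ 2 * J.card)
    {C : Finset W} (h : cyc Λ C) {a : W} (ha : a ∈ C) : (nbIn Λ C a).card = 2 := by
  by_contra hcon
  have h1 := h.2 a ha
  have h2 : ∑ _b ∈ C, 2 < AA Λ C := sum_lt_sum (fun b hb => h.2 b hb) ⟨a, ha, by omega⟩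
  rw [sum_const, smul_eq_mul, mul_comm] at h2
  have := hA C
  omega

theorem minc_eq {W : Type} {Λ : SimpleGraph W} (hA : ∀ J, AA Λ J ≤ 2 * J.card)
    {C C' : Finset W} (h : minc Λ C) (h' : minc Λ C') (hne' : ∃ x, x ∈ C ∧ x ∈ C') : C = C' := by
  have hne : (C ∩ C').Nonempty := by
    obtain ⟨x, hx⟩ := hne'
    exact ⟨x, mem_inter.2 hx⟩
  have h1 := h.1.AA_ge
  have h2 := h'.1.AA_ge
  have h3 := AA_super Λ C C'
  have h4 := hA (C ∪ C')
  have h5 := card_union_add_card_inter C C'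
  have hI : 2 * (C ∩ C').card ≤ AA Λ (C ∩ C') := by omega
  have hle : ∀ a ∈ C ∩ C', (nbIn Λ (C ∩ C') a).card ≤ 2 := by
    intro a ha
    rw [← deg_eq_two hA h.1 (mem_inter.1 ha).1]
    exact card_le_card (nbIn_mono inter_subset_left a)
  have hcyc : cyc Λ (C ∩ C') := by
    refine ⟨hne, ?_⟩
    intro a ha
    by_contra hcon
    push Not at hcon
    have h6 : AA Λ (C ∩ C') < ∑ _b ∈ C ∩ C', 2 := sum_lt_sum hle ⟨a, ha, by omega⟩
    rw [sum_const, smul_eq_mul, mul_comm] at h6
    omega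
  have e1 : C ∩ C' = C := by
    by_contra hcon
    exact h.2 _ (Finset.ssubset_iff_subset_ne.2 ⟨inter_subset_left, hcon⟩) hcyc
  have e2 : C ∩ C' = C' := by
    by_contra hcon
    exact h'.2 _ (Finset.ssubset_iff_subset_ne.2 ⟨inter_subset_right, hcon⟩) hcyc
  rw [← e1, e2]

/-- sets with at least as many edges as vertices and at most `ℓ` vertices -/
noncomputable def smallSets {V : Type} [Fintype V] (σ τ : Equiv.Perm V) (ℓ : ℕ) :
    Finset (Finset V) :=
  univ.filter (fun S => S.Nonempty ∧ S.card ≤ ℓ ∧ S.card ≤ EE σ τ S)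

/-- The hitting set. -/
theorem exists_hit {V : Type} [Fintype V] {σ τ : Equiv.Perm V} {Λ : SimpleGraph (V × Bool)}
    (hL : Lift (pGraph σ τ) Λ) (hA : ∀ J, AA Λ J ≤ 2 * J.card) (ℓ : ℕ) :
    ∃ R : Finset V, (R.card : ℝ) * (ℓ + 1) ≤
        2 * Fintype.card V + (smallSets σ τ ℓ).card * (ℓ + 1) ∧
      ∀ C : Finset (V × Bool), C.Nonempty → (∀ a ∈ C, 2 ≤ (nbIn Λ C a).card) →
        ∃ a ∈ C, a.1 ∈ R := by
  -- long sets
  set F : Finset (Finset (V × Bool)) := univ.filter (fun C => minc Λ C ∧ ℓ + 1 ≤ C.card) with hF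
  have hdisj : ∀ C ∈ F, ∀ C' ∈ F, C ≠ C' → Disjoint C C' := by
    intro C hC C' hC' hne
    by_contra hcon
    rw [not_disjoint_iff] at hcon
    exact hne (minc_eq hA (mem_filter.1 hC).2.1 (mem_filter.1 hC').2.1 hcon)
  have hcard : F.card * (ℓ + 1) ≤ 2 * Fintype.card V := by
    have h1 : ∑ C ∈ F, C.card = (F.biUnion id).card := by
      rw [card_biUnion]
      · rfl
      · intro C hC C' hC' hne
        exact hdisj C hC C' hC' hne
    have h2 : (F.biUnion id).card ≤ 2 * Fintype.card V := by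
      refine (card_le_univ _).trans ?_
      rw [Fintype.card_prod, Fintype.card_bool]
      omega
    have h3 : ∑ _C ∈ F, (ℓ + 1) ≤ ∑ C ∈ F, C.card :=
      sum_le_sum (fun C hC => (mem_filter.1 hC).2.2)
    rw [sum_const, smul_eq_mul] at h3
    omega
  have hrep : ∀ C : Finset (V × Bool), ∃ v : Option V, C ∈ F → ∃ a ∈ C, v = some a.1 := by
    intro C
    by_cases hC : C ∈ F
    · obtain ⟨a, ha⟩ := (mem_filter.1 hC).2.1.1.1
      exact ⟨some a.1, fun _ => ⟨a, ha, rfl⟩⟩
    · exact ⟨none, fun h => absurd h hC⟩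
  choose rep hrep using hrep
  -- short sets
  have hrep' : ∀ S : Finset V, ∃ v : Option V, S ∈ smallSets σ τ ℓ → ∃ a ∈ S, v = some a := by
    intro S
    by_cases hS : S ∈ smallSets σ τ ℓ
    · obtain ⟨a, ha⟩ := (mem_filter.1 hS).2.1
      exact ⟨some a, fun _ => ⟨a, ha, rfl⟩⟩
    · exact ⟨none, fun h => absurd h hS⟩
  choose rep' hrep' using hrep'
  set R : Finset V := univ.filter (fun v => some v ∈ F.image rep) ∪
    univ.filter (fun v => some v ∈ (smallSets σ τ ℓ).image rep') with hR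
  refine ⟨R, ?_, ?_⟩
  · have h1 : (univ.filter (fun v => some v ∈ F.image rep)).card ≤ F.card := by
      refine le_trans ?_ (card_image_le (s := F) (f := rep))
      apply card_le_card_of_injOn some
      · intro v hv
        exact (mem_filter.1 hv).2
      · intro v _ w _ h
        exact Option.some.inj h
    have h2 : (univ.filter (fun v => some v ∈ (smallSets σ τ ℓ).image rep')).card ≤
        (smallSets σ τ ℓ).card := by
      refine le_trans ?_ (card_image_le (s := smallSets σ τ ℓ) (f := rep'))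
      apply card_le_card_of_injOn some
      · intro v hv
        exact (mem_filter.1 hv).2
      · intro v _ w _ h
        exact Option.some.inj h
    have h3 : R.card ≤ F.card + (smallSets σ τ ℓ).card := (card_union_le _ _).trans (by omega)
    have h4 : R.card * (ℓ + 1) ≤ 2 * Fintype.card V + (smallSets σ τ ℓ).card * (ℓ + 1) := by
      calc R.card * (ℓ + 1) ≤ (F.card + (smallSets σ τ ℓ).card) * (ℓ + 1) :=
            Nat.mul_le_mul_right _ h3
        _ = F.card * (ℓ + 1) + (smallSets σ τ ℓ).card * (ℓ + 1) := by ring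
        _ ≤ _ := Nat.add_le_add_right hcard _
    exact_mod_cast h4
  · intro C hC1 hC2
    obtain ⟨C₀, hC₀, hm⟩ := exists_minc (Λ := Λ) C ⟨hC1, hC2⟩
    by_cases hlong : ℓ + 1 ≤ C₀.card
    · have hF' : C₀ ∈ F := mem_filter.2 ⟨mem_univ _, hm, hlong⟩
      obtain ⟨a, ha, he⟩ := hrep C₀ hF'
      refine ⟨a, hC₀ ha, ?_⟩
      rw [hR, mem_union, mem_filter]
      left
      refine ⟨mem_univ _, ?_⟩
      rw [← he]
      exact mem_image_of_mem _ hF'
    · have h1 := hm.1.AA_ge
      have h2 := hL.AA_le C₀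
      have h3 := AA_le_EE σ τ (supp C₀)
      have h4 := card_supp_le C₀
      have hS : supp C₀ ∈ smallSets σ τ ℓ := by
        refine mem_filter.2 ⟨mem_univ _, ?_, by omega, by omega⟩
        obtain ⟨a, ha⟩ := hm.1.1
        exact ⟨a.1, mem_supp.2 ⟨a.2, ha⟩⟩
      obtain ⟨v, hv, he⟩ := hrep' _ hS
      obtain ⟨i, hi⟩ := mem_supp.1 hv
      refine ⟨(v, i), hC₀ hi, ?_⟩
      rw [hR, mem_union, mem_filter, mem_filter]
      right
      refine ⟨mem_univ _, ?_⟩
      rw [← he]
      exact mem_image_of_mem _ hS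

end Run7.h216
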