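import Pool.Agent.Run7.h216.Prob
import Pool.Agent.Run7.h216.AlmostHit

set_option autoImplicit false

/-!
# The number of small sets with many edges
-/

open Finset Classical Filter

namespace Run7.h216

/-- expected number of sets of size `s` with at least `s` edges -/
theorem expect_size {n : ℕ} {s : ℕ} (hs0 : 0 < s) (hs : 4 * s ≤ n) :
    ∑ pq : PP2 n, (((powersetCard s (univ : Finset (Fin n))).filter
      (fun S => s ≤ EE (conj pq.1) (conj pq.2) S)).card : ℝ) ≤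
      (n.factorial : ℝ) ^ 2 * (4 * C1 ^ s) := by
  have hsR : (0 : ℝ) < s := by exact_mod_cast hs0
  have hnR : (4 : ℝ) * s ≤ n := by exact_mod_cast hs
  have hn0 : 0 < n := by omega
  set x : ℝ := (n : ℝ) / s with hx
  have hx4 : 4 ≤ x := by
    rw [hx, le_div_iff₀ hsR]
    exact hnR
  have hx0 : 0 < x := by linarith
  have h1 : (∑ pq : PP2 n, (((powersetCard s (univ : Finset (Fin n))).filter
      (fun S => s ≤ EE (conj pq.1) (conj pq.2) S)).card : ℝ)) * x ^ s ≤
      (n.factorial : ℝ) ^ 2 * (ww x n s) ^ 2 / n.choose s := by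
    rw [← pair_sum x (show s ≤ n by omega), sum_mul]
    apply sum_le_sum
    intro pq _
    rw [card_eq_sum_ones, Nat.cast_sum, sum_mul, sum_filter]
    apply sum_le_sum
    intro S _
    split_ifs with h
    · rw [Nat.cast_one, one_mul]
      exact pow_le_pow_right₀ (by linarith) h
    · positivity
  have h2 : ww x n s ≤ 2 * (4 * x / 3) ^ s * (1 + 3 / x) ^ n := size_bound hx4 n s hn0
  have h3 : (ww x n s) ^ 2 ≤ (2 * (4 * x / 3) ^ s * (1 + 3 / x) ^ n) ^ 2 :=
    pow_le_pow_left₀ (ww_nonneg hx0.le n s) h2 2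
  have h4 : (2 * (4 * x / 3) ^ s * (1 + 3 / x) ^ n) ^ 2 =
      4 * (4 * x / 3) ^ (2 * s) * (1 + 3 / x) ^ (2 * n) := by
    rw [mul_comm 2 s, mul_comm 2 n, pow_mul, pow_mul]
    ring
  rw [h4] at h3
  have h5 := one_add_pow_le hx0 n
  have h6 : 6 * (n : ℝ) / x = s * 6 := by
    rw [hx]
    have : (n : ℝ) ≠ 0 := by positivity
    field_simp
  rw [h6, Real.exp_nat_mul] at h5
  have h7 : x ^ s ≤ n.choose s := choose_ge (by omega) hs0
  have hC : (0 : ℝ) < n.choose s := lt_of_lt_of_le (by positivity) h7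
  have h8 : (ww x n s) ^ 2 ≤ 4 * (4 * x / 3) ^ (2 * s) * (Real.exp 6) ^ s :=
    h3.trans (mul_le_mul_of_nonneg_left h5 (by positivity))
  have h9 : 4 * (4 * x / 3) ^ (2 * s) * (Real.exp 6) ^ s = 4 * C1 ^ s * (x ^ s * x ^ s) := by
    unfold C1
    rw [pow_mul, mul_pow, ← mul_pow x x]
    have : (4 * x / 3) ^ 2 = 16 / 9 * (x * x) := by ring
    rw [this, mul_pow (16 / 9) (x * x)]
    ring
  rw [h9] at h8
  rw [le_div_iff₀ hC] at h1
  have hC10 : 0 ≤ C1 := by linarith [one_le_C1]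
  have hf : (0 : ℝ) ≤ (n.factorial : ℝ) ^ 2 := by positivity
  have hxs : 0 < x ^ s := by positivity
  have hE0 : 0 ≤ ∑ pq : PP2 n, (((powersetCard s (univ : Finset (Fin n))).filter
      (fun S => s ≤ EE (conj pq.1) (conj pq.2) S)).card : ℝ) :=
    sum_nonneg (fun _ _ => Nat.cast_nonneg _)
  revert h1 hE0
  generalize (∑ pq : PP2 n, (((powersetCard s (univ : Finset (Fin n))).filter
      (fun S => s ≤ EE (conj pq.1) (conj pq.2) S)).card : ℝ)) = E
  intro h1 hE0
  have h10 : E * x ^ s * x ^ s ≤ (n.factorial : ℝ) ^ 2 * (4 * C1 ^ s * (x ^ s * x ^ s)) := by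
    calc E * x ^ s * x ^ s ≤ E * x ^ s * n.choose s :=
          mul_le_mul_of_nonneg_left h7 (by positivity)
      _ ≤ (n.factorial : ℝ) ^ 2 * (ww x n s) ^ 2 := h1
      _ ≤ _ := mul_le_mul_of_nonneg_left h8 hf
  have h11 : E * (x ^ s * x ^ s) ≤ (n.factorial : ℝ) ^ 2 * (4 * C1 ^ s) * (x ^ s * x ^ s) := by
    calc E * (x ^ s * x ^ s) = E * x ^ s * x ^ s := by ring
      _ ≤ _ := h10
      _ = _ := by ring
  exact le_of_mul_le_mul_right h11 (by positivity)

/-- expected number of small sets -/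
theorem expect_small {n ℓ : ℕ} (hs : 4 * ℓ ≤ n) :
    ∑ pq : PP2 n, ((smallSets (conj pq.1) (conj pq.2) ℓ).card : ℝ) ≤
      (n.factorial : ℝ) ^ 2 * (4 * ℓ * C1 ^ ℓ) := by
  have h1 : ∀ pq : PP2 n, ((smallSets (conj pq.1) (conj pq.2) ℓ).card : ℝ) ≤
      ∑ s ∈ Icc 1 ℓ, (((powersetCard s (univ : Finset (Fin n))).filter
      (fun S => s ≤ EE (conj pq.1) (conj pq.2) S)).card : ℝ) := by
    intro pq
    have h2 : (smallSets (conj pq.1) (conj pq.2) ℓ) ⊆ (Icc 1 ℓ).biUnion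
        (fun s => (powersetCard s (univ : Finset (Fin n))).filter
      (fun S => s ≤ EE (conj pq.1) (conj pq.2) S)) := by
      intro S hS
      obtain ⟨h3, h4, h5⟩ := (mem_filter.1 hS).2
      rw [mem_biUnion]
      refine ⟨S.card, mem_Icc.2 ⟨card_pos.2 h3, h4⟩, ?_⟩
      rw [mem_filter, mem_powersetCard]
      exact ⟨⟨subset_univ _, rfl⟩, h5⟩
    exact_mod_cast (card_le_card h2).trans card_biUnion_le
  refine (sum_le_sum (fun pq _ => h1 pq)).trans ?_
  rw [sum_comm]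
  have h3 : ∀ s ∈ Icc 1 ℓ, ∑ pq : PP2 n, (((powersetCard s (univ : Finset (Fin n))).filter
      (fun S => s ≤ EE (conj pq.1) (conj pq.2) S)).card : ℝ) ≤
      (n.factorial : ℝ) ^ 2 * (4 * C1 ^ ℓ) := by
    intro s hs'
    rw [mem_Icc] at hs'
    refine (expect_size (by omega) (by omega)).trans ?_
    have : C1 ^ s ≤ C1 ^ ℓ := pow_le_pow_right₀ one_le_C1 hs'.2
    gcongr
  refine (sum_le_sum h3).trans ?_
  rw [sum_const, Nat.card_Icc, nsmul_eq_mul]
  have : ((ℓ + 1 - 1 : ℕ) : ℝ) = ℓ := by simp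
  rw [this]
  apply le_of_eq
  ring

/-- Markov's inequality for the number of small sets -/
theorem markov_small {n ℓ : ℕ} (hs : 4 * ℓ ≤ n) {T : ℝ} (hT : 0 < T) :
    pr (fun pq : PP2 n => T < (smallSets (conj pq.1) (conj pq.2) ℓ).card) ≤
      4 * ℓ * C1 ^ ℓ / T := by
  unfold pr
  rw [div_le_div_iff₀ (fact_pos' n) hT]
  have h1 := expect_small hs
  refine le_trans ?_ (h1.trans (le_of_eq (by ring)))
  unfold cnt evs
  rw [card_eq_sum_ones, Nat.cast_sum, sum_mul, sum_filter]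
  apply sum_le_sum
  intro pq _
  split_ifs with h
  · rw [Nat.cast_one, one_mul]
    exact h.le
  · positivity

/-- the constant of the logarithm -/
noncomputable def cl : ℝ := 1 / (4 * Real.log C1)

theorem log_C1_pos : 0 < Real.log C1 := by
  apply Real.log_pos
  unfold C1
  have := Real.one_le_exp (x := 6) (by norm_num)
  linarith

theorem cl_pos : 0 < cl := by
  unfold cl
  have := log_C1_pos
  positivity

theorem small_null : Tendsto (fun n : ℕ => pr (fun pq : PP2 n =>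
    Real.sqrt n < (smallSets (conj pq.1) (conj pq.2) ⌊cl * Real.log n⌋₊).card)) atTop
    (nhds 0) := by
  have hC1 : 0 < C1 := by linarith [one_le_C1]
  have hbound : ∀ n : ℕ, 0 < n → 4 * ⌊cl * Real.log n⌋₊ ≤ n →
      pr (fun pq : PP2 n =>
        Real.sqrt n < (smallSets (conj pq.1) (conj pq.2) ⌊cl * Real.log n⌋₊).card) ≤
      4 * cl * (Real.log n / (n : ℝ) ^ (1 / 4 : ℝ)) := by
    intro n hn h4
    have hnR : (0 : ℝ) < n := by exact_mod_cast hn
    have hn1 : (1 : ℝ) ≤ n := by exact_mod_cast hn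
    have hlog : 0 ≤ Real.log n := Real.log_nonneg hn1
    refine (markov_small h4 (Real.sqrt_pos.2 hnR)).trans ?_
    set ℓ := ⌊cl * Real.log n⌋₊ with hℓ
    have h5 : (ℓ : ℝ) ≤ cl * Real.log n := Nat.floor_le (mul_nonneg cl_pos.le hlog)
    have h6 : C1 ^ ℓ ≤ (n : ℝ) ^ (1 / 4 : ℝ) := by
      rw [Real.rpow_def_of_pos hnR]
      have h7 : C1 ^ ℓ = Real.exp (ℓ * Real.log C1) := by
        rw [Real.exp_nat_mul, Real.exp_log hC1]
      rw [h7]
      apply Real.exp_le_exp.2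
      calc (ℓ : ℝ) * Real.log C1 ≤ cl * Real.log n * Real.log C1 :=
            mul_le_mul_of_nonneg_right h5 log_C1_pos.le
        _ = Real.log n * (1 / 4) := by
            unfold cl
            have := log_C1_pos.ne'
            field_simp
    have h8 : Real.sqrt n = (n : ℝ) ^ (1 / 4 : ℝ) * (n : ℝ) ^ (1 / 4 : ℝ) := by
      rw [← Real.rpow_add hnR, Real.sqrt_eq_rpow]
      norm_num
    have h9 : 0 < (n : ℝ) ^ (1 / 4 : ℝ) := Real.rpow_pos_of_pos hnR _
    rw [h8, div_le_iff₀ (by positivity)]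
    calc 4 * (ℓ : ℝ) * C1 ^ ℓ ≤ 4 * (cl * Real.log n) * (n : ℝ) ^ (1 / 4 : ℝ) := by
          have : 0 ≤ cl * Real.log n := mul_nonneg cl_pos.le hlog
          gcongr
      _ = 4 * cl * (Real.log n / (n : ℝ) ^ (1 / 4 : ℝ)) *
          ((n : ℝ) ^ (1 / 4 : ℝ) * (n : ℝ) ^ (1 / 4 : ℝ)) := by
          field_simp
  have hlim1 : Tendsto (fun x : ℝ => Real.log x / x ^ (1 / 4 : ℝ)) atTop (nhds 0) :=
    (isLittleO_log_rpow_atTop (by norm_num : (0 : ℝ) < 1 / 4)).tendsto_div_nhds_zero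
  have hlim2 : Tendsto (fun n : ℕ => 4 * cl * (Real.log n / (n : ℝ) ^ (1 / 4 : ℝ))) atTop
      (nhds 0) := by
    have := (hlim1.comp tendsto_natCast_atTop_atTop).const_mul (4 * cl)
    simpa using this
  have hev : ∀ᶠ n : ℕ in atTop, 4 * ⌊cl * Real.log n⌋₊ ≤ n := by
    have hlim3 : Tendsto (fun x : ℝ => Real.log x / x ^ (1 : ℝ)) atTop (nhds 0) :=
      (isLittleO_log_rpow_atTop (by norm_num : (0 : ℝ) < 1)).tendsto_div_nhds_zero
    have hlim4 := (hlim3.comp tendsto_natCast_atTop_atTop)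
    have h10 : ∀ᶠ n : ℕ in atTop, Real.log n / (n : ℝ) ^ (1 : ℝ) < 1 / (4 * cl) := by
      apply hlim4.eventually_lt_const
      have := cl_pos
      positivity
    filter_upwards [h10, eventually_gt_atTop 0] with n h11 hn
    have hnR : (0 : ℝ) < n := by exact_mod_cast hn
    have hn1 : (1 : ℝ) ≤ n := by exact_mod_cast hn
    have hlog : 0 ≤ Real.log n := Real.log_nonneg hn1
    rw [Real.rpow_one, div_lt_div_iff₀ hnR (by have := cl_pos; positivity)] at h11
    have h5 : ((⌊cl * Real.log n⌋₊ : ℕ) : ℝ) ≤ cl * Real.log n :=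
      Nat.floor_le (mul_nonneg cl_pos.le hlog)
    have h12 : (4 : ℝ) * ((⌊cl * Real.log n⌋₊ : ℕ) : ℝ) ≤ n := by nlinarith
    exact_mod_cast h12
  apply squeeze_zero' (Eventually.of_forall (fun n => pr_nonneg _)) _ hlim2
  filter_upwards [hev, eventually_gt_atTop 0] with n h1 h2
  exact hbound n h2 h1

end Run7.h216
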