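import Pool.Agent.Run7.h216.Strings

set_option autoImplicit false

/-!
# Averaging over pairs of permutations
-/

open Finset Classical

namespace Run7.h216

/-- the cyclic permutation attached to `p` -/
def conj {n : ℕ} (p : Equiv.Perm (Fin n)) : Equiv.Perm (Fin n) := p * finRotate n * p⁻¹

theorem conj_apply {n : ℕ} (p : Equiv.Perm (Fin n)) (v : Fin n) :
    conj p v = p (finRotate n (p.symm v)) := rfl

theorem E1_conj {n : ℕ} (p : Equiv.Perm (Fin n)) (S : Finset (Fin n)) :
    E1 (conj p) S = E1 (finRotate n) (pre p S) := by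
  symm
  apply E1_congr p
  · intro v
    exact mem_pre
  · intro v
    rw [conj_apply, Equiv.symm_apply_apply]

/-- total weight of a set over all permutations -/
noncomputable def TT {n : ℕ} (x : ℝ) (S : Finset (Fin n)) : ℝ :=
  ∑ p : Equiv.Perm (Fin n), x ^ E1 (conj p) S

/-- total weight of all sets of size `s` for the standard cycle -/
noncomputable def ww (x : ℝ) (n s : ℕ) : ℝ :=
  ∑ A ∈ powersetCard s (univ : Finset (Fin n)), x ^ E1 (finRotate n) A

theorem ww_nonneg {x : ℝ} (hx : 0 ≤ x) (n s : ℕ) : 0 ≤ ww x n s :=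
  sum_nonneg (fun _ _ => pow_nonneg hx _)

theorem exists_perm {n : ℕ} {S S' : Finset (Fin n)} (h : S.card = S'.card) :
    ∃ r : Equiv.Perm (Fin n), ∀ i, r i ∈ S' ↔ i ∈ S := by
  have e : {x // x ∈ S} ≃ {x // x ∈ S'} := Finset.equivOfCardEq h
  refine ⟨e.extendSubtype, fun i => ?_⟩
  by_cases hi : i ∈ S
  · exact ⟨fun _ => hi, fun _ => e.extendSubtype_mem i hi⟩
  · exact ⟨fun h => absurd h (e.extendSubtype_not_mem i hi), fun h => absurd h hi⟩

theorem TT_eq {n : ℕ} (x : ℝ) {S S' : Finset (Fin n)} (h : S.card = S'.card) :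
    TT x S = TT x S' := by
  obtain ⟨r, hr⟩ := exists_perm h
  unfold TT
  rw [← Equiv.sum_comp (Equiv.mulLeft r) (fun p => x ^ E1 (conj p) S')]
  apply sum_congr rfl
  intro p _
  rw [E1_conj, E1_conj]
  congr 2
  ext i
  rw [mem_pre, mem_pre, Equiv.coe_mulLeft, Equiv.Perm.mul_apply, hr]

theorem sum_TT {n : ℕ} (x : ℝ) (s : ℕ) :
    ∑ S ∈ powersetCard s (univ : Finset (Fin n)), TT x S = n.factorial * ww x n s := by
  unfold TT
  rw [sum_comm]
  have : ∀ p : Equiv.Perm (Fin n), ∑ S ∈ powersetCard s (univ : Finset (Fin n)),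
      x ^ E1 (conj p) S = ww x n s := by
    intro p
    unfold ww
    apply sum_bij (fun S _ => pre p S)
    · intro S hS
      rw [mem_powersetCard] at hS ⊢
      exact ⟨subset_univ _, by rw [card_pre]; exact hS.2⟩
    · intro S _ S' _ h
      ext i
      have := Finset.ext_iff.1 h (p.symm i)
      rwa [mem_pre, mem_pre, Equiv.apply_symm_apply] at this
    · intro A hA
      refine ⟨pre p.symm A, ?_, ?_⟩
      · rw [mem_powersetCard] at hA ⊢
        exact ⟨subset_univ _, by rw [card_pre]; exact hA.2⟩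
      · ext i
        rw [mem_pre, mem_pre, Equiv.symm_apply_apply]
    · intro S _
      rw [E1_conj]
  rw [sum_congr rfl (fun p _ => this p), sum_const, nsmul_eq_mul, card_univ, Fintype.card_perm,
    Fintype.card_fin]

theorem choose_mul_TT {n : ℕ} (x : ℝ) {s : ℕ} {S : Finset (Fin n)} (hS : S.card = s) :
    (n.choose s : ℝ) * TT x S = n.factorial * ww x n s := by
  rw [← sum_TT, sum_congr rfl (fun S' hS' => TT_eq x (((mem_powersetCard.1 hS').2).trans hS.symm)),
    sum_const, nsmul_eq_mul, card_powersetCard, card_univ, Fintype.card_fin]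

/-- expectation of the weighted number of sets -/
theorem pair_sum {n : ℕ} (x : ℝ) {s : ℕ} (hs : s ≤ n) :
    ∑ pq : Equiv.Perm (Fin n) × Equiv.Perm (Fin n),
      ∑ S ∈ powersetCard s (univ : Finset (Fin n)), x ^ EE (conj pq.1) (conj pq.2) S =
      (n.factorial : ℝ) ^ 2 * (ww x n s) ^ 2 / n.choose s := by
  have hC : (0 : ℝ) < n.choose s := by exact_mod_cast Nat.choose_pos hs
  rw [sum_comm]
  have h1 : ∀ S ∈ powersetCard s (univ : Finset (Fin n)),
      ∑ pq : Equiv.Perm (Fin n) × Equiv.Perm (Fin n), x ^ EE (conj pq.1) (conj pq.2) S =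
      (n.factorial * ww x n s / n.choose s) ^ 2 := by
    intro S hS
    have h2 := choose_mul_TT x (mem_powersetCard.1 hS).2
    have h3 : TT x S = n.factorial * ww x n s / n.choose s := by
      rw [eq_div_iff hC.ne', ← h2]
      ring
    rw [← h3, sq]
    unfold TT EE
    rw [sum_mul_sum, Fintype.sum_prod_type]
    simp only [pow_add]
  rw [sum_congr rfl h1, sum_const, nsmul_eq_mul, card_powersetCard, card_univ, Fintype.card_fin]
  field_simp

/-- first moment bound -/
theorem count_bound {n : ℕ} {x : ℝ} (hx : 1 ≤ x) {s : ℕ} (hs : s ≤ n) (t : ℕ) :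
    (cnt (fun pq : Equiv.Perm (Fin n) × Equiv.Perm (Fin n) =>
      ∃ S : Finset (Fin n), S.card = s ∧ t ≤ EE (conj pq.1) (conj pq.2) S) : ℝ) * x ^ t ≤
      (n.factorial : ℝ) ^ 2 * (ww x n s) ^ 2 / n.choose s := by
  unfold cnt evs
  rw [← pair_sum x hs, card_eq_sum_ones, Nat.cast_sum, sum_mul, sum_filter]
  apply sum_le_sum
  intro pq _
  have h0 : ∀ S ∈ powersetCard s (univ : Finset (Fin n)), 0 ≤ x ^ EE (conj pq.1) (conj pq.2) S :=
    fun S _ => by positivity
  split_ifs with h
  · obtain ⟨S, hS1, hS2⟩ := h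
    have h1 : x ^ EE (conj pq.1) (conj pq.2) S ≤
        ∑ S ∈ powersetCard s (univ : Finset (Fin n)), x ^ EE (conj pq.1) (conj pq.2) S :=
      single_le_sum (f := fun S => x ^ EE (conj pq.1) (conj pq.2) S) h0
        (mem_powersetCard.2 ⟨subset_univ _, hS1⟩)
    refine le_trans ?_ h1
    rw [Nat.cast_one, one_mul]
    exact pow_le_pow_right₀ hx hS2
  · exact sum_nonneg h0

end Run7.h216
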