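import Mathlib

set_option autoImplicit false

/-!
# Walk distance, ordered edge counts
-/

open Finset Classical

namespace Run7.h216

variable {V : Type*}

/-- `y` can be reached from `x` in at most `r` steps -/
def reach (G : SimpleGraph V) : ℕ → V → V → Prop
  | 0, x, y => x = y
  | r + 1, x, y => ∃ z, (z = x ∨ G.Adj x z) ∧ reach G r z y

theorem reach_refl (G : SimpleGraph V) (r : ℕ) (x : V) : reach G r x x := by
  induction r with
  | zero => rfl
  | succ r ih => exact ⟨x, Or.inl rfl, ih⟩

theorem reach_trans {G : SimpleGraph V} {r s : ℕ} {x y z : V} (h1 : reach G r x y)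
    (h2 : reach G s y z) : reach G (r + s) x z := by
  induction r generalizing x with
  | zero =>
    have : x = y := h1
    subst this
    rwa [Nat.zero_add]
  | succ r ih =>
    obtain ⟨w, hw, h1⟩ := h1
    have := ih h1
    rw [show r + 1 + s = (r + s) + 1 by ring]
    exact ⟨w, hw, this⟩

theorem reach_one {G : SimpleGraph V} {x y : V} (h : G.Adj x y) : reach G 1 x y :=
  ⟨y, Or.inr h, rfl⟩

theorem reach_mono {G : SimpleGraph V} {r s : ℕ} (hrs : r ≤ s) {x y : V}
    (h1 : reach G r x y) : reach G s x y := by
  have := reach_trans h1 (reach_refl G (s - r) y)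
  rwa [Nat.add_sub_cancel' hrs] at this

theorem reach_symm {G : SimpleGraph V} {r : ℕ} {x y : V} (h : reach G r x y) :
    reach G r y x := by
  induction r generalizing x with
  | zero => exact h.symm
  | succ r ih =>
    obtain ⟨w, hw, h1⟩ := h
    have h2 : reach G 1 w x := by
      rcases hw with rfl | hw
      · exact reach_refl _ _ _
      · exact reach_one hw.symm
    exact reach_trans (ih h1) h2

/-- the set of vertices reached in at most `r` steps -/
noncomputable def rball [Fintype V] (G : SimpleGraph V) (r : ℕ) (x : V) : Finset V :=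
  univ.filter (fun y => reach G r x y)

theorem mem_rball [Fintype V] {G : SimpleGraph V} {r : ℕ} {x y : V} :
    y ∈ rball G r x ↔ reach G r x y := by
  simp [rball]

/-- neighbour set -/
noncomputable def nb [Fintype V] (G : SimpleGraph V) (x : V) : Finset V :=
  univ.filter (fun y => G.Adj x y)

theorem mem_nb [Fintype V] {G : SimpleGraph V} {x y : V} :
    y ∈ nb G x ↔ G.Adj x y := by
  simp [nb]

theorem card_rball_le [Fintype V] {G : SimpleGraph V} (hdeg : ∀ v, (nb G v).card ≤ 4)
    (r : ℕ) (x : V) : (rball G r x).card ≤ 5 ^ r := by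
  induction r generalizing x with
  | zero =>
    have : rball G 0 x = {x} := by
      ext y
      rw [mem_rball, mem_singleton]
      exact ⟨fun h => h.symm, fun h => h.symm⟩
    rw [this]
    simp
  | succ r ih =>
    have hsub : rball G (r + 1) x ⊆ (insert x (nb G x)).biUnion (rball G r) := by
      intro y hy
      rw [mem_rball] at hy
      obtain ⟨z, hz, h⟩ := hy
      rw [mem_biUnion]
      refine ⟨z, ?_, mem_rball.2 h⟩
      rcases hz with rfl | hz
      · exact mem_insert_self _ _
      · exact mem_insert_of_mem (mem_nb.2 hz)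
    calc (rball G (r + 1) x).card ≤ _ := card_le_card hsub
      _ ≤ (insert x (nb G x)).card * 5 ^ r := card_biUnion_le_card_mul _ _ _ (fun z _ => ih z)
      _ ≤ 5 * 5 ^ r := by
        apply Nat.mul_le_mul_right
        refine (card_insert_le _ _).trans ?_
        have := hdeg x
        omega
      _ = 5 ^ (r + 1) := by ring

/-- the neighbours of `x` inside `J` -/
noncomputable def nbIn (G : SimpleGraph V) (J : Finset V) (x : V) : Finset V :=
  J.filter (fun y => G.Adj x y)

theorem mem_nbIn {G : SimpleGraph V} {J : Finset V} {x y : V} :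
    y ∈ nbIn G J x ↔ y ∈ J ∧ G.Adj x y := by
  simp [nbIn]

theorem nbIn_mono {G : SimpleGraph V} {J J' : Finset V} (h : J ⊆ J') (x : V) :
    nbIn G J x ⊆ nbIn G J' x := by
  intro y hy
  rw [mem_nbIn] at hy ⊢
  exact ⟨h hy.1, hy.2⟩

/-- number of ordered pairs of adjacent vertices in `S`: twice the number of edges in `S` -/
noncomputable def AA (G : SimpleGraph V) (S : Finset V) : ℕ := ∑ x ∈ S, (nbIn G S x).card

theorem AA_mono {G G' : SimpleGraph V} (h : G ≤ G') (S : Finset V) : AA G S ≤ AA G' S := by
  apply sum_le_sum
  intro x _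
  apply card_le_card
  intro y hy
  rw [mem_nbIn] at hy ⊢
  exact ⟨hy.1, h hy.2⟩

/-- ordered pairs of adjacent vertices between two sets -/
noncomputable def XX (G : SimpleGraph V) (S T : Finset V) : ℕ := ∑ x ∈ S, (nbIn G T x).card

theorem XX_comm (G : SimpleGraph V) (S T : Finset V) : XX G S T = XX G T S := by
  unfold XX nbIn
  simp only [card_filter]
  rw [sum_comm]
  apply sum_congr rfl
  intro x _
  apply sum_congr rfl
  intro y _
  simp only [G.adj_comm]

theorem XX_self (G : SimpleGraph V) (S : Finset V) : XX G S S = AA G S := rfl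

theorem XX_union_left {G : SimpleGraph V} {S S' T : Finset V} (h : Disjoint S S') :
    XX G (S ∪ S') T = XX G S T + XX G S' T := by
  unfold XX
  rw [sum_union h]

theorem XX_union_right {G : SimpleGraph V} {S T T' : Finset V} (h : Disjoint T T') :
    XX G S (T ∪ T') = XX G S T + XX G S T' := by
  rw [XX_comm, XX_union_left h, XX_comm G T, XX_comm G T']

theorem AA_union {G : SimpleGraph V} {S T : Finset V} (h : Disjoint S T) :
    AA G (S ∪ T) = AA G S + AA G T + 2 * XX G S T := by
  rw [← XX_self, XX_union_left h, XX_union_right h, XX_union_right h, XX_self, XX_self,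
    XX_comm G T S]
  ring

end Run7.h216
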