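import Pool.Agent.Run7.h216.Reps

set_option autoImplicit false

/-!
# The deterministic theorem
-/

open Finset Classical

namespace Run7.h216

/-- A nonempty finite set without sinks contains a nonempty subset in which every vertex has an
out-neighbour and an in-neighbour. -/
theorem exists_core {V : Type} (R : V → V → Prop) (hirr : ∀ v, ¬ R v v) (S : Finset V)
    (hS : S.Nonempty) (h : ∀ v ∈ S, ∃ w ∈ S, R v w) :
    ∃ C : Finset V, C ⊆ S ∧ C.Nonempty ∧ (∀ v ∈ C, ∃ w ∈ C, R v w) ∧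
      ∀ v ∈ C, ∃ w ∈ C, R w v := by
  induction S using Finset.strongInduction with
  | _ S ih =>
    by_cases hin : ∀ v ∈ S, ∃ w ∈ S, R w v
    · exact ⟨S, Subset.refl _, hS, h, hin⟩
    · push Not at hin
      obtain ⟨v, hv, hno⟩ := hin
      obtain ⟨w, hw, hvw⟩ := h v hv
      have hwv : w ≠ v := by
        rintro rfl
        exact hirr w hvw
      obtain ⟨C, h1, h2⟩ := ih (S.erase v) (erase_ssubset hv) ⟨w, mem_erase.2 ⟨hwv, hw⟩⟩ (by
        intro x hx
        rw [mem_erase] at hx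
        obtain ⟨y, hy, hxy⟩ := h x hx.2
        refine ⟨y, mem_erase.2 ⟨?_, hy⟩, hxy⟩
        rintro rfl
        exact hno x hx.2 hxy)
      exact ⟨C, h1.trans (erase_subset _ _), h2⟩

/-- The condition on the components of a colour graph. -/
def CompOK {V : Type} (Γ : SimpleGraph V) (K : ℕ) (C : Γ.ConnectedComponent) : Prop :=
  (∃ f : V → Bool, ∀ v w, Γ.connectedComponentMk v = C → Γ.Adj v w → f v ≠ f w) ∨
  (∀ H : Finset V, (∀ x ∈ H, Γ.connectedComponentMk x = C) →
    K * AA Γ H ≤ 2 * (K + 1) * H.card)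

/-- the deterministic theorem for lists of size three -/
theorem det_color3 {V : Type} [Fintype V] {σ τ : Equiv.Perm V} {M K s k : ℕ}
    (hM : 6200 ≤ M) (hK1 : 2 * 5 ^ M < K) (hK2 : 4 * M + 10 < K)
    (hcyc : ∀ x : V, ∀ i : ℕ, 0 < i → i ≤ M → (σ ^ i) x ≠ x) (hτ : ∀ v, τ v ≠ v)
    (htiny : ∀ S : Finset V, S.card < K → EE σ τ S ≤ S.card)
    (hsmall : ∀ S : Finset V, S.card ≤ 2 * s → 40 * EE σ τ S ≤ 41 * S.card)
    (hmid : ∀ S : Finset V, s ≤ S.card → S.card + s ≤ Fintype.card V →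
      EE σ τ S + k ≤ 2 * S.card)
    (hk : 8 * Fintype.card V ≤ k * (M + 1))
    (L : V → Finset ℕ) (hL : ∀ v, (L v).card = 3)
    (hcomp : ∀ c, ∀ C : (colGraph (pGraph σ τ) L c).ConnectedComponent, CompOK _ K C) :
    ∃ col : V → ℕ, (∀ v, col v ∈ L v) ∧ ∀ u v, (pGraph σ τ).Adj u v → col u ≠ col v := by
  rcases isEmpty_or_nonempty V with hV | hV
  · exact ⟨fun _ => 0, fun v => (hV.false v).elim, fun v => (hV.false v).elim⟩
  set G := pGraph σ τ with hG
  have hσ : ∀ v, σ v ≠ v := by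
    intro v
    have := hcyc v 1 (by omega) (by omega)
    simpa using this
  have hdeg : ∀ v, (nb G v).card ≤ 4 := nb_card_le σ τ
  have hsp : ∀ T : Finset V, T.card < K → AA G T ≤ 2 * T.card := by
    intro T hT
    have h1 := AA_le_EE σ τ T
    have h2 := htiny T hT
    rw [← hG] at h1
    omega
  -- pieces for each colour
  have hpieces : ∀ c, ∃ PP : Finset (Finset V × Finset V),
      (∀ p ∈ PP, IsPiece G (colGraph G L c) M p.1 p.2) ∧
      (∀ p ∈ PP, ∀ q ∈ PP, p ≠ q → Disjoint p.2 q.2) ∧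
      ∀ C : Finset V, (∀ v ∈ C, ¬ ∃ f : V → Bool, ∀ x y,
        (colGraph G L c).connectedComponentMk x = (colGraph G L c).connectedComponentMk v →
        (colGraph G L c).Adj x y → f x ≠ f y) → C.Nonempty →
        (∀ v ∈ C, 2 ≤ (nbIn (colGraph G L c) C v).card) →
        ∃ p ∈ PP, C ⊆ p.1 ∧ (p.2 ∩ C).Nonempty := by
    intro c
    set Γ := colGraph G L c with hΓ
    set W : Finset V := univ.filter (fun v => ¬ ∃ f : V → Bool, ∀ x y,
        Γ.connectedComponentMk x = Γ.connectedComponentMk v → Γ.Adj x y → f x ≠ f y) with hW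
    obtain ⟨PP, h1, h2, h3⟩ := exists_pieces (G := G) (Γ := Γ) (colGraph_le G L c) hdeg hK1
      (W := W) (by
        intro J hJ hJne
        obtain ⟨x, hx⟩ := hJne
        refine ⟨J.filter (fun y => Γ.connectedComponentMk y = Γ.connectedComponentMk x),
          filter_subset _ _, ⟨x, mem_filter.2 ⟨hx, rfl⟩⟩, ?_, ?_⟩
        · intro y hy z hz hyz
          rw [mem_filter] at hy ⊢
          refine ⟨hz, ?_⟩
          rw [← hy.2]
          exact (SimpleGraph.ConnectedComponent.connectedComponentMk_eq_of_adj hyz).symm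
        · have hxW := (mem_filter.1 (hJ hx)).2
          rcases hcomp c (Γ.connectedComponentMk x) with h | h
          · obtain ⟨f, hf⟩ := h
            exact absurd ⟨f, fun a b hab h => hf a b hab h⟩ hxW
          · exact h _ (fun y hy => (mem_filter.1 hy).2)) W (Subset.refl _)
    refine ⟨PP, fun p hp => (h1 p hp).1, h2, ?_⟩
    intro C hC hne hC2
    exact h3 C (fun v hv => mem_filter.2 ⟨mem_univ _, hC v hv⟩) hne hC2
  choose PP hPP1 hPP2 hPP3 using hpieces
  have hσG : ∀ x, reach G 1 x (σ x) := by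
    intro x
    apply reach_one
    exact ⟨(hσ x).symm, Or.inl rfl⟩
  obtain ⟨U, O, hU, hO1, hO2, hUcard, hUP⟩ := exists_special σ hσG hM hK2 hdeg hsp hcyc L hL
    PP hPP1 hPP2
  have hUk : 2 * U.card ≤ k := by
    have h1 : 2 * U.card * (M + 1) ≤ k * (M + 1) := by
      calc 2 * U.card * (M + 1) = 2 * (U.card * (M + 1)) := by ring
        _ ≤ 2 * (4 * Fintype.card V) := Nat.mul_le_mul_left _ hUcard
        _ = 8 * Fintype.card V := by ring
        _ ≤ k * (M + 1) := hk
    exact Nat.le_of_mul_le_mul_right h1 (by omega)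
  have hH : ∀ S : Finset V, Disjoint S U →
      EE σ τ S + (S.filter (fun v => ∃ u ∈ U, (pGraph σ τ).Adj v u ∧ v ∉ O u)).card ≤
        2 * S.card := by
    intro S hS
    apply hall_ineq hσ hτ hU hO1 hO2 hsmall (s := s) _ hS
    intro T h1 h2
    have := hmid T h1 h2
    omega
  obtain ⟨D, hD1, hD2, hD3, hD4, hD5⟩ := exists_orientation hU hO1 hO2 hH
  apply kernel_color G D hD1 hD2 L (fun v => by have := hD5 v; have := hL v; omega)
  intro c S hSne hS
  set Γ := colGraph G L c with hΓ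
  -- `S` only meets bipartite components
  have hbip : ∀ v ∈ S, ∃ f : V → Bool, ∀ x y,
      Γ.connectedComponentMk x = Γ.connectedComponentMk v → Γ.Adj x y → f x ≠ f y := by
    by_contra hcon
    push Not at hcon
    obtain ⟨v, hvS, hv⟩ := hcon
    set S₁ := S.filter (fun w => Γ.connectedComponentMk w = Γ.connectedComponentMk v) with hS₁
    obtain ⟨C, hC1, hC2, hC3, hC4⟩ := exists_core (fun a b => D a b ∧ Γ.Adj a b)
      (fun a ha => Γ.loopless.irrefl a ha.2) S₁ ⟨v, mem_filter.2 ⟨hvS, rfl⟩⟩ (by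
        intro a ha
        rw [mem_filter] at ha
        obtain ⟨b, hb, hab⟩ := hS a ha.1
        refine ⟨b, mem_filter.2 ⟨hb, ?_⟩, hab⟩
        rw [← ha.2]
        exact (SimpleGraph.ConnectedComponent.connectedComponentMk_eq_of_adj hab.2).symm)
    have hdeg2 : ∀ a ∈ C, 2 ≤ (nbIn Γ C a).card := by
      intro a ha
      obtain ⟨b, hb, hab, hab'⟩ := hC3 a ha
      obtain ⟨d, hd, hda, hda'⟩ := hC4 a ha
      have hbd : b ≠ d := by
        rintro rfl
        exact hD3 a b hab hda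
      have hsub : ({b, d} : Finset V) ⊆ nbIn Γ C a := by
        intro y hy
        rw [mem_insert, mem_singleton] at hy
        rcases hy with rfl | rfl
        · exact mem_nbIn.2 ⟨hb, hab'⟩
        · exact mem_nbIn.2 ⟨hd, hda'.symm⟩
      have := card_le_card hsub
      rwa [card_pair hbd] at this
    obtain ⟨p, hp, hCp, hpC⟩ := hPP3 c C (by
      intro a ha hex
      obtain ⟨f, hf⟩ := hex
      have ha2 := (mem_filter.1 (hC1 ha)).2
      obtain ⟨x, y, h1, h2, h3⟩ := hv f
      exact hf x y (h1.trans ha2.symm) h2 h3) hC2 hdeg2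
    have hPC : p.2 ⊆ C := (hPP1 c p hp).absorb hCp hdeg2 hpC
    obtain ⟨u, hu, hup, huz⟩ := hUP c p hp
    obtain ⟨z, hz, hzu, hzu'⟩ := hC4 u (hPC hup)
    have hzO := huz z (hCp hz) hzu'.symm
    exact hD3 u z (hD4 u hu z hzO) hzu
  -- one colouring for each component
  have hch : ∀ C : Γ.ConnectedComponent, ∃ f : V → Bool, (∃ v ∈ S, Γ.connectedComponentMk v = C) →
      ∀ x y, Γ.connectedComponentMk x = C → Γ.Adj x y → f x ≠ f y := by
    intro C
    by_cases h : ∃ v ∈ S, Γ.connectedComponentMk v = C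
    · obtain ⟨v, hv, rfl⟩ := h
      obtain ⟨f, hf⟩ := hbip v hv
      exact ⟨f, fun _ => hf⟩
    · exact ⟨fun _ => true, fun h' => absurd h' h⟩
  choose F hF using hch
  refine ⟨fun v => F (Γ.connectedComponentMk v) v, ?_⟩
  intro v hv w hw hvw
  have he : Γ.connectedComponentMk v = Γ.connectedComponentMk w :=
    SimpleGraph.ConnectedComponent.connectedComponentMk_eq_of_adj hvw
  simp only
  rw [← he]
  exact hF _ ⟨v, hv, rfl⟩ v w rfl hvw

/-- smaller lists give smaller colour graphs -/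
theorem colGraph_mono {V : Type} (G : SimpleGraph V) {L L' : V → Finset ℕ}
    (h : ∀ v, L' v ⊆ L v) (c : ℕ) : colGraph G L' c ≤ colGraph G L c := by
  intro u v ⟨h1, h2, h3, b, h4, h5, h6⟩
  exact ⟨h1, h _ h2, h _ h3, b, h4, h _ h5, h _ h6⟩

theorem CompOK_mono {V : Type} {Γ Γ' : SimpleGraph V} (hle : Γ' ≤ Γ) {K : ℕ}
    (h : ∀ C : Γ.ConnectedComponent, CompOK Γ K C) (C : Γ'.ConnectedComponent) :
    CompOK Γ' K C := by
  have hcc : ∀ x y, Γ'.connectedComponentMk x = Γ'.connectedComponentMk y →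
      Γ.connectedComponentMk x = Γ.connectedComponentMk y := by
    intro x y hxy
    rw [SimpleGraph.ConnectedComponent.eq] at hxy ⊢
    exact hxy.mono hle
  induction C using SimpleGraph.ConnectedComponent.ind with
  | _ v =>
    rcases h (Γ.connectedComponentMk v) with ⟨f, hf⟩ | h2
    · left
      exact ⟨f, fun x y hx hxy => hf x y (hcc _ _ hx) (hle hxy)⟩
    · right
      intro H hH
      exact (Nat.mul_le_mul_left _ (AA_mono hle H)).trans (h2 H (fun x hx => hcc _ _ (hH x hx)))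

/-- the deterministic theorem -/
theorem det_color {V : Type} [Fintype V] {σ τ : Equiv.Perm V} {M K s k : ℕ}
    (hM : 6200 ≤ M) (hK1 : 2 * 5 ^ M < K) (hK2 : 4 * M + 10 < K)
    (hcyc : ∀ x : V, ∀ i : ℕ, 0 < i → i ≤ M → (σ ^ i) x ≠ x) (hτ : ∀ v, τ v ≠ v)
    (htiny : ∀ S : Finset V, S.card < K → EE σ τ S ≤ S.card)
    (hsmall : ∀ S : Finset V, S.card ≤ 2 * s → 40 * EE σ τ S ≤ 41 * S.card)
    (hmid : ∀ S : Finset V, s ≤ S.card → S.card + s ≤ Fintype.card V →
      EE σ τ S + k ≤ 2 * S.card)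
    (hk : 8 * Fintype.card V ≤ k * (M + 1))
    (L : V → Finset ℕ) (hL : ∀ v, 3 ≤ (L v).card)
    (hcomp : ∀ c, ∀ C : (colGraph (pGraph σ τ) L c).ConnectedComponent, CompOK _ K C) :
    ∃ col : V → ℕ, (∀ v, col v ∈ L v) ∧ ∀ u v, (pGraph σ τ).Adj u v → col u ≠ col v := by
  have hch : ∀ v, ∃ T : Finset ℕ, T ⊆ L v ∧ T.card = 3 := fun v => exists_subset_card_eq (hL v)
  choose L' hL1 hL2 using hch
  obtain ⟨col, h1, h2⟩ := det_color3 hM hK1 hK2 hcyc hτ htiny hsmall hmid hk L' hL2 (by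
    intro c C
    exact CompOK_mono (colGraph_mono _ hL1 c) (hcomp c) C)
  exact ⟨col, fun v => hL1 v (h1 v), h2⟩

end Run7.h216
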