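import Pool.Agent.Run7.h216.Model

set_option autoImplicit false

/-!
# The counting inequality behind the orientation
-/

open Finset Classical

namespace Run7.h216

variable {V : Type*}

/-- a separated set of special vertices, each with two selected neighbours -/
structure Sep (G : SimpleGraph V) (U : Finset V) : Prop where
  far : ∀ u ∈ U, ∀ u' ∈ U, u ≠ u' → ¬ reach G 3 u u'

theorem Sep.uniq {G : SimpleGraph V} {U : Finset V} (h : Sep G U) {v u u' : V} (hu : u ∈ U)
    (hu' : u' ∈ U) (h1 : G.Adj v u) (h2 : G.Adj v u') : u = u' := by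
  by_contra hne
  exact h.far u hu u' hu' hne
    (reach_mono (by omega) (reach_trans (reach_one h1.symm) (reach_one h2)))

theorem Sep.indep {G : SimpleGraph V} {U : Finset V} (h : Sep G U) :
    ∀ u ∈ U, ∀ v ∈ U, ¬ G.Adj u v := by
  intro u hu v hv hadj
  exact h.far u hu v hv hadj.ne (reach_mono (by omega) (reach_one hadj))

/-- the vertices of `S` next to `U` -/
noncomputable def nextTo (G : SimpleGraph V) (U S : Finset V) : Finset V :=
  S.filter (fun v => ∃ u ∈ U, G.Adj v u)

theorem nbIn_card_le_one {G : SimpleGraph V} {U : Finset V} (h : Sep G U) (v : V) :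
    (nbIn G U v).card ≤ 1 := by
  rw [card_le_one]
  intro a ha b hb
  rw [mem_nbIn] at ha hb
  exact h.uniq ha.1 hb.1 ha.2 hb.2

theorem XX_eq_nextTo {G : SimpleGraph V} {U : Finset V} (h : Sep G U) (S : Finset V) :
    XX G S U = (nextTo G U S).card := by
  unfold XX nextTo
  rw [card_filter]
  apply sum_congr rfl
  intro v _
  split_ifs with hv
  · apply le_antisymm (nbIn_card_le_one h v)
    obtain ⟨u, hu, hadj⟩ := hv
    exact card_pos.2 ⟨u, mem_nbIn.2 ⟨hu, hadj⟩⟩
  · rw [card_eq_zero, eq_empty_iff_forall_notMem]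
    intro u hu
    rw [mem_nbIn] at hu
    exact hv ⟨u, hu.1, hu.2⟩

/-- small sets -/
theorem small_ineq {σ τ : Equiv.Perm V} (hσ : ∀ v, σ v ≠ v) (hτ : ∀ v, τ v ≠ v) {U : Finset V}
    (hU : Sep (pGraph σ τ) U) {s : ℕ}
    (hs : ∀ S : Finset V, S.card ≤ 2 * s → 40 * EE σ τ S ≤ 41 * S.card)
    {S : Finset V} (hSU : Disjoint S U) (hcard : S.card ≤ s) :
    EE σ τ S + (nextTo (pGraph σ τ) U S).card ≤ 2 * S.card := by
  set G := pGraph σ τ with hG
  set W := nextTo G U S with hW
  set US := U.filter (fun u => ∃ v ∈ S, G.Adj v u) with hUS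
  have hUSU : US ⊆ U := filter_subset _ _
  have hWS : W ⊆ S := filter_subset _ _
  have hsepUS : Sep G US := ⟨fun u hu u' hu' => hU.far u (hUSU hu) u' (hUSU hu')⟩
  have hWcard := card_le_card hWS
  -- edges between `S` and `US`
  have hXX : XX G S US = W.card := by
    rw [XX_eq_nextTo hsepUS, hW]
    congr 1
    ext v
    unfold nextTo
    rw [mem_filter, mem_filter]
    constructor
    · rintro ⟨h1, u, h2, h3⟩
      exact ⟨h1, u, hUSU h2, h3⟩
    · rintro ⟨h1, u, h2, h3⟩
      exact ⟨h1, u, mem_filter.2 ⟨h2, v, h1, h3⟩, h3⟩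
  have hsum : ∑ u ∈ US, (nbIn G S u).card = W.card := by
    rw [← hXX, XX_comm]
    rfl
  have hpos : ∀ u ∈ US, 1 ≤ (nbIn G S u).card := by
    intro u hu
    obtain ⟨v, hv, hadj⟩ := (mem_filter.1 hu).2
    exact card_pos.2 ⟨v, mem_nbIn.2 ⟨hv, hadj.symm⟩⟩
  have hUSW : US.card ≤ W.card := by
    rw [← hsum, card_eq_sum_ones]
    exact sum_le_sum hpos
  have hdis : Disjoint US S := (hSU.mono_right hUSU).symm
  have hun := EE_union σ τ hdis
  have hle : W.card ≤ ∑ v ∈ S, sl σ τ v US := by
    rw [← hXX]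
    exact XX_le_sl σ τ US S
  have hc1 : (US ∪ S).card = US.card + S.card := card_union_of_disjoint hdis
  have h40 := hs (US ∪ S) (by omega)
  by_cases hcase : 20 * US.card ≤ 19 * S.card
  · omega
  · push Not at hcase
    -- lonely vertices
    set Lo := W.filter (fun v => ∀ v' ∈ S, v' ≠ v → ∀ u ∈ U, ¬ (G.Adj v u ∧ G.Adj v' u)) with hLo
    have hLoS : Lo ⊆ S := (filter_subset _ _).trans hWS
    have hLoindep : ∀ v ∈ Lo, ∀ v' ∈ Lo, ¬ G.Adj v v' := by
      intro v hv v' hv' hadj
      have hvW := mem_filter.1 (mem_filter.1 hv).1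
      have hvW' := mem_filter.1 (mem_filter.1 hv').1
      obtain ⟨u, hu, hvu⟩ := hvW.2
      obtain ⟨u', hu', hvu'⟩ := hvW'.2
      have hr : reach G 3 u u' := by
        have := reach_trans (reach_one hvu.symm)
          (reach_trans (reach_one hadj) (reach_one hvu'))
        exact reach_mono (by omega) this
      have huu : u = u' := by
        by_contra hne
        exact hU.far u hu u' hu' hne hr
      subst huu
      exact (mem_filter.1 hv).2 v' hvW'.1 hadj.ne' u hu ⟨hvu, hvu'⟩
    have hLo0 : EE σ τ Lo = 0 := EE_eq_zero hσ hτ hLoindep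
    have hSeq : S = Lo ∪ (S \ Lo) := by
      rw [union_sdiff_of_subset hLoS]
    have hd2 : Disjoint Lo (S \ Lo) := disjoint_sdiff
    have hEE : EE σ τ S ≤ 4 * (S \ Lo).card := by
      have h1 := EE_union σ τ hd2
      rw [← hSeq, hLo0] at h1
      have h2 := EE_le_sum σ τ (S \ Lo)
      have h3 : ∑ v ∈ S \ Lo, sl σ τ v (S \ Lo) + ∑ v ∈ S \ Lo, sl σ τ v Lo ≤
          4 * (S \ Lo).card := by
        rw [← sum_add_distrib, mul_comm, ← smul_eq_mul, ← sum_const]
        apply sum_le_sum
        intro v _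
        rw [← sl_union σ τ hd2.symm]
        exact sl_le _ _ _ _
      omega
    have hLocard : 2 * US.card ≤ S.card + Lo.card := by
      have h1 : 2 * US.card ≤ ∑ u ∈ US, ((nbIn G S u).card +
          if (nbIn G S u).card = 1 then 1 else 0) := by
        rw [mul_comm, ← smul_eq_mul, ← sum_const]
        apply sum_le_sum
        intro u hu
        have := hpos u hu
        split_ifs <;> omega
      rw [sum_add_distrib, hsum, ← card_filter] at h1
      have h2 : (US.filter (fun u => (nbIn G S u).card = 1)).card ≤ Lo.card := by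
        have hch : ∀ u ∈ US, ∃ v ∈ S, G.Adj v u := fun u hu => (mem_filter.1 hu).2
        choose! g hg1 hg2 using hch
        apply card_le_card_of_injOn g
        · intro u hu
          rw [mem_coe, mem_filter] at hu
          obtain ⟨hu1, hu2⟩ := hu
          rw [mem_coe, hLo, mem_filter]
          refine ⟨mem_filter.2 ⟨hg1 u hu1, u, hUSU hu1, hg2 u hu1⟩, ?_⟩
          rintro v' hv' hne w hw ⟨hvw, hvw'⟩
          have hwu : w = u := hU.uniq hw (hUSU hu1) hvw (hg2 u hu1)
          subst hwu
          rw [card_eq_one] at hu2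
          obtain ⟨a, ha⟩ := hu2
          have e1 : g w ∈ nbIn G S w := mem_nbIn.2 ⟨hg1 w hu1, hvw.symm⟩
          have e2 : v' ∈ nbIn G S w := mem_nbIn.2 ⟨hv', hvw'.symm⟩
          rw [ha, mem_singleton] at e1 e2
          exact hne (e2.trans e1.symm)
        · intro u hu u' hu' h
          rw [mem_coe, mem_filter] at hu hu'
          have e1 := hg2 u hu.1
          have e2 := hg2 u' hu'.1
          rw [← h] at e2
          exact hU.uniq (hUSU hu.1) (hUSU hu'.1) e1 e2
      omega
    have hY : (S \ Lo).card = S.card - Lo.card := card_sdiff_of_subset hLoS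
    have hLoS' := card_le_card hLoS
    omega

/-- The counting inequality. -/
theorem hall_ineq [Fintype V] {σ τ : Equiv.Perm V} (hσ : ∀ v, σ v ≠ v) (hτ : ∀ v, τ v ≠ v)
    {U : Finset V} (hU : Sep (pGraph σ τ) U) {O : V → Finset V}
    (hO1 : ∀ u ∈ U, O u ⊆ nb (pGraph σ τ) u) (hO2 : ∀ u ∈ U, (O u).card = 2) {s : ℕ}
    (hs : ∀ S : Finset V, S.card ≤ 2 * s → 40 * EE σ τ S ≤ 41 * S.card)
    (hmid : ∀ S : Finset V, s ≤ S.card → S.card + s ≤ Fintype.card V →
      EE σ τ S + 2 * U.card ≤ 2 * S.card)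
    {S : Finset V} (hSU : Disjoint S U) :
    EE σ τ S + (S.filter (fun v => ∃ u ∈ U, (pGraph σ τ).Adj v u ∧ v ∉ O u)).card ≤
      2 * S.card := by
  set G := pGraph σ τ with hG
  have hsub : (S.filter (fun v => ∃ u ∈ U, G.Adj v u ∧ v ∉ O u)) ⊆ nextTo G U S := by
    intro v hv
    unfold nextTo
    rw [mem_filter] at hv ⊢
    obtain ⟨h1, u, h2, h3, -⟩ := hv
    exact ⟨h1, u, h2, h3⟩
  have hsub2 : (S.filter (fun v => ∃ u ∈ U, G.Adj v u ∧ v ∉ O u)) ⊆
      U.biUnion (fun u => (nbIn G S u) \ O u) := by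
    intro v hv
    rw [mem_filter] at hv
    obtain ⟨h1, u, h2, h3, h4⟩ := hv
    rw [mem_biUnion]
    exact ⟨u, h2, mem_sdiff.2 ⟨mem_nbIn.2 ⟨h1, h3.symm⟩, h4⟩⟩
  have hb2 : (S.filter (fun v => ∃ u ∈ U, G.Adj v u ∧ v ∉ O u)).card ≤
      ∑ u ∈ U, ((nbIn G S u) \ O u).card := (card_le_card hsub2).trans card_biUnion_le
  -- the neighbours of `u ∈ U` avoid `U`
  have hnbU : ∀ u ∈ U, ∀ v, G.Adj u v → v ∉ U := fun u hu v hadj hv => hU.indep u hu v hv hadj
  by_cases h1 : S.card ≤ s
  · exact (Nat.add_le_add_left (card_le_card hsub) _).trans (small_ineq hσ hτ hU hs hSU h1)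
  push Not at h1
  by_cases h2 : S.card + s ≤ Fintype.card V
  · have h3 := hmid S h1.le h2
    have h4 : ∑ u ∈ U, ((nbIn G S u) \ O u).card ≤ 2 * U.card := by
      rw [mul_comm, ← smul_eq_mul, ← sum_const]
      apply sum_le_sum
      intro u hu
      have h5 : ((nbIn G S u) \ O u) ⊆ (nb G u) \ (O u) := by
        intro v hv
        rw [mem_sdiff, mem_nbIn] at hv
        rw [mem_sdiff, mem_nb]
        exact ⟨hv.1.2, hv.2⟩
      have h6 := card_le_card h5
      rw [card_sdiff_of_subset (hO1 u hu), hO2 u hu] at h6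
      have h7 := nb_card_le σ τ u
      rw [← hG] at h7
      omega
    omega
  · push Not at h2
    -- large sets: pass to the complement
    set S' : Finset V := (S ∪ U)ᶜ with hS'
    have hdis : Disjoint S' U := by
      rw [hS', disjoint_left]
      intro v hv hvU
      rw [mem_compl, mem_union, not_or] at hv
      exact hv.2 hvU
    have hdisS : Disjoint S' S := by
      rw [hS', disjoint_left]
      intro v hv hvU
      rw [mem_compl, mem_union, not_or] at hv
      exact hv.1 hvU
    have hcompl : Sᶜ = S' ∪ U := by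
      ext v
      rw [mem_compl, mem_union, hS', mem_compl, mem_union, not_or]
      constructor
      · intro hv
        by_cases hvU : v ∈ U
        · exact Or.inr hvU
        · exact Or.inl ⟨hv, hvU⟩
      · rintro (h | h)
        · exact h.1
        · exact disjoint_right.1 hSU h
    have hTcard : Sᶜ.card = S'.card + U.card := by
      rw [hcompl, card_union_of_disjoint hdis]
    have hScard : S.card + Sᶜ.card = Fintype.card V := by
      rw [card_add_card_compl]
    have hS's : S'.card ≤ s := by omega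
    have hE := EE_compl σ τ S
    have hET : EE σ τ Sᶜ = EE σ τ S' + EE σ τ U + ∑ u ∈ U, sl σ τ u S' := by
      rw [hcompl, EE_union σ τ hdis]
    have hU0 : EE σ τ U = 0 := EE_eq_zero hσ hτ hU.indep
    have hsm := small_ineq hσ hτ hU hs hdis hS's
    rw [← hG] at hsm
    have hXX : ∑ u ∈ U, (nbIn G S' u).card = (nextTo G U S').card := by
      rw [← XX_eq_nextTo hU, XX_comm]
      rfl
    have hmain : ∑ u ∈ U, ((nbIn G S u) \ O u).card + ∑ u ∈ U, sl σ τ u S' ≤
        2 * U.card + ∑ u ∈ U, (nbIn G S' u).card := by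
      have e : 2 * U.card = ∑ _u ∈ U, 2 := by rw [sum_const, smul_eq_mul, mul_comm]
      rw [e, ← sum_add_distrib, ← sum_add_distrib]
      apply sum_le_sum
      intro u hu
      -- `O u` splits into its part in `S` and its part in `S'`
      have hOsplit : O u ⊆ (O u ∩ nbIn G S u) ∪ nbIn G S' u := by
        intro v hv
        have hadj : G.Adj u v := mem_nb.1 (hO1 u hu hv)
        have hvU := hnbU u hu v hadj
        rw [mem_union, mem_inter, mem_nbIn, mem_nbIn]
        by_cases hvS : v ∈ S
        · exact Or.inl ⟨hv, hvS, hadj⟩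
        · refine Or.inr ⟨?_, hadj⟩
          rw [hS', mem_compl, mem_union, not_or]
          exact ⟨hvS, hvU⟩
      have f1 := (card_le_card hOsplit).trans (card_union_le _ _)
      rw [hO2 u hu] at f1
      have f2 : ((nbIn G S u) \ O u).card + (O u ∩ nbIn G S u).card = (nbIn G S u).card := by
        rw [inter_comm]
        exact card_sdiff_add_card_inter _ _
      have f3 := sl_add_nbIn_le σ τ u hdisS
      rw [← hG] at f3
      omega
    omega

end Run7.h216
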