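import Mathlib

set_option autoImplicit false

/-!
# Colouring from an orientation by kernels, colour by colour
-/

open Finset Classical

namespace Run7.h216

variable {V : Type*}

/-- For a colour `c`: the edges of `G` whose common list contains `c` and a smaller colour. -/
def colGraph (G : SimpleGraph V) (L : V → Finset ℕ) (c : ℕ) : SimpleGraph V where
  Adj u v := G.Adj u v ∧ c ∈ L u ∧ c ∈ L v ∧ ∃ b, b < c ∧ b ∈ L u ∧ b ∈ L v
  symm := by
    constructor
    rintro u v ⟨h1, h2, h3, b, h4, h5, h6⟩
    exact ⟨h1.symm, h3, h2, b, h4, h6, h5⟩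
  loopless := by
    constructor
    rintro u ⟨h1, -⟩
    exact G.loopless.irrefl u h1

/-- A finite digraph in which every set without sinks is bipartite has a kernel. -/
theorem exists_kernel [Fintype V] (D : V → V → Prop) (A : Finset V)
    (h : ∀ S : Finset V, S ⊆ A → S.Nonempty → (∀ v ∈ S, ∃ w ∈ S, D v w) →
      ∃ f : V → Bool, ∀ v ∈ S, ∀ w ∈ S, D v w → f v ≠ f w) :
    ∃ K : Finset V, K ⊆ A ∧ (∀ v ∈ K, ∀ w ∈ K, ¬ D v w) ∧
      ∀ v ∈ A, v ∉ K → ∃ w ∈ K, D v w := by
  induction A using Finset.strongInduction with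
  | _ A ih =>
    rcases A.eq_empty_or_nonempty with hA | hA
    · subst hA
      exact ⟨∅, by simp, by simp, by simp⟩
    by_cases hs : ∃ s ∈ A, ∀ w ∈ A, ¬ D s w
    · obtain ⟨s, hsA, hs⟩ := hs
      set A' : Finset V := A.filter (fun v => v ≠ s ∧ ¬ D v s) with hA'
      have hss : A' ⊂ A := by
        refine ⟨filter_subset _ _, fun hc => ?_⟩
        have := hc hsA
        simp [hA'] at this
      obtain ⟨K, hKA, hK1, hK2⟩ := ih A' hss (fun S hS => h S (hS.trans hss.1))
      refine ⟨insert s K, ?_, ?_, ?_⟩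
      · intro v hv
        rcases mem_insert.1 hv with rfl | hv
        · exact hsA
        · exact hss.1 (hKA hv)
      · intro v hv w hw
        rcases mem_insert.1 hv with hv | hv
        · rw [hv]
          rcases mem_insert.1 hw with hw | hw
          · rw [hw]
            exact hs _ hsA
          · exact hs _ (hss.1 (hKA hw))
        · rcases mem_insert.1 hw with hw | hw
          · rw [hw]
            exact (mem_filter.1 (hKA hv)).2.2
          · exact hK1 v hv w hw
      · intro v hv hvK
        rw [mem_insert, not_or] at hvK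
        by_cases hD : D v s
        · exact ⟨s, mem_insert_self _ _, hD⟩
        · obtain ⟨w, hw, hw'⟩ := hK2 v (mem_filter.2 ⟨hv, hvK.1, hD⟩) hvK.2
          exact ⟨w, mem_insert_of_mem hw, hw'⟩
    · push Not at hs
      obtain ⟨f, hf⟩ := h A (Subset.refl _) hA hs
      refine ⟨A.filter (fun v => f v = true), filter_subset _ _, ?_, ?_⟩
      · intro v hv w hw hD
        rw [mem_filter] at hv hw
        exact hf v hv.1 w hw.1 hD (by rw [hv.2, hw.2])
      · intro v hv hvK
        obtain ⟨w, hw, hD⟩ := hs v hv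
        refine ⟨w, mem_filter.2 ⟨hw, ?_⟩, hD⟩
        have h1 := hf v hv w hw hD
        have h2 : f v ≠ true := fun hc => hvK (mem_filter.2 ⟨hv, hc⟩)
        cases hfv : f v <;> cases hfw : f w <;> simp_all

/-- Colouring from an orientation, processing the colours from the largest to the smallest. -/
theorem kernel_color_aux [Fintype V] (G : SimpleGraph V) (D : V → V → Prop)
    (hDG : ∀ u v, D u v → G.Adj u v)
    (hGD : ∀ u v, G.Adj u v → D u v ∨ D v u) (L : V → Finset ℕ)
    (hker : ∀ c, ∀ S : Finset V, S.Nonempty →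
      (∀ v ∈ S, ∃ w ∈ S, D v w ∧ (colGraph G L c).Adj v w) →
      ∃ f : V → Bool, ∀ v ∈ S, ∀ w ∈ S, (colGraph G L c).Adj v w → f v ≠ f w) :
    ∀ N : ℕ, ∀ X : Finset V,
      (∀ v ∈ X, (X.filter (fun w => D v w ∧ ∃ b, b < N ∧ b ∈ L v ∧ b ∈ L w)).card <
        ((L v).filter (fun b => b < N)).card) →
      ∃ col : V → ℕ, (∀ v ∈ X, col v ∈ L v ∧ col v < N) ∧
        ∀ u ∈ X, ∀ v ∈ X, G.Adj u v → col u ≠ col v := by
  intro N
  induction N with
  | zero =>
    intro X hX
    refine ⟨fun _ => 0, ?_, ?_⟩
    · intro v hv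
      have := hX v hv
      simp at this
    · intro v hv
      have := hX v hv
      simp at this
  | succ c ih =>
    intro X hX
    set A : Finset V := X.filter (fun v => c ∈ L v ∧
      ∀ w ∈ X, D v w → c ∈ L w → ∃ b, b < c ∧ b ∈ L v ∧ b ∈ L w) with hAdef
    have hDA : ∀ v ∈ A, ∀ w ∈ A, D v w → (colGraph G L c).Adj v w := by
      intro v hv w hw hD
      rw [hAdef, mem_filter] at hv hw
      exact ⟨hDG v w hD, hv.2.1, hw.2.1, hv.2.2 w hw.1 hD hw.2.1⟩
    obtain ⟨K, hKA, hK1, hK2⟩ := exists_kernel D A (by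
      intro S hSA hSn hS
      obtain ⟨f, hf⟩ := hker c S hSn (by
        intro v hv
        obtain ⟨w, hw, hD⟩ := hS v hv
        exact ⟨w, hw, hD, hDA v (hSA hv) w (hSA hw) hD⟩)
      exact ⟨f, fun v hv w hw hD => hf v hv w hw (hDA v (hSA hv) w (hSA hw) hD)⟩)
    have hKX : K ⊆ X := hKA.trans (filter_subset _ _)
    obtain ⟨col, hcol1, hcol2⟩ := ih (X \ K) (by
      intro v hv
      rw [mem_sdiff] at hv
      have hXv := hX v hv.1
      have hsub : ((X \ K).filter (fun w => D v w ∧ ∃ b, b < c ∧ b ∈ L v ∧ b ∈ L w)) ⊆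
          (X.filter (fun w => D v w ∧ ∃ b, b < c + 1 ∧ b ∈ L v ∧ b ∈ L w)) := by
        intro w hw
        rw [mem_filter, mem_sdiff] at hw
        obtain ⟨⟨hw1, hw2⟩, hw3, b, hb1, hb2⟩ := hw
        exact mem_filter.2 ⟨hw1, hw3, b, by omega, hb2⟩
      by_cases hcv : c ∈ L v
      · have hcard : ((L v).filter (fun b => b < c + 1)).card =
            ((L v).filter (fun b => b < c)).card + 1 := by
          have : (L v).filter (fun b => b < c + 1) = insert c ((L v).filter (fun b => b < c)) := by
            ext b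
            simp only [mem_filter, mem_insert]
            constructor
            · rintro ⟨h1, h2⟩
              rcases Nat.lt_succ_iff_lt_or_eq.1 h2 with h | h
              · exact Or.inr ⟨h1, h⟩
              · exact Or.inl h
            · rintro (rfl | ⟨h1, h2⟩)
              · exact ⟨hcv, by omega⟩
              · exact ⟨h1, by omega⟩
          rw [this, card_insert_of_notMem (by simp)]
        -- find a vertex which is counted before but not after
        have hex : ∃ w ∈ (X.filter (fun w => D v w ∧ ∃ b, b < c + 1 ∧ b ∈ L v ∧ b ∈ L w)),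
            w ∉ ((X \ K).filter (fun w => D v w ∧ ∃ b, b < c ∧ b ∈ L v ∧ b ∈ L w)) := by
          by_cases hvA : v ∈ A
          · obtain ⟨w, hwK, hD⟩ := hK2 v hvA hv.2
            have hcw : c ∈ L w := (mem_filter.1 (hKA hwK)).2.1
            refine ⟨w, mem_filter.2 ⟨hKX hwK, hD, c, by omega, hcv, hcw⟩, ?_⟩
            intro hc
            exact (mem_sdiff.1 (mem_filter.1 hc).1).2 hwK
          · have hnA : ∃ w ∈ X, D v w ∧ c ∈ L w ∧ ¬ ∃ b, b < c ∧ b ∈ L v ∧ b ∈ L w := by
              by_contra hcon
              apply hvA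
              rw [hAdef, mem_filter]
              refine ⟨hv.1, hcv, ?_⟩
              intro w hw hD hcw
              by_contra hcon2
              exact hcon ⟨w, hw, hD, hcw, hcon2⟩
            obtain ⟨w, hw, hD, hcw, hno⟩ := hnA
            refine ⟨w, mem_filter.2 ⟨hw, hD, c, by omega, hcv, hcw⟩, ?_⟩
            intro hc
            exact hno (mem_filter.1 hc).2.2
        obtain ⟨w, hw1, hw2⟩ := hex
        have hlt := card_lt_card (Finset.ssubset_iff_subset_ne.2 ⟨hsub, fun he => hw2 (he ▸ hw1)⟩)
        omega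
      · have hcard : ((L v).filter (fun b => b < c + 1)) = ((L v).filter (fun b => b < c)) := by
          ext b
          simp only [mem_filter]
          constructor
          · rintro ⟨h1, h2⟩
            refine ⟨h1, ?_⟩
            rcases Nat.lt_succ_iff_lt_or_eq.1 h2 with h | h
            · exact h
            · exact absurd (h ▸ h1) hcv
          · rintro ⟨h1, h2⟩
            exact ⟨h1, by omega⟩
        rw [← hcard]
        exact lt_of_le_of_lt (card_le_card hsub) hXv)
    refine ⟨fun v => if v ∈ K then c else col v, ?_, ?_⟩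
    · intro v hv
      by_cases hvK : v ∈ K
      · simp only [hvK, if_true]
        exact ⟨(mem_filter.1 (hKA hvK)).2.1, by omega⟩
      · simp only [hvK, if_false]
        have := hcol1 v (mem_sdiff.2 ⟨hv, hvK⟩)
        exact ⟨this.1, by omega⟩
    · intro u hu v hv hadj
      by_cases huK : u ∈ K
      · by_cases hvK : v ∈ K
        · exfalso
          rcases hGD u v hadj with h | h
          · exact hK1 u huK v hvK h
          · exact hK1 v hvK u huK h
        · simp only [huK, hvK, if_true, if_false]
          have := (hcol1 v (mem_sdiff.2 ⟨hv, hvK⟩)).2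
          omega
      · by_cases hvK : v ∈ K
        · simp only [huK, hvK, if_true, if_false]
          have := (hcol1 u (mem_sdiff.2 ⟨hu, huK⟩)).2
          omega
        · simp only [huK, hvK, if_false]
          exact hcol2 u (mem_sdiff.2 ⟨hu, huK⟩) v (mem_sdiff.2 ⟨hv, hvK⟩) hadj

/-- Colouring from an orientation. -/
theorem kernel_color [Fintype V] (G : SimpleGraph V) (D : V → V → Prop)
    (hDG : ∀ u v, D u v → G.Adj u v)
    (hGD : ∀ u v, G.Adj u v → D u v ∨ D v u) (L : V → Finset ℕ)
    (hout : ∀ v, (univ.filter (fun w => D v w)).card < (L v).card)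
    (hker : ∀ c, ∀ S : Finset V, S.Nonempty →
      (∀ v ∈ S, ∃ w ∈ S, D v w ∧ (colGraph G L c).Adj v w) →
      ∃ f : V → Bool, ∀ v ∈ S, ∀ w ∈ S, (colGraph G L c).Adj v w → f v ≠ f w) :
    ∃ col : V → ℕ, (∀ v, col v ∈ L v) ∧ ∀ u v, G.Adj u v → col u ≠ col v := by
  set N : ℕ := (univ.biUnion L).sup id + 1 with hN
  have hlt : ∀ v, ∀ b ∈ L v, b < N := by
    intro v b hb
    have : b ≤ (univ.biUnion L).sup id :=
      Finset.le_sup (f := id) (mem_biUnion.2 ⟨v, mem_univ _, hb⟩)
    omega
  obtain ⟨col, h1, h2⟩ := kernel_color_aux G D hDG hGD L hker N univ (by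
    intro v _
    have e1 : (L v).filter (fun b => b < N) = L v := by
      apply filter_true_of_mem
      intro b hb
      exact hlt v b hb
    rw [e1]
    refine lt_of_le_of_lt (card_le_card ?_) (hout v)
    intro w hw
    rw [mem_filter] at hw ⊢
    exact ⟨hw.1, hw.2.1⟩)
  exact ⟨col, fun v => (h1 v (mem_univ _)).1, fun u v h => h2 u (mem_univ _) v (mem_univ _) h⟩

end Run7.h216
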