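import Pool.Agent.Run7.h216.HallIneq

set_option autoImplicit false

/-!
# The orientation
-/

open Finset Classical

namespace Run7.h216

variable {V : Type*}

/-- Orientation with prescribed out-pairs at the special vertices and out-degrees at most two. -/
theorem exists_orientation [Fintype V] {σ τ : Equiv.Perm V} {U : Finset V}
    (hU : Sep (pGraph σ τ) U) {O : V → Finset V}
    (hO1 : ∀ u ∈ U, O u ⊆ nb (pGraph σ τ) u) (hO2 : ∀ u ∈ U, (O u).card = 2)
    (hH : ∀ S : Finset V, Disjoint S U →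
      EE σ τ S + (S.filter (fun v => ∃ u ∈ U, (pGraph σ τ).Adj v u ∧ v ∉ O u)).card ≤
        2 * S.card) :
    ∃ D : V → V → Prop, (∀ u v, D u v → (pGraph σ τ).Adj u v) ∧
      (∀ u v, (pGraph σ τ).Adj u v → D u v ∨ D v u) ∧ (∀ u v, D u v → ¬ D v u) ∧
      (∀ u ∈ U, ∀ v ∈ O u, D u v) ∧
      (∀ v, (univ.filter (fun w => D v w)).card ≤ 2) := by
  set G := pGraph σ τ with hG
  set inU : V → Prop := fun v => ∃ u ∈ U, G.Adj v u ∧ v ∉ O u with hinU
  -- Hall's theorem for the edges outside `U`
  set ι := {e : Sym2 V // e ∈ G.edgeSet ∧ ∀ v ∈ e, v ∉ U} with hι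
  set t : ι → Finset (V × Bool) := fun e =>
    univ.filter (fun q => q.1 ∈ e.1 ∧ (q.2 = true → ¬ inU q.1)) with ht
  have hall : ∀ A : Finset ι, A.card ≤ (A.biUnion t).card := by
    intro A
    set S : Finset V := univ.filter (fun v => ∃ e ∈ A, v ∈ e.1) with hS
    have hSU : Disjoint S U := by
      rw [disjoint_left]
      intro v hv
      obtain ⟨e, -, hve⟩ := (mem_filter.1 hv).2
      exact e.2.2 v hve
    have h1 : A.card ≤ EE σ τ S := by
      have : (A.image Subtype.val).card = A.card :=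
        card_image_of_injective _ Subtype.val_injective
      rw [← this]
      apply card_edges_le
      intro e he
      obtain ⟨e', he', rfl⟩ := mem_image.1 he
      exact ⟨e'.2.1, fun v hv => mem_filter.2 ⟨mem_univ _, e', he', hv⟩⟩
    have h2 : (S ×ˢ {false}) ∪ ((S.filter (fun v => ¬ inU v)) ×ˢ {true}) ⊆ A.biUnion t := by
      intro q hq
      rw [mem_biUnion]
      rcases mem_union.1 hq with hq | hq
      · obtain ⟨h3, h4⟩ := mem_product.1 hq
        rw [mem_singleton] at h4
        obtain ⟨e, he, hve⟩ := (mem_filter.1 h3).2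
        refine ⟨e, he, mem_filter.2 ⟨mem_univ _, hve, ?_⟩⟩
        rw [h4]
        intro hc
        exact absurd hc (by simp)
      · obtain ⟨h35, h4⟩ := mem_product.1 hq
        obtain ⟨h3, h5⟩ := mem_filter.1 h35
        obtain ⟨e, he, hve⟩ := (mem_filter.1 h3).2
        exact ⟨e, he, mem_filter.2 ⟨mem_univ _, hve, fun _ => h5⟩⟩
    have h3 : ((S ×ˢ {false}) ∪ ((S.filter (fun v => ¬ inU v)) ×ˢ {true}) :
        Finset (V × Bool)).card = S.card + (S.filter (fun v => ¬ inU v)).card := by
      rw [card_union_of_disjoint, card_product, card_product, card_singleton, card_singleton,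
        mul_one, mul_one]
      rw [disjoint_left]
      intro q hq hq'
      rw [mem_product, mem_singleton] at hq hq'
      rw [hq.2] at hq'
      exact absurd hq'.2 (by simp)
    have h4 := card_le_card h2
    rw [h3] at h4
    have h5 := hH S hSU
    have h6 : (S.filter inU).card + (S.filter (fun v => ¬ inU v)).card = S.card :=
      card_filter_add_card_filter_not _
    have h7 : (S.filter (fun v => ∃ u ∈ U, G.Adj v u ∧ v ∉ O u)).card = (S.filter inU).card := rfl
    omega
  obtain ⟨f, hf1, hf2⟩ := (Finset.all_card_le_biUnion_card_iff_exists_injective t).1 hall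
  obtain ⟨D, hD⟩ : ∃ D : V → V → Prop, ∀ v w, D v w ↔ ((v ∈ U ∧ w ∈ O v) ∨
    (w ∈ U ∧ v ∉ U ∧ G.Adj v w ∧ v ∉ O w) ∨
    (∃ h : s(v, w) ∈ G.edgeSet ∧ ∀ x ∈ s(v, w), x ∉ U, (f ⟨s(v, w), h⟩).1 = v)) :=
    ⟨_, fun _ _ => Iff.rfl⟩
  have hUind := hU.indep
  refine ⟨D, ?_, ?_, ?_, ?_, ?_⟩
  · intro u v huv
    rcases (hD u v).1 huv with (⟨h1, h2⟩ | ⟨-, -, h, -⟩ | ⟨h, -⟩)
    · exact mem_nb.1 (hO1 u h1 h2)
    · exact h
    · exact h.1
  · intro u v hadj
    rw [hD, hD]
    by_cases hu : u ∈ U
    · have hv : v ∉ U := fun hv => hUind u hu v hv hadj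
      by_cases hvO : v ∈ O u
      · exact Or.inl (Or.inl ⟨hu, hvO⟩)
      · exact Or.inr (Or.inr (Or.inl ⟨hu, hv, hadj.symm, hvO⟩))
    · by_cases hv : v ∈ U
      · by_cases huO : u ∈ O v
        · exact Or.inr (Or.inl ⟨hv, huO⟩)
        · exact Or.inl (Or.inr (Or.inl ⟨hv, hu, hadj, huO⟩))
      · have hh : s(u, v) ∈ G.edgeSet ∧ ∀ x ∈ s(u, v), x ∉ U := by
          refine ⟨hadj, ?_⟩
          intro x hx
          rw [Sym2.mem_iff] at hx
          rcases hx with rfl | rfl
          · exact hu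
          · exact hv
        have hmem := (mem_filter.1 (hf2 ⟨s(u, v), hh⟩)).2.1
        rw [Sym2.mem_iff] at hmem
        rcases hmem with h | h
        · exact Or.inl (Or.inr (Or.inr ⟨hh, h⟩))
        · right
          right
          right
          have hsw : s(v, u) = s(u, v) := Sym2.eq_swap
          refine ⟨by rw [hsw]; exact hh, ?_⟩
          have : (⟨s(v, u), by rw [hsw]; exact hh⟩ : ι) = ⟨s(u, v), hh⟩ := Subtype.ext hsw
          rw [this]
          exact h
  · intro u v huv hvu
    rcases (hD u v).1 huv with (⟨h1, h2⟩ | ⟨h1, h2, h3, h4⟩ | ⟨h, h'⟩) <;>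
      rcases (hD v u).1 hvu with (⟨k1, k2⟩ | ⟨k1, k2, k3, k4⟩ | ⟨k, k'⟩)
    · exact hUind u h1 v k1 (mem_nb.1 (hO1 u h1 h2))
    · exact k4 h2
    · exact k.2 u (Sym2.mem_mk_right _ _) h1
    · exact h4 k2
    · exact k2 h1
    · exact k.2 v (Sym2.mem_mk_left _ _) h1
    · exact h.2 v (Sym2.mem_mk_right _ _) k1
    · exact h.2 u (Sym2.mem_mk_left _ _) k1
    · have hsw : s(v, u) = s(u, v) := Sym2.eq_swap
      have : (⟨s(v, u), k⟩ : ι) = ⟨s(u, v), h⟩ := Subtype.ext hsw
      rw [this] at k'
      have huv : u = v := h'.symm.trans k'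
      have hadj : G.Adj u v := h.1
      exact hadj.ne huv
  · intro u hu v hv
    exact (hD u v).2 (Or.inl ⟨hu, hv⟩)
  · intro v
    by_cases hv : v ∈ U
    · rw [← hO2 v hv]
      apply card_le_card
      intro w hw
      rcases (hD v w).1 (mem_filter.1 hw).2 with ⟨-, h⟩ | ⟨-, h, -⟩ | ⟨h, -⟩
      · exact h
      · exact absurd hv h
      · exact absurd hv (h.2 v (Sym2.mem_mk_left _ _))
    · have hsplit : univ.filter (fun w => D v w) ⊆
          (nbIn G U v).filter (fun w => v ∉ O w) ∪
          univ.filter (fun w => ∃ h : s(v, w) ∈ G.edgeSet ∧ ∀ x ∈ s(v, w), x ∉ U,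
            (f ⟨s(v, w), h⟩).1 = v) := by
        intro w hw
        rw [mem_union, mem_filter, mem_filter, mem_nbIn]
        rcases (hD v w).1 (mem_filter.1 hw).2 with ⟨h, -⟩ | ⟨h1, h2, h3, h4⟩ | h
        · exact absurd h hv
        · exact Or.inl ⟨⟨h1, h3⟩, h4⟩
        · exact Or.inr ⟨mem_univ _, h⟩
      refine (card_le_card hsplit).trans ((card_union_le _ _).trans ?_)
      set Y := univ.filter (fun w => ∃ h : s(v, w) ∈ G.edgeSet ∧ ∀ x ∈ s(v, w), x ∉ U,
            (f ⟨s(v, w), h⟩).1 = v) with hY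
      -- second coordinate of the slot
      have hch : ∀ w ∈ Y, ∃ h : s(v, w) ∈ G.edgeSet ∧ ∀ x ∈ s(v, w), x ∉ U,
            (f ⟨s(v, w), h⟩).1 = v := fun w hw => (mem_filter.1 hw).2
      set g : V → Bool := fun w => if h : s(v, w) ∈ G.edgeSet ∧ ∀ x ∈ s(v, w), x ∉ U then
        (f ⟨s(v, w), h⟩).2 else false with hg
      have hginj : Set.InjOn g Y := by
        intro w hw w' hw' he
        obtain ⟨h1, h2⟩ := hch w hw
        obtain ⟨h1', h2'⟩ := hch w' hw'
        simp only [hg] at he
        rw [dif_pos h1, dif_pos h1'] at he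
        have h3 : f ⟨s(v, w), h1⟩ = f ⟨s(v, w'), h1'⟩ := Prod.ext (h2.trans h2'.symm) he
        have h4 := congrArg Subtype.val (hf1 h3)
        simp only at h4
        rwa [Sym2.congr_right] at h4
      by_cases hin : inU v
      · have h1 : ((nbIn G U v).filter (fun w => v ∉ O w)).card ≤ 1 :=
          (card_le_card (filter_subset _ _)).trans (nbIn_card_le_one hU v)
        have h2 : Y.card ≤ ({false} : Finset Bool).card := by
          apply card_le_card_of_injOn g _ hginj
          intro w hw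
          obtain ⟨h3, h4⟩ := hch w hw
          rw [mem_coe, mem_singleton]
          simp only [hg]
          rw [dif_pos h3]
          have h5 := (mem_filter.1 (hf2 ⟨s(v, w), h3⟩)).2.2
          rw [h4] at h5
          cases h6 : (f ⟨s(v, w), h3⟩).2
          · rfl
          · exact absurd hin (h5 h6)
        rw [card_singleton] at h2
        omega
      · have h1 : ((nbIn G U v).filter (fun w => v ∉ O w)).card = 0 := by
          rw [card_eq_zero, eq_empty_iff_forall_notMem]
          intro w hw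
          rw [mem_filter, mem_nbIn] at hw
          exact hin ⟨w, hw.1.1, hw.1.2, hw.2⟩
        have h2 : Y.card ≤ (univ : Finset Bool).card :=
          card_le_card_of_injOn g (fun _ _ => mem_univ _) hginj
        rw [card_univ, Fintype.card_bool] at h2
        omega

end Run7.h216
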