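import Pool.Agent.Helper208.Rainbow.LLL

set_option autoImplicit false

/-!
# Conflict-free choice of representatives, by the local lemma
-/

open Finset Classical

namespace Run7.h216

/-- representatives of large sets, pairwise without conflict -/
theorem exists_reps {I V : Type} [Fintype I] [Fintype V] (X : I → Finset V) (m Δ : ℕ)
    (hm : 2 ≤ m) (hX : ∀ i, m ≤ (X i).card) (conf : V → V → Prop)
    (hsymm : ∀ x y, conf x y → conf y x)
    (hconf : ∀ x : V, (univ.filter (fun q : I × V => q.2 ∈ X q.1 ∧ conf x q.2)).card ≤ Δ)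
    (hΔ : 16 * Δ ≤ m) :
    ∃ f : I → V, (∀ i, f i ∈ X i) ∧ ∀ i j, i ≠ j → ¬ conf (f i) (f j) := by
  have hmpos : 0 < m := by omega
  -- enumerate `m` elements of each class
  set x : I → Fin m → V := fun i a => ((X i).equivFin.symm (Fin.castLE (hX i) a)).val with hx
  have hxmem : ∀ i a, x i a ∈ X i := fun i a => ((X i).equivFin.symm (Fin.castLE (hX i) a)).2
  have hxinj : ∀ i a b, x i a = x i b → a = b := by
    intro i a b h
    have h1 := Subtype.ext h
    have h2 := (X i).equivFin.symm.injective h1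
    exact Fin.castLE_injective (hX i) h2
  set II : Finset ((I × Fin m) × (I × Fin m)) :=
    univ.filter (fun e => e.1.1 ≠ e.2.1 ∧ conf (x e.1.1 e.1.2) (x e.2.1 e.2.2)) with hII
  have hN1 : ∀ i : I, (II.filter (fun e => e.1.1 = i)).card ≤ m * Δ := by
    intro i
    have hle : (II.filter (fun e => e.1.1 = i)).card ≤
        ((univ : Finset (Fin m)).sigma (fun a => (univ.filter
          (fun q : I × V => q.2 ∈ X q.1 ∧ conf (x i a) q.2)))).card := by
      apply card_le_card_of_injOn (fun e => ⟨e.1.2, (e.2.1, x e.2.1 e.2.2)⟩)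
      · intro e he
        rw [mem_coe, mem_filter, hII, mem_filter] at he
        obtain ⟨⟨-, h1, h2⟩, h3⟩ := he
        rw [mem_coe, mem_sigma]
        refine ⟨mem_univ _, ?_⟩
        rw [mem_filter]
        refine ⟨mem_univ _, hxmem _ _, ?_⟩
        rw [h3] at h2
        exact h2
      · intro e he e' he' h
        rw [mem_coe, mem_filter] at he he'
        simp only [Sigma.mk.injEq, heq_eq_eq, Prod.mk.injEq] at h
        obtain ⟨h1, h2, h3⟩ := h
        obtain ⟨⟨i1, a1⟩, ⟨j1, b1⟩⟩ := e
        obtain ⟨⟨i2, a2⟩, ⟨j2, b2⟩⟩ := e'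
        simp only at h1 h2 h3 he he'
        subst h2
        have h4 := hxinj _ _ _ h3
        rw [h1, h4, he.2, he'.2]
    refine hle.trans ?_
    rw [card_sigma]
    calc (∑ a : Fin m, (univ.filter (fun q : I × V => q.2 ∈ X q.1 ∧ conf (x i a) q.2)).card)
        ≤ ∑ _a : Fin m, Δ := sum_le_sum (fun a _ => hconf _)
      _ = m * Δ := by simp
  have hN2 : ∀ i : I, (II.filter (fun e => e.2.1 = i)).card ≤ m * Δ := by
    intro i
    refine le_trans ?_ (hN1 i)
    apply card_le_card_of_injOn Prod.swap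
    · intro e he
      rw [mem_coe, mem_filter, hII, mem_filter] at he
      rw [mem_coe, mem_filter, hII, mem_filter]
      obtain ⟨⟨-, h1, h2⟩, h3⟩ := he
      exact ⟨⟨mem_univ _, h1.symm, hsymm _ _ h2⟩, h3⟩
    · intro e _ e' _ h
      exact Prod.swap_injective h
  have : Nonempty (Fin m) := ⟨⟨0, hmpos⟩⟩
  have : Nonempty (I → Fin m) := ⟨fun _ => ⟨0, hmpos⟩⟩
  set A : (I × Fin m) × (I × Fin m) → Finset (I → Fin m) :=
    fun e => univ.filter (fun ω => (ω e.1.1, ω e.2.1) ∈ ({(e.1.2, e.2.2)} : Finset _)) with hA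
  set F : (I × Fin m) × (I × Fin m) → Finset I := fun e => {e.1.1, e.2.1} with hF
  have hmR : (2 : ℝ) ≤ m := by exact_mod_cast hm
  have ht1 : (2 : ℝ) / m ^ 2 < 1 := by
    rw [div_lt_one (by positivity)]
    nlinarith
  obtain ⟨ω, hω⟩ := Pool.Agent.Helper208.Rainbow.lll II A F (by
    intro e ω ω' h
    rw [hA]
    simp only [mem_filter, mem_univ, true_and]
    rw [h e.1.1 (by simp [hF]), h e.2.1 (by simp [hF])]) (fun _ => 2 / (m : ℝ) ^ 2)
    (fun _ => by positivity) (fun _ => ht1) (by
    intro e he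
    rw [hII, mem_filter] at he
    have h1 := Pool.Agent.Helper208.Rainbow.pair_card e.1.1 e.2.1 he.2.1
      ({(e.1.2, e.2.2)} : Finset (Fin m × Fin m))
    rw [card_singleton, one_mul, Fintype.card_fin] at h1
    have h1' : ((A e).card : ℝ) * m ^ 2 = Fintype.card (I → Fin m) := by
      have h2 : (A e).card * m ^ 2 = Fintype.card (I → Fin m) := by
        rw [← h1]
      exact_mod_cast h2
    rw [prod_const]
    set d := (II.filter (fun j => j ≠ e ∧ ¬ Disjoint (F e) (F j))).card with hd
    have hdle : d ≤ 4 * (m * Δ) := by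
      have hsub : II.filter (fun j => j ≠ e ∧ ¬ Disjoint (F e) (F j)) ⊆
          ((II.filter (fun j => j.1.1 = e.1.1)) ∪ (II.filter (fun j => j.1.1 = e.2.1))) ∪
          ((II.filter (fun j => j.2.1 = e.1.1)) ∪ (II.filter (fun j => j.2.1 = e.2.1))) := by
        intro j hj
        rw [mem_filter] at hj
        obtain ⟨hj1, -, hj2⟩ := hj
        rw [not_disjoint_iff] at hj2
        obtain ⟨t, ht1, ht2⟩ := hj2
        simp only [hF, mem_insert, mem_singleton] at ht1 ht2
        simp only [mem_union, mem_filter]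
        rcases ht1 with h | h <;> rcases ht2 with h' | h'
        · exact Or.inl (Or.inl ⟨hj1, h'.symm.trans h⟩)
        · exact Or.inr (Or.inl ⟨hj1, h'.symm.trans h⟩)
        · exact Or.inl (Or.inr ⟨hj1, h'.symm.trans h⟩)
        · exact Or.inr (Or.inr ⟨hj1, h'.symm.trans h⟩)
      have h3 := card_le_card hsub
      have h4 := card_union_le ((II.filter (fun j => j.1.1 = e.1.1)) ∪
        (II.filter (fun j => j.1.1 = e.2.1)))
        ((II.filter (fun j => j.2.1 = e.1.1)) ∪ (II.filter (fun j => j.2.1 = e.2.1)))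
      have h5 := card_union_le (II.filter (fun j => j.1.1 = e.1.1))
        (II.filter (fun j => j.1.1 = e.2.1))
      have h6 := card_union_le (II.filter (fun j => j.2.1 = e.1.1))
        (II.filter (fun j => j.2.1 = e.2.1))
      have h7 := hN1 e.1.1
      have h8 := hN1 e.2.1
      have h9 := hN2 e.1.1
      have h10 := hN2 e.2.1
      omega
    have hb : (1 : ℝ) / 2 ≤ (1 - 2 / (m : ℝ) ^ 2) ^ d := by
      have hB := one_add_mul_le_pow (a := -(2 / (m : ℝ) ^ 2)) (by linarith) d
      rw [← sub_eq_add_neg] at hB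
      refine le_trans ?_ hB
      have h11 : (d : ℝ) * (2 / (m : ℝ) ^ 2) ≤ 1 / 2 := by
        have h12 : (d : ℝ) ≤ 4 * (m * Δ) := by exact_mod_cast hdle
        have h13 : (16 : ℝ) * Δ ≤ m := by exact_mod_cast hΔ
        have hm0 : (0 : ℝ) < m := by linarith
        rw [mul_div_assoc', div_le_iff₀ (by positivity)]
        nlinarith
      linarith
    have hm0 : (0 : ℝ) < m := by linarith
    rw [← h1']
    have h14 : (0 : ℝ) ≤ (A e).card := by positivity
    calc ((A e).card : ℝ) = 2 / (m : ℝ) ^ 2 * (1 / 2) * ((A e).card * m ^ 2) := by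
          field_simp
      _ ≤ 2 / (m : ℝ) ^ 2 * (1 - 2 / (m : ℝ) ^ 2) ^ d * ((A e).card * m ^ 2) := by
          apply mul_le_mul_of_nonneg_right _ (by positivity)
          apply mul_le_mul_of_nonneg_left hb (by positivity))
  refine ⟨fun i => x i (ω i), fun i => hxmem _ _, ?_⟩
  intro i j hij hc
  have := hω ((i, ω i), (j, ω j)) (by
    rw [hII, mem_filter]
    exact ⟨mem_univ _, hij, hc⟩)
  apply this
  rw [hA]
  simp

end Run7.h216
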