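import Pool.Agent.Run7.h216.Short
import Pool.Agent.Run7.h216.Orient
import Pool.Agent.Run7.h216.Transversal
import Pool.Agent.Run7.h216.Kernel

set_option autoImplicit false

/-!
# The set of special vertices
-/

open Finset Classical

namespace Run7.h216

theorem colGraph_le {V : Type} (G : SimpleGraph V) (L : V → Finset ℕ) (c : ℕ) :
    colGraph G L c ≤ G := fun _ _ h => h.1

/-- In a locally sparse graph a short piece has no chords. -/
theorem ShortP.nbIn_card {V : Type} {G : SimpleGraph V} {M K : ℕ} (hMK : M < K)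
    (hsp : ∀ T : Finset V, T.card < K → AA G T ≤ 2 * T.card) {P : Finset V}
    (hP : ShortP G M P) {a : V} (ha : a ∈ P) : (nbIn G P a).card = 2 := by
  obtain ⟨Γ, hc⟩ := hP.isCyc
  have h1 := hc.AA_eq
  have h2 := hsp P (lt_of_le_of_lt hP.1 hMK)
  have h3 : ∀ b ∈ P, (nbIn Γ P b).card ≤ (nbIn G P b).card := by
    intro b _
    apply card_le_card
    intro y hy
    rw [mem_nbIn] at hy ⊢
    exact ⟨hy.1, hc.le hy.2⟩
  have h4 : AA Γ P = AA G P := le_antisymm (sum_le_sum h3) (by omega)
  have h5 := (sum_eq_sum_iff_of_le h3).1 h4 a ha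
  rw [← h5]
  exact hc.deg a ha

theorem reach_pow {V : Type} {G : SimpleGraph V} {σ : Equiv.Perm V}
    (hσG : ∀ x, reach G 1 x (σ x)) (i : ℕ) (x : V) : reach G i x ((σ ^ i) x) := by
  induction i with
  | zero => exact reach_refl _ _ _
  | succ i ih =>
    rw [pow_succ', Equiv.Perm.mul_apply]
    exact reach_trans ih (hσG _)

/-- the special vertices -/
theorem exists_special {V : Type} [Fintype V] [Nonempty V] {G : SimpleGraph V} (σ : Equiv.Perm V)
    (hσG : ∀ x, reach G 1 x (σ x)) {M K : ℕ} (hM : 6200 ≤ M) (hK : 4 * M + 10 < K)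
    (hdeg : ∀ v, (nb G v).card ≤ 4)
    (hsp : ∀ T : Finset V, T.card < K → AA G T ≤ 2 * T.card)
    (hcyc : ∀ x : V, ∀ i : ℕ, 0 < i → i ≤ M → (σ ^ i) x ≠ x)
    (L : V → Finset ℕ) (hL : ∀ v, (L v).card = 3)
    (PP : ℕ → Finset (Finset V × Finset V))
    (h1 : ∀ c, ∀ p ∈ PP c, IsPiece G (colGraph G L c) M p.1 p.2)
    (h2 : ∀ c, ∀ p ∈ PP c, ∀ q ∈ PP c, p ≠ q → Disjoint p.2 q.2) :
    ∃ (U : Finset V) (O : V → Finset V), Sep G U ∧ (∀ u ∈ U, O u ⊆ nb G u) ∧
      (∀ u ∈ U, (O u).card = 2) ∧ U.card * (M + 1) ≤ 4 * Fintype.card V ∧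
      ∀ c, ∀ p ∈ PP c, ∃ u ∈ U, u ∈ p.2 ∧ ∀ z ∈ p.1, (colGraph G L c).Adj u z → z ∈ O u := by
  -- short pieces and their representatives
  have hrep' : ∀ P : Finset V, ∃ x : V, P.Nonempty → x ∈ P := by
    intro P
    by_cases hP : P.Nonempty
    · obtain ⟨x, hx⟩ := hP
      exact ⟨x, fun _ => hx⟩
    · exact ⟨Classical.arbitrary V, fun h => absurd h hP⟩
  choose rep hrep using hrep'
  set SS : Finset (Finset V) := univ.filter (fun P => ShortP G M P) with hSS
  have hmemSS : ∀ P, P ∈ SS ↔ ShortP G M P := by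
    intro P
    rw [hSS, mem_filter]
    simp
  have hSSrep : ∀ P ∈ SS, rep P ∈ P := by
    intro P hP
    obtain ⟨Γ, hc⟩ := ((hmemSS P).1 hP).isCyc
    exact hrep P hc.ne
  have hfar : ∀ P ∈ SS, ∀ P' ∈ SS, ∀ x ∈ P, ∀ y ∈ P', reach G (2 * M + 6) x y → P = P' := by
    intro P hP P' hP' x hx y hy hr
    by_contra hne
    exact short_far (by omega) hsp ((hmemSS P).1 hP) ((hmemSS P').1 hP') hne hx hy hr
  set Us : Finset V := SS.image rep with hUs
  have hUsfar : ∀ u ∈ Us, ∀ u' ∈ Us, reach G (2 * M + 6) u u' → u = u' := by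
    intro u hu u' hu' hr
    obtain ⟨P, hP, rfl⟩ := mem_image.1 hu
    obtain ⟨P', hP', rfl⟩ := mem_image.1 hu'
    rw [hfar P hP P' hP' _ (hSSrep P hP) _ (hSSrep P' hP') hr]
  have hUscard : Us.card * (M + 1) ≤ Fintype.card V := by
    rw [← card_range (M + 1), ← card_product, ← card_univ]
    apply card_le_card_of_injOn (fun q : V × ℕ => (σ ^ q.2) q.1) (fun _ _ => mem_univ _)
    rintro ⟨u, i⟩ hu ⟨u', j⟩ hu' he
    rw [mem_coe, mem_product, mem_range] at hu hu'
    simp only at hu hu' he
    have hr : reach G (2 * M + 6) u u' := by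
      have e1 := reach_pow hσG i u
      have e2 := reach_symm (reach_pow hσG j u')
      rw [← he] at e2
      exact reach_mono (by omega) (reach_trans e1 e2)
    have huu := hUsfar u hu.1 u' hu'.1 hr
    subst huu
    have hpow : ∀ a b : ℕ, a < b → b ≤ M → (σ ^ a) u ≠ (σ ^ b) u := by
      intro a b hab hb hc
      apply hcyc u (b - a) (by omega) (by omega)
      have e3 : σ ^ b = σ ^ a * σ ^ (b - a) := by
        rw [← pow_add]
        congr 1
        omega
      rw [e3, Equiv.Perm.mul_apply] at hc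
      exact ((σ ^ a).injective hc).symm
    rcases lt_trichotomy i j with h | h | h
    · exact absurd he (hpow i j h (by omega))
    · rw [h]
    · exact absurd he.symm (hpow j i h (by omega))
  -- long pieces
  set CC : Finset ℕ := univ.biUnion L with hCC
  set Q : Finset (ℕ × (Finset V × Finset V)) :=
    CC.biUnion (fun c => ((PP c).filter (fun p => M < p.2.card)).image (fun p => (c, p))) with hQ
  have hmemQ : ∀ q, q ∈ Q ↔ q.1 ∈ CC ∧ q.2 ∈ PP q.1 ∧ M < q.2.2.card := by
    rintro ⟨c, p⟩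
    rw [hQ, mem_biUnion]
    constructor
    · rintro ⟨c', hc', h⟩
      obtain ⟨p', hp', he⟩ := mem_image.1 h
      rw [Prod.mk.injEq] at he
      obtain ⟨rfl, rfl⟩ := he
      exact ⟨hc', (mem_filter.1 hp').1, (mem_filter.1 hp').2⟩
    · rintro ⟨hc, hp1, hp2⟩
      exact ⟨c, hc, mem_image.2 ⟨p, mem_filter.2 ⟨hp1, hp2⟩, rfl⟩⟩
  have hcolor : ∀ c, ∀ p ∈ PP c, ∀ y ∈ p.2, c ∈ L y := by
    intro c p hp y hy
    have h3 := (h1 c p hp).deg y hy
    have h4 : (nbIn (colGraph G L c) p.1 y).Nonempty := by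
      rw [← card_pos]
      omega
    obtain ⟨z, hz⟩ := h4
    exact (mem_nbIn.1 hz).2.2.1
  have hcount : ∀ y : V, (Q.filter (fun q => y ∈ q.2.2)).card ≤ 3 := by
    intro y
    rw [← hL y]
    apply card_le_card_of_injOn (fun q => q.1)
    · intro q hq
      rw [mem_coe, mem_filter] at hq
      exact hcolor q.1 q.2 ((hmemQ q).1 hq.1).2.1 y hq.2
    · intro q hq q' hq' he
      rw [mem_coe, mem_filter] at hq hq'
      simp only at he
      by_contra hne
      have hne2 : q.2 ≠ q'.2 := fun h => hne (Prod.ext he h)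
      have h3 := ((hmemQ q).1 hq.1).2.1
      have h4 := ((hmemQ q').1 hq'.1).2.1
      rw [← he] at h4
      exact disjoint_left.1 (h2 q.1 q.2 h3 q'.2 h4 hne2) hq.2 hq'.2
  have hQcard : Q.card * (M + 1) ≤ 3 * Fintype.card V := by
    have e1 : Q.card * (M + 1) ≤ ∑ q ∈ Q, q.2.2.card := by
      rw [← smul_eq_mul, ← sum_const]
      apply sum_le_sum
      intro q hq
      have := ((hmemQ q).1 hq).2.2
      omega
    have e2 : ∑ q ∈ Q, q.2.2.card = ∑ y : V, (Q.filter (fun q => y ∈ q.2.2)).card := by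
      simp only [card_filter]
      rw [sum_comm]
      apply sum_congr rfl
      intro q _
      rw [← card_filter]
      congr 1
      ext y
      simp
    rw [e2] at e1
    refine e1.trans ?_
    rw [← card_univ, mul_comm, ← smul_eq_mul, ← sum_const]
    exact sum_le_sum (fun y _ => hcount y)
  -- the admissible vertices of the long pieces
  set X : {q // q ∈ Q} → Finset V := fun q =>
    q.1.2.2.filter (fun a => ∀ u ∈ Us, ¬ reach G 3 u a) with hX
  have hXcard : ∀ q, 6000 ≤ (X q).card := by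
    intro q
    set P := q.1.2.2 with hP
    have hq := (hmemQ q.1).1 q.2
    set B := P.filter (fun a => ¬ ∀ u ∈ Us, ¬ reach G 3 u a) with hB
    have hsum : (X q).card + B.card = P.card := card_filter_add_card_filter_not _
    have hBcard : B.card ≤ 125 := by
      rcases B.eq_empty_or_nonempty with hB0 | ⟨a, ha⟩
      · rw [hB0]
        simp
      · have ha' := (mem_filter.1 ha).2
        push Not at ha'
        obtain ⟨u, hu, hr⟩ := ha'
        have hsub : B ⊆ rball G 3 u := by
          intro b hb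
          have hb' := (mem_filter.1 hb).2
          push Not at hb'
          obtain ⟨u', hu', hr'⟩ := hb'
          have hab := (h1 q.1.1 q.1.2 hq.2.1).near a (mem_filter.1 ha).1 b (mem_filter.1 hb).1
          have hr2 : reach G (2 * M + 6) u u' := by
            have := reach_trans hr (reach_trans hab (reach_symm hr'))
            exact reach_mono (by omega) this
          have huu := hUsfar u hu u' hu' hr2
          subst huu
          exact mem_rball.2 hr'
        have := (card_le_card hsub).trans (card_rball_le hdeg 3 u)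
        omega
    have hPM : M < P.card := hq.2.2
    omega
  obtain ⟨f, hf1, hf2⟩ := exists_reps X 6000 375 (by norm_num) hXcard (fun x y => reach G 3 x y)
    (fun x y h => reach_symm h) (by
      intro x
      have hle : (univ.filter (fun q : {q // q ∈ Q} × V => q.2 ∈ X q.1 ∧ reach G 3 x q.2)).card ≤
          ((rball G 3 x).sigma (fun y => Q.filter (fun q => y ∈ q.2.2))).card := by
        apply card_le_card_of_injOn (fun q => ⟨q.2, q.1.1⟩)
        · rintro ⟨q, y⟩ hq
          rw [mem_coe, mem_filter] at hq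
          obtain ⟨-, hq1, hq2⟩ := hq
          rw [mem_coe, mem_sigma]
          refine ⟨mem_rball.2 hq2, mem_filter.2 ⟨q.2, ?_⟩⟩
          exact (mem_filter.1 hq1).1
        · rintro ⟨q, y⟩ _ ⟨q', y'⟩ _ he
          simp only [Sigma.mk.injEq, heq_eq_eq] at he
          obtain ⟨rfl, he⟩ := he
          rw [Prod.mk.injEq]
          exact ⟨Subtype.ext he, rfl⟩
      refine hle.trans ?_
      rw [card_sigma]
      have hb := card_rball_le hdeg 3 x
      calc (∑ y ∈ rball G 3 x, (Q.filter (fun q => y ∈ q.2.2)).card)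
          ≤ ∑ _y ∈ rball G 3 x, 3 := sum_le_sum (fun y _ => hcount y)
        _ = (rball G 3 x).card * 3 := by rw [sum_const, smul_eq_mul]
        _ ≤ 375 := by omega) (by norm_num)
  have hfinj : Function.Injective f := by
    intro i j hij
    by_contra hne
    apply hf2 i j hne
    rw [hij]
    exact reach_refl _ _ _
  have hfsep : ∀ q, ∀ u ∈ Us, ¬ reach G 3 u (f q) := fun q => (mem_filter.1 (hf1 q)).2
  set O : V → Finset V := fun u =>
    if h : ∃ P ∈ SS, rep P = u then nbIn G h.choose u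
    else if h : ∃ q, f q = u then nbIn (colGraph G L h.choose.1.1) h.choose.1.2.1 u
    else ∅ with hO
  have hOs : ∀ P ∈ SS, O (rep P) = nbIn G P (rep P) := by
    intro P hP
    have hex : ∃ P' ∈ SS, rep P' = rep P := ⟨P, hP, rfl⟩
    have e1 : O (rep P) = nbIn G hex.choose (rep P) := by
      rw [hO]
      simp only
      rw [dif_pos hex]
    rw [e1]
    have h3 := hex.choose_spec
    have h4 := hfar _ h3.1 P hP _ (hSSrep _ h3.1) _ (hSSrep P hP) (by
      rw [h3.2]
      exact reach_refl _ _ _)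
    rw [h4]
  have hOl : ∀ q, O (f q) = nbIn (colGraph G L q.1.1) q.1.2.1 (f q) := by
    intro q
    have hnex : ¬ ∃ P' ∈ SS, rep P' = f q := by
      rintro ⟨P', hP', he⟩
      apply hfsep q (rep P') (mem_image_of_mem _ hP')
      rw [he]
      exact reach_refl _ _ _
    have hex : ∃ q', f q' = f q := ⟨q, rfl⟩
    have e1 : O (f q) = nbIn (colGraph G L hex.choose.1.1) hex.choose.1.2.1 (f q) := by
      rw [hO]
      simp only
      rw [dif_neg hnex, dif_pos hex]
    rw [e1, hfinj hex.choose_spec]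
  refine ⟨Us ∪ univ.image f, O, ⟨?_⟩, ?_, ?_, ?_, ?_⟩
  · intro u hu u' hu' hne hr
    rcases mem_union.1 hu with hu | hu
    · rcases mem_union.1 hu' with hu' | hu'
      · exact hne (hUsfar u hu u' hu' (reach_mono (by omega) hr))
      · obtain ⟨q', -, rfl⟩ := mem_image.1 hu'
        exact hfsep q' u hu hr
    · obtain ⟨q, -, rfl⟩ := mem_image.1 hu
      rcases mem_union.1 hu' with hu' | hu'
      · exact hfsep q u' hu' (reach_symm hr)
      · obtain ⟨q', -, rfl⟩ := mem_image.1 hu'
        exact hf2 q q' (fun h => hne (by rw [h])) hr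
  · intro u hu
    rcases mem_union.1 hu with hu | hu
    · obtain ⟨P, hP, rfl⟩ := mem_image.1 hu
      rw [hOs P hP]
      intro y hy
      exact mem_nb.2 (mem_nbIn.1 hy).2
    · obtain ⟨q, -, rfl⟩ := mem_image.1 hu
      rw [hOl q]
      intro y hy
      exact mem_nb.2 (mem_nbIn.1 hy).2.1
  · intro u hu
    rcases mem_union.1 hu with hu | hu
    · obtain ⟨P, hP, rfl⟩ := mem_image.1 hu
      rw [hOs P hP]
      exact ShortP.nbIn_card (by omega) hsp ((hmemSS P).1 hP) (hSSrep P hP)
    · obtain ⟨q, -, rfl⟩ := mem_image.1 hu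
      rw [hOl q]
      exact (h1 q.1.1 q.1.2 ((hmemQ q.1).1 q.2).2.1).deg (f q) (mem_filter.1 (hf1 q)).1
  · have e1 : (Us ∪ univ.image f).card ≤ Us.card + Q.card := by
      refine (card_union_le _ _).trans ?_
      refine Nat.add_le_add_left (card_image_le.trans ?_) _
      rw [card_univ, Fintype.card_coe]
    calc (Us ∪ univ.image f).card * (M + 1) ≤ (Us.card + Q.card) * (M + 1) :=
          Nat.mul_le_mul_right _ e1
      _ = Us.card * (M + 1) + Q.card * (M + 1) := by ring
      _ ≤ Fintype.card V + 3 * Fintype.card V := Nat.add_le_add hUscard hQcard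
      _ = 4 * Fintype.card V := by ring
  · intro c p hp
    have hpc := h1 c p hp
    by_cases hlong : M < p.2.card
    · have hcCC : c ∈ CC := by
        obtain ⟨y, hy⟩ := hpc.ne
        exact mem_biUnion.2 ⟨y, mem_univ _, hcolor c p hp y hy⟩
      have hq : (c, p) ∈ Q := (hmemQ _).2 ⟨hcCC, hp, hlong⟩
      refine ⟨f ⟨(c, p), hq⟩, mem_union_right _ (mem_image_of_mem _ (mem_univ _)),
        (mem_filter.1 (hf1 ⟨(c, p), hq⟩)).1, ?_⟩
      intro z hz hadj
      rw [hOl, mem_nbIn]
      exact ⟨hz, hadj⟩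
    · have hS : p.2 ∈ SS := (hmemSS _).2 ⟨by omega, _, colGraph_le G L c, p.1, hpc⟩
      refine ⟨rep p.2, mem_union_left _ (mem_image_of_mem _ hS), hSSrep _ hS, ?_⟩
      intro z hz hadj
      rw [hOs _ hS, mem_nbIn]
      refine ⟨?_, hadj.1⟩
      rcases hpc.alt with h | h
      · exact absurd h hlong
      · exact h _ (hSSrep _ hS) z hz hadj

end Run7.h216
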