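import Pool.Agent.Run7.h216.Link
import Pool.Agent.Run7.h216.HallIneq
import Pool.Agent.Run7.h216.Transversal
import Pool.Agent.Run7.h216.Reps

set_option autoImplicit false

/-!
# Special vertices for a lifted graph
-/

open Finset Classical

namespace Run7.h216

/-- the special vertices: one below every piece, far apart, with four neighbours each -/
theorem exists_special2 {V : Type} [Fintype V] [Nonempty V] {σ τ : Equiv.Perm V}
    (hτ : ∀ v, τ v ≠ v) {M K : ℕ} (hM : 8400 ≤ M) (hK : 4 * M + 10 < K)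
    (hcyc : ∀ x : V, ∀ i : ℕ, 0 < i → i ≤ M → (σ ^ i) x ≠ x)
    (htiny : ∀ S : Finset V, S.card < K → EE σ τ S ≤ S.card)
    {Λ : SimpleGraph (V × Bool)} (hL : Lift (pGraph σ τ) Λ)
    (PP : Finset (Finset (V × Bool) × Finset (V × Bool)))
    (h1 : ∀ p ∈ PP, IsPiece Λ Λ M p.1 p.2)
    (h2 : ∀ p ∈ PP, ∀ q ∈ PP, p ≠ q → Disjoint p.2 q.2) :
    ∃ U : Finset V, Sep (pGraph σ τ) U ∧ (∀ u ∈ U, (nb (pGraph σ τ) u).card = 4) ∧
      U.card * (M + 1) ≤ 3 * Fintype.card V ∧ ∀ p ∈ PP, ∃ a ∈ p.2, a.1 ∈ U := by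
  set G := pGraph σ τ with hG
  have hσ : ∀ v, σ v ≠ v := by
    intro v
    have := hcyc v 1 (by omega) (by omega)
    simpa using this
  have hσG : ∀ x, reach G 1 x (σ x) := by
    intro x
    apply reach_one
    exact ⟨(hσ x).symm, Or.inl rfl⟩
  have hdeg : ∀ v, (nb G v).card ≤ 4 := nb_card_le σ τ
  -- short pieces
  set SS := PP.filter (fun p => p.2.card ≤ M) with hSS
  have hmemSS : ∀ p, p ∈ SS ↔ p ∈ PP ∧ p.2.card ≤ M := by
    intro p
    rw [hSS, mem_filter]
  have hrep' : ∀ p : Finset (V × Bool) × Finset (V × Bool), ∃ x : V × Bool, p ∈ PP → x ∈ p.2 := by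
    intro p
    by_cases hp : p ∈ PP
    · obtain ⟨x, hx⟩ := (h1 p hp).ne
      exact ⟨x, fun _ => hx⟩
    · exact ⟨(Classical.arbitrary V, true), fun h => absurd h hp⟩
  choose rep hrep using hrep'
  have hfar : ∀ p ∈ SS, ∀ p' ∈ SS, ∀ x ∈ supp p.2, ∀ y ∈ supp p'.2,
      reach G (2 * M + 6) x y → p = p' := by
    intro p hp p' hp' x hx y hy hr
    by_contra hne
    obtain ⟨hp1, hp2⟩ := (hmemSS p).1 hp
    obtain ⟨hp1', hp2'⟩ := (hmemSS p').1 hp'
    exact short_pieces_far hL htiny (R := 2 * M + 6) (by omega) (h1 p hp1) (h1 p' hp1') hp2 hp2'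
      (h2 p hp1 p' hp1' hne) hx hy hr
  have hrs : ∀ p ∈ SS, (rep p).1 ∈ supp p.2 := by
    intro p hp
    exact mem_supp.2 ⟨(rep p).2, hrep p ((hmemSS p).1 hp).1⟩
  set Us : Finset V := SS.image (fun p => (rep p).1) with hUs
  have hUsfar : ∀ u ∈ Us, ∀ u' ∈ Us, reach G (2 * M + 6) u u' → u = u' := by
    intro u hu u' hu' hr
    obtain ⟨p, hp, rfl⟩ := mem_image.1 hu
    obtain ⟨p', hp', rfl⟩ := mem_image.1 hu'
    rw [hfar p hp p' hp' _ (hrs p hp) _ (hrs p' hp') hr]
  have hUscard : Us.card * (M + 1) ≤ Fintype.card V := by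
    rw [← card_range (M + 1), ← card_product, ← card_univ]
    apply card_le_card_of_injOn (fun q : V × ℕ => (σ ^ q.2) q.1) (fun _ _ => mem_univ _)
    rintro ⟨u, i⟩ hu ⟨u', j⟩ hu' he
    rw [mem_coe, mem_product, mem_range] at hu hu'
    simp only at hu hu' he
    have hr : reach G (2 * M + 6) u u' := by
      have e1 := reach_pow hσG i u
      have e2 := reach_symm (reach_pow hσG j u')
      rw [← he] at e2
      exact reach_mono (by omega) (reach_trans e1 e2)
    have huu := hUsfar u hu.1 u' hu'.1 hr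
    subst huu
    have hpow : ∀ a b : ℕ, a < b → b ≤ M → (σ ^ a) u ≠ (σ ^ b) u := by
      intro a b hab hb hc
      apply hcyc u (b - a) (by omega) (by omega)
      have e3 : σ ^ b = σ ^ a * σ ^ (b - a) := by
        rw [← pow_add]
        congr 1
        omega
      rw [e3, Equiv.Perm.mul_apply] at hc
      exact ((σ ^ a).injective hc).symm
    rcases lt_trichotomy i j with h | h | h
    · exact absurd he (hpow i j h (by omega))
    · rw [h]
    · exact absurd he.symm (hpow j i h (by omega))
  -- long pieces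
  set Q := PP.filter (fun p => M < p.2.card) with hQ
  have hmemQ : ∀ p, p ∈ Q ↔ p ∈ PP ∧ M < p.2.card := by
    intro p
    rw [hQ, mem_filter]
  have hcount1 : ∀ a : V × Bool, (Q.filter (fun q => a ∈ q.2)).card ≤ 1 := by
    intro a
    rw [card_le_one]
    intro q hq q' hq'
    rw [mem_filter] at hq hq'
    by_contra hne
    exact disjoint_left.1 (h2 q ((hmemQ q).1 hq.1).1 q' ((hmemQ q').1 hq'.1).1 hne) hq.2 hq'.2
  have hcount : ∀ y : V, (Q.filter (fun q => y ∈ supp q.2)).card ≤ 2 := by
    intro y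
    have hsub : Q.filter (fun q => y ∈ supp q.2) ⊆
        Q.filter (fun q => (y, true) ∈ q.2) ∪ Q.filter (fun q => (y, false) ∈ q.2) := by
      intro q hq
      rw [mem_filter, mem_supp] at hq
      obtain ⟨hq1, i, hi⟩ := hq
      rw [mem_union]
      cases i
      · exact Or.inr (mem_filter.2 ⟨hq1, hi⟩)
      · exact Or.inl (mem_filter.2 ⟨hq1, hi⟩)
    have e1 := (card_le_card hsub).trans (card_union_le _ _)
    have e2 := hcount1 (y, true)
    have e3 := hcount1 (y, false)
    omega
  have hQcard : Q.card * (M + 1) ≤ 2 * Fintype.card V := by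
    have e1 : Q.card * (M + 1) ≤ ∑ q ∈ Q, q.2.card := by
      rw [← smul_eq_mul, ← sum_const]
      apply sum_le_sum
      intro q hq
      have := ((hmemQ q).1 hq).2
      omega
    have e2 : ∑ q ∈ Q, q.2.card = ∑ a : V × Bool, (Q.filter (fun q => a ∈ q.2)).card := by
      simp only [card_filter]
      rw [sum_comm]
      apply sum_congr rfl
      intro q _
      rw [← card_filter]
      congr 1
      ext y
      simp
    rw [e2] at e1
    refine e1.trans ?_
    calc ∑ a : V × Bool, (Q.filter (fun q => a ∈ q.2)).card ≤ ∑ _a : V × Bool, 1 :=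
          sum_le_sum (fun a _ => hcount1 a)
      _ = 2 * Fintype.card V := by
        rw [sum_const, card_univ, Fintype.card_prod, Fintype.card_bool, smul_eq_mul, mul_one,
          mul_comm]
  -- the admissible vertices of the long pieces
  set X : {q // q ∈ Q} → Finset V := fun q =>
    (supp q.1.2).filter (fun a => (∀ u ∈ Us, ¬ reach G 3 u a) ∧ (nb G a).card = 4) with hX
  have hnear : ∀ q : {q // q ∈ Q}, ∀ a ∈ supp q.1.2, ∀ b ∈ supp q.1.2, reach G (2 * M) a b := by
    intro q a ha b hb
    obtain ⟨i, hi⟩ := mem_supp.1 ha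
    obtain ⟨j, hj⟩ := mem_supp.1 hb
    exact hL.reach ((h1 q.1 ((hmemQ q.1).1 q.2).1).near _ hi _ hj)
  have hXcard : ∀ q, 4000 ≤ (X q).card := by
    intro q
    set P := supp q.1.2 with hP
    have hq := (hmemQ q.1).1 q.2
    set B := P.filter (fun a => ¬ ∀ u ∈ Us, ¬ reach G 3 u a) with hB
    set B' := P.filter (fun a => (nb G a).card < 4) with hB'
    have hsum : P.card ≤ (X q).card + (B.card + B'.card) := by
      have hsub : P ⊆ X q ∪ (B ∪ B') := by
        intro a ha
        rw [mem_union, mem_union]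
        by_cases h3 : ∀ u ∈ Us, ¬ reach G 3 u a
        · by_cases h4 : (nb G a).card = 4
          · exact Or.inl (mem_filter.2 ⟨ha, h3, h4⟩)
          · exact Or.inr (Or.inr (mem_filter.2 ⟨ha, lt_of_le_of_ne (hdeg a) h4⟩))
        · exact Or.inr (Or.inl (mem_filter.2 ⟨ha, h3⟩))
      refine (card_le_card hsub).trans ((card_union_le _ _).trans ?_)
      exact Nat.add_le_add_left (card_union_le _ _) _
    have hBcard : B.card ≤ 125 := by
      rcases B.eq_empty_or_nonempty with hB0 | ⟨a, ha⟩
      · rw [hB0]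
        simp
      · have ha' := (mem_filter.1 ha).2
        push Not at ha'
        obtain ⟨u, hu, hr⟩ := ha'
        have hsub : B ⊆ rball G 3 u := by
          intro b hb
          have hb' := (mem_filter.1 hb).2
          push Not at hb'
          obtain ⟨u', hu', hr'⟩ := hb'
          have hab := hnear q a (mem_filter.1 ha).1 b (mem_filter.1 hb).1
          have hr2 : reach G (2 * M + 6) u u' := by
            have := reach_trans hr (reach_trans hab (reach_symm hr'))
            exact reach_mono (by omega) this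
          have huu := hUsfar u hu u' hu' hr2
          subst huu
          exact mem_rball.2 hr'
        have := (card_le_card hsub).trans (card_rball_le hdeg 3 u)
        omega
    have hBcard' : B'.card ≤ 2 := by
      apply double_close hσ hτ htiny (R := 2 * M) (by omega)
      · intro v hv
        exact (mem_filter.1 hv).2
      · intro v hv w hw
        exact hnear q v (mem_filter.1 hv).1 w (mem_filter.1 hw).1
    have hPM : M < q.1.2.card := hq.2
    have hPP := card_le_supp q.1.2
    rw [← hP] at hPP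
    omega
  obtain ⟨f, hf1, hf2⟩ := exists_reps X 4000 250 (by norm_num) hXcard (fun x y => reach G 3 x y)
    (fun x y h => reach_symm h) (by
      intro x
      have hle : (univ.filter (fun q : {q // q ∈ Q} × V => q.2 ∈ X q.1 ∧ reach G 3 x q.2)).card ≤
          ((rball G 3 x).sigma (fun y => Q.filter (fun q => y ∈ supp q.2))).card := by
        apply card_le_card_of_injOn (fun q => ⟨q.2, q.1.1⟩)
        · rintro ⟨q, y⟩ hq
          rw [mem_coe, mem_filter] at hq
          obtain ⟨-, hq1, hq2⟩ := hq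
          rw [mem_coe, mem_sigma]
          refine ⟨mem_rball.2 hq2, mem_filter.2 ⟨q.2, ?_⟩⟩
          exact (mem_filter.1 hq1).1
        · rintro ⟨q, y⟩ _ ⟨q', y'⟩ _ he
          simp only [Sigma.mk.injEq, heq_eq_eq] at he
          obtain ⟨rfl, he⟩ := he
          rw [Prod.mk.injEq]
          exact ⟨Subtype.ext he, rfl⟩
      refine hle.trans ?_
      rw [card_sigma]
      have hb := card_rball_le hdeg 3 x
      calc (∑ y ∈ rball G 3 x, (Q.filter (fun q => y ∈ supp q.2)).card)
          ≤ ∑ _y ∈ rball G 3 x, 2 := sum_le_sum (fun y _ => hcount y)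
        _ = (rball G 3 x).card * 2 := by rw [sum_const, smul_eq_mul]
        _ ≤ 250 := by omega) (by norm_num)
  have hfsep : ∀ q, ∀ u ∈ Us, ¬ reach G 3 u (f q) := fun q => (mem_filter.1 (hf1 q)).2.1
  refine ⟨Us ∪ univ.image f, ⟨?_⟩, ?_, ?_, ?_⟩
  · intro u hu u' hu' hne hr
    rcases mem_union.1 hu with hu | hu
    · rcases mem_union.1 hu' with hu' | hu'
      · exact hne (hUsfar u hu u' hu' (reach_mono (by omega) hr))
      · obtain ⟨q', -, rfl⟩ := mem_image.1 hu'
        exact hfsep q' u hu hr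
    · obtain ⟨q, -, rfl⟩ := mem_image.1 hu
      rcases mem_union.1 hu' with hu' | hu'
      · exact hfsep q u' hu' (reach_symm hr)
      · obtain ⟨q', -, rfl⟩ := mem_image.1 hu'
        exact hf2 q q' (fun h => hne (by rw [h])) hr
  · intro u hu
    rcases mem_union.1 hu with hu | hu
    · obtain ⟨p, hp, rfl⟩ := mem_image.1 hu
      obtain ⟨hp1, hp2⟩ := (hmemSS p).1 hp
      exact short_nb_card hσ hτ hL htiny (by omega) (h1 p hp1) hp2 (hrs p hp)
    · obtain ⟨q, -, rfl⟩ := mem_image.1 hu
      exact (mem_filter.1 (hf1 q)).2.2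
  · have e1 : (Us ∪ univ.image f).card ≤ Us.card + Q.card := by
      refine (card_union_le _ _).trans ?_
      refine Nat.add_le_add_left (card_image_le.trans ?_) _
      rw [card_univ, Fintype.card_coe]
    calc (Us ∪ univ.image f).card * (M + 1) ≤ (Us.card + Q.card) * (M + 1) :=
          Nat.mul_le_mul_right _ e1
      _ = Us.card * (M + 1) + Q.card * (M + 1) := by ring
      _ ≤ Fintype.card V + 2 * Fintype.card V := Nat.add_le_add hUscard hQcard
      _ = 3 * Fintype.card V := by ring
  · intro p hp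
    by_cases hlong : M < p.2.card
    · have hq : p ∈ Q := (hmemQ _).2 ⟨hp, hlong⟩
      have h3 := (mem_filter.1 (hf1 ⟨p, hq⟩)).1
      obtain ⟨i, hi⟩ := mem_supp.1 h3
      exact ⟨_, hi, mem_union_right _ (mem_image_of_mem _ (mem_univ _))⟩
    · have hS : p ∈ SS := (hmemSS _).2 ⟨hp, by omega⟩
      exact ⟨rep p, hrep p hp, mem_union_left _ (mem_image_of_mem (fun p => (rep p).1) hS)⟩

end Run7.h216
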