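import Pool.Agent.Run7.h216.Modes
import Pool.Agent.Run7.h216.Reps2

set_option autoImplicit false

/-!
# The deterministic theorem for lists with few common pairs
-/

open Finset Classical

namespace Run7.h216

/-- The modes of all vertices are given; all but few nodes of the link graph have degree two. -/
theorem det_modes {V : Type} [Fintype V] [Nonempty V] {σ τ : Equiv.Perm V} {M K s k ρ : ℕ}
    (hM : 8400 ≤ M) (hK1 : 2 * 5 ^ M < K) (hK2 : 4 * M + 10 < K)
    (hcyc : ∀ x : V, ∀ i : ℕ, 0 < i → i ≤ M → (σ ^ i) x ≠ x) (hτ : ∀ v, τ v ≠ v)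
    (htiny : ∀ S : Finset V, S.card < K → EE σ τ S ≤ S.card)
    (hsmall : ∀ S : Finset V, S.card ≤ 2 * s → 40 * EE σ τ S ≤ 41 * S.card)
    (hmid : ∀ S : Finset V, s ≤ S.card → S.card + s ≤ Fintype.card V →
      EE σ τ S + k ≤ 2 * S.card)
    (hk : 8 * Fintype.card V ≤ k * (M + 1))
    (hρ : ∀ S : Finset V, S.card ≤ ρ → K * EE σ τ S ≤ (K + 1) * S.card)
    {H : SimpleGraph V} (hle : H ≤ pGraph σ τ) (L : V → Finset ℕ) (hL : ∀ v, (L v).card = 3)
    (md : V → Option ℕ)
    (hmd : ∀ v z, md v = some z → z ∈ L v ∧ ∀ u, H.Adj v u → (shr L v u).card ≤ 2)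
    (E₀ : Finset V) (hE₀ : K * E₀.card ≤ ρ)
    (hgood : ∀ v, v ∉ E₀ → ∀ i : Bool,
      ((lnk H L v).filter (fun u => nd L md v u = i)).card ≤ 2)
    (hbad : ∀ v ∈ E₀, md v = none)
    (hrare : ∀ v, ∃ x ∈ L v, (univ.filter (fun u => H.Adj v u ∧ x ∈ L u)).card ≤ 2) :
    ∃ col : V → ℕ, (∀ v, col v ∈ L v) ∧ ∀ u v, H.Adj u v → col u ≠ col v := by
  set G := pGraph σ τ with hG
  have hσ : ∀ v, σ v ≠ v := by
    intro v
    have := hcyc v 1 (by omega) (by omega)
    simpa using this
  have hdeg : ∀ v, (nb G v).card ≤ 4 := nb_card_le σ τ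
  set Λ := linkG H L md with hΛ
  have hlift : Lift G Λ := lift_linkG hle L md
  have hndeg : ∀ (J : Finset (V × Bool)) (a : V × Bool), (nbIn Λ J a).card ≤
      2 + if a.1 ∈ E₀ ∧ a.2 = false then 2 else 0 := by
    intro J a
    have h1 := node_degree (H := H) (L := L) (md := md) J a
    rw [← hΛ] at h1
    by_cases hE : a.1 ∈ E₀
    · by_cases ha : a.2 = false
      · rw [if_pos ⟨hE, ha⟩]
        have h2 : ((lnk H L a.1).filter (fun u => nd L md a.1 u = a.2)).card ≤ 4 :=
          (card_le_card (filter_subset _ _)).trans (lnk_card_le hle hdeg L a.1)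
        omega
      · rw [if_neg (fun h => ha h.2)]
        have h2 : ((lnk H L a.1).filter (fun u => nd L md a.1 u = a.2)) = ∅ := by
          rw [eq_empty_iff_forall_notMem]
          intro u hu
          have h3 := (mem_filter.1 hu).2
          apply ha
          rw [← h3]
          unfold nd
          rw [decide_eq_false_iff_not]
          rintro ⟨z, hz, -⟩
          rw [hbad _ hE] at hz
          exact absurd hz (by simp)
        rw [h2, card_empty] at h1
        omega
    · rw [if_neg (fun h => hE h.1)]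
      exact h1.trans (hgood a.1 hE a.2)
  -- sparseness of the link graph
  have hsparse : ∀ J : Finset (V × Bool), J.Nonempty → K * AA Λ J ≤ 2 * (K + 1) * J.card := by
    intro J _
    by_cases hJ : (supp J).card ≤ ρ
    · have e1 := hlift.AA_le J
      have e2 := AA_le_EE σ τ (supp J)
      have e3 := hρ _ hJ
      have e4 := card_supp_le J
      calc K * AA Λ J ≤ K * (2 * EE σ τ (supp J)) := Nat.mul_le_mul_left _ (e1.trans e2)
        _ = 2 * (K * EE σ τ (supp J)) := by ring
        _ ≤ 2 * ((K + 1) * (supp J).card) := Nat.mul_le_mul_left _ e3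
        _ ≤ 2 * ((K + 1) * J.card) := Nat.mul_le_mul_left _ (Nat.mul_le_mul_left _ e4)
        _ = 2 * (K + 1) * J.card := by ring
    · push Not at hJ
      have e4 := card_supp_le J
      have e1 : AA Λ J ≤ ∑ a ∈ J, (2 + if a.1 ∈ E₀ ∧ a.2 = false then 2 else 0) :=
        sum_le_sum (fun a _ => hndeg J a)
      have e2 : ∑ a ∈ J, (2 + if a.1 ∈ E₀ ∧ a.2 = false then 2 else 0) ≤
          2 * J.card + 2 * E₀.card := by
        rw [sum_add_distrib, sum_const, smul_eq_mul]
        have e5 : ∑ a ∈ J, (if a.1 ∈ E₀ ∧ a.2 = false then 2 else 0) =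
            2 * (J.filter (fun a => a.1 ∈ E₀ ∧ a.2 = false)).card := by
          rw [card_filter, mul_sum]
          apply sum_congr rfl
          intro a _
          split_ifs <;> rfl
        have e6 : (J.filter (fun a => a.1 ∈ E₀ ∧ a.2 = false)).card ≤ E₀.card := by
          apply card_le_card_of_injOn Prod.fst
          · intro a ha
            exact (mem_filter.1 ha).2.1
          · intro a ha b hb hab
            rw [mem_coe, mem_filter] at ha hb
            exact Prod.ext hab (ha.2.2.trans hb.2.2.symm)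
        omega
      have e3 : K * AA Λ J ≤ K * (2 * J.card + 2 * E₀.card) := Nat.mul_le_mul_left _ (e1.trans e2)
      have e7 : K * (2 * J.card + 2 * E₀.card) = 2 * K * J.card + 2 * (K * E₀.card) := by ring
      have e8 : 2 * (K + 1) * J.card = 2 * K * J.card + 2 * J.card := by ring
      omega
  -- pieces
  have hdegΛ : ∀ a : V × Bool, (nb Λ a).card ≤ 4 := fun a => (hlift.nb_card a).trans (hdeg a.1)
  obtain ⟨PP, hPP1, hPP2, hPP3⟩ := exists_pieces (G := Λ) (Γ := Λ) (le_refl _) hdegΛ hK1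
    (W := univ) (fun J _ hJ => ⟨J, Subset.refl _, hJ, fun _ _ y hy _ => hy, hsparse J hJ⟩)
    univ (Subset.refl _)
  obtain ⟨U, hU, hU4, hUcard, hUP⟩ := exists_special2 hτ hM hK2 hcyc htiny hlift PP
    (fun p hp => (hPP1 p hp).1) hPP2
  -- colours and out-neighbours of the special vertices
  choose x hx1 hx2 using hrare
  have hO : ∀ u, ∃ O : Finset V, u ∈ U → (O ⊆ nb G u ∧ O.card = 2 ∧
      ∀ w ∈ O, ¬ (H.Adj u w ∧ x u ∈ L w)) := by
    intro u
    by_cases hu : u ∈ U
    · have h1 : 2 ≤ ((nb G u) \ (univ.filter (fun w => H.Adj u w ∧ x u ∈ L w))).card := by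
        have h2 := le_card_sdiff (univ.filter (fun w => H.Adj u w ∧ x u ∈ L w)) (nb G u)
        have h3 := hx2 u
        have h4 := hU4 u hu
        rw [← hG] at h4
        omega
      obtain ⟨O, hO1, hO2⟩ := exists_subset_card_eq h1
      refine ⟨O, fun _ => ⟨hO1.trans sdiff_subset, hO2, ?_⟩⟩
      intro w hw hc
      exact (mem_sdiff.1 (hO1 hw)).2 (mem_filter.2 ⟨mem_univ _, hc⟩)
    · exact ⟨∅, fun h => absurd h hu⟩
  choose O hO using hO
  have hO1 : ∀ u ∈ U, O u ⊆ nb G u := fun u hu => (hO u hu).1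
  have hO2 : ∀ u ∈ U, (O u).card = 2 := fun u hu => (hO u hu).2.1
  have hO3 : ∀ u ∈ U, ∀ w ∈ O u, ¬ (H.Adj u w ∧ x u ∈ L w) := fun u hu => (hO u hu).2.2
  have hUk : 2 * U.card ≤ k := by
    have h1 : 2 * U.card * (M + 1) ≤ k * (M + 1) := by
      calc 2 * U.card * (M + 1) = 2 * (U.card * (M + 1)) := by ring
        _ ≤ 2 * (3 * Fintype.card V) := Nat.mul_le_mul_left _ hUcard
        _ ≤ 8 * Fintype.card V := by omega
        _ ≤ k * (M + 1) := hk
    exact Nat.le_of_mul_le_mul_right h1 (by omega)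
  have hHall : ∀ S : Finset V, Disjoint S U →
      EE σ τ S + (S.filter (fun v => ∃ u ∈ U, (pGraph σ τ).Adj v u ∧ v ∉ O u)).card ≤
        2 * S.card := by
    intro S hS
    apply hall_ineq hσ hτ hU hO1 hO2 hsmall (s := s) _ hS
    intro T h1 h2
    have := hmid T h1 h2
    omega
  obtain ⟨D, hD1, hD2, hD3, hD4, hD5⟩ := exists_orientation hU hO1 hO2 hHall
  have hDO : ∀ u ∈ U, ∀ w, D u w → w ∈ O u := by
    intro u hu w hw
    have h1 : O u ⊆ univ.filter (fun w => D u w) := fun y hy =>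
      mem_filter.2 ⟨mem_univ _, hD4 u hu y hy⟩
    have h2 : O u = univ.filter (fun w => D u w) := by
      apply eq_of_subset_of_card_le h1
      rw [hO2 u hu]
      exact hD5 u
    rw [h2]
    exact mem_filter.2 ⟨mem_univ _, hw⟩
  -- the signs of the nodes
  obtain ⟨sg, hsg⟩ := forest_solve Λ (fun a b => (kap L md a.1 b.1 ^^ kap L md b.1 a.1) ^^ true)
    (by
      intro a b
      cases kap L md a.1 b.1 <;> cases kap L md b.1 a.1 <;> rfl)
    (univ.filter (fun a : V × Bool => a.1 ∉ U)) (by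
      intro C hC hCne
      by_contra hcon
      push Not at hcon
      obtain ⟨p, hp, hCp, hpC⟩ := hPP3 C (subset_univ _) hCne (fun v hv => hcon v hv)
      have hPC : p.2 ⊆ C := (hPP1 p hp).1.absorb hCp (fun v hv => hcon v hv) hpC
      obtain ⟨a, ha, haU⟩ := hUP p hp
      exact (mem_filter.1 (hC (hPC ha))).2 haU)
  -- the orders
  set N₀ : ℕ := (univ.biUnion L).sup id + 1 with hN₀
  have hlt : ∀ v, ∀ b ∈ L v, b < N₀ := by
    intro v b hb
    have : b ≤ (univ.biUnion L).sup id :=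
      Finset.le_sup (f := id) (mem_biUnion.2 ⟨v, mem_univ _, hb⟩)
    omega
  set r : V → ℕ → ℕ := fun v a => ordr N₀ (md v) (fun i => sg (v, i)) a with hr
  have hflip : ∀ v w, v ∉ U → w ∉ U → H.Adj v w → ∀ a b, a < b → a ∈ L v → a ∈ L w → b ∈ L v →
      b ∈ L w → (r v a < r v b ↔ ¬ r w a < r w b) := by
    intro v w hv hw hadj a b hab ha ha' hb hb'
    have hav : a ∈ shr L v w := mem_shr.2 ⟨ha, ha'⟩
    have hbv : b ∈ shr L v w := mem_shr.2 ⟨hb, hb'⟩
    have h2 : 2 ≤ (shr L v w).card := by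
      rw [← card_pair hab.ne]
      apply card_le_card
      intro y hy
      rw [mem_insert, mem_singleton] at hy
      rcases hy with rfl | rfl
      · exact hav
      · exact hbv
    have hΛadj : Λ.Adj (v, nd L md v w) (w, nd L md w v) := ⟨hadj, h2, rfl, rfl⟩
    have h3 := hsg _ (mem_filter.2 ⟨mem_univ _, hv⟩) _ (mem_filter.2 ⟨mem_univ _, hw⟩) hΛadj
    simp only at h3
    have e1 := ordr_lt_iff (N₀ := N₀) (v := v) (w := w)
      (fun z hz => ⟨(hmd v z hz).1, (hmd v z hz).2 w hadj⟩) (fun i => sg (v, i)) hab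
      (hlt v b hb) hav hbv
    have e2 := ordr_lt_iff (N₀ := N₀) (v := w) (w := v)
      (fun z hz => ⟨(hmd w z hz).1, (hmd w z hz).2 v hadj.symm⟩) (fun i => sg (w, i)) hab
      (hlt v b hb) (by rw [shr_comm]; exact hav) (by rw [shr_comm]; exact hbv)
    simp only [hr]
    rw [e1, e2, h3]
    cases sg (w, nd L md w v) <;> cases kap L md v w <;> cases kap L md w v <;> simp
  have hrinj : ∀ v, ∀ a ∈ L v, ∀ b ∈ L v, r v a = r v b → a = b := by
    intro v a ha b hb he
    exact ordr_inj (hlt v a ha) (hlt v b hb) he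
  -- colour
  set L' : V → Finset ℕ := fun v => if v ∈ U then {x v} else L v with hL'
  have hL'U : ∀ v ∈ U, L' v = {x v} := fun v hv => by simp only [hL']; rw [if_pos hv]
  have hL'n : ∀ v, v ∉ U → L' v = L v := fun v hv => by simp only [hL']; rw [if_neg hv]
  have hL'sub : ∀ v, L' v ⊆ L v := by
    intro v
    by_cases hv : v ∈ U
    · rw [hL'U v hv]
      exact singleton_subset_iff.2 (hx1 v)
    · rw [hL'n v hv]
  have hUind := hU.indep
  obtain ⟨D', hD'⟩ : ∃ D' : V → V → Prop, ∀ v w, D' v w ↔ (D v w ∧ H.Adj v w ∧ v ∉ U) :=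
    ⟨_, fun _ _ => Iff.rfl⟩
  obtain ⟨col, hcol1, hcol2⟩ := mono_color D'
    (fun v h => ((hD' v v).1 h).2.1.ne rfl) L' r
    (fun v a ha b hb => hrinj v a (hL'sub v ha) b (hL'sub v hb))
    (by
      intro v
      by_cases hv : v ∈ U
      · have h0 : univ.filter (fun w => D' v w) = ∅ := by
          rw [eq_empty_iff_forall_notMem]
          intro w hw
          exact ((hD' v w).1 (mem_filter.1 hw).2).2.2 hv
        rw [hL'U v hv, card_singleton, h0]
        simp
      · rw [hL'n v hv, hL v]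
        refine lt_of_le_of_lt (le_trans (card_le_card ?_) (hD5 v)) (by norm_num)
        intro w hw
        exact mem_filter.2 ⟨mem_univ _, ((hD' v w).1 (mem_filter.1 hw).2).1⟩)
    (by
      intro v w hvw a b ha ha' hb hb' hlt'
      obtain ⟨hD, hadj, hv⟩ := (hD' v w).1 hvw
      have hne : a ≠ b := by
        rintro rfl
        omega
      by_cases hw : w ∈ U
      · exfalso
        rw [hL'U w hw, mem_singleton] at ha' hb'
        exact hne (ha'.trans hb'.symm)
      · rw [hL'n v hv] at ha hb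
        rw [hL'n w hw] at ha' hb'
        have hne' : r w a ≠ r w b := fun he => hne (hrinj w a ha' b hb' he)
        rcases lt_or_gt_of_ne hne with hab | hab
        · have := (hflip v w hv hw hadj a b hab ha ha' hb hb').1 hlt'
          omega
        · have h5 := hflip v w hv hw hadj b a hab hb hb' ha ha'
          by_contra hcon
          have h6 : ¬ r w b < r w a := hcon
          have := h5.2 h6
          omega)
  refine ⟨col, fun v => hL'sub v (hcol1 v), ?_⟩
  -- properness
  have key : ∀ u v, H.Adj u v → D u v → col u ≠ col v := by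
    intro u v hadj hD
    by_cases hu : u ∈ U
    · have hvO := hDO u hu v hD
      have h1 := hO3 u hu v hvO
      have h2 := hcol1 u
      rw [hL'U u hu, mem_singleton] at h2
      intro hc
      apply h1
      refine ⟨hadj, ?_⟩
      rw [← h2, hc]
      exact hL'sub v (hcol1 v)
    · exact hcol2 u v ((hD' u v).2 ⟨hD, hadj, hu⟩)
  intro u v hadj
  rcases hD2 u v (hle hadj) with h | h
  · exact key u v hadj h
  · exact (key v u hadj.symm h).symm

/-- The deterministic theorem for lists of size three. -/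
theorem det_pair3 {V : Type} [Fintype V] {σ τ : Equiv.Perm V} {M K s k ρ : ℕ}
    (hM : 8400 ≤ M) (hK1 : 2 * 5 ^ M < K) (hK2 : 4 * M + 10 < K)
    (hcyc : ∀ x : V, ∀ i : ℕ, 0 < i → i ≤ M → (σ ^ i) x ≠ x) (hτ : ∀ v, τ v ≠ v)
    (htiny : ∀ S : Finset V, S.card < K → EE σ τ S ≤ S.card)
    (hsmall : ∀ S : Finset V, S.card ≤ 2 * s → 40 * EE σ τ S ≤ 41 * S.card)
    (hmid : ∀ S : Finset V, s ≤ S.card → S.card + s ≤ Fintype.card V →
      EE σ τ S + k ≤ 2 * S.card)
    (hk : 8 * Fintype.card V ≤ k * (M + 1))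
    (hρ : ∀ S : Finset V, S.card ≤ ρ → K * EE σ τ S ≤ (K + 1) * S.card)
    {H : SimpleGraph V} (hle : H ≤ pGraph σ τ) (L : V → Finset ℕ) (hL : ∀ v, (L v).card = 3)
    (E₀ : Finset V) (hE₀ : K * E₀.card ≤ ρ)
    (hgood : ∀ v, v ∉ E₀ → GoodV H L v)
    (hbad : ∀ v ∈ E₀, ∃ x ∈ L v, (univ.filter (fun u => H.Adj v u ∧ x ∈ L u)).card ≤ 2) :
    ∃ col : V → ℕ, (∀ v, col v ∈ L v) ∧ ∀ u v, H.Adj u v → col u ≠ col v := by
  rcases isEmpty_or_nonempty V with hV | hV
  · exact ⟨fun _ => 0, fun v => (hV.false v).elim, fun v => (hV.false v).elim⟩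
  have hdeg : ∀ v, (nb (pGraph σ τ) v).card ≤ 4 := nb_card_le σ τ
  have hmode : ∀ v, ∃ m : Option ℕ, (v ∈ E₀ → m = none) ∧
      (∀ z, m = some z → z ∈ L v ∧ ∀ u, H.Adj v u → (shr L v u).card ≤ 2) ∧
      (v ∉ E₀ → ∀ i : Bool, ((lnk H L v).filter
        (fun u => decide (∃ z, m = some z ∧ z ∈ L u) = i)).card ≤ 2) := by
    intro v
    by_cases hv : v ∈ E₀
    · exact ⟨none, fun _ => rfl, fun z hz => absurd hz (by simp), fun h => absurd hv h⟩
    · obtain ⟨m, h1, h2⟩ := exists_mode (hL v) (lnk_card_le hle hdeg L v) (hgood v hv)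
      exact ⟨m, fun h => absurd h hv, h1, fun _ => h2⟩
  choose md h1 h2 h3 using hmode
  refine det_modes hM hK1 hK2 hcyc hτ htiny hsmall hmid hk hρ hle L hL md h2 E₀ hE₀
    (fun v hv i => h3 v hv i) h1 ?_
  intro v
  by_cases hv : v ∈ E₀
  · exact hbad v hv
  · exact exists_rare hle hdeg (hL v) (hgood v hv)

end Run7.h216
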