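import Pool.Agent.Run7.h442.HD.Iface

/-! High dimension: decay of the powers of the Bessel function. -/

set_option autoImplicit false
set_option linter.unusedSectionVars false

open scoped BigOperators Matrix
open MeasureTheory Set

namespace Run7.h216.HDDec

open Pool.Agent.Run7.h47 hiding mm mf ze V1 V2 ff

/-- decay of the powers -/
theorem WJ_pow {q : ℝ} (hq0 : 0 < q)
    (h1 : ∀ s : ℝ, |s| ≤ 1 → ‖WJ s‖ ≤ Real.exp (-(s ^ 2) / 2))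
    (h2 : ∀ s : ℝ, 1 ≤ |s| → ‖WJ s‖ ≤ q) {n : ℕ} (hn : 3 ≤ n) {s : ℝ} (hs : 0 ≤ s) :
    ‖WJ s‖ ^ n ≤ Real.exp (-(n / 2 : ℝ) * s ^ 2) +
      27 * q ^ (n - 3) * (s + 1) ^ (-(3 / 2) : ℝ) := by
  have hp : 0 ≤ 27 * q ^ (n - 3) * (s + 1) ^ (-(3 / 2) : ℝ) := by positivity
  rcases le_total s 1 with h | h
  · have e := h1 s (by rwa [abs_of_nonneg hs])
    have e1 : ‖WJ s‖ ^ n ≤ Real.exp (-(s ^ 2) / 2) ^ n := pow_le_pow_left₀ (norm_nonneg _) e n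
    rw [← Real.exp_nat_mul] at e1
    have e2 : (n : ℝ) * (-(s ^ 2) / 2) = -(n / 2 : ℝ) * s ^ 2 := by ring
    rw [e2] at e1
    linarith
  · have e := h2 s (by rwa [abs_of_nonneg hs])
    have e3 : ‖WJ s‖ ^ n = ‖WJ s‖ ^ (n - 3) * ‖WJ s‖ ^ 3 := by
      rw [← pow_add]; congr 1; omega
    have e4 : ‖WJ s‖ ^ 3 ≤ 27 * (s + 1) ^ (-(3 / 2) : ℝ) := by
      rw [← sqrt_rpow hs]
      calc ‖WJ s‖ ^ 3 ≤ (3 / Real.sqrt (1 + s)) ^ 3 :=
            pow_le_pow_left₀ (norm_nonneg _) (WJ_bd s hs) 3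
        _ = 27 * (Real.sqrt (1 + s))⁻¹ ^ 3 := by
            rw [div_eq_mul_inv, mul_pow]; norm_num
    have e5 : ‖WJ s‖ ^ (n - 3) ≤ q ^ (n - 3) := pow_le_pow_left₀ (norm_nonneg _) e _
    have e6 : ‖WJ s‖ ^ n ≤ q ^ (n - 3) * (27 * (s + 1) ^ (-(3 / 2) : ℝ)) := by
      rw [e3]
      exact mul_le_mul e5 e4 (by positivity) (by positivity)
    have := Real.exp_pos (-(n / 2 : ℝ) * s ^ 2)
    linarith

/-- the common bound -/
def Dec (q : ℝ) (d : ℕ) (g : ℝ → ℂ) : Prop := ∀ s : ℝ, 0 ≤ s →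
  ‖g s‖ ≤ 4 * Real.exp (-(d / 4 : ℝ) * s ^ 2) + 108 * q ^ (d - 4) * (s + 1) ^ (-(3 / 2) : ℝ)

theorem HJ_dec {q : ℝ} (hq0 : 0 < q) (hq1 : q < 1)
    (h1 : ∀ s : ℝ, |s| ≤ 1 → ‖WJ s‖ ≤ Real.exp (-(s ^ 2) / 2))
    (h2 : ∀ s : ℝ, 1 ≤ |s| → ‖WJ s‖ ≤ q) {d : ℕ} (hd : 4 ≤ d) : Dec q d (HJ d) := by
  intro s hs
  unfold HJ
  rw [norm_pow]
  refine (WJ_pow hq0 h1 h2 (by omega) hs).trans ?_
  have hdR : (4 : ℝ) ≤ d := by exact_mod_cast hd
  have e1 : Real.exp (-(d / 2 : ℝ) * s ^ 2) ≤ Real.exp (-(d / 4 : ℝ) * s ^ 2) := by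
    apply Real.exp_le_exp.2
    nlinarith [mul_nonneg (by linarith : (0 : ℝ) ≤ d) (sq_nonneg s)]
  have e2 : q ^ (d - 3) ≤ q ^ (d - 4) := pow_le_pow_of_le_one hq0.le hq1.le (by omega)
  have e3 : 0 ≤ (s + 1) ^ (-(3 / 2) : ℝ) := by positivity
  have e4 : 27 * q ^ (d - 3) * (s + 1) ^ (-(3 / 2) : ℝ) ≤
      108 * q ^ (d - 4) * (s + 1) ^ (-(3 / 2) : ℝ) := by
    refine mul_le_mul_of_nonneg_right ?_ e3
    have : 0 ≤ q ^ (d - 4) := by positivity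
    linarith
  have := Real.exp_pos (-(d / 4 : ℝ) * s ^ 2)
  linarith

theorem HS_dec {q : ℝ} (hq0 : 0 < q)
    (h1 : ∀ s : ℝ, |s| ≤ 1 → ‖WJ s‖ ≤ Real.exp (-(s ^ 2) / 2))
    (h2 : ∀ s : ℝ, 1 ≤ |s| → ‖WJ s‖ ≤ q) {d : ℕ} (hd : 4 ≤ d) : Dec q d (HS d) := by
  intro s hs
  unfold HS
  rw [norm_mul, norm_pow]
  have hdR : (4 : ℝ) ≤ d := by exact_mod_cast hd
  have e0 := WJ_pow hq0 h1 h2 (n := d - 1) (by omega) hs
  rw [show d - 1 - 3 = d - 4 by omega, Nat.cast_sub (by omega), Nat.cast_one] at e0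
  have e1 : Real.exp (-(((d : ℝ) - 1) / 2) * s ^ 2) ≤ Real.exp (-(d / 4 : ℝ) * s ^ 2) := by
    apply Real.exp_le_exp.2
    nlinarith [mul_nonneg (by linarith : (0 : ℝ) ≤ d - 2) (sq_nonneg s)]
  have e5 := WS_le_four s
  have e6 : ‖WJ s‖ ^ (d - 1) * ‖WS s‖ ≤ (Real.exp (-(d / 4 : ℝ) * s ^ 2) +
      27 * q ^ (d - 4) * (s + 1) ^ (-(3 / 2) : ℝ)) * 4 := by
    refine mul_le_mul (e0.trans (by linarith)) e5 (norm_nonneg _) (by positivity)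
  refine e6.trans (le_of_eq ?_)
  ring

/-- `d q ^ (d - 4)` is bounded -/
theorem ex_Cq {q : ℝ} (hq0 : 0 < q) (hq1 : q < 1) : ∃ C : ℝ, 0 < C ∧ ∀ d : ℕ, 4 ≤ d →
    q ^ (d - 4) ≤ C / d := by
  have h := (tendsto_self_mul_const_pow_of_lt_one hq0.le hq1).bddAbove_range
  obtain ⟨B, hB⟩ := h
  refine ⟨|B| + 4, by positivity, fun d hd => ?_⟩
  have h1 : ((d - 4 : ℕ) : ℝ) * q ^ (d - 4) ≤ B := hB ⟨d - 4, rfl⟩
  have hdR : (4 : ℝ) ≤ d := by exact_mod_cast hd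
  rw [Nat.cast_sub hd] at h1
  push_cast at h1
  rw [le_div_iff₀ (by linarith)]
  have h3 : q ^ (d - 4) ≤ 1 := pow_le_one₀ hq0.le hq1.le
  have h4 := le_abs_self B
  nlinarith

theorem gau {b : ℝ} (hb : 0 < b) : IntegrableOn (fun s : ℝ => Real.exp (-b * s ^ 2)) (Ioi 0) :=
  (integrable_exp_neg_mul_sq hb).integrableOn

theorem y_le {y : ℝ} : 1 + y ≤ 5 * Real.exp (y ^ 2 / 8) := by
  have h1 := Real.add_one_le_exp (y ^ 2 / 8)
  nlinarith [sq_nonneg (y - 1), sq_nonneg y]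

/-- the first bound -/
theorem bdX {q : ℝ} (hq0 : 0 < q) {d : ℕ} (hd : 4 ≤ d) {K g : ℝ → ℂ}
    (hb : ∀ s, 0 ≤ s → ‖K s‖ ≤ 2) (hg : Dec q d g) :
    ‖∫ s in Ioi (0 : ℝ), K s * g s‖ ≤
      8 * (Real.sqrt (4 * Real.pi) / 2) / Real.sqrt d + 216 * C32 * q ^ (d - 4) := by
  have hdR : (4 : ℝ) ≤ d := by exact_mod_cast hd
  have hd4 : (0 : ℝ) < d / 4 := by linarith
  have i1 := (gau hd4).const_mul 8
  have i2 := i32.const_mul (216 * q ^ (d - 4))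
  refine (norm_integral_le_of_norm_le (i1.add i2) ?_).trans (le_of_eq ?_)
  · refine (ae_restrict_iff' measurableSet_Ioi).2 (Filter.Eventually.of_forall fun s hs => ?_)
    have hs' : (0 : ℝ) ≤ s := le_of_lt hs
    rw [norm_mul]
    calc ‖K s‖ * ‖g s‖ ≤ 2 * (4 * Real.exp (-(d / 4 : ℝ) * s ^ 2) +
          108 * q ^ (d - 4) * (s + 1) ^ (-(3 / 2) : ℝ)) :=
          mul_le_mul (hb s hs') (hg s hs') (norm_nonneg _) (by norm_num)
      _ = _ := by simp only [Pi.add_apply]; ring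
  · have e1 := integral_add i1 i2
    simp only [Pi.add_apply] at e1 ⊢
    rw [e1, integral_const_mul, integral_const_mul, integral_gaussian_Ioi]
    have e2 : Real.pi / (d / 4 : ℝ) = (4 * Real.pi) / d := by field_simp
    rw [e2, Real.sqrt_div (by positivity)]
    unfold C32
    ring

/-- the second bound -/
theorem bdY {q : ℝ} (hq0 : 0 < q) {d : ℕ} (hd : 4 ≤ d) {K K0 g : ℝ → ℂ} (hK : Continuous K)
    (hK0 : Continuous K0) (hgc : Continuous g) (hb : ∀ s, 0 ≤ s → ‖K s‖ ≤ 2)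
    (hb0 : ∀ s, 0 ≤ s → ‖K0 s‖ ≤ 2) {ω : ℝ} (hω : 0 ≤ ω) (hg : Dec q d g)
    (hgi : ∀ s, 0 ≤ s → ‖g s‖ ≤ 72 * (s + 1) ^ (-(3 / 2) : ℝ))
    (hdf : ∀ s, 0 ≤ s → ‖K s - K0 s‖ ≤ 3 * (s * ω) ^ (1 / 4 : ℝ)) :
    ‖(∫ s in Ioi (0 : ℝ), K s * g s) - ∫ s in Ioi (0 : ℝ), K0 s * g s‖ ≤
      (ω / Real.sqrt d) ^ (1 / 4 : ℝ) * (60 * (Real.sqrt (8 * Real.pi) / 2) / Real.sqrt d +
        324 * C54 * q ^ (d - 4) * Real.sqrt d) := by
  have hdR : (4 : ℝ) ≤ d := by exact_mod_cast hd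
  have hd8 : (0 : ℝ) < d / 8 := by linarith
  have hr1 : 1 ≤ Real.sqrt d := by rw [Real.one_le_sqrt]; linarith
  have hr0 : 0 < Real.sqrt d := by linarith
  have hr2 : Real.sqrt d ^ 2 = d := Real.sq_sqrt (by linarith)
  set r : ℝ := Real.sqrt d with hr
  set W : ℝ := (ω / r) ^ (1 / 4 : ℝ) with hW
  have hW0 : 0 ≤ W := by positivity
  have i1 := gint hK hgc hb hgi
  have i2 := gint hK0 hgc hb0 hgi
  rw [← integral_sub i1 i2]
  have j1 := (gau hd8).const_mul (60 * W)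
  have j2 := i54.const_mul (324 * q ^ (d - 4) * r * W)
  refine (norm_integral_le_of_norm_le (j1.add j2) ?_).trans (le_of_eq ?_)
  · refine (ae_restrict_iff' measurableSet_Ioi).2 (Filter.Eventually.of_forall fun s hs => ?_)
    have hs' : (0 : ℝ) ≤ s := le_of_lt hs
    have hs1 : (0 : ℝ) < s + 1 := by linarith
    rw [← sub_mul, norm_mul]
    have e0 : s * ω = (r * s) * (ω / r) := by field_simp
    have e1 : (s * ω) ^ (1 / 4 : ℝ) = (r * s) ^ (1 / 4 : ℝ) * W := by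
      rw [e0, Real.mul_rpow (by positivity) (by positivity)]
    have e2 : (r * s) ^ (1 / 4 : ℝ) ≤ 1 + r * s := by
      calc (r * s) ^ (1 / 4 : ℝ) ≤ (1 + r * s) ^ (1 / 4 : ℝ) :=
            Real.rpow_le_rpow (by positivity) (by linarith) (by norm_num)
        _ ≤ (1 + r * s) ^ (1 : ℝ) :=
            Real.rpow_le_rpow_of_exponent_le (by nlinarith) (by norm_num)
        _ = 1 + r * s := Real.rpow_one _
    have e3 : 1 + r * s ≤ 5 * Real.exp ((d / 8 : ℝ) * s ^ 2) := by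
      have := y_le (y := r * s)
      rw [mul_pow, hr2] at this
      rwa [show (d : ℝ) * s ^ 2 / 8 = (d / 8 : ℝ) * s ^ 2 by ring] at this
    have e4 : (r * s) ^ (1 / 4 : ℝ) ≤ r * (s + 1) ^ (1 / 4 : ℝ) := by
      rw [Real.mul_rpow (by positivity) hs']
      refine mul_le_mul ?_ (Real.rpow_le_rpow hs' (by linarith) (by norm_num)) (by positivity)
        hr0.le
      calc r ^ (1 / 4 : ℝ) ≤ r ^ (1 : ℝ) :=
            Real.rpow_le_rpow_of_exponent_le hr1 (by norm_num)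
        _ = r := Real.rpow_one _
    have e5 : (s + 1) ^ (1 / 4 : ℝ) * (s + 1) ^ (-(3 / 2) : ℝ) = (s + 1) ^ (-(5 / 4) : ℝ) := by
      rw [← Real.rpow_add hs1]; norm_num
    have e6 : Real.exp ((d / 8 : ℝ) * s ^ 2) * Real.exp (-(d / 4 : ℝ) * s ^ 2) =
        Real.exp (-(d / 8 : ℝ) * s ^ 2) := by
      rw [← Real.exp_add]; congr 1; ring
    have hX : 0 ≤ Real.exp (-(d / 4 : ℝ) * s ^ 2) := (Real.exp_pos _).le
    have hY : 0 ≤ 108 * q ^ (d - 4) * (s + 1) ^ (-(3 / 2) : ℝ) := by positivity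
    calc ‖K s - K0 s‖ * ‖g s‖ ≤ (3 * (s * ω) ^ (1 / 4 : ℝ)) *
          (4 * Real.exp (-(d / 4 : ℝ) * s ^ 2) +
            108 * q ^ (d - 4) * (s + 1) ^ (-(3 / 2) : ℝ)) :=
          mul_le_mul (hdf s hs') (hg s hs') (norm_nonneg _) (by positivity)
      _ = 3 * W * ((r * s) ^ (1 / 4 : ℝ) * (4 * Real.exp (-(d / 4 : ℝ) * s ^ 2)) +
            (r * s) ^ (1 / 4 : ℝ) * (108 * q ^ (d - 4) * (s + 1) ^ (-(3 / 2) : ℝ))) := by
          rw [e1]; ring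
      _ ≤ 3 * W * ((5 * Real.exp ((d / 8 : ℝ) * s ^ 2)) *
            (4 * Real.exp (-(d / 4 : ℝ) * s ^ 2)) +
            (r * (s + 1) ^ (1 / 4 : ℝ)) *
              (108 * q ^ (d - 4) * (s + 1) ^ (-(3 / 2) : ℝ))) := by
          refine mul_le_mul_of_nonneg_left (add_le_add ?_ ?_) (by positivity)
          · exact mul_le_mul_of_nonneg_right (e2.trans e3) (by positivity)
          · exact mul_le_mul_of_nonneg_right e4 hY
      _ = 60 * W * (Real.exp ((d / 8 : ℝ) * s ^ 2) * Real.exp (-(d / 4 : ℝ) * s ^ 2)) +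
            324 * q ^ (d - 4) * r * W *
              ((s + 1) ^ (1 / 4 : ℝ) * (s + 1) ^ (-(3 / 2) : ℝ)) := by ring
      _ = _ := by rw [e5, e6]; rfl
  · have e1 := integral_add j1 j2
    simp only [Pi.add_apply] at e1 ⊢
    rw [e1, integral_const_mul, integral_const_mul, integral_gaussian_Ioi]
    have e2 : Real.pi / (d / 8 : ℝ) = (8 * Real.pi) / d := by field_simp
    rw [e2, Real.sqrt_div (by positivity), ← hr]
    unfold C54
    ring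

end Run7.h216.HDDec
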