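import Pool.Agent.Run7.h216.Model

set_option autoImplicit false

/-!
# Heavy sets, double edges, projections of edge counts
-/

open Finset Classical

namespace Run7.h216

variable {V : Type*}

theorem one_le_sl {σ τ : Equiv.Perm V} {T : Finset V} {x z : V} (hx : x ∈ T)
    (h : (pGraph σ τ).Adj z x) : 1 ≤ sl σ τ z T := by
  refine le_trans ?_ (nbIn_le_sl σ τ z T)
  exact card_pos.2 ⟨x, mem_nbIn.2 ⟨hx, h⟩⟩

theorem EE_insert {σ τ : Equiv.Perm V} {T : Finset V} {x z : V} (hx : x ∈ T) (hz : z ∉ T)
    (h : (pGraph σ τ).Adj x z) : EE σ τ T + 1 ≤ EE σ τ (insert z T) := by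
  have hd : Disjoint T {z} := by
    rw [disjoint_singleton_right]
    exact hz
  have e1 : insert z T = T ∪ {z} := by
    rw [union_comm]
    rfl
  rw [e1, EE_union σ τ hd, sum_singleton]
  have := one_le_sl hx h.symm
  omega

theorem EE_touch {σ τ : Equiv.Perm V} {T Q : Finset V} (hd : Disjoint T Q) {x y : V} (hx : x ∈ T)
    (hy : y ∈ Q) (h : (pGraph σ τ).Adj x y) : EE σ τ T + EE σ τ Q + 1 ≤ EE σ τ (T ∪ Q) := by
  rw [EE_union σ τ hd]
  have h1 := one_le_sl hx h.symm
  have h2 : sl σ τ y T ≤ ∑ v ∈ Q, sl σ τ v T :=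
    single_le_sum (f := fun v => sl σ τ v T) (fun i _ => Nat.zero_le _) hy
  omega

/-- joining two heavy sets by a path -/
theorem heavy_grow {σ τ : Equiv.Perm V} {Q : Finset V} (hQ : Q.card ≤ EE σ τ Q) (r : ℕ) :
    ∀ (T : Finset V) (x y : V), T.card ≤ EE σ τ T → Disjoint T Q → x ∈ T → y ∈ Q →
      reach (pGraph σ τ) r x y → ∃ Z : Finset V, Z.card ≤ T.card + Q.card + r ∧
        Z.card + 1 ≤ EE σ τ Z := by
  induction r with
  | zero =>
    intro T x y _ hdis hx hy h
    have : x = y := h
    subst this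
    exact absurd hy (disjoint_left.1 hdis hx)
  | succ r ih =>
    intro T x y hT hdis hx hy h
    obtain ⟨z, hz, hr⟩ := h
    by_cases hzT : z ∈ T
    · obtain ⟨Z, h1, h2⟩ := ih T z y hT hdis hzT hy hr
      exact ⟨Z, by omega, h2⟩
    · have hadj : (pGraph σ τ).Adj x z := by
        rcases hz with rfl | hz
        · exact absurd hx hzT
        · exact hz
      by_cases hzQ : z ∈ Q
      · have h1 := EE_touch hdis hx hzQ hadj
        refine ⟨T ∪ Q, ?_, ?_⟩
        · rw [card_union_of_disjoint hdis]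
          omega
        · rw [card_union_of_disjoint hdis]
          omega
      · have hcard : (insert z T).card = T.card + 1 := card_insert_of_notMem hzT
        have hE := EE_insert hx hzT hadj
        obtain ⟨Z, h1, h2⟩ := ih (insert z T) z y (by omega) (by
          rw [disjoint_left]
          intro a ha
          rcases mem_insert.1 ha with rfl | ha
          · exact hzQ
          · exact disjoint_left.1 hdis ha) (mem_insert_self _ _) hy hr
        exact ⟨Z, by omega, h2⟩

/-- disjoint small heavy sets are far apart -/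
theorem heavy_far {σ τ : Equiv.Perm V} {K : ℕ}
    (htiny : ∀ S : Finset V, S.card < K → EE σ τ S ≤ S.card) {T Q : Finset V}
    (hT : T.card ≤ EE σ τ T) (hQ : Q.card ≤ EE σ τ Q) (hd : Disjoint T Q) {R : ℕ}
    (hK : T.card + Q.card + R < K) {x y : V} (hx : x ∈ T) (hy : y ∈ Q) :
    ¬ reach (pGraph σ τ) R x y := by
  intro h
  obtain ⟨Z, h1, h2⟩ := heavy_grow hQ R T x y hT hd hx hy h
  have := htiny Z (by omega)
  omega

theorem sl_singleton_symm (σ τ : Equiv.Perm V) {v w : V} (hvw : v ≠ w) :
    sl σ τ v {w} = sl σ τ w {v} := by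
  have h1 : Disjoint ({v} : Finset V) {w} := by
    rw [disjoint_singleton]
    exact hvw
  have e1 := EE_union σ τ h1
  have e2 := EE_union σ τ h1.symm
  rw [union_comm, e1, sum_singleton, sum_singleton] at e2
  omega

/-- a vertex with fewer than four neighbours has a double edge -/
theorem exists_double [Fintype V] {σ τ : Equiv.Perm V} (hσ : ∀ v, σ v ≠ v) (hτ : ∀ v, τ v ≠ v)
    {v : V} (h : (nb (pGraph σ τ) v).card < 4) : ∃ w, w ≠ v ∧ 2 ≤ sl σ τ v {w} := by
  by_contra hcon
  push Not at hcon
  have h4 : sl σ τ v univ = 4 := by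
    unfold sl sl1
    simp
  have hsum : ∀ S : Finset V, sl σ τ v S = ∑ w ∈ S, sl σ τ v {w} := by
    intro S
    induction S using Finset.induction with
    | empty => simp [sl, sl1]
    | insert a S ha ih =>
      rw [sum_insert ha, ← ih]
      have hd : Disjoint ({a} : Finset V) S := disjoint_singleton_left.2 ha
      rw [show insert a S = {a} ∪ S from rfl, sl_union σ τ hd]
  have hself : sl σ τ v {v} = 0 := by
    unfold sl sl1
    have e1 : σ.symm v ≠ v := by
      intro hc
      apply hσ v
      rw [Equiv.symm_apply_eq] at hc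
      exact hc.symm
    have e2 : τ.symm v ≠ v := by
      intro hc
      apply hτ v
      rw [Equiv.symm_apply_eq] at hc
      exact hc.symm
    simp [hσ v, hτ v, e1, e2]
  have hle : sl σ τ v univ ≤ ∑ w : V, (if (pGraph σ τ).Adj v w then 1 else 0) := by
    rw [hsum]
    apply sum_le_sum
    intro w _
    by_cases hwv : w = v
    · rw [hwv, hself]
      exact Nat.zero_le _
    · split_ifs with hadj
      · have := hcon w hwv
        omega
      · have h5 : sl σ τ v {w} = 0 := by
          unfold sl sl1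
          have e0 : ¬ (v ≠ w ∧ (σ v = w ∨ σ w = v ∨ τ v = w ∨ τ w = v)) := hadj
          have e1 : ¬ (σ v = w ∨ σ w = v ∨ τ v = w ∨ τ w = v) := fun hc => e0 ⟨Ne.symm hwv, hc⟩
          push Not at e1
          obtain ⟨f1, f2, f3, f4⟩ := e1
          have g2 : σ.symm v ≠ w := by
            intro hc
            rw [Equiv.symm_apply_eq] at hc
            exact f2 hc.symm
          have g4 : τ.symm v ≠ w := by
            intro hc
            rw [Equiv.symm_apply_eq] at hc
            exact f4 hc.symm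
          simp [f1, f3, g2, g4]
        omega
  rw [← card_filter] at hle
  have : (univ.filter (fun w => (pGraph σ τ).Adj v w)).card = (nb (pGraph σ τ) v).card := rfl
  omega

theorem EE_pair {σ τ : Equiv.Perm V} {v w : V} (hvw : w ≠ v) (h : 2 ≤ sl σ τ v {w}) :
    ({v, w} : Finset V).card ≤ EE σ τ {v, w} := by
  have hd : Disjoint ({w} : Finset V) {v} := by
    rw [disjoint_singleton]
    exact hvw
  have e1 : ({v, w} : Finset V) = {w} ∪ {v} := by
    ext x
    simp [or_comm]
  rw [card_pair hvw.symm, e1, EE_union σ τ hd, sum_singleton]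
  omega

/-- an edge with multiplicity two costs two in the simple count -/
theorem AA_add_two_le {σ τ : Equiv.Perm V} {Q : Finset V} {v w : V} (hvw : w ≠ v) (hv : v ∈ Q)
    (hw : w ∈ Q) (h : 2 ≤ sl σ τ v {w}) : AA (pGraph σ τ) Q + 2 ≤ 2 * EE σ τ Q := by
  have key : ∀ a b : V, a ≠ b → b ∈ Q → 2 ≤ sl σ τ a {b} →
      (nbIn (pGraph σ τ) Q a).card + 1 ≤ sl σ τ a Q := by
    intro a b hab hb h2
    have hd : Disjoint ({b} : Finset V) (Q.erase b) := by
      rw [disjoint_singleton_left]
      exact notMem_erase _ _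
    have e1 : Q = {b} ∪ Q.erase b := by
      rw [← insert_eq, insert_erase hb]
    have e2 : sl σ τ a Q = sl σ τ a {b} + sl σ τ a (Q.erase b) := by
      conv_lhs => rw [e1]
      exact sl_union σ τ hd a
    have e3 := nbIn_le_sl σ τ a (Q.erase b)
    have e4 : nbIn (pGraph σ τ) Q a ⊆ insert b (nbIn (pGraph σ τ) (Q.erase b) a) := by
      intro y hy
      rw [mem_nbIn] at hy
      rw [mem_insert, mem_nbIn, mem_erase]
      by_cases hyb : y = b
      · exact Or.inl hyb
      · exact Or.inr ⟨⟨hyb, hy.1⟩, hy.2⟩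
    have e5 := (card_le_card e4).trans (card_insert_le _ _)
    omega
  rw [← sum_sl]
  have hkv := key v w hvw.symm hw h
  have hkw := key w v hvw hv (by rw [← sl_singleton_symm σ τ hvw.symm]; exact h)
  have hwe : w ∈ Q.erase v := mem_erase.2 ⟨hvw, hw⟩
  unfold AA
  rw [← add_sum_erase Q _ hv, ← add_sum_erase Q (fun x => sl σ τ x Q) hv,
    ← add_sum_erase (Q.erase v) _ hwe, ← add_sum_erase (Q.erase v) (fun x => sl σ τ x Q) hwe]
  have hrest : ∑ x ∈ (Q.erase v).erase w, (nbIn (pGraph σ τ) Q x).card ≤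
      ∑ x ∈ (Q.erase v).erase w, sl σ τ x Q := sum_le_sum (fun x _ => nbIn_le_sl σ τ x Q)
  omega

end Run7.h216
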