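import Pool.Agent.Run7.h216.Basic

set_option autoImplicit false

/-!
# Decomposition of sparse graphs into connected pieces of vertices of degree two
-/

open Finset Classical

namespace Run7.h216

variable {V : Type*}

/-- balls inside `J` for the graph `Γ` -/
noncomputable def ballIn (Γ : SimpleGraph V) (J : Finset V) (x : V) : ℕ → Finset V
  | 0 => {x}
  | k + 1 => ballIn Γ J x k ∪ J.filter (fun y => ∃ z ∈ ballIn Γ J x k, Γ.Adj z y)

theorem ballIn_succ (Γ : SimpleGraph V) (J : Finset V) (x : V) (k : ℕ) :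
    ballIn Γ J x (k + 1) = ballIn Γ J x k ∪ J.filter (fun y => ∃ z ∈ ballIn Γ J x k, Γ.Adj z y) :=
  rfl

theorem ballIn_mono_succ (Γ : SimpleGraph V) (J : Finset V) (x : V) (k : ℕ) :
    ballIn Γ J x k ⊆ ballIn Γ J x (k + 1) := by
  rw [ballIn_succ]
  exact subset_union_left

theorem ballIn_mono (Γ : SimpleGraph V) (J : Finset V) (x : V) {k l : ℕ} (h : k ≤ l) :
    ballIn Γ J x k ⊆ ballIn Γ J x l := by
  induction h with
  | refl => exact Subset.refl _
  | step _ ih => exact ih.trans (ballIn_mono_succ _ _ _ _)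

theorem mem_ballIn_self (Γ : SimpleGraph V) (J : Finset V) (x : V) (k : ℕ) :
    x ∈ ballIn Γ J x k :=
  ballIn_mono Γ J x (Nat.zero_le k) (mem_singleton_self x)

theorem ballIn_sub {Γ : SimpleGraph V} {J H : Finset V} {x : V} (hx : x ∈ H)
    (hH : ∀ z ∈ H, ∀ y ∈ J, Γ.Adj z y → y ∈ H) (k : ℕ) : ballIn Γ J x k ⊆ H := by
  induction k with
  | zero =>
    intro y hy
    rw [ballIn, mem_singleton] at hy
    rwa [hy]
  | succ k ih =>
    intro y hy
    rw [ballIn_succ, mem_union, mem_filter] at hy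
    rcases hy with hy | ⟨hy, z, hz, hzy⟩
    · exact ih hy
    · exact hH z (ih hz) y hy hzy

theorem reach_of_mem_ballIn {G Γ : SimpleGraph V} (hle : Γ ≤ G) {J : Finset V} {x y : V} {k : ℕ}
    (h : y ∈ ballIn Γ J x k) : reach G k x y := by
  induction k generalizing y with
  | zero =>
    rw [ballIn, mem_singleton] at h
    exact h.symm
  | succ k ih =>
    rw [ballIn_succ, mem_union, mem_filter] at h
    rcases h with h | ⟨-, z, hz, hzy⟩
    · exact reach_mono (Nat.le_succ k) (ih h)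
    · exact reach_trans (ih hz) (reach_one (hle hzy))

theorem ballIn_stable {Γ : SimpleGraph V} {J : Finset V} {x : V} {k : ℕ}
    (h : ballIn Γ J x (k + 1) = ballIn Γ J x k) {l : ℕ} (hl : k ≤ l) :
    ballIn Γ J x l = ballIn Γ J x k := by
  induction hl with
  | refl => rfl
  | @step l _ ih =>
    rw [ballIn_succ, ih, ← ballIn_succ, h]

theorem ballIn_grow (Γ : SimpleGraph V) (J : Finset V) (x : V) (m : ℕ) :
    (∃ k < m, ballIn Γ J x (k + 1) = ballIn Γ J x k) ∨ m < (ballIn Γ J x m).card := by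
  induction m with
  | zero =>
    right
    rw [ballIn]
    simp
  | succ m ih =>
    rcases ih with ⟨k, hk, h⟩ | h
    · exact Or.inl ⟨k, by omega, h⟩
    · by_cases he : ballIn Γ J x (m + 1) = ballIn Γ J x m
      · exact Or.inl ⟨m, by omega, he⟩
      · right
        have := card_lt_card (Finset.ssubset_iff_subset_ne.2
          ⟨ballIn_mono_succ Γ J x m, fun h => he h.symm⟩)
        omega

/-- connected set of vertices of degree two in `Γ` restricted to `J`, long or closed -/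
structure IsPiece (G Γ : SimpleGraph V) (M : ℕ) (J P : Finset V) : Prop where
  sub : P ⊆ J
  ne : P.Nonempty
  deg : ∀ a ∈ P, (nbIn Γ J a).card = 2
  conn : ∀ Q : Finset V, Q ⊆ P → Q.Nonempty → (∀ a ∈ Q, ∀ b ∈ P, Γ.Adj a b → b ∈ Q) → Q = P
  near : ∀ a ∈ P, ∀ b ∈ P, reach G (2 * M) a b
  alt : M < P.card ∨ ∀ a ∈ P, ∀ y ∈ J, Γ.Adj a y → y ∈ P

theorem IsPiece.absorb {G Γ : SimpleGraph V} {M : ℕ} {J P : Finset V} (h : IsPiece G Γ M J P)
    {C : Finset V} (hCJ : C ⊆ J) (hC : ∀ v ∈ C, 2 ≤ (nbIn Γ C v).card)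
    (hPC : (P ∩ C).Nonempty) : P ⊆ C := by
  have := h.conn (P ∩ C) inter_subset_left hPC (by
    intro a ha b hb hab
    rw [mem_inter] at ha ⊢
    refine ⟨hb, ?_⟩
    have h1 : nbIn Γ C a = nbIn Γ J a := by
      apply eq_of_subset_of_card_le (nbIn_mono hCJ a)
      rw [h.deg a ha.1]
      exact hC a ha.2
    have h2 : b ∈ nbIn Γ J a := mem_nbIn.2 ⟨h.sub hb, hab⟩
    rw [← h1] at h2
    exact (mem_nbIn.1 h2).1)
  rw [← this]
  exact inter_subset_right

theorem ballIn_conn {Γ : SimpleGraph V} {J : Finset V} {x : V} {m : ℕ} {Q : Finset V}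
    (hQ : Q ⊆ ballIn Γ J x m) (hne : Q.Nonempty)
    (hcl : ∀ a ∈ Q, ∀ b ∈ ballIn Γ J x m, Γ.Adj a b → b ∈ Q) : Q = ballIn Γ J x m := by
  have hx : x ∈ Q := by
    -- take the smallest ball which meets `Q`
    have hex : ∃ k, k ≤ m ∧ (Q ∩ ballIn Γ J x k).Nonempty := by
      refine ⟨m, le_refl _, ?_⟩
      rwa [inter_eq_left.2 hQ]
    obtain ⟨hk1, hk2⟩ := Nat.find_spec hex
    set k := Nat.find hex with hk
    rcases Nat.eq_zero_or_pos k with h0 | hpos
    · rw [h0] at hk2
      obtain ⟨y, hy⟩ := hk2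
      rw [mem_inter, ballIn, mem_singleton] at hy
      rw [← hy.2]
      exact hy.1
    · exfalso
      obtain ⟨l, hl⟩ : ∃ l, k = l + 1 := ⟨k - 1, by omega⟩
      rw [hl] at hk2
      obtain ⟨y, hy⟩ := hk2
      rw [mem_inter, ballIn_succ, mem_union, mem_filter] at hy
      have hmin := Nat.find_min hex (m := l) (by omega)
      apply hmin
      refine ⟨by omega, ?_⟩
      rcases hy.2 with h | ⟨-, z, hz, hzy⟩
      · exact ⟨y, mem_inter.2 ⟨hy.1, h⟩⟩
      · refine ⟨z, mem_inter.2 ⟨?_, hz⟩⟩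
        exact hcl y hy.1 z (ballIn_mono Γ J x (by omega) hz) hzy.symm
  apply Subset.antisymm hQ
  have : ∀ k, k ≤ m → ballIn Γ J x k ⊆ Q := by
    intro k
    induction k with
    | zero =>
      intro _ y hy
      rw [ballIn, mem_singleton] at hy
      rwa [hy]
    | succ k ih =>
      intro hk y hy
      have hy0 := hy
      rw [ballIn_succ, mem_union, mem_filter] at hy
      rcases hy with h | ⟨-, z, hz, hzy⟩
      · exact ih (by omega) h
      · exact hcl z (ih (by omega) hz) y (ballIn_mono Γ J x hk hy0) hzy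
  exact this m (le_refl _)

/-- Existence of a piece. -/
theorem exists_piece [Fintype V] {G Γ : SimpleGraph V} (hle : Γ ≤ G)
    (hdeg : ∀ v, (nb G v).card ≤ 4) {K M : ℕ} (hK : 2 * 5 ^ M < K) {J H : Finset V}
    (hHJ : H ⊆ J) (hHne : H.Nonempty) (hcl : ∀ x ∈ H, ∀ y ∈ J, Γ.Adj x y → y ∈ H)
    (hmin : ∀ x ∈ H, 2 ≤ (nbIn Γ J x).card) (hsp : K * AA Γ H ≤ 2 * (K + 1) * H.card) :
    ∃ P : Finset V, IsPiece G Γ M J P := by
  have hnb : ∀ x ∈ H, nbIn Γ H x = nbIn Γ J x := by
    intro x hx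
    apply Subset.antisymm (nbIn_mono hHJ x)
    intro y hy
    rw [mem_nbIn] at hy ⊢
    exact ⟨hcl x hx y hy.1 hy.2, hy.2⟩
  set B : Finset V := H.filter (fun x => 3 ≤ (nbIn Γ J x).card) with hB
  have h1 : 2 * H.card + B.card ≤ AA Γ H := by
    have e1 : AA Γ H = ∑ x ∈ H, (nbIn Γ J x).card := sum_congr rfl (fun x hx => by rw [hnb x hx])
    have e2 : 2 * H.card + B.card = ∑ x ∈ H, (2 + if 3 ≤ (nbIn Γ J x).card then 1 else 0) := by
      rw [sum_add_distrib, hB, card_filter]
      simp [mul_comm]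
    rw [e1, e2]
    apply sum_le_sum
    intro x hx
    have := hmin x hx
    split_ifs <;> omega
  have h2 : K * B.card ≤ 2 * H.card := by nlinarith
  have h3 : 5 ^ M * B.card < H.card := by
    have hHpos : 0 < H.card := hHne.card_pos
    by_contra hcon
    push Not at hcon
    have : K * H.card ≤ 2 * 5 ^ M * H.card := by
      calc K * H.card ≤ K * (5 ^ M * B.card) := Nat.mul_le_mul_left _ hcon
        _ = 5 ^ M * (K * B.card) := by ring
        _ ≤ 5 ^ M * (2 * H.card) := Nat.mul_le_mul_left _ h2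
        _ = 2 * 5 ^ M * H.card := by ring
    have := Nat.le_of_mul_le_mul_right this hHpos
    omega
  obtain ⟨x, hxH, hx⟩ : ∃ x ∈ H, ∀ b ∈ B, ¬ reach G M b x := by
    by_contra hcon
    push Not at hcon
    have hsub : H ⊆ B.biUnion (rball G M) := by
      intro x hx
      obtain ⟨b, hb, hr⟩ := hcon x hx
      exact mem_biUnion.2 ⟨b, hb, mem_rball.2 hr⟩
    have := (card_le_card hsub).trans
      (card_biUnion_le_card_mul B _ (5 ^ M) (fun z _ => card_rball_le hdeg M z))
    rw [mul_comm] at this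
    omega
  have hPH : ballIn Γ J x M ⊆ H := ballIn_sub hxH hcl M
  refine ⟨ballIn Γ J x M, hPH.trans hHJ, ⟨x, mem_ballIn_self _ _ _ _⟩, ?_, ?_, ?_, ?_⟩
  · intro a ha
    have h4 := hmin a (hPH ha)
    have h5 : ¬ 3 ≤ (nbIn Γ J a).card := by
      intro h3
      apply hx a (mem_filter.2 ⟨hPH ha, h3⟩)
      exact reach_symm (reach_of_mem_ballIn hle ha)
    omega
  · intro Q hQ hne hcl
    exact ballIn_conn hQ hne hcl
  · intro a ha b hb
    have := reach_trans (reach_symm (reach_of_mem_ballIn hle ha)) (reach_of_mem_ballIn hle hb)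
    rwa [← two_mul] at this
  · rcases ballIn_grow Γ J x M with ⟨k, hk, he⟩ | h
    · right
      intro a ha y hy hay
      have e1 : ballIn Γ J x M = ballIn Γ J x k := ballIn_stable he hk.le
      rw [e1, ← he, ballIn_succ, mem_union, mem_filter]
      right
      rw [e1] at ha
      exact ⟨hy, a, ha, hay⟩
    · exact Or.inl h

/-- The elimination: all pieces of one colour. -/
theorem exists_pieces [Fintype V] {G Γ : SimpleGraph V} (hle : Γ ≤ G)
    (hdeg : ∀ v, (nb G v).card ≤ 4) {K M : ℕ} (hK : 2 * 5 ^ M < K) {W : Finset V}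
    (hW : ∀ J : Finset V, J ⊆ W → J.Nonempty → ∃ H : Finset V, H ⊆ J ∧ H.Nonempty ∧
      (∀ x ∈ H, ∀ y ∈ J, Γ.Adj x y → y ∈ H) ∧ K * AA Γ H ≤ 2 * (K + 1) * H.card) :
    ∀ J : Finset V, J ⊆ W → ∃ PP : Finset (Finset V × Finset V),
      (∀ p ∈ PP, IsPiece G Γ M p.1 p.2 ∧ p.1 ⊆ J) ∧
      (∀ p ∈ PP, ∀ q ∈ PP, p ≠ q → Disjoint p.2 q.2) ∧
      ∀ C : Finset V, C ⊆ J → C.Nonempty → (∀ v ∈ C, 2 ≤ (nbIn Γ C v).card) →
        ∃ p ∈ PP, C ⊆ p.1 ∧ (p.2 ∩ C).Nonempty := by
  intro J
  induction J using Finset.strongInduction with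
  | _ J ih =>
    intro hJW
    rcases J.eq_empty_or_nonempty with hJ | hJ
    · refine ⟨∅, by simp, by simp, ?_⟩
      intro C hC hne
      rw [hJ, subset_empty] at hC
      rw [hC] at hne
      exact absurd hne (by simp)
    by_cases hlow : ∃ x ∈ J, (nbIn Γ J x).card < 2
    · obtain ⟨x, hx, hlt⟩ := hlow
      obtain ⟨PP, h1, h2, h3⟩ := ih (J.erase x) (erase_ssubset hx) ((erase_subset _ _).trans hJW)
      refine ⟨PP, fun p hp => ⟨(h1 p hp).1, (h1 p hp).2.trans (erase_subset _ _)⟩, h2, ?_⟩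
      intro C hC hne hC2
      apply h3 C _ hne hC2
      intro y hy
      rw [mem_erase]
      refine ⟨?_, hC hy⟩
      rintro rfl
      have := (hC2 y hy).trans (card_le_card (nbIn_mono hC y))
      omega
    · push Not at hlow
      obtain ⟨H, hHJ, hHne, hcl, hsp⟩ := hW J hJW hJ
      obtain ⟨P, hP⟩ := exists_piece hle hdeg hK hHJ hHne hcl (fun x hx => hlow x (hHJ hx)) hsp
      have hss : J \ P ⊂ J := by
        obtain ⟨a, ha⟩ := hP.ne
        refine ⟨sdiff_subset, fun hc => ?_⟩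
        have := hc (hP.sub ha)
        rw [mem_sdiff] at this
        exact this.2 ha
      obtain ⟨PP, h1, h2, h3⟩ := ih (J \ P) hss (sdiff_subset.trans hJW)
      have hdis : ∀ p ∈ PP, Disjoint p.2 P := by
        intro p hp
        rw [disjoint_left]
        intro a ha haP
        have := (h1 p hp).2 ((h1 p hp).1.sub ha)
        rw [mem_sdiff] at this
        exact this.2 haP
      refine ⟨insert (J, P) PP, ?_, ?_, ?_⟩
      · intro p hp
        rcases mem_insert.1 hp with hp | hp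
        · rw [hp]
          exact ⟨hP, Subset.refl _⟩
        · exact ⟨(h1 p hp).1, (h1 p hp).2.trans sdiff_subset⟩
      · intro p hp q hq hpq
        rcases mem_insert.1 hp with hp | hp
        · rcases mem_insert.1 hq with hq | hq
          · exact absurd (hp.trans hq.symm) hpq
          · rw [hp]
            exact (hdis q hq).symm
        · rcases mem_insert.1 hq with hq | hq
          · rw [hq]
            exact hdis p hp
          · exact h2 p hp q hq hpq
      · intro C hC hne hC2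
        by_cases hPC : (P ∩ C).Nonempty
        · exact ⟨(J, P), mem_insert_self _ _, hC, hPC⟩
        · obtain ⟨p, hp, h4, h5⟩ := h3 C (by
            intro y hy
            rw [mem_sdiff]
            refine ⟨hC hy, fun hyP => hPC ⟨y, mem_inter.2 ⟨hyP, hy⟩⟩⟩) hne hC2
          exact ⟨p, mem_insert_of_mem hp, h4, h5⟩

end Run7.h216
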