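import Pool.Agent.Run7.h216.Heavy
import Pool.Agent.Run7.h216.Pieces

set_option autoImplicit false

/-!
# Graphs on pairs `(vertex, bit)` whose edges lie over different edges of a graph
-/

open Finset Classical

namespace Run7.h216

variable {V : Type*}

/-- the edges of `Λ` lie over different edges of `G` -/
structure Lift (G : SimpleGraph V) (Λ : SimpleGraph (V × Bool)) : Prop where
  proj : ∀ a b, Λ.Adj a b → G.Adj a.1 b.1
  uniq : ∀ a b a' b', Λ.Adj a b → Λ.Adj a' b' → a.1 = a'.1 → b.1 = b'.1 → a = a' ∧ b = b'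

theorem Lift.reach {G : SimpleGraph V} {Λ : SimpleGraph (V × Bool)} (h : Lift G Λ) {r : ℕ}
    {a b : V × Bool} (hr : reach Λ r a b) : reach G r a.1 b.1 := by
  induction r generalizing a with
  | zero =>
    have : a = b := hr
    rw [this]
    rfl
  | succ r ih =>
    obtain ⟨c, hc, hr⟩ := hr
    refine ⟨c.1, ?_, ih hr⟩
    rcases hc with rfl | hc
    · exact Or.inl rfl
    · exact Or.inr (h.proj _ _ hc)

theorem AA_eq_card (G : SimpleGraph V) (S : Finset V) :
    AA G S = ((S ×ˢ S).filter (fun q => G.Adj q.1 q.2)).card := by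
  unfold AA nbIn
  rw [card_filter, sum_product]
  simp only [card_filter]

/-- the support of a set of nodes -/
noncomputable def supp (J : Finset (V × Bool)) : Finset V := J.image Prod.fst

theorem mem_supp {J : Finset (V × Bool)} {v : V} : v ∈ supp J ↔ ∃ i, (v, i) ∈ J := by
  unfold supp
  rw [mem_image]
  constructor
  · rintro ⟨⟨w, i⟩, h, rfl⟩
    exact ⟨i, h⟩
  · rintro ⟨i, h⟩
    exact ⟨(v, i), h, rfl⟩

theorem card_supp_le (J : Finset (V × Bool)) : (supp J).card ≤ J.card := card_image_le

theorem card_le_supp (J : Finset (V × Bool)) : J.card ≤ 2 * (supp J).card := by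
  have h1 : J ⊆ supp J ×ˢ univ := by
    intro a ha
    rw [mem_product]
    exact ⟨mem_supp.2 ⟨a.2, ha⟩, mem_univ _⟩
  have h2 := card_le_card h1
  rw [card_product, card_univ, Fintype.card_bool] at h2
  omega

theorem supp_union (J J' : Finset (V × Bool)) : supp (J ∪ J') = supp J ∪ supp J' :=
  image_union _ _

theorem Lift.AA_le {G : SimpleGraph V} {Λ : SimpleGraph (V × Bool)} (h : Lift G Λ)
    (J : Finset (V × Bool)) : AA Λ J ≤ AA G (supp J) := by
  rw [AA_eq_card, AA_eq_card]
  apply card_le_card_of_injOn (fun q => (q.1.1, q.2.1))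
  · intro q hq
    rw [mem_coe, mem_filter, mem_product] at hq
    rw [mem_coe, mem_filter, mem_product]
    exact ⟨⟨mem_supp.2 ⟨q.1.2, hq.1.1⟩, mem_supp.2 ⟨q.2.2, hq.1.2⟩⟩, h.proj _ _ hq.2⟩
  · intro q hq q' hq' he
    rw [mem_coe, mem_filter] at hq hq'
    simp only [Prod.mk.injEq] at he
    obtain ⟨e1, e2⟩ := h.uniq _ _ _ _ hq.2 hq'.2 he.1 he.2
    exact Prod.ext e1 e2

theorem Lift.nb_card [Fintype V] {G : SimpleGraph V} {Λ : SimpleGraph (V × Bool)} (h : Lift G Λ)
    (a : V × Bool) : (nb Λ a).card ≤ (nb G a.1).card := by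
  apply card_le_card_of_injOn Prod.fst
  · intro b hb
    rw [mem_coe, mem_nb] at hb
    rw [mem_coe, mem_nb]
    exact h.proj _ _ hb
  · intro b hb b' hb' he
    rw [mem_coe, mem_nb] at hb hb'
    exact (h.uniq _ _ _ _ hb hb' rfl he).2

theorem IsPiece.nbIn_eq' {V : Type*} {G Γ : SimpleGraph V} {M : ℕ} {J P : Finset V}
    (h : IsPiece G Γ M J P) (hs : P.card ≤ M) {a : V} (ha : a ∈ P) :
    nbIn Γ P a = nbIn Γ J a := by
  apply Subset.antisymm (nbIn_mono h.sub a)
  intro y hy
  rw [mem_nbIn] at hy ⊢
  refine ⟨?_, hy.2⟩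
  rcases h.alt with hl | hl
  · omega
  · exact hl a ha y hy.1 hy.2

theorem IsPiece.AA_short {V : Type*} {G Γ : SimpleGraph V} {M : ℕ} {J P : Finset V}
    (h : IsPiece G Γ M J P) (hs : P.card ≤ M) : AA Γ P = 2 * P.card := by
  unfold AA
  rw [sum_congr rfl (fun a ha => by rw [h.nbIn_eq' hs ha, h.deg a ha]), sum_const, smul_eq_mul,
    mul_comm]

/-- edge counts of the support of one short piece -/
theorem short_le_EE {σ τ : Equiv.Perm V} {Λ : SimpleGraph (V × Bool)}
    (hL : Lift (pGraph σ τ) Λ) {M : ℕ} {J P : Finset (V × Bool)} (h : IsPiece Λ Λ M J P)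
    (hs : P.card ≤ M) : P.card ≤ EE σ τ (supp P) := by
  have h1 := h.AA_short hs
  have h2 := hL.AA_le P
  have h3 := AA_le_EE σ τ (supp P)
  omega

/-- two disjoint short pieces have supports which are far apart -/
theorem short_pieces_far {σ τ : Equiv.Perm V} {Λ : SimpleGraph (V × Bool)}
    (hL : Lift (pGraph σ τ) Λ) {M K R : ℕ}
    (htiny : ∀ S : Finset V, S.card < K → EE σ τ S ≤ S.card)
    (hK : 2 * M + R < K) {J P J' P' : Finset (V × Bool)} (h : IsPiece Λ Λ M J P)
    (h' : IsPiece Λ Λ M J' P') (hs : P.card ≤ M) (hs' : P'.card ≤ M) (hd : Disjoint P P')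
    {x y : V} (hx : x ∈ supp P) (hy : y ∈ supp P') : ¬ reach (pGraph σ τ) R x y := by
  have e1 := card_supp_le P
  have e2 := card_supp_le P'
  have hE := short_le_EE hL h hs
  have hE' := short_le_EE hL h' hs'
  by_cases hdd : Disjoint (supp P) (supp P')
  · exact heavy_far htiny (by omega) (by omega) hdd (by omega) hx hy
  · exfalso
    rw [not_disjoint_iff_nonempty_inter, ← card_pos] at hdd
    have e3 : (supp P ∪ supp P').card + (supp P ∩ supp P').card =
        (supp P).card + (supp P').card := card_union_add_card_inter _ _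
    have e4 := htiny (supp P ∪ supp P') (by omega)
    have e5 : AA Λ P + AA Λ P' ≤ AA Λ (P ∪ P') := by
      unfold AA
      rw [sum_union hd]
      exact add_le_add
        (sum_le_sum (fun a _ => card_le_card (nbIn_mono subset_union_left a)))
        (sum_le_sum (fun a _ => card_le_card (nbIn_mono subset_union_right a)))
    have e6 := hL.AA_le (P ∪ P')
    have e7 := AA_le_EE σ τ (supp (P ∪ P'))
    rw [supp_union] at e6 e7
    have e8 := h.AA_short hs
    have e9 := h'.AA_short hs'
    omega

/-- a vertex of the support of a short piece has four neighbours -/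
theorem short_nb_card [Fintype V] {σ τ : Equiv.Perm V} (hσ : ∀ v, σ v ≠ v) (hτ : ∀ v, τ v ≠ v)
    {Λ : SimpleGraph (V × Bool)} (hL : Lift (pGraph σ τ) Λ) {M K : ℕ}
    (htiny : ∀ S : Finset V, S.card < K → EE σ τ S ≤ S.card)
    (hK : M + 1 < K) {J P : Finset (V × Bool)} (h : IsPiece Λ Λ M J P)
    (hs : P.card ≤ M) {v : V} (hv : v ∈ supp P) : (nb (pGraph σ τ) v).card = 4 := by
  by_contra hcon
  have h4 := nb_card_le σ τ v
  obtain ⟨w, hwv, h2⟩ := exists_double hσ hτ (lt_of_le_of_ne h4 hcon)
  have e1 := card_supp_le P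
  have hE := short_le_EE hL h hs
  by_cases hw : w ∈ supp P
  · have e2 := AA_add_two_le hwv hv hw h2
    have e3 := h.AA_short hs
    have e4 := hL.AA_le P
    have e5 := htiny (supp P) (by omega)
    omega
  · have hd : Disjoint (supp P) {w} := by
      rw [disjoint_singleton_right]
      exact hw
    have e2 := EE_union σ τ hd
    rw [sum_singleton] at e2
    have e3 : sl σ τ w {v} ≤ sl σ τ w (supp P) := by
      have e4 : supp P = {v} ∪ (supp P).erase v := by
        rw [← insert_eq, insert_erase hv]
      have e5 : Disjoint ({v} : Finset V) ((supp P).erase v) := by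
        rw [disjoint_singleton_left]
        exact notMem_erase _ _
      rw [e4, sl_union σ τ e5]
      omega
    rw [← sl_singleton_symm σ τ hwv.symm] at e3
    have e6 := htiny (supp P ∪ {w}) (by
      rw [card_union_of_disjoint hd, card_singleton]
      omega)
    rw [card_union_of_disjoint hd, card_singleton] at e6
    omega

/-- vertices with fewer than four neighbours which are not far apart -/
theorem double_close [Fintype V] {σ τ : Equiv.Perm V} (hσ : ∀ v, σ v ≠ v) (hτ : ∀ v, τ v ≠ v)
    {K R : ℕ} (htiny : ∀ S : Finset V, S.card < K → EE σ τ S ≤ S.card) (hK : 4 + R < K) {B : Finset V}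
    (hB : ∀ v ∈ B, (nb (pGraph σ τ) v).card < 4)
    (hr : ∀ v ∈ B, ∀ w ∈ B, reach (pGraph σ τ) R v w) : B.card ≤ 2 := by
  rcases B.eq_empty_or_nonempty with h0 | ⟨v, hv⟩
  · rw [h0]
    simp
  obtain ⟨w, hwv, h2⟩ := exists_double hσ hτ (hB v hv)
  have hc : ({v, w} : Finset V).card = 2 := card_pair hwv.symm
  have hp := EE_pair hwv h2
  have hsub : B ⊆ {v, w} := by
    intro v' hv'
    by_contra hno
    rw [mem_insert, mem_singleton, not_or] at hno
    obtain ⟨w', hwv', h2'⟩ := exists_double hσ hτ (hB v' hv')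
    have hc' : ({v', w'} : Finset V).card = 2 := card_pair hwv'.symm
    have hp' := EE_pair hwv' h2'
    by_cases hd : Disjoint ({v, w} : Finset V) {v', w'}
    · exact heavy_far htiny hp hp' hd (by omega) (mem_insert_self _ _) (mem_insert_self _ _)
        (hr v hv v' hv')
    · -- the two double edges share the vertex `w'`
      have hw' : w' ∈ ({v, w} : Finset V) := by
        rw [not_disjoint_iff] at hd
        obtain ⟨a, ha, ha'⟩ := hd
        rw [mem_insert, mem_singleton] at ha'
        rcases ha' with rfl | rfl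
        · rw [mem_insert, mem_singleton] at ha
          exact absurd ha (by tauto)
        · exact ha
      have hd2 : Disjoint ({v, w} : Finset V) {v'} := by
        rw [disjoint_singleton_right, mem_insert, mem_singleton]
        tauto
      have e1 := EE_union σ τ hd2
      rw [sum_singleton] at e1
      have e3 : sl σ τ v' {w'} ≤ sl σ τ v' {v, w} := by
        have e4 : ({v, w} : Finset V) = {w'} ∪ ({v, w} : Finset V).erase w' := by
          rw [← insert_eq, insert_erase hw']
        have e5 : Disjoint ({w'} : Finset V) (({v, w} : Finset V).erase w') := by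
          rw [disjoint_singleton_left]
          exact notMem_erase _ _
        rw [e4, sl_union σ τ e5]
        omega
      have e6 := htiny ({v, w} ∪ {v'}) (by
        rw [card_union_of_disjoint hd2, card_singleton]
        omega)
      rw [card_union_of_disjoint hd2, card_singleton] at e6
      omega
  exact (card_le_card hsub).trans hc.le

end Run7.h216
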