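import Pool.Agent.Run7.h216.Basic

set_option autoImplicit false

/-!
# Union of the graphs of two permutations, edge counts with multiplicity
-/

open Finset Classical

namespace Run7.h216

variable {V : Type*}

/-- the simple graph underlying the union of two functional graphs -/
def pGraph (σ τ : Equiv.Perm V) : SimpleGraph V where
  Adj u v := u ≠ v ∧ (σ u = v ∨ σ v = u ∨ τ u = v ∨ τ v = u)
  symm := by
    constructor
    rintro u v ⟨h1, h2⟩
    refine ⟨h1.symm, ?_⟩
    tauto
  loopless := by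
    constructor
    rintro u ⟨h1, -⟩
    exact h1 rfl

/-- number of arcs of `σ` inside `S` -/
noncomputable def E1 (σ : Equiv.Perm V) (S : Finset V) : ℕ := (S.filter (fun v => σ v ∈ S)).card

/-- number of edges inside `S` with multiplicity -/
noncomputable def EE (σ τ : Equiv.Perm V) (S : Finset V) : ℕ := E1 σ S + E1 τ S

/-- number of arcs at `v` (in or out) with other end in `S` -/
noncomputable def sl1 (σ : Equiv.Perm V) (v : V) (S : Finset V) : ℕ :=
  (if σ v ∈ S then 1 else 0) + (if σ.symm v ∈ S then 1 else 0)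

/-- number of edges at `v` with other end in `S`, with multiplicity -/
noncomputable def sl (σ τ : Equiv.Perm V) (v : V) (S : Finset V) : ℕ := sl1 σ v S + sl1 τ v S

theorem E1_eq_sum (σ : Equiv.Perm V) (S : Finset V) :
    E1 σ S = ∑ v ∈ S, (if σ v ∈ S then 1 else 0) := by
  unfold E1
  rw [card_filter]

theorem sum_symm (σ : Equiv.Perm V) (S T : Finset V) :
    ∑ v ∈ S, (if σ v ∈ T then 1 else 0) = ∑ v ∈ T, (if σ.symm v ∈ S then 1 else 0) := by
  rw [← card_filter, ← card_filter]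
  apply card_bij (fun v _ => σ v)
  · intro v hv
    rw [mem_filter] at hv ⊢
    refine ⟨hv.2, ?_⟩
    rw [Equiv.symm_apply_apply]
    exact hv.1
  · intro a _ b _ h
    exact σ.injective h
  · intro b hb
    rw [mem_filter] at hb
    refine ⟨σ.symm b, ?_, by simp⟩
    rw [mem_filter]
    exact ⟨hb.2, by simpa using hb.1⟩

theorem ind_union {S T : Finset V} (h : Disjoint S T) (x : V) :
    (if x ∈ S ∪ T then 1 else 0) = (if x ∈ S then 1 else 0) + (if x ∈ T then 1 else 0) := by
  by_cases h1 : x ∈ S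
  · have : x ∉ T := disjoint_left.1 h h1
    simp [h1, this]
  · by_cases h2 : x ∈ T <;> simp [h1, h2]

theorem E1_union (σ : Equiv.Perm V) {S T : Finset V} (h : Disjoint S T) :
    E1 σ (S ∪ T) = E1 σ S + E1 σ T + ∑ v ∈ T, sl1 σ v S := by
  rw [E1_eq_sum, E1_eq_sum, E1_eq_sum, sum_union h]
  simp only [ind_union h, sl1, sum_add_distrib]
  rw [sum_symm σ S T]
  ring

theorem EE_union (σ τ : Equiv.Perm V) {S T : Finset V} (h : Disjoint S T) :
    EE σ τ (S ∪ T) = EE σ τ S + EE σ τ T + ∑ v ∈ T, sl σ τ v S := by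
  unfold EE sl
  rw [E1_union σ h, E1_union τ h, sum_add_distrib]
  ring

theorem sl_union (σ τ : Equiv.Perm V) {S T : Finset V} (h : Disjoint S T) (v : V) :
    sl σ τ v (S ∪ T) = sl σ τ v S + sl σ τ v T := by
  unfold sl sl1
  simp only [ind_union h]
  ring

theorem sl1_le (σ : Equiv.Perm V) (v : V) (S : Finset V) : sl1 σ v S ≤ 2 := by
  unfold sl1
  split_ifs <;> omega

theorem sl_le (σ τ : Equiv.Perm V) (v : V) (S : Finset V) : sl σ τ v S ≤ 4 := by
  unfold sl
  have := sl1_le σ v S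
  have := sl1_le τ v S
  omega

theorem E1_le_sum (σ : Equiv.Perm V) (S : Finset V) : E1 σ S ≤ ∑ v ∈ S, sl1 σ v S := by
  rw [E1_eq_sum]
  apply sum_le_sum
  intro v _
  unfold sl1
  omega

theorem EE_le_sum (σ τ : Equiv.Perm V) (S : Finset V) : EE σ τ S ≤ ∑ v ∈ S, sl σ τ v S := by
  unfold EE sl
  rw [sum_add_distrib]
  exact add_le_add (E1_le_sum σ S) (E1_le_sum τ S)

theorem sum_sl1 (σ : Equiv.Perm V) (S : Finset V) : ∑ v ∈ S, sl1 σ v S = 2 * E1 σ S := by
  unfold sl1
  rw [sum_add_distrib, ← sum_symm, ← E1_eq_sum]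
  ring

theorem sum_sl (σ τ : Equiv.Perm V) (S : Finset V) : ∑ v ∈ S, sl σ τ v S = 2 * EE σ τ S := by
  unfold sl EE
  rw [sum_add_distrib, sum_sl1, sum_sl1]
  ring

/-- simple neighbours inside `S` are counted by `sl` -/
theorem nbIn_le_sl (σ τ : Equiv.Perm V) (v : V) (S : Finset V) :
    (nbIn (pGraph σ τ) S v).card ≤ sl σ τ v S := by
  have hsub : nbIn (pGraph σ τ) S v ⊆
      (({σ v} : Finset V).filter (· ∈ S) ∪ ({σ.symm v} : Finset V).filter (· ∈ S)) ∪
      (({τ v} : Finset V).filter (· ∈ S) ∪ ({τ.symm v} : Finset V).filter (· ∈ S)) := by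
    intro y hy
    rw [mem_nbIn] at hy
    obtain ⟨hyS, -, h⟩ := hy
    simp only [mem_union, mem_filter, mem_singleton]
    rcases h with h | h | h | h
    · exact Or.inl (Or.inl ⟨h.symm, hyS⟩)
    · exact Or.inl (Or.inr ⟨by rw [← h]; simp, hyS⟩)
    · exact Or.inr (Or.inl ⟨h.symm, hyS⟩)
    · exact Or.inr (Or.inr ⟨by rw [← h]; simp, hyS⟩)
  have h0 : ∀ x : V, ((({x} : Finset V).filter (· ∈ S))).card = if x ∈ S then 1 else 0 := by
    intro x
    rw [filter_singleton]
    split_ifs <;> simp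
  refine (card_le_card hsub).trans ?_
  refine (card_union_le _ _).trans ?_
  unfold sl sl1
  refine add_le_add ?_ ?_
  · refine (card_union_le _ _).trans ?_
    rw [h0, h0]
  · refine (card_union_le _ _).trans ?_
    rw [h0, h0]

theorem XX_le_sl (σ τ : Equiv.Perm V) (S T : Finset V) :
    XX (pGraph σ τ) T S ≤ ∑ v ∈ T, sl σ τ v S :=
  sum_le_sum (fun v _ => nbIn_le_sl σ τ v S)

theorem AA_le_EE (σ τ : Equiv.Perm V) (S : Finset V) :
    AA (pGraph σ τ) S ≤ 2 * EE σ τ S := by
  rw [← sum_sl]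
  exact sum_le_sum (fun v _ => nbIn_le_sl σ τ v S)

theorem nb_eq_nbIn [Fintype V] (G : SimpleGraph V) (v : V) : nb G v = nbIn G univ v := by
  ext y
  rw [mem_nb, mem_nbIn]
  simp

theorem nb_card_le [Fintype V] (σ τ : Equiv.Perm V) (v : V) :
    (nb (pGraph σ τ) v).card ≤ 4 := by
  rw [nb_eq_nbIn]
  exact (nbIn_le_sl σ τ v univ).trans (sl_le σ τ v univ)

theorem sl_add_nbIn_le (σ τ : Equiv.Perm V) (v : V) {S T : Finset V} (h : Disjoint S T) :
    sl σ τ v S + (nbIn (pGraph σ τ) T v).card ≤ 4 := by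
  have h1 := nbIn_le_sl σ τ v T
  have h2 := sl_union σ τ h v
  have h3 := sl_le σ τ v (S ∪ T)
  omega

theorem E1_compl [Fintype V] (σ : Equiv.Perm V) (S : Finset V) :
    E1 σ S + 2 * Sᶜ.card = Fintype.card V + E1 σ Sᶜ := by
  have h1 := E1_union σ (disjoint_compl_right (a := S))
  have h2 : S ∪ Sᶜ = univ := by simp
  rw [h2] at h1
  have h3 : E1 σ univ = Fintype.card V := by
    unfold E1
    simp
  have h4 : ∑ v ∈ Sᶜ, sl1 σ v S + ∑ v ∈ Sᶜ, sl1 σ v Sᶜ = 2 * Sᶜ.card := by
    rw [← sum_add_distrib]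
    rw [sum_congr rfl (g := fun _ => 2)]
    · rw [sum_const, smul_eq_mul, mul_comm]
    · intro v _
      unfold sl1
      have := ind_union (disjoint_compl_right (a := S)) (σ v)
      have := ind_union (disjoint_compl_right (a := S)) (σ.symm v)
      rw [h2] at *
      simp only [mem_univ, if_true] at *
      omega
  rw [sum_sl1] at h4
  rw [h3] at h1
  omega

theorem EE_compl [Fintype V] (σ τ : Equiv.Perm V) (S : Finset V) :
    EE σ τ S + 4 * Sᶜ.card = 2 * Fintype.card V + EE σ τ Sᶜ := by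
  have := E1_compl σ S
  have := E1_compl τ S
  unfold EE
  omega

theorem E1_congr {W : Type*} {σ : Equiv.Perm V} {ρ : Equiv.Perm W} (e : V ≃ W) {S : Finset V}
    {T : Finset W} (hS : ∀ v, v ∈ S ↔ e v ∈ T) (h : ∀ v, e (σ v) = ρ (e v)) :
    E1 σ S = E1 ρ T := by
  unfold E1
  apply card_bij (fun i _ => e i)
  · intro i hi
    rw [mem_filter, hS, hS, h] at hi
    rw [mem_filter]
    exact hi
  · intro a _ b _ h
    exact e.injective h
  · intro b hb
    rw [mem_filter] at hb
    refine ⟨e.symm b, ?_, by simp⟩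
    rw [mem_filter, hS, hS, h, Equiv.apply_symm_apply]
    exact hb

/-- preimage of a set -/
noncomputable def pre [Fintype V] (p : Equiv.Perm V) (S : Finset V) : Finset V :=
  univ.filter (fun i => p i ∈ S)

theorem mem_pre [Fintype V] {p : Equiv.Perm V} {S : Finset V} {i : V} :
    i ∈ pre p S ↔ p i ∈ S := by
  simp [pre]

theorem card_pre [Fintype V] (p : Equiv.Perm V) (S : Finset V) :
    (pre p S).card = S.card := by
  apply card_bij (fun i _ => p i)
  · intro i hi
    exact mem_pre.1 hi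
  · intro a _ b _ h
    exact p.injective h
  · intro b hb
    exact ⟨p.symm b, mem_pre.2 (by simpa using hb), by simp⟩

/-- elements with a property -/
noncomputable def evs {α : Type*} [Fintype α] (P : α → Prop) : Finset α := univ.filter P

theorem mem_evs {α : Type*} [Fintype α] {P : α → Prop} {a : α} : a ∈ evs P ↔ P a := by
  unfold evs
  rw [mem_filter]
  exact ⟨fun h => h.2, fun h => ⟨mem_univ _, h⟩⟩

/-- number of elements with a property -/
noncomputable def cnt {α : Type*} [Fintype α] (P : α → Prop) : ℕ := (evs P).card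

theorem cnt_mono {α : Type*} [Fintype α] {P Q : α → Prop} (h : ∀ a, P a → Q a) :
    cnt P ≤ cnt Q := by
  apply card_le_card
  intro a ha
  rw [mem_evs] at ha ⊢
  exact h a ha

theorem cnt_or {α : Type*} [Fintype α] (P Q : α → Prop) :
    cnt (fun a => P a ∨ Q a) ≤ cnt P + cnt Q := by
  unfold cnt
  refine le_trans (card_le_card ?_) (card_union_le _ _)
  intro a ha
  rw [mem_evs] at ha
  rw [mem_union, mem_evs, mem_evs]
  exact ha

theorem cnt_exists {α : Type*} [Fintype α] (P : ℕ → α → Prop) (I : Finset ℕ) :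
    cnt (fun a => ∃ i ∈ I, P i a) ≤ ∑ i ∈ I, cnt (P i) := by
  unfold cnt
  refine le_trans (card_le_card ?_) card_biUnion_le
  intro a ha
  rw [mem_evs] at ha
  obtain ⟨i, hi, h⟩ := ha
  exact mem_biUnion.2 ⟨i, hi, mem_evs.2 h⟩

theorem cnt_add_not {α : Type*} [Fintype α] (P : α → Prop) :
    cnt P + cnt (fun a => ¬ P a) = Fintype.card α := by
  unfold cnt
  have h1 : evs (fun a => ¬ P a) = (evs P)ᶜ := by
    ext a
    rw [mem_compl, mem_evs, mem_evs]
  rw [h1, card_add_card_compl]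

theorem cnt_eq_natCard {α : Type*} [Fintype α] (P : α → Prop) :
    Nat.card {a // P a} = cnt P := by
  rw [Nat.card_eq_fintype_card, Fintype.card_subtype]
  unfold cnt evs
  congr

theorem exists_compl [Fintype V] (σ τ : Equiv.Perm V) (S : Finset V) :
    ∃ T : Finset V, S.card + T.card = Fintype.card V ∧
      EE σ τ S + 4 * T.card = 2 * Fintype.card V + EE σ τ T :=
  ⟨Sᶜ, card_add_card_compl S, EE_compl σ τ S⟩

/-- no loops: an independent set spans no arcs -/
theorem EE_eq_zero {σ τ : Equiv.Perm V} (hσ : ∀ v, σ v ≠ v) (hτ : ∀ v, τ v ≠ v) {S : Finset V}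
    (h : ∀ u ∈ S, ∀ v ∈ S, ¬ (pGraph σ τ).Adj u v) : EE σ τ S = 0 := by
  unfold EE E1
  rw [filter_false_of_mem, filter_false_of_mem]
  · rfl
  · intro v hv hc
    exact h v hv _ hc ⟨(hτ v).symm, Or.inr (Or.inr (Or.inl rfl))⟩
  · intro v hv hc
    exact h v hv _ hc ⟨(hσ v).symm, Or.inl rfl⟩

/-- a family of edges with all ends in `S` -/
theorem card_edges_le {σ τ : Equiv.Perm V} {S : Finset V} {A : Finset (Sym2 V)}
    (hA : ∀ e ∈ A, e ∈ (pGraph σ τ).edgeSet ∧ ∀ v ∈ e, v ∈ S) : A.card ≤ EE σ τ S := by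
  have hsub : A ⊆ (S.filter (fun v => σ v ∈ S)).image (fun v => s(v, σ v)) ∪
      (S.filter (fun v => τ v ∈ S)).image (fun v => s(v, τ v)) := by
    intro e he
    obtain ⟨h1, h2⟩ := hA e he
    induction e using Sym2.ind with
    | _ x y =>
      have hx : x ∈ S := h2 x (Sym2.mem_mk_left x y)
      have hy : y ∈ S := h2 y (Sym2.mem_mk_right x y)
      rw [SimpleGraph.mem_edgeSet] at h1
      obtain ⟨-, h1⟩ := h1
      rw [mem_union, mem_image, mem_image]
      rcases h1 with h | h | h | h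
      · exact Or.inl ⟨x, mem_filter.2 ⟨hx, by rw [h]; exact hy⟩, by rw [h]⟩
      · exact Or.inl ⟨y, mem_filter.2 ⟨hy, by rw [h]; exact hx⟩, by rw [h, Sym2.eq_swap]⟩
      · exact Or.inr ⟨x, mem_filter.2 ⟨hx, by rw [h]; exact hy⟩, by rw [h]⟩
      · exact Or.inr ⟨y, mem_filter.2 ⟨hy, by rw [h]; exact hx⟩, by rw [h, Sym2.eq_swap]⟩
  refine (card_le_card hsub).trans ((card_union_le _ _).trans ?_)
  exact add_le_add card_image_le card_image_le

end Run7.h216
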