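import Pool.Agent.Run7.h216.Basic

set_option autoImplicit false

/-!
# Colouring from an orientation and order-reversing lists
-/

open Finset Classical

namespace Run7.h216

/-- Orientation with out-degrees below the list sizes, and an order of each list such that the
common colours of adjacent vertices appear in opposite orders. -/
theorem mono_color {V : Type} [Fintype V] (D : V → V → Prop) (hirr : ∀ v, ¬ D v v)
    (L : V → Finset ℕ) (r : V → ℕ → ℕ)
    (hinj : ∀ v, ∀ a ∈ L v, ∀ b ∈ L v, r v a = r v b → a = b)
    (hout : ∀ v, (univ.filter (fun w => D v w)).card < (L v).card)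
    (hrev : ∀ v w, D v w → ∀ a b, a ∈ L v → a ∈ L w → b ∈ L v → b ∈ L w →
      r v a < r v b → r w b < r w a) :
    ∃ x : V → ℕ, (∀ v, x v ∈ L v) ∧ ∀ v w, D v w → x v ≠ x w := by
  -- the invariant
  set low : (V → ℕ) → V → Finset ℕ := fun x v => (L v).filter (fun a => r v a < r v (x v))
    with hlow
  set Inv : (V → ℕ) → Prop := fun x => (∀ v, x v ∈ L v) ∧ ∀ v, ∃ W : ℕ → V,
    (∀ a ∈ low x v, D v (W a) ∧ a ∈ L (W a) ∧ r (W a) a ≤ r (W a) (x (W a))) ∧
    Set.InjOn W (low x v) with hInv
  -- start
  have hne : ∀ v, (L v).Nonempty := fun v => card_pos.1 (lt_of_le_of_lt (Nat.zero_le _) (hout v))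
  have hstart : ∃ x, Inv x := by
    have h1 : ∀ v, ∃ a ∈ L v, ∀ b ∈ L v, r v a ≤ r v b := fun v =>
      exists_min_image (L v) (r v) (hne v)
    choose x hx1 hx2 using h1
    refine ⟨x, hx1, fun v => ⟨fun _ => v, ?_, ?_⟩⟩
    · intro a ha
      simp only [hlow, mem_filter] at ha
      exact absurd ha.2 (not_lt.2 (hx2 v a ha.1))
    · intro a ha b hb _
      rw [mem_coe] at ha
      simp only [hlow, mem_filter] at ha
      exact absurd ha.2 (not_lt.2 (hx2 v a ha.1))
  -- potential
  set Φ : (V → ℕ) → ℕ := fun x => ∑ v, (low x v).card with hΦ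
  have hbound : ∀ x, Φ x ≤ ∑ v, (L v).card :=
    fun x => sum_le_sum (fun v _ => card_le_card (filter_subset _ _))
  obtain ⟨x, hx, hmax⟩ : ∃ x, Inv x ∧ ∀ y, Inv y → Φ y ≤ Φ x := by
    set P : ℕ → Prop := fun k => ∃ x, Inv x ∧ ∑ v, (L v).card - Φ x = k with hP
    have hex : ∃ k, P k := by
      obtain ⟨x, hx⟩ := hstart
      exact ⟨_, x, hx, rfl⟩
    obtain ⟨x, hx, hk⟩ := Nat.find_spec hex
    refine ⟨x, hx, ?_⟩
    intro y hy
    by_contra hcon
    push Not at hcon
    have h1 := hbound x
    have h2 := hbound y
    apply Nat.find_min hex (m := ∑ v, (L v).card - Φ y) (by omega)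
    exact ⟨y, hy, rfl⟩
  refine ⟨x, hx.1, ?_⟩
  intro v w hD hxe
  have hvw : v ≠ w := by
    rintro rfl
    exact hirr v hD
  obtain ⟨W, hW1, hW2⟩ := hx.2 v
  have hwim : ∀ a ∈ low x v, W a ≠ w := by
    intro a ha hWa
    have h1 := hW1 a ha
    rw [hWa] at h1
    have ha' := ha
    simp only [hlow, mem_filter] at ha'
    have h2 := hrev v w hD a (x v) ha'.1 h1.2.1 (hx.1 v) (by rw [hxe]; exact hx.1 w) ha'.2
    rw [hxe] at h2
    have := h1.2.2
    omega
  -- room above
  have hcard : (low x v).card + 1 ≤ (univ.filter (fun w => D v w)).card := by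
    have h1 : (insert w ((low x v).image W)).card ≤ (univ.filter (fun w => D v w)).card := by
      apply card_le_card
      intro y hy
      rw [mem_filter]
      refine ⟨mem_univ _, ?_⟩
      rcases mem_insert.1 hy with rfl | hy
      · exact hD
      · obtain ⟨a, ha, rfl⟩ := mem_image.1 hy
        exact (hW1 a ha).1
    rw [card_insert_of_notMem, card_image_of_injOn hW2] at h1
    · exact h1
    · intro hc
      obtain ⟨a, ha, hWa⟩ := mem_image.1 hc
      exact hwim a ha hWa
  have habove : ((L v).filter (fun b => r v (x v) < r v b)).Nonempty := by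
    rw [← card_pos]
    by_contra hcon
    push Not at hcon
    have h0 : ((L v).filter (fun b => r v (x v) < r v b)) = ∅ := card_eq_zero.1 (by omega)
    have hsub : L v ⊆ insert (x v) (low x v) := by
      intro b hb
      rw [mem_insert]
      by_cases hbx : b = x v
      · exact Or.inl hbx
      · right
        simp only [hlow, mem_filter]
        refine ⟨hb, ?_⟩
        have h2 : ¬ r v (x v) < r v b := by
          intro hlt
          have : b ∈ ((L v).filter (fun b => r v (x v) < r v b)) := mem_filter.2 ⟨hb, hlt⟩
          rw [h0] at this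
          exact absurd this (notMem_empty _)
        have h3 : r v b ≠ r v (x v) := fun he => hbx (hinj v b hb (x v) (hx.1 v) he)
        omega
    have h1 := (card_le_card hsub).trans (card_insert_le _ _)
    have := hout v
    omega
  obtain ⟨b, hb1, hb2⟩ := exists_min_image _ (r v) habove
  rw [mem_filter] at hb1
  set y : V → ℕ := Function.update x v b with hy
  have hyv : y v = b := by simp [hy]
  have hyo : ∀ u, u ≠ v → y u = x u := by
    intro u hu
    simp [hy, hu]
  have hge : ∀ u, r u (x u) ≤ r u (y u) := by
    intro u
    by_cases hu : u = v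
    · rw [hu, hyv]
      exact hb1.2.le
    · rw [hyo u hu]
  have hlowv : low y v = insert (x v) (low x v) := by
    ext a
    simp only [hlow, mem_filter, mem_insert]
    rw [hyv]
    constructor
    · rintro ⟨h1, h2⟩
      by_cases hax : a = x v
      · exact Or.inl hax
      · refine Or.inr ⟨h1, ?_⟩
        by_contra hcon
        have h3 : r v a ≠ r v (x v) := fun he => hax (hinj v a h1 (x v) (hx.1 v) he)
        have h4 : r v (x v) < r v a := by omega
        have := hb2 a (mem_filter.2 ⟨h1, h4⟩)
        omega
    · rintro (rfl | ⟨h1, h2⟩)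
      · exact ⟨hx.1 v, hb1.2⟩
      · exact ⟨h1, by have := hb1.2; omega⟩
  have hlowo : ∀ u, u ≠ v → low y u = low x u := by
    intro u hu
    simp only [hlow]
    rw [hyo u hu]
  have hnot : x v ∉ low x v := by
    simp [hlow]
  have hInvy : Inv y := by
    refine ⟨?_, ?_⟩
    · intro u
      by_cases hu : u = v
      · rw [hu, hyv]
        exact hb1.1
      · rw [hyo u hu]
        exact hx.1 u
    · intro u
      by_cases hu : u = v
      · subst hu
        refine ⟨fun a => if a = x u then w else W a, ?_, ?_⟩
        · intro a ha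
          rw [hlowv, mem_insert] at ha
          by_cases hax : a = x u
          · simp only [hax, if_true]
            refine ⟨hD, ?_, ?_⟩
            · rw [hxe]
              exact hx.1 w
            · rw [hxe]
              exact hge w
          · simp only [hax, if_false]
            have ha' : a ∈ low x u := ha.resolve_left hax
            have h1 := hW1 a ha'
            exact ⟨h1.1, h1.2.1, h1.2.2.trans (hge _)⟩
        · intro a ha a' ha' he
          rw [mem_coe, hlowv, mem_insert] at ha ha'
          simp only at he
          by_cases hax : a = x u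
          · by_cases hax' : a' = x u
            · rw [hax, hax']
            · rw [if_pos hax, if_neg hax'] at he
              exact absurd he.symm (hwim a' (ha'.resolve_left hax'))
          · by_cases hax' : a' = x u
            · rw [if_neg hax, if_pos hax'] at he
              exact absurd he (hwim a (ha.resolve_left hax))
            · rw [if_neg hax, if_neg hax'] at he
              exact hW2 (ha.resolve_left hax) (ha'.resolve_left hax') he
      · obtain ⟨W', h1, h2⟩ := hx.2 u
        refine ⟨W', ?_, ?_⟩
        · rw [hlowo u hu]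
          intro a ha
          exact ⟨(h1 a ha).1, (h1 a ha).2.1, (h1 a ha).2.2.trans (hge _)⟩
        · rw [hlowo u hu]
          exact h2
  have hlt : Φ x < Φ y := by
    apply sum_lt_sum
    · intro u _
      by_cases hu : u = v
      · rw [hu, hlowv, card_insert_of_notMem hnot]
        omega
      · rw [hlowo u hu]
    · refine ⟨v, mem_univ _, ?_⟩
      rw [hlowv, card_insert_of_notMem hnot]
      omega
  have := hmax y hInvy
  omega

/-- Sign systems on forests: constraints along the edges of a forest can be solved. -/
theorem forest_solve {N : Type} [Fintype N] (Λ : SimpleGraph N) (c : N → N → Bool)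
    (hc : ∀ a b, c a b = c b a) (A : Finset N)
    (hA : ∀ C : Finset N, C ⊆ A → C.Nonempty → ∃ a ∈ C, (nbIn Λ C a).card ≤ 1) :
    ∃ s : N → Bool, ∀ a ∈ A, ∀ b ∈ A, Λ.Adj a b → s a = (s b ^^ c a b) := by
  induction A using Finset.strongInduction with
  | _ A ih =>
    rcases A.eq_empty_or_nonempty with h0 | hne
    · subst h0
      exact ⟨fun _ => true, by simp⟩
    obtain ⟨a, ha, hle⟩ := hA A (Subset.refl _) hne
    obtain ⟨s, hs⟩ := ih (A.erase a) (erase_ssubset ha)
      (fun C hC => hA C (hC.trans (erase_subset _ _)))
    by_cases hnb : ∃ b ∈ A, Λ.Adj a b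
    · obtain ⟨b, hb, hab⟩ := hnb
      have huniq : ∀ b' ∈ A, Λ.Adj a b' → b' = b := by
        intro b' hb' hab'
        rw [card_le_one] at hle
        exact hle b' (mem_nbIn.2 ⟨hb', hab'⟩) b (mem_nbIn.2 ⟨hb, hab⟩)
      refine ⟨Function.update s a (s b ^^ c a b), ?_⟩
      intro x hx y hy hxy
      by_cases hxa : x = a
      · have hya : y ≠ a := by
          rintro rfl
          exact hxy.ne hxa
        subst hxa
        have hyb := huniq y hy hxy
        subst hyb
        rw [Function.update_self, Function.update_of_ne hya]
      · by_cases hya : y = a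
        · subst hya
          have hxb := huniq x hx hxy.symm
          subst hxb
          rw [Function.update_self, Function.update_of_ne hxa, hc y x]
          cases s x <;> cases c x y <;> rfl
        · rw [Function.update_of_ne hxa, Function.update_of_ne hya]
          exact hs x (mem_erase.2 ⟨hxa, hx⟩) y (mem_erase.2 ⟨hya, hy⟩) hxy
    · push Not at hnb
      refine ⟨s, ?_⟩
      intro x hx y hy hxy
      by_cases hxa : x = a
      · rw [hxa] at hxy
        exact absurd hxy (hnb y hy)
      · by_cases hya : y = a
        · rw [hya] at hxy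
          exact absurd hxy.symm (hnb x hx)
        · exact hs x (mem_erase.2 ⟨hxa, hx⟩) y (mem_erase.2 ⟨hya, hy⟩) hxy

end Run7.h216
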