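import Pool.Agent.Run7.h216.Link
import Pool.Agent.Run7.h216.Mono

set_option autoImplicit false

/-!
# Modes of the vertices, orders of the lists, the link graph
-/

open Finset Classical

namespace Run7.h216

/-- common colours of `v` and `w` -/
noncomputable def shr {V : Type} (L : V → Finset ℕ) (v w : V) : Finset ℕ := L v ∩ L w

theorem mem_shr {V : Type} {L : V → Finset ℕ} {v w : V} {a : ℕ} :
    a ∈ shr L v w ↔ a ∈ L v ∧ a ∈ L w := by
  simp [shr]

theorem shr_comm {V : Type} (L : V → Finset ℕ) (v w : V) : shr L v w = shr L w v :=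
  inter_comm _ _

/-- node of `v` used by the edge `vw` -/
noncomputable def nd {V : Type} (L : V → Finset ℕ) (md : V → Option ℕ) (v w : V) : Bool :=
  decide (∃ z, md v = some z ∧ z ∈ L w)

/-- the link graph -/
def linkG {V : Type} (H : SimpleGraph V) (L : V → Finset ℕ) (md : V → Option ℕ) :
    SimpleGraph (V × Bool) where
  Adj a b := H.Adj a.1 b.1 ∧ 2 ≤ (shr L a.1 b.1).card ∧ a.2 = nd L md a.1 b.1 ∧
    b.2 = nd L md b.1 a.1
  symm := by
    constructor
    rintro a b ⟨h1, h2, h3, h4⟩
    exact ⟨h1.symm, by rw [shr_comm]; exact h2, h4, h3⟩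
  loopless := by
    constructor
    rintro a ⟨h1, -⟩
    exact h1.ne rfl

theorem lift_linkG {V : Type} {G H : SimpleGraph V} (hle : H ≤ G) (L : V → Finset ℕ)
    (md : V → Option ℕ) : Lift G (linkG H L md) where
  proj a b h := hle h.1
  uniq := by
    rintro ⟨v, i⟩ ⟨w, j⟩ ⟨v', i'⟩ ⟨w', j'⟩ ⟨-, -, h1, h2⟩ ⟨-, -, h3, h4⟩ e1 e2
    simp only at h1 h2 h3 h4 e1 e2
    subst e1 e2
    rw [h1, h2, h3, h4]
    exact ⟨rfl, rfl⟩

/-- neighbours of `v` sharing at least two colours with `v`, by the node used -/
noncomputable def lnk {V : Type} [Fintype V] (H : SimpleGraph V) (L : V → Finset ℕ) (v : V) :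
    Finset V := univ.filter (fun u => H.Adj v u ∧ 2 ≤ (shr L v u).card)

theorem mem_lnk {V : Type} [Fintype V] {H : SimpleGraph V} {L : V → Finset ℕ} {v u : V} :
    u ∈ lnk H L v ↔ H.Adj v u ∧ 2 ≤ (shr L v u).card := by
  simp [lnk]

theorem lnk_card_le {V : Type} [Fintype V] {G H : SimpleGraph V} (hle : H ≤ G)
    (hdeg : ∀ v, (nb G v).card ≤ 4) (L : V → Finset ℕ) (v : V) : (lnk H L v).card ≤ 4 := by
  refine le_trans (card_le_card ?_) (hdeg v)
  intro u hu
  exact mem_nb.2 (hle (mem_lnk.1 hu).1)

/-- degree of a node -/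
theorem node_degree {V : Type} [Fintype V] {H : SimpleGraph V} {L : V → Finset ℕ}
    {md : V → Option ℕ} (J : Finset (V × Bool)) (a : V × Bool) :
    (nbIn (linkG H L md) J a).card ≤
      ((lnk H L a.1).filter (fun u => nd L md a.1 u = a.2)).card := by
  apply card_le_card_of_injOn Prod.fst
  · intro b hb
    rw [mem_coe, mem_nbIn] at hb
    rw [mem_coe, mem_filter, mem_lnk]
    exact ⟨⟨hb.2.1, hb.2.2.1⟩, hb.2.2.2.1.symm⟩
  · intro b hb b' hb' he
    rw [mem_coe, mem_nbIn] at hb hb'
    have h1 := hb.2.2.2.2
    have h2 := hb'.2.2.2.2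
    rw [← he] at h2
    exact Prod.ext he (h1.trans h2.symm)

/-- good vertices -/
def GoodV {V : Type} [Fintype V] (H : SimpleGraph V) (L : V → Finset ℕ) (v : V) : Prop :=
  (lnk H L v).card ≤ 2 ∨ ((∀ u, H.Adj v u → (shr L v u).card ≤ 2) ∧
    ∀ a ∈ L v, ∀ b ∈ L v, a ≠ b →
      (univ.filter (fun u => H.Adj v u ∧ a ∈ L u ∧ b ∈ L u)).card ≤ 2)

/-- the mode of a good vertex -/
theorem exists_mode {V : Type} [Fintype V] {H : SimpleGraph V} {L : V → Finset ℕ} {v : V}
    (hL : (L v).card = 3) (h4 : (lnk H L v).card ≤ 4) (h : GoodV H L v) :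
    ∃ m : Option ℕ, (∀ z, m = some z → z ∈ L v ∧ ∀ u, H.Adj v u → (shr L v u).card ≤ 2) ∧
      ∀ i : Bool, ((lnk H L v).filter
        (fun u => decide (∃ z, m = some z ∧ z ∈ L u) = i)).card ≤ 2 := by
  rcases h with h | ⟨h1, h2⟩
  · exact ⟨none, fun z hz => absurd hz (by simp), fun i => (card_le_card (filter_subset _ _)).trans h⟩
  · set n : ℕ → ℕ := fun z => ((lnk H L v).filter (fun u => z ∉ L u)).card with hn
    -- the choice of `z`
    obtain ⟨z, hz, hmax⟩ := exists_max_image (L v) n (card_pos.1 (by omega))
    have hpair : ∀ z ∈ L v, n z ≤ 2 := by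
      intro z hz
      have hc : ((L v).erase z).card = 2 := by
        rw [card_erase_of_mem hz, hL]
      obtain ⟨a, b, hab, he⟩ := card_eq_two.1 hc
      have ha : a ∈ (L v).erase z := by rw [he]; simp
      have hb : b ∈ (L v).erase z := by rw [he]; simp
      refine le_trans (card_le_card ?_) (h2 a (mem_of_mem_erase ha) b (mem_of_mem_erase hb) hab)
      intro u hu
      rw [mem_filter, mem_lnk] at hu
      obtain ⟨⟨hu1, hu2⟩, hu3⟩ := hu
      have hsub : shr L v u ⊆ {a, b} := by
        intro x hx
        rw [mem_shr] at hx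
        rw [← he, mem_erase]
        refine ⟨?_, hx.1⟩
        rintro rfl
        exact hu3 hx.2
      have heq : shr L v u = {a, b} := by
        apply eq_of_subset_of_card_le hsub
        rw [card_pair hab]
        exact hu2
      refine mem_filter.2 ⟨mem_univ _, hu1, ?_, ?_⟩
      · have : a ∈ shr L v u := by rw [heq]; simp
        exact (mem_shr.1 this).2
      · have : b ∈ shr L v u := by rw [heq]; simp
        exact (mem_shr.1 this).2
    -- the missing colour is unique
    have huniq : ∀ u ∈ lnk H L v, ∀ x ∈ L v, ∀ y ∈ L v, x ∉ L u → y ∉ L u → x = y := by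
      intro u hu x hx y hy hxu hyu
      by_contra hxy
      have hsub : shr L v u ⊆ ((L v).erase x).erase y := by
        intro a ha
        rw [mem_shr] at ha
        rw [mem_erase, mem_erase]
        refine ⟨?_, ?_, ha.1⟩
        · rintro rfl
          exact hyu ha.2
        · rintro rfl
          exact hxu ha.2
      have h5 := card_le_card hsub
      rw [card_erase_of_mem (mem_erase.2 ⟨Ne.symm hxy, hy⟩), card_erase_of_mem hx, hL] at h5
      have := (mem_lnk.1 hu).2
      omega
    have hsum : ∑ x ∈ L v, n x ≤ 4 := by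
      refine le_trans ?_ h4
      rw [hn]
      simp only
      rw [← card_biUnion]
      · apply card_le_card
        intro u hu
        rw [mem_biUnion] at hu
        obtain ⟨x, -, hu⟩ := hu
        exact (mem_filter.1 hu).1
      · intro x hx y hy hxy
        rw [Function.onFun, disjoint_left]
        intro u hu hu'
        rw [mem_filter] at hu hu'
        exact hxy (huniq u hu.1 x hx y hy hu.2 hu'.2)
    have hother : ((lnk H L v).filter (fun u => z ∈ L u)).card ≤ ∑ x ∈ (L v).erase z, n x := by
      refine le_trans (card_le_card ?_) (card_biUnion_le (s := (L v).erase z)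
        (t := fun x => (lnk H L v).filter (fun u => x ∉ L u)))
      intro u hu
      rw [mem_filter] at hu
      have hex : ∃ x ∈ L v, x ∉ L u := by
        by_contra hcon
        push Not at hcon
        have h5 : L v ⊆ shr L v u := fun x hx => mem_shr.2 ⟨hx, hcon x hx⟩
        have h6 := card_le_card h5
        have h7 := h1 u (mem_lnk.1 hu.1).1
        omega
      obtain ⟨x, hx, hxu⟩ := hex
      rw [mem_biUnion]
      refine ⟨x, mem_erase.2 ⟨?_, hx⟩, mem_filter.2 ⟨hu.1, hxu⟩⟩
      rintro rfl
      exact hxu hu.2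
    have hz2 : ∑ x ∈ (L v).erase z, n x ≤ 2 := by
      have h5 := sum_erase_add (L v) n hz
      have hc : ((L v).erase z).card = 2 := by
        rw [card_erase_of_mem hz, hL]
      obtain ⟨a, b, hab, he⟩ := card_eq_two.1 hc
      have ha : a ∈ L v := mem_of_mem_erase (by rw [he]; simp : a ∈ (L v).erase z)
      have hb : b ∈ L v := mem_of_mem_erase (by rw [he]; simp : b ∈ (L v).erase z)
      have h6 := hmax a ha
      have h7 := hmax b hb
      rw [he, sum_pair hab] at h5 ⊢
      have h8 := hpair z hz
      omega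
    refine ⟨some z, ?_, ?_⟩
    · intro z' hz'
      rw [Option.some.injEq] at hz'
      rw [← hz']
      exact ⟨hz, h1⟩
    · intro i
      cases i
      · refine le_trans (card_le_card ?_) (hpair z hz)
        intro u hu
        rw [mem_filter] at hu ⊢
        refine ⟨hu.1, fun hc => ?_⟩
        have := hu.2
        rw [decide_eq_false_iff_not] at this
        exact this ⟨z, rfl, hc⟩
      · refine le_trans (card_le_card ?_) (hother.trans hz2)
        intro u hu
        rw [mem_filter] at hu ⊢
        refine ⟨hu.1, ?_⟩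
        have := hu.2
        rw [decide_eq_true_eq] at this
        obtain ⟨z', h5, h6⟩ := this
        rw [Option.some.injEq] at h5
        rwa [h5]

/-- a good vertex has a colour in the lists of at most two neighbours -/
theorem exists_rare {V : Type} [Fintype V] {G H : SimpleGraph V} (hle : H ≤ G)
    (hdeg : ∀ v, (nb G v).card ≤ 4) {L : V → Finset ℕ} {v : V}
    (hL : (L v).card = 3) (h : GoodV H L v) :
    ∃ x ∈ L v, (univ.filter (fun u => H.Adj v u ∧ x ∈ L u)).card ≤ 2 := by
  by_contra hcon
  push Not at hcon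
  set N : Finset V := univ.filter (fun u => H.Adj v u) with hN
  have hN4 : N.card ≤ 4 := by
    refine le_trans (card_le_card ?_) (hdeg v)
    intro u hu
    exact mem_nb.2 (hle (mem_filter.1 hu).2)
  have e1 : 9 ≤ ∑ x ∈ L v, (univ.filter (fun u => H.Adj v u ∧ x ∈ L u)).card := by
    calc 9 = ∑ _x ∈ L v, 3 := by rw [sum_const, hL, smul_eq_mul]
      _ ≤ _ := sum_le_sum (fun x hx => hcon x hx)
  have e2 : ∑ x ∈ L v, (univ.filter (fun u => H.Adj v u ∧ x ∈ L u)).card =
      ∑ u ∈ N, (shr L v u).card := by
    have e3 : ∀ x, (univ.filter (fun u => H.Adj v u ∧ x ∈ L u)).card =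
        ∑ u ∈ N, if x ∈ L u then 1 else 0 := by
      intro x
      rw [← card_filter, hN, filter_filter]
    have e4 : ∀ u, (shr L v u).card = ∑ x ∈ L v, if x ∈ L u then 1 else 0 := by
      intro u
      rw [← card_filter]
      congr 1
    simp only [e3, e4]
    rw [sum_comm]
  rw [e2] at e1
  rcases h with h | ⟨h1, -⟩
  · have e5 : ∑ u ∈ N, (shr L v u).card ≤ ∑ u ∈ N, (1 + if 2 ≤ (shr L v u).card then 2 else 0) := by
      apply sum_le_sum
      intro u _
      have : (shr L v u).card ≤ 3 := by
        rw [← hL]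
        exact card_le_card inter_subset_left
      split_ifs <;> omega
    have e6 : ∑ u ∈ N, (1 + if 2 ≤ (shr L v u).card then 2 else 0) =
        N.card + 2 * (N.filter (fun u => 2 ≤ (shr L v u).card)).card := by
      have e8 : (N.filter (fun u => 2 ≤ (shr L v u).card)).card =
          ∑ u ∈ N, if 2 ≤ (shr L v u).card then 1 else 0 := card_filter _ _
      rw [sum_add_distrib, e8, mul_sum]
      congr 1
      · simp
      · apply sum_congr rfl
        intro u _
        split_ifs <;> rfl
    have e7 : (N.filter (fun u => 2 ≤ (shr L v u).card)) = lnk H L v := by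
      rw [hN, filter_filter]
      rfl
    rw [e7] at e6
    omega
  · have e5 : ∑ u ∈ N, (shr L v u).card ≤ ∑ _u ∈ N, 2 :=
      sum_le_sum (fun u hu => h1 u (mem_filter.1 hu).2)
    rw [sum_const, smul_eq_mul] at e5
    omega

/-- the order of the list of `v`, from its mode and two bits -/
noncomputable def ordr (N₀ : ℕ) (m : Option ℕ) (s : Bool → Bool) (a : ℕ) : ℕ :=
  if m = some a then (if s true then 0 else N₀ + 2) else (if s false then a + 1 else N₀ - a + 1)

theorem ordr_inj {N₀ : ℕ} {m : Option ℕ} {s : Bool → Bool} {a b : ℕ} (ha : a < N₀) (hb : b < N₀)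
    (h : ordr N₀ m s a = ordr N₀ m s b) : a = b := by
  unfold ordr at h
  by_cases h1 : m = some a
  · by_cases h2 : m = some b
    · rw [h1] at h2
      exact Option.some.inj h2
    · rw [if_pos h1, if_neg h2] at h
      split_ifs at h <;> omega
  · by_cases h2 : m = some b
    · rw [if_neg h1, if_pos h2] at h
      split_ifs at h <;> omega
    · rw [if_neg h1, if_neg h2] at h
      split_ifs at h <;> omega

/-- correction of the sign -/
noncomputable def kap {V : Type} (L : V → Finset ℕ) (md : V → Option ℕ) (v w : V) : Bool :=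
  decide (∃ z, md v = some z ∧ z ∈ L w ∧ ∀ x ∈ shr L v w, x ≤ z)

theorem ordr_lt_iff {V : Type} {L : V → Finset ℕ} {md : V → Option ℕ} {N₀ : ℕ} {v w : V}
    (hmd : ∀ z, md v = some z → z ∈ L v ∧ (shr L v w).card ≤ 2)
    (s : Bool → Bool) {a b : ℕ} (hab : a < b) (hb : b < N₀) (ha' : a ∈ shr L v w)
    (hb' : b ∈ shr L v w) :
    ordr N₀ (md v) s a < ordr N₀ (md v) s b ↔ (s (nd L md v w) ^^ kap L md v w) = true := by
  by_cases hz : ∃ z, md v = some z ∧ z ∈ L w
  · obtain ⟨z, hz1, hz2⟩ := hz
    obtain ⟨hzv, hc⟩ := hmd z hz1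
    have hnd : nd L md v w = true := by
      unfold nd
      rw [decide_eq_true_eq]
      exact ⟨z, hz1, hz2⟩
    have heq : ({a, b} : Finset ℕ) = shr L v w := by
      apply eq_of_subset_of_card_le
      · intro x hx
        rw [mem_insert, mem_singleton] at hx
        rcases hx with rfl | rfl
        · exact ha'
        · exact hb'
      · rw [card_pair hab.ne]
        exact hc
    have hzz : z = a ∨ z = b := by
      have : z ∈ shr L v w := mem_shr.2 ⟨hzv, hz2⟩
      rw [← heq, mem_insert, mem_singleton] at this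
      exact this
    rw [hnd]
    rcases hzz with rfl | rfl
    · have hk : kap L md v w = false := by
        unfold kap
        rw [decide_eq_false_iff_not]
        rintro ⟨z', h1, -, h3⟩
        rw [hz1, Option.some.injEq] at h1
        subst h1
        have := h3 b hb'
        omega
      have hne : md v ≠ some b := by
        rw [hz1]
        simp only [ne_eq, Option.some.injEq]
        omega
      rw [hk]
      unfold ordr
      rw [if_pos hz1, if_neg hne]
      cases s true <;> cases s false <;> simp <;> omega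
    · have hk : kap L md v w = true := by
        unfold kap
        rw [decide_eq_true_eq]
        refine ⟨z, hz1, hz2, ?_⟩
        intro x hx
        rw [← heq, mem_insert, mem_singleton] at hx
        rcases hx with rfl | rfl
        · exact hab.le
        · exact le_refl _
      have hne : md v ≠ some a := by
        rw [hz1]
        simp only [ne_eq, Option.some.injEq]
        omega
      rw [hk]
      unfold ordr
      rw [if_pos hz1, if_neg hne]
      cases s true <;> cases s false <;> simp <;> omega
  · have hnd : nd L md v w = false := by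
      unfold nd
      rw [decide_eq_false_iff_not]
      exact hz
    have hk : kap L md v w = false := by
      unfold kap
      rw [decide_eq_false_iff_not]
      rintro ⟨z, h1, h2, -⟩
      exact hz ⟨z, h1, h2⟩
    have hna : md v ≠ some a := fun hc => hz ⟨a, hc, (mem_shr.1 ha').2⟩
    have hnb : md v ≠ some b := fun hc => hz ⟨b, hc, (mem_shr.1 hb').2⟩
    rw [hnd, hk]
    unfold ordr
    rw [if_neg hna, if_neg hnb]
    cases s false <;> simp <;> omega

end Run7.h216
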