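import Pool.Agent.Run7.h216.Modes

set_option autoImplicit false

/-!
# Orientations of graphs with bounded degrees
-/

open Finset Classical

namespace Run7.h216

/-- A graph whose degrees are at most twice the numbers `b w` has an orientation with out-degrees
at most `b w`. -/
theorem exists_orient {W : Type} [Fintype W] (Γ : SimpleGraph W) (b : W → ℕ)
    (hb : ∀ w, (nb Γ w).card ≤ 2 * b w) :
    ∃ A : W → W → Prop, (∀ u v, A u v → Γ.Adj u v) ∧ (∀ u v, Γ.Adj u v → A u v ∨ A v u) ∧
      (∀ u v, A u v → ¬ A v u) ∧ ∀ v, (univ.filter (fun w => A v w)).card ≤ b v := by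
  set ι := {e : Sym2 W // e ∈ Γ.edgeSet} with hι
  set t : ι → Finset (Σ w : W, Fin (b w)) := fun e => univ.filter (fun q => q.1 ∈ e.1) with ht
  have hall : ∀ A : Finset ι, A.card ≤ (A.biUnion t).card := by
    intro A
    set S : Finset W := univ.filter (fun v => ∃ e ∈ A, v ∈ e.1) with hS
    have h1 : (S.sigma (fun w => (univ : Finset (Fin (b w))))) ⊆ A.biUnion t := by
      rintro ⟨w, i⟩ hq
      rw [mem_sigma] at hq
      obtain ⟨e, he, hwe⟩ := (mem_filter.1 hq.1).2
      exact mem_biUnion.2 ⟨e, he, mem_filter.2 ⟨mem_univ _, hwe⟩⟩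
    have h2 : (S.sigma (fun w => (univ : Finset (Fin (b w))))).card = ∑ w ∈ S, b w := by
      rw [card_sigma]
      apply sum_congr rfl
      intro w _
      rw [card_univ, Fintype.card_fin]
    have h3 : ∑ w ∈ S, (A.filter (fun e => w ∈ e.1)).card ≤ 2 * ∑ w ∈ S, b w := by
      rw [mul_sum]
      apply sum_le_sum
      intro w _
      refine le_trans ?_ (hb w)
      have h4 : ((A.filter (fun e => w ∈ e.1)).image Subtype.val).card =
          (A.filter (fun e => w ∈ e.1)).card := card_image_of_injective _ Subtype.val_injective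
      rw [← h4]
      refine le_trans (card_le_card ?_) (card_image_le (s := nb Γ w) (f := fun y => s(w, y)))
      intro e he
      obtain ⟨e', he', rfl⟩ := mem_image.1 he
      have hw := (mem_filter.1 he').2
      obtain ⟨y, hy⟩ := hw
      rw [mem_image]
      refine ⟨y, ?_, hy.symm⟩
      rw [mem_nb]
      have := e'.2
      rw [hy] at this
      exact this
    have h5 : ∑ w ∈ S, (A.filter (fun e => w ∈ e.1)).card = 2 * A.card := by
      have e1 : ∀ w, (A.filter (fun e => w ∈ e.1)).card = ∑ e ∈ A, if w ∈ e.1 then 1 else 0 :=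
        fun w => card_filter _ _
      simp only [e1]
      rw [sum_comm]
      have e2 : ∀ e ∈ A, ∑ w ∈ S, (if w ∈ e.1 then 1 else 0) = 2 := by
        intro e he
        rw [← card_filter]
        obtain ⟨e, hadj⟩ := e
        induction e using Sym2.ind with
        | _ x y =>
          have hxy : x ≠ y := by
            rw [SimpleGraph.mem_edgeSet] at hadj
            exact hadj.ne
          have e3 : S.filter (fun w => w ∈ s(x, y)) = {x, y} := by
            ext w
            rw [mem_filter, mem_insert, mem_singleton, Sym2.mem_iff]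
            constructor
            · exact fun h => h.2
            · intro h
              refine ⟨mem_filter.2 ⟨mem_univ _, _, he, ?_⟩, h⟩
              simp only
              rw [Sym2.mem_iff]
              exact h
          rw [e3, card_pair hxy]
      rw [sum_congr rfl e2, sum_const, smul_eq_mul, mul_comm]
    have h6 := card_le_card h1
    omega
  obtain ⟨f, hf1, hf2⟩ := (Finset.all_card_le_biUnion_card_iff_exists_injective t).1 hall
  obtain ⟨A, hA⟩ : ∃ A : W → W → Prop, ∀ v w, A v w ↔
      ∃ h : s(v, w) ∈ Γ.edgeSet, (f ⟨s(v, w), h⟩).1 = v := ⟨_, fun _ _ => Iff.rfl⟩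
  refine ⟨A, ?_, ?_, ?_, ?_⟩
  · intro u v h
    obtain ⟨h, -⟩ := (hA u v).1 h
    exact h
  · intro u v hadj
    have hh : s(u, v) ∈ Γ.edgeSet := hadj
    have hmem := (mem_filter.1 (hf2 ⟨s(u, v), hh⟩)).2
    simp only [Sym2.mem_iff] at hmem
    rcases hmem with h | h
    · exact Or.inl ((hA u v).2 ⟨hh, h⟩)
    · right
      have hsw : s(v, u) = s(u, v) := Sym2.eq_swap
      refine (hA v u).2 ⟨by rw [hsw]; exact hh, ?_⟩
      have : (⟨s(v, u), by rw [hsw]; exact hh⟩ : ι) = ⟨s(u, v), hh⟩ := Subtype.ext hsw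
      rw [this]
      exact h
  · intro u v huv hvu
    obtain ⟨h, h'⟩ := (hA u v).1 huv
    obtain ⟨k, k'⟩ := (hA v u).1 hvu
    have hsw : s(v, u) = s(u, v) := Sym2.eq_swap
    have : (⟨s(v, u), k⟩ : ι) = ⟨s(u, v), h⟩ := Subtype.ext hsw
    rw [this] at k'
    have huv : u = v := h'.symm.trans k'
    have hadj : Γ.Adj u v := h
    exact hadj.ne huv
  · intro v
    have h1 : (univ.filter (fun q : (Σ w : W, Fin (b w)) => q.1 = v)).card ≤ b v := by
      have h2 : univ.filter (fun q : (Σ w : W, Fin (b w)) => q.1 = v) ⊆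
          ({v} : Finset W).sigma (fun w => (univ : Finset (Fin (b w)))) := by
        rintro ⟨w, i⟩ hq
        have := (mem_filter.1 hq).2
        rw [mem_sigma]
        exact ⟨mem_singleton.2 this, mem_univ _⟩
      refine (card_le_card h2).trans ?_
      rw [card_sigma, sum_singleton, card_univ, Fintype.card_fin]
    refine le_trans ?_ h1
    set g : (Σ w : W, Fin (b w)) → W := fun q =>
      if ex : ∃ w, ∃ hh : s(v, w) ∈ Γ.edgeSet, f ⟨s(v, w), hh⟩ = q then ex.choose else v with hg
    refine le_trans (card_le_card ?_) (card_image_le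
      (s := univ.filter (fun q : (Σ w : W, Fin (b w)) => q.1 = v)) (f := g))
    intro w hw
    obtain ⟨hh, h2⟩ := (hA v w).1 (mem_filter.1 hw).2
    rw [mem_image]
    refine ⟨f ⟨s(v, w), hh⟩, mem_filter.2 ⟨mem_univ _, h2⟩, ?_⟩
    have ex : ∃ w', ∃ hh' : s(v, w') ∈ Γ.edgeSet, f ⟨s(v, w'), hh'⟩ = f ⟨s(v, w), hh⟩ :=
      ⟨w, hh, rfl⟩
    have h3 : g (f ⟨s(v, w), hh⟩) = ex.choose := by
      rw [hg]
      exact dif_pos ex
    rw [h3]
    obtain ⟨hh', h4⟩ := ex.choose_spec
    have h5 := congrArg Subtype.val (hf1 h4)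
    simp only at h5
    rwa [Sym2.congr_right] at h5

end Run7.h216
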