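import Pool.Agent.Run7.h216.Average

set_option autoImplicit false

/-!
# The events of vanishing probability
-/

open Finset Classical Filter

namespace Run7.h216

/-- pairs of permutations -/
abbrev PP2 (n : ℕ) : Type := Equiv.Perm (Fin n) × Equiv.Perm (Fin n)

/-- proportion of pairs of permutations -/
noncomputable def pr {n : ℕ} (P : PP2 n → Prop) : ℝ := (cnt P : ℝ) / (n.factorial : ℝ) ^ 2

theorem fact_pos' (n : ℕ) : (0 : ℝ) < (n.factorial : ℝ) ^ 2 := by
  have := Nat.factorial_pos n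
  positivity

theorem pr_nonneg {n : ℕ} (P : PP2 n → Prop) : 0 ≤ pr P := by
  unfold pr
  positivity

theorem pr_mono {n : ℕ} {P Q : PP2 n → Prop} (h : ∀ a, P a → Q a) : pr P ≤ pr Q := by
  unfold pr
  apply div_le_div_of_nonneg_right _ (fact_pos' n).le
  exact_mod_cast cnt_mono h

theorem pr_or {n : ℕ} (P Q : PP2 n → Prop) : pr (fun a => P a ∨ Q a) ≤ pr P + pr Q := by
  unfold pr
  rw [← add_div]
  apply div_le_div_of_nonneg_right _ (fact_pos' n).le
  exact_mod_cast cnt_or P Q

theorem pr_exists {n : ℕ} (P : ℕ → PP2 n → Prop) (I : Finset ℕ) :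
    pr (fun a => ∃ i ∈ I, P i a) ≤ ∑ i ∈ I, pr (P i) := by
  unfold pr
  rw [← sum_div]
  apply div_le_div_of_nonneg_right _ (fact_pos' n).le
  exact_mod_cast cnt_exists P I

theorem card_PP2 (n : ℕ) : (Fintype.card (PP2 n) : ℝ) = (n.factorial : ℝ) ^ 2 := by
  rw [Fintype.card_prod, Fintype.card_perm, Fintype.card_fin]
  push_cast
  ring

theorem pr_not {n : ℕ} (P : PP2 n → Prop) : pr P = 1 - pr (fun a => ¬ P a) := by
  have h1 := cnt_add_not P
  have h2 : (cnt P : ℝ) + cnt (fun a => ¬ P a) = (n.factorial : ℝ) ^ 2 := by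
    rw [← card_PP2]
    exact_mod_cast h1
  unfold pr
  rw [eq_sub_iff_add_eq, ← add_div, h2, div_self (fact_pos' n).ne']

theorem pow_le_choose' {n s : ℕ} (hs : s ≤ n) : n ^ s ≤ s ^ s * n.choose s := by
  have h1 : n ^ s * s.factorial ≤ s ^ s * (s.factorial * n.choose s) := by
    rw [← Nat.descFactorial_eq_factorial_mul_choose, ← Nat.descFactorial_self,
      Nat.descFactorial_eq_prod_range, Nat.descFactorial_eq_prod_range]
    have e1 : n ^ s * ∏ i ∈ range s, (s - i) = ∏ i ∈ range s, (n * (s - i)) := by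
      rw [prod_mul_distrib, prod_const, card_range]
    have e2 : s ^ s * ∏ i ∈ range s, (n - i) = ∏ i ∈ range s, (s * (n - i)) := by
      rw [prod_mul_distrib, prod_const, card_range]
    rw [e1, e2]
    apply prod_le_prod'
    intro i hi
    rw [mem_range] at hi
    obtain ⟨a, ha⟩ : ∃ a, s = i + a := ⟨s - i, by omega⟩
    obtain ⟨b, hb⟩ : ∃ b, n = s + b := ⟨n - s, by omega⟩
    have e3 : s - i = a := by omega
    have e4 : n - i = a + b := by omega
    rw [e3, e4, hb, ha]
    nlinarith [Nat.zero_le (i * b)]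
  have h2 : n ^ s * s.factorial ≤ (s ^ s * n.choose s) * s.factorial := by
    calc _ ≤ _ := h1
      _ = _ := by ring
  exact Nat.le_of_mul_le_mul_right h2 (Nat.factorial_pos s)

theorem choose_ge {n s : ℕ} (hs : s ≤ n) (hs0 : 0 < s) :
    ((n : ℝ) / s) ^ s ≤ n.choose s := by
  have h1 : (n : ℝ) ^ s ≤ (s : ℝ) ^ s * n.choose s := by exact_mod_cast pow_le_choose' hs
  have h2 : (0 : ℝ) < (s : ℝ) ^ s := by
    have : (0 : ℝ) < s := by exact_mod_cast hs0
    positivity
  rw [div_pow, div_le_iff₀ h2]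
  linarith

theorem pr_bound {n : ℕ} (hn : 0 < n) {x : ℝ} (hx : 4 ≤ x) {s : ℕ} (hs : s ≤ n) (t : ℕ) :
    pr (fun pq : PP2 n => ∃ S : Finset (Fin n), S.card = s ∧
      t ≤ EE (conj pq.1) (conj pq.2) S) ≤
      4 * (4 * x / 3) ^ (2 * s) * (1 + 3 / x) ^ (2 * n) / (n.choose s * x ^ t) := by
  have h1 := count_bound (n := n) (x := x) (by linarith) hs t
  have hC : (0 : ℝ) < n.choose s := by exact_mod_cast Nat.choose_pos hs
  have hx0 : (0 : ℝ) < x := by linarith
  have h2 : ww x n s ≤ 2 * (4 * x / 3) ^ s * (1 + 3 / x) ^ n := size_bound hx n s hn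
  have h3 : (ww x n s) ^ 2 ≤ (2 * (4 * x / 3) ^ s * (1 + 3 / x) ^ n) ^ 2 :=
    pow_le_pow_left₀ (ww_nonneg hx0.le n s) h2 2
  have h4 : (2 * (4 * x / 3) ^ s * (1 + 3 / x) ^ n) ^ 2 =
      4 * (4 * x / 3) ^ (2 * s) * (1 + 3 / x) ^ (2 * n) := by
    rw [mul_comm 2 s, mul_comm 2 n, pow_mul, pow_mul]
    ring
  rw [h4] at h3
  unfold pr
  rw [div_le_div_iff₀ (fact_pos' n) (by positivity)]
  have h5 : (n.factorial : ℝ) ^ 2 * (ww x n s) ^ 2 / n.choose s * n.choose s =
      (n.factorial : ℝ) ^ 2 * (ww x n s) ^ 2 := by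
    field_simp
  calc _ = (cnt (fun pq : PP2 n => ∃ S : Finset (Fin n), S.card = s ∧
      t ≤ EE (conj pq.1) (conj pq.2) S) : ℝ) * x ^ t * n.choose s := by ring
    _ ≤ (n.factorial : ℝ) ^ 2 * (ww x n s) ^ 2 / n.choose s * n.choose s :=
        mul_le_mul_of_nonneg_right h1 hC.le
    _ = (n.factorial : ℝ) ^ 2 * (ww x n s) ^ 2 := h5
    _ ≤ (n.factorial : ℝ) ^ 2 * (4 * (4 * x / 3) ^ (2 * s) * (1 + 3 / x) ^ (2 * n)) :=
        mul_le_mul_of_nonneg_left h3 (fact_pos' n).le
    _ = _ := by ring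

/-- the constant of the sparse regime -/
noncomputable def C1 : ℝ := 16 / 9 * Real.exp 6

theorem one_le_C1 : 1 ≤ C1 := by
  unfold C1
  have := Real.one_le_exp (x := 6) (by norm_num)
  linarith

theorem one_add_pow_le {x : ℝ} (hx : 0 < x) (n : ℕ) :
    (1 + 3 / x) ^ (2 * n) ≤ Real.exp (6 * n / x) := by
  have h1 : 1 + 3 / x ≤ Real.exp (3 / x) := by
    have := Real.add_one_le_exp (3 / x)
    linarith
  calc (1 + 3 / x) ^ (2 * n) ≤ (Real.exp (3 / x)) ^ (2 * n) :=
        pow_le_pow_left₀ (by positivity) h1 _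
    _ = Real.exp (6 * n / x) := by
        rw [← Real.exp_nat_mul]
        congr 1
        push_cast
        ring

/-- sets of a given small size -/
theorem sparse_size {n : ℕ} {s : ℕ} (hs0 : 0 < s) (hs : 4 * s ≤ n) (d : ℕ) :
    pr (fun pq : PP2 n => ∃ S : Finset (Fin n), S.card = s ∧
      s + d ≤ EE (conj pq.1) (conj pq.2) S) ≤ 4 * C1 ^ s / ((n : ℝ) / s) ^ d := by
  have hsR : (0 : ℝ) < s := by exact_mod_cast hs0
  have hnR : (4 : ℝ) * s ≤ n := by exact_mod_cast hs
  set x : ℝ := (n : ℝ) / s with hx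
  have hx4 : 4 ≤ x := by
    rw [hx, le_div_iff₀ hsR]
    exact hnR
  have hx0 : 0 < x := by linarith
  refine (pr_bound (by omega) hx4 (by omega) (s + d)).trans ?_
  have h1 := one_add_pow_le hx0 n
  have h2 : 6 * (n : ℝ) / x = s * 6 := by
    rw [hx]
    have : (n : ℝ) ≠ 0 := by
      have : 0 < n := by omega
      positivity
    field_simp
  rw [h2, Real.exp_nat_mul] at h1
  have h3 : x ^ s ≤ n.choose s := choose_ge (by omega) hs0
  have hC : (0 : ℝ) < n.choose s := lt_of_lt_of_le (by positivity) h3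
  rw [div_le_div_iff₀ (by positivity) (by positivity)]
  have h4 : 4 * (4 * x / 3) ^ (2 * s) * (1 + 3 / x) ^ (2 * n) * x ^ d ≤
      4 * (4 * x / 3) ^ (2 * s) * (Real.exp 6) ^ s * x ^ d := by gcongr
  refine h4.trans ?_
  have h5 : 4 * (4 * x / 3) ^ (2 * s) * (Real.exp 6) ^ s * x ^ d =
      4 * C1 ^ s * (x ^ s * x ^ (s + d)) := by
    unfold C1
    rw [pow_mul, mul_pow, pow_add, ← mul_pow]
    have : (4 * x / 3) ^ 2 = 16 / 9 * (x * x) := by ring
    rw [this, mul_pow, mul_pow]
    ring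
  rw [h5]
  have hC10 : 0 ≤ C1 := by linarith [one_le_C1]
  gcongr

theorem half_pow_le {K : ℕ} (hK : 0 < K) (s : ℕ) :
    (1 / 2 : ℝ) ^ (s / K) ≤ 2 * (1 - 1 / (2 * K)) ^ s := by
  have hKR : (1 : ℝ) ≤ K := by exact_mod_cast hK
  set q : ℝ := 1 - 1 / (2 * K) with hq
  have h0 : 1 / (2 * (K : ℝ)) ≤ 1 / 2 := by
    apply div_le_div_of_nonneg_left <;> linarith
  have h00 : 0 < 1 / (2 * (K : ℝ)) := by positivity
  have hq1 : q ≤ 1 := by linarith
  have hq0 : 0 < q := by linarith
  have hB : 1 / 2 ≤ q ^ K := by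
    have h1 := one_add_mul_le_pow (a := -(1 / (2 * (K : ℝ)))) (by linarith) K
    rw [← sub_eq_add_neg, ← hq] at h1
    have h2 : (K : ℝ) * -(1 / (2 * K)) = -(1 / 2) := by
      field_simp
    linarith
  have h1 : (1 / 2 : ℝ) ^ (s / K) ≤ q ^ (K * (s / K)) := by
    rw [pow_mul]
    exact pow_le_pow_left₀ (by norm_num) hB _
  have h2 : q ^ s = q ^ (K * (s / K)) * q ^ (s % K) := by
    rw [← pow_add, Nat.div_add_mod]
  have h3 : q ^ K ≤ q ^ (s % K) := pow_le_pow_of_le_one hq0.le hq1 (Nat.mod_lt s hK).le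
  have h4 : 0 < q ^ (K * (s / K)) := by positivity
  rw [h2]
  nlinarith

/-- few edges in small sets -/
theorem sparse_null (K : ℕ) (hK : 0 < K) : ∃ ρ : ℝ, 0 < ρ ∧ ρ ≤ 1 / 4 ∧
    Tendsto (fun n : ℕ => pr (fun pq : PP2 n => ∃ S : Finset (Fin n), (S.card : ℝ) ≤ ρ * n ∧
      (K + 1) * S.card < K * EE (conj pq.1) (conj pq.2) S)) atTop (nhds 0) := by
  set r : ℝ := C1 ^ K with hr
  have hr1 : 1 ≤ r := one_le_pow₀ one_le_C1
  have hKR : (1 : ℝ) ≤ K := by exact_mod_cast hK
  set q : ℝ := 1 - 1 / (2 * K) with hq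
  have h0 : 1 / (2 * (K : ℝ)) ≤ 1 / 2 := by
    apply div_le_div_of_nonneg_left <;> linarith
  have h00 : 0 < 1 / (2 * (K : ℝ)) := by positivity
  have hq1 : q < 1 := by linarith
  have hq0 : 0 < q := by linarith
  have hsum : Summable (fun s : ℕ => (s : ℝ) * q ^ s) := by
    have := summable_pow_mul_geometric_of_norm_lt_one 1 (r := q) (by
      rw [Real.norm_eq_abs, abs_of_pos hq0]
      exact hq1)
    simpa using this
  set B : ℝ := ∑' s : ℕ, (s : ℝ) * q ^ s with hB
  refine ⟨1 / (4 * r), by positivity, ?_, ?_⟩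
  · apply div_le_div_of_nonneg_left <;> linarith
  have hbound : ∀ n : ℕ, 0 < n → pr (fun pq : PP2 n => ∃ S : Finset (Fin n),
      (S.card : ℝ) ≤ 1 / (4 * r) * n ∧
      (K + 1) * S.card < K * EE (conj pq.1) (conj pq.2) S) ≤ 8 * r * B / n := by
    intro n hn
    have hnR : (0 : ℝ) < n := by exact_mod_cast hn
    set I : Finset ℕ := (range (n + 1)).filter (fun s => 0 < s ∧ (s : ℝ) ≤ 1 / (4 * r) * n) with hI
    have h1 : pr (fun pq : PP2 n => ∃ S : Finset (Fin n), (S.card : ℝ) ≤ 1 / (4 * r) * n ∧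
        (K + 1) * S.card < K * EE (conj pq.1) (conj pq.2) S) ≤
        pr (fun pq : PP2 n => ∃ s ∈ I, ∃ S : Finset (Fin n), S.card = s ∧
          s + (s / K + 1) ≤ EE (conj pq.1) (conj pq.2) S) := by
      apply pr_mono
      rintro pq ⟨S, hS1, hS2⟩
      have hne : 0 < S.card := by
        rcases Nat.eq_zero_or_pos S.card with h | h
        · exfalso
          rw [card_eq_zero] at h
          subst h
          simp [EE, E1] at hS2
        · exact h
      have hle : S.card ≤ n := by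
        have := card_le_univ S
        rwa [Fintype.card_fin] at this
      refine ⟨S.card, mem_filter.2 ⟨mem_range.2 (by omega), hne, hS1⟩, S, rfl, ?_⟩
      -- arithmetic
      set e := EE (conj pq.1) (conj pq.2) S with he
      set s := S.card with hs
      have h3 : K * (s / K) ≤ s := Nat.mul_div_le s K
      by_contra hcon
      push Not at hcon
      have h4 : e ≤ s + s / K := by omega
      have h5 : K * e ≤ K * (s + s / K) := Nat.mul_le_mul_left _ h4
      have h6 : K * (s + s / K) = K * s + K * (s / K) := by ring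
      have h7 : (K + 1) * s = K * s + s := by ring
      omega
    refine h1.trans ((pr_exists _ I).trans ?_)
    have h2 : ∀ s ∈ I, pr (fun pq : PP2 n => ∃ S : Finset (Fin n), S.card = s ∧
          s + (s / K + 1) ≤ EE (conj pq.1) (conj pq.2) S) ≤ 8 * r / n * (s * q ^ s) := by
      intro s hs
      rw [hI, mem_filter] at hs
      obtain ⟨-, hs0, hs1⟩ := hs
      have hsR : (0 : ℝ) < s := by exact_mod_cast hs0
      have hs4 : 4 * s ≤ n := by
        have : (4 : ℝ) * s ≤ n := by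
          have h3 : 1 / (4 * r) * n ≤ n / 4 := by
            rw [div_mul_eq_mul_div, one_mul]
            apply div_le_div_of_nonneg_left <;> linarith
          linarith
        exact_mod_cast this
      refine (sparse_size hs0 hs4 (s / K + 1)).trans ?_
      set x : ℝ := (n : ℝ) / s with hx
      have hx0 : 0 < x := by positivity
      have h3 : C1 ^ s ≤ r ^ (s / K + 1) := by
        rw [hr, ← pow_mul]
        apply pow_le_pow_right₀ one_le_C1
        have := Nat.lt_mul_div_succ s hK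
        exact this.le
      have h4 : r / x ≤ 1 / 2 := by
        rw [div_le_iff₀ hx0, hx]
        rw [div_mul_eq_mul_div, one_mul] at hs1
        rw [le_div_iff₀ (by positivity)] at hs1
        rw [mul_div_assoc', le_div_iff₀ hsR]
        nlinarith
      have h5 : 4 * C1 ^ s / x ^ (s / K + 1) ≤ 4 * (r / x) ^ (s / K + 1) := by
        rw [div_pow r x, mul_div_assoc]
        gcongr
      refine h5.trans ?_
      have h6 : (r / x) ^ (s / K + 1) ≤ (1 / 2) ^ (s / K) * (r / x) := by
        rw [pow_succ]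
        apply mul_le_mul_of_nonneg_right _ (by positivity)
        exact pow_le_pow_left₀ (by positivity) h4 _
      have h7 := half_pow_le hK s
      rw [← hq] at h7
      have h8 : r / x = r * s / n := by
        rw [hx]
        field_simp
      calc 4 * (r / x) ^ (s / K + 1) ≤ 4 * ((1 / 2) ^ (s / K) * (r / x)) := by linarith
        _ ≤ 4 * ((2 * q ^ s) * (r / x)) := by gcongr
        _ = 8 * r / n * (s * q ^ s) := by
            rw [h8]
            ring
    refine (sum_le_sum h2).trans ?_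
    rw [← mul_sum]
    have h9 : ∑ s ∈ I, (s : ℝ) * q ^ s ≤ B :=
      hsum.sum_le_tsum I (fun s _ => by positivity)
    calc 8 * r / n * ∑ s ∈ I, (s : ℝ) * q ^ s ≤ 8 * r / n * B :=
          mul_le_mul_of_nonneg_left h9 (by positivity)
      _ = 8 * r * B / n := by ring
  have hlim : Tendsto (fun n : ℕ => 8 * r * B / (n : ℝ)) atTop (nhds 0) :=
    tendsto_const_div_atTop_nhds_zero_nat _
  apply squeeze_zero' (Eventually.of_forall (fun n => pr_nonneg _)) _ hlim
  filter_upwards [eventually_gt_atTop 0] with n hn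
  exact hbound n hn

end Run7.h216
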