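import Pool.Agent.Run7.h216.Pieces

set_option autoImplicit false

/-!
# Short closed pieces (short cycles) are far apart in locally sparse graphs
-/

open Finset Classical

namespace Run7.h216

variable {V : Type*}

/-- short piece: it is then closed, so a short cycle -/
def ShortP (G : SimpleGraph V) (M : ℕ) (P : Finset V) : Prop :=
  P.card ≤ M ∧ ∃ Γ : SimpleGraph V, Γ ≤ G ∧ ∃ J : Finset V, IsPiece G Γ M J P

/-- what we use of a short cycle -/
structure IsCyc (G Γ : SimpleGraph V) (P : Finset V) : Prop where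
  le : Γ ≤ G
  ne : P.Nonempty
  deg : ∀ a ∈ P, (nbIn Γ P a).card = 2
  conn : ∀ Q : Finset V, Q ⊆ P → Q.Nonempty → (∀ a ∈ Q, ∀ b ∈ P, Γ.Adj a b → b ∈ Q) → Q = P

theorem IsPiece.nbIn_eq {G Γ : SimpleGraph V} {M : ℕ} {J P : Finset V} (h : IsPiece G Γ M J P)
    (hs : P.card ≤ M) {a : V} (ha : a ∈ P) : nbIn Γ P a = nbIn Γ J a := by
  apply Subset.antisymm (nbIn_mono h.sub a)
  intro y hy
  rw [mem_nbIn] at hy ⊢
  refine ⟨?_, hy.2⟩
  rcases h.alt with hl | hl
  · omega
  · exact hl a ha y hy.1 hy.2

theorem ShortP.isCyc {G : SimpleGraph V} {M : ℕ} {P : Finset V} (h : ShortP G M P) :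
    ∃ Γ, IsCyc G Γ P := by
  obtain ⟨hc, Γ, hle, J, hP⟩ := h
  refine ⟨Γ, hle, hP.ne, ?_, hP.conn⟩
  intro a ha
  rw [hP.nbIn_eq hc ha]
  exact hP.deg a ha

theorem IsCyc.AA_eq {G Γ : SimpleGraph V} {P : Finset V} (h : IsCyc G Γ P) :
    AA Γ P = 2 * P.card := by
  unfold AA
  rw [sum_congr rfl (fun a ha => h.deg a ha), sum_const, smul_eq_mul, mul_comm]

theorem IsCyc.le_AA {G Γ : SimpleGraph V} {P : Finset V} (h : IsCyc G Γ P) :
    2 * P.card ≤ AA G P := by
  rw [← h.AA_eq]
  exact AA_mono h.le P

theorem IsCyc.two_le {G Γ : SimpleGraph V} {P : Finset V} (h : IsCyc G Γ P) :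
    3 ≤ P.card := by
  obtain ⟨a, ha⟩ := h.ne
  have h1 : insert a (nbIn Γ P a) ⊆ P := by
    intro y hy
    rcases mem_insert.1 hy with rfl | hy
    · exact ha
    · exact (mem_nbIn.1 hy).1
  have h2 : a ∉ nbIn Γ P a := by
    rw [mem_nbIn]
    exact fun hc => Γ.loopless.irrefl a hc.2
  have h3 := card_le_card h1
  rw [card_insert_of_notMem h2, h.deg a ha] at h3
  omega

theorem XX_mono {G G' : SimpleGraph V} (h : G ≤ G') {S T T' : Finset V} (hT : T ⊆ T') :
    XX G S T ≤ XX G' S T' := by
  apply sum_le_sum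
  intro x _
  apply card_le_card
  intro y hy
  rw [mem_nbIn] at hy ⊢
  exact ⟨hT hy.1, h hy.2⟩

theorem IsCyc.cycle {G Γ : SimpleGraph V} {P T : Finset V} (h : IsCyc G Γ P)
    (h1 : (P ∩ T).Nonempty) (h2 : ¬ P ⊆ T) :
    AA G T + 2 * (P \ T).card + 1 ≤ AA G (T ∪ P) := by
  set X := P \ T with hX
  have hXP : X ⊆ P := sdiff_subset
  have hdis : Disjoint T X := disjoint_sdiff
  have hun : T ∪ P = T ∪ X := by
    rw [hX, union_sdiff_self_eq_union]
  have hP : P = X ∪ (P ∩ T) := by
    rw [hX, sdiff_union_inter]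
  have hdis2 : Disjoint X (P ∩ T) := by
    rw [disjoint_left]
    intro a ha hb
    exact (mem_sdiff.1 ha).2 (mem_inter.1 hb).2
  have e1 : XX Γ X P = 2 * X.card := by
    unfold XX
    rw [sum_congr rfl (fun a ha => h.deg a (hXP ha)), sum_const, smul_eq_mul, mul_comm]
  have e2 : XX Γ X P = AA Γ X + XX Γ X (P ∩ T) := by
    conv_lhs => rw [hP]
    rw [XX_union_right hdis2, XX_self]
  have e3 : 1 ≤ XX Γ X (P ∩ T) := by
    by_contra hcon
    have h0 : XX Γ X (P ∩ T) = 0 := by omega
    have hXne : X.Nonempty := by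
      rw [nonempty_iff_ne_empty]
      intro he
      rw [hX, sdiff_eq_empty_iff_subset] at he
      exact h2 he
    have := h.conn X hXP hXne (by
      intro a ha b hb hab
      by_contra hbX
      have hbT : b ∈ P ∩ T := by
        rw [hP, mem_union] at hb
        rcases hb with hb | hb
        · exact absurd hb hbX
        · exact hb
      unfold XX at h0
      rw [sum_eq_zero_iff] at h0
      have h3 := h0 a ha
      rw [card_eq_zero] at h3
      have : b ∈ nbIn Γ (P ∩ T) a := mem_nbIn.2 ⟨hbT, hab⟩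
      rw [h3] at this
      exact absurd this (notMem_empty _))
    obtain ⟨b, hb⟩ := h1
    have hbX : b ∈ X := by
      rw [this]
      exact (mem_inter.1 hb).1
    exact (mem_sdiff.1 hbX).2 (mem_inter.1 hb).2
  have e4 : AA Γ X ≤ AA G X := AA_mono h.le X
  have e5 : XX Γ X (P ∩ T) ≤ XX G X T := XX_mono h.le inter_subset_right
  rw [hun, AA_union hdis, XX_comm G T X]
  omega

theorem grow_to {G Γ : SimpleGraph V} {P' : Finset V} (hP' : IsCyc G Γ P') (r : ℕ) :
    ∀ (T : Finset V) (x y : V), 2 * T.card ≤ AA G T → Disjoint T P' → x ∈ T → y ∈ P' →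
      reach G r x y → ∃ T' : Finset V, T'.card ≤ T.card + r ∧ 2 * T'.card ≤ AA G T' ∧
        (P' ∩ T').Nonempty ∧ ¬ P' ⊆ T' := by
  induction r with
  | zero =>
    intro T x y _ hdis hx hy h
    have : x = y := h
    subst this
    exact absurd hy (disjoint_left.1 hdis hx)
  | succ r ih =>
    intro T x y hT hdis hx hy h
    obtain ⟨z, hz, hr⟩ := h
    by_cases hzT : z ∈ T
    · obtain ⟨T', h1, h2⟩ := ih T z y hT hdis hzT hy hr
      exact ⟨T', by omega, h2⟩
    · have hadj : G.Adj x z := by
        rcases hz with rfl | hz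
        · exact absurd hx hzT
        · exact hz
      have hcard : (insert z T).card = T.card + 1 := card_insert_of_notMem hzT
      have hAA : AA G T + 2 ≤ AA G (insert z T) := by
        have hd : Disjoint T {z} := by
          rw [disjoint_singleton_right]
          exact hzT
        have e1 : insert z T = T ∪ {z} := by
          rw [union_comm]
          rfl
        rw [e1, AA_union hd]
        have : 1 ≤ XX G T {z} := by
          unfold XX
          have h1 : (nbIn G {z} x).card ≤ ∑ x ∈ T, (nbIn G {z} x).card :=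
            single_le_sum (f := fun x => (nbIn G {z} x).card) (fun i _ => Nat.zero_le _) hx
          have h2 : 0 < (nbIn G {z} x).card := card_pos.2 ⟨z, mem_nbIn.2
            ⟨mem_singleton_self z, hadj⟩⟩
          omega
        omega
      by_cases hzP : z ∈ P'
      · refine ⟨insert z T, by omega, by omega, ⟨z, mem_inter.2 ⟨hzP, mem_insert_self _ _⟩⟩, ?_⟩
        intro hsub
        have h1 : P' ⊆ {z} := by
          intro a ha
          rcases mem_insert.1 (hsub ha) with h | h
          · exact mem_singleton.2 h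
          · exact absurd ha (disjoint_left.1 hdis h)
        have h2 := card_le_card h1
        rw [card_singleton] at h2
        have := hP'.two_le
        omega
      · obtain ⟨T', h1, h2⟩ := ih (insert z T) z y (by omega) (by
          rw [disjoint_left]
          intro a ha
          rcases mem_insert.1 ha with rfl | ha
          · exact hzP
          · exact disjoint_left.1 hdis ha) (mem_insert_self _ _) hy hr
        exact ⟨T', by omega, h2⟩

/-- two different short cycles are far apart -/
theorem short_far {G : SimpleGraph V} {M R K : ℕ} (hK : 2 * M + R < K)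
    (hsp : ∀ T : Finset V, T.card < K → AA G T ≤ 2 * T.card) {P P' : Finset V}
    (hP : ShortP G M P) (hP' : ShortP G M P') (hne : P ≠ P') {x y : V} (hx : x ∈ P) (hy : y ∈ P')
    (hr : reach G R x y) : False := by
  obtain ⟨Γ, hc⟩ := hP.isCyc
  obtain ⟨Γ', hc'⟩ := hP'.isCyc
  have key : ∀ (T Q : Finset V) (Δ : SimpleGraph V), IsCyc G Δ Q → T.card + Q.card < K →
      2 * T.card ≤ AA G T → (Q ∩ T).Nonempty → ¬ Q ⊆ T → False := by
    intro T Q Δ hQ hlt hT h1 h2
    have h3 := hQ.cycle h1 h2
    have h4 : (T ∪ Q).card = T.card + (Q \ T).card := by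
      rw [← union_sdiff_self_eq_union, card_union_of_disjoint disjoint_sdiff]
    have h5 : (Q \ T).card ≤ Q.card := card_le_card sdiff_subset
    have h6 := hsp (T ∪ Q) (by omega)
    omega
  have hPM := hP.1
  have hPM' := hP'.1
  by_cases hdis : Disjoint P P'
  · obtain ⟨T', h1, h2, h3, h4⟩ := grow_to hc' R P x y hc.le_AA hdis hx hy hr
    exact key T' P' Γ' hc' (by omega) h2 h3 h4
  · rw [not_disjoint_iff_nonempty_inter] at hdis
    by_cases hsub : P' ⊆ P
    · have hns : ¬ P ⊆ P' := fun h => hne (Subset.antisymm h hsub)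
      exact key P' P Γ hc (by omega) hc'.le_AA hdis hns
    · rw [inter_comm] at hdis
      exact key P P' Γ' hc' (by omega) hc.le_AA hdis hsub

end Run7.h216
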