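import Pool.Agent.Run7.h216.Model

set_option autoImplicit false

/-!
# The generating function of cyclic adjacencies
-/

open Finset Classical

namespace Run7.h216

/-- weight of the ones -/
noncomputable def wOne (y : ℝ) {n : ℕ} (f : Fin n → Bool) : ℝ := ∏ i, (if f i then y else 1)

/-- weight of the linear adjacencies -/
noncomputable def wAdj (x : ℝ) {m : ℕ} (f : Fin (m + 1) → Bool) : ℝ :=
  ∏ i : Fin m, (if f i.castSucc ∧ f i.succ then x else 1)

/-- potential -/
noncomputable def pot (b : Bool) : ℝ := if b then 4 else 1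

theorem wOne_nonneg {y : ℝ} (hy : 0 ≤ y) {n : ℕ} (f : Fin n → Bool) : 0 ≤ wOne y f := by
  apply prod_nonneg
  intro i _
  split_ifs <;> linarith

theorem wAdj_nonneg {x : ℝ} (hx : 0 ≤ x) {m : ℕ} (f : Fin (m + 1) → Bool) : 0 ≤ wAdj x f := by
  apply prod_nonneg
  intro i _
  split_ifs <;> linarith

theorem wOne_snoc (y : ℝ) {m : ℕ} (g : Fin (m + 1) → Bool) (b : Bool) :
    wOne y (Fin.snoc (α := fun _ => Bool) g b : Fin (m + 2) → Bool) =
      wOne y g * (if b then y else 1) := by
  unfold wOne
  rw [Fin.prod_univ_castSucc]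
  simp

theorem wAdj_snoc (x : ℝ) {m : ℕ} (g : Fin (m + 1) → Bool) (b : Bool) :
    wAdj x (Fin.snoc (α := fun _ => Bool) g b : Fin (m + 2) → Bool) =
      wAdj x g * (if g (Fin.last m) ∧ b then x else 1) := by
  unfold wAdj
  rw [Fin.prod_univ_castSucc]
  congr 1
  · apply prod_congr rfl
    intro i _
    rw [← Fin.castSucc_succ, Fin.snoc_castSucc, Fin.snoc_castSucc]
  · rw [Fin.succ_last, Fin.snoc_castSucc, Fin.snoc_last]

theorem sum_snoc {m : ℕ} (F : (Fin (m + 2) → Bool) → ℝ) :
    ∑ f : Fin (m + 2) → Bool, F f =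
      ∑ g : Fin (m + 1) → Bool, (F (Fin.snoc (α := fun _ => Bool) g true) +
        F (Fin.snoc (α := fun _ => Bool) g false)) := by
  rw [← (Fin.snocEquiv (fun _ => Bool)).sum_comp, Fintype.sum_prod_type, Fintype.sum_bool,
    ← sum_add_distrib]
  rfl

/-- the transfer inequality -/
theorem lin_bound {x y : ℝ} (hy : 0 ≤ y) (hxy : x * y = 3 / 4) (hx : 0 ≤ x) (b0 : Bool) (m : ℕ) :
    ∑ f : Fin (m + 1) → Bool, (if f 0 = b0 then wOne y f * wAdj x f * pot (f (Fin.last m)) else 0)
      ≤ (if b0 then 4 * y else 1) * (1 + 4 * y) ^ m := by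
  induction m with
  | zero =>
    have : ∑ f : Fin 1 → Bool, (if f 0 = b0 then wOne y f * wAdj x f * pot (f (Fin.last 0)) else 0)
        = (if b0 then 4 * y else 1) := by
      rw [← (Equiv.funUnique (Fin 1) Bool).symm.sum_comp, Fintype.sum_bool]
      cases b0 <;> simp [wOne, wAdj, pot, Equiv.funUnique] <;> ring
    rw [this]
    simp
  | succ m ih =>
    rw [sum_snoc, pow_succ, ← mul_assoc]
    refine le_trans ?_ (mul_le_mul_of_nonneg_right ih (by linarith))
    rw [sum_mul]
    apply sum_le_sum
    intro g _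
    have h0 : ∀ b : Bool, (Fin.snoc (α := fun _ => Bool) g b : Fin (m + 2) → Bool) 0 = g 0 := by
      intro b
      rw [← Fin.castSucc_zero, Fin.snoc_castSucc]
    rw [h0, h0]
    by_cases hb : g 0 = b0
    · rw [if_pos hb, if_pos hb, if_pos hb, wOne_snoc, wOne_snoc, wAdj_snoc, wAdj_snoc,
        Fin.snoc_last, Fin.snoc_last]
      have h1 := wOne_nonneg hy g
      have h2 := wAdj_nonneg hx g
      have h3 : 0 ≤ wOne y g * wAdj x g := mul_nonneg h1 h2
      set P := wOne y g * wAdj x g with hP
      cases hg : g (Fin.last m)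
      · simp only [pot, Bool.false_eq_true, if_false, if_true, false_and, and_false]
        nlinarith
      · simp only [pot, Bool.false_eq_true, if_false, if_true, and_false, and_self]
        have e1 : wOne y g * y * (wAdj x g * x) * 4 = P * 3 := by
          rw [hP]
          linear_combination (4 * wOne y g * wAdj x g) * hxy
        have e2 : wOne y g * 1 * (wAdj x g * 1) * 1 = P := by
          rw [hP]
          ring
        rw [e1, e2]
        nlinarith
    · rw [if_neg hb, if_neg hb, if_neg hb]
      simp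

/-- the cyclic bound, for strings -/
theorem cyc_bound {x y : ℝ} (hy : 0 ≤ y) (hxy : x * y = 3 / 4) (hx : 4 ≤ x) (m : ℕ) :
    ∑ f : Fin (m + 1) → Bool, wOne y f * wAdj x f * (if f (Fin.last m) ∧ f 0 then x else 1)
      ≤ 2 * (1 + 4 * y) ^ m := by
  have h1 := lin_bound hy hxy (by linarith) true m
  have h2 := lin_bound hy hxy (by linarith) false m
  have h3 : ∑ f : Fin (m + 1) → Bool, wOne y f * wAdj x f *
      (if f (Fin.last m) ∧ f 0 then x else 1) ≤
      (x / 4) * ∑ f : Fin (m + 1) → Bool,
        (if f 0 = true then wOne y f * wAdj x f * pot (f (Fin.last m)) else 0) +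
      ∑ f : Fin (m + 1) → Bool,
        (if f 0 = false then wOne y f * wAdj x f * pot (f (Fin.last m)) else 0) := by
    rw [mul_sum, ← sum_add_distrib]
    apply sum_le_sum
    intro f _
    have h4 : 0 ≤ wOne y f * wAdj x f :=
      mul_nonneg (wOne_nonneg hy f) (wAdj_nonneg (by linarith) f)
    set P := wOne y f * wAdj x f with hP
    cases h5 : f 0 <;> cases h6 : f (Fin.last m) <;> simp [pot] <;> nlinarith
  refine h3.trans ?_
  simp only [if_true, Bool.false_eq_true, if_false] at h1 h2
  have hpos : 0 ≤ (1 + 4 * y) ^ m := by positivity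
  have h4 : x / 4 * ∑ f : Fin (m + 1) → Bool,
        (if f 0 = true then wOne y f * wAdj x f * pot (f (Fin.last m)) else 0) ≤
      3 / 4 * (1 + 4 * y) ^ m := by
    refine (mul_le_mul_of_nonneg_left h1 (by linarith)).trans ?_
    apply le_of_eq
    linear_combination ((1 + 4 * y) ^ m) * hxy
  linarith

/-- the cyclic bound, for sets -/
theorem set_bound {x y : ℝ} (hy : 0 ≤ y) (hxy : x * y = 3 / 4) (hx : 4 ≤ x) (m : ℕ) :
    ∑ A : Finset (Fin (m + 1)), x ^ E1 (finRotate (m + 1)) A * y ^ A.card
      ≤ 2 * (1 + 4 * y) ^ m := by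
  refine le_trans (le_of_eq ?_) (cyc_bound hy hxy hx m)
  apply sum_nbij' (fun A i => decide (i ∈ A)) (fun f => univ.filter (fun i => f i = true))
  · intro A _
    exact mem_univ _
  · intro f _
    exact mem_univ _
  · intro A _
    ext i
    simp
  · intro f _
    funext i
    simp
  · intro A _
    have e1 : y ^ A.card = wOne y (fun i => decide (i ∈ A)) := by
      unfold wOne
      simp only [decide_eq_true_eq]
      rw [prod_ite, prod_const, prod_const_one, mul_one]
      simp
    have e2 : x ^ E1 (finRotate (m + 1)) A = wAdj x (fun i => decide (i ∈ A)) *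
        (if (decide (Fin.last m ∈ A) = true) ∧ (decide (0 ∈ A) = true) then x else 1) := by
      have e3 : x ^ E1 (finRotate (m + 1)) A =
          ∏ i : Fin (m + 1), (if i ∈ A ∧ finRotate (m + 1) i ∈ A then x else 1) := by
        unfold E1
        rw [prod_ite, prod_const, prod_const_one, mul_one]
        congr 2
        ext i
        simp
      rw [e3, Fin.prod_univ_castSucc]
      unfold wAdj
      simp only [decide_eq_true_eq]
      congr 1
      · apply prod_congr rfl
        intro i _
        have : finRotate (m + 1) i.castSucc = i.succ := by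
          rw [finRotate_apply]
          exact Fin.coeSucc_eq_succ
        rw [this]
      · rw [finRotate_last]
    rw [e1, e2]
    ring

/-- the bound for sets of a given size -/
theorem size_bound {x : ℝ} (hx : 4 ≤ x) (n s : ℕ) (hn : 0 < n) :
    ∑ A ∈ powersetCard s (univ : Finset (Fin n)), x ^ E1 (finRotate n) A ≤
      2 * (4 * x / 3) ^ s * (1 + 3 / x) ^ n := by
  obtain ⟨m, rfl⟩ : ∃ m, n = m + 1 := ⟨n - 1, by omega⟩
  have hx0 : (0 : ℝ) < x := by linarith
  set y : ℝ := 3 / (4 * x) with hy
  have hy0 : 0 < y := by positivity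
  have hxy : x * y = 3 / 4 := by
    rw [hy]
    field_simp
  have h1 := set_bound hy0.le hxy hx m
  have h2 : (∑ A ∈ powersetCard s (univ : Finset (Fin (m + 1))),
      x ^ E1 (finRotate (m + 1)) A) * y ^ s ≤
      ∑ A : Finset (Fin (m + 1)), x ^ E1 (finRotate (m + 1)) A * y ^ A.card := by
    rw [sum_mul]
    have e : ∑ A ∈ powersetCard s (univ : Finset (Fin (m + 1))),
        x ^ E1 (finRotate (m + 1)) A * y ^ s =
        ∑ A ∈ powersetCard s (univ : Finset (Fin (m + 1))),
        x ^ E1 (finRotate (m + 1)) A * y ^ A.card := by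
      apply sum_congr rfl
      intro A hA
      rw [(mem_powersetCard.1 hA).2]
    rw [e]
    apply sum_le_sum_of_subset_of_nonneg (subset_univ _)
    intro A _ _
    positivity
  have h3 := h2.trans h1
  have hys : 0 < y ^ s := by positivity
  have e4 : 1 + 4 * y = 1 + 3 / x := by
    rw [hy]
    field_simp
  have e5 : (4 * x / 3) = y⁻¹ := by
    rw [hy]
    field_simp
  rw [e4] at h3
  rw [e5, inv_pow]
  have h6 : (1 + 3 / x) ^ m ≤ (1 + 3 / x) ^ (m + 1) := by
    apply pow_le_pow_right₀ _ (Nat.le_succ m)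
    have : 0 < 3 / x := by positivity
    linarith
  calc ∑ A ∈ powersetCard s (univ : Finset (Fin (m + 1))), x ^ E1 (finRotate (m + 1)) A
      = (∑ A ∈ powersetCard s (univ : Finset (Fin (m + 1))),
        x ^ E1 (finRotate (m + 1)) A) * y ^ s * (y ^ s)⁻¹ := by
        field_simp
    _ ≤ 2 * (1 + 3 / x) ^ (m + 1) * (y ^ s)⁻¹ := by
        apply mul_le_mul_of_nonneg_right _ (by positivity)
        linarith
    _ = 2 * (y ^ s)⁻¹ * (1 + 3 / x) ^ (m + 1) := by ring

end Run7.h216
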